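import Pool.Agent.N23.SG.Def
import Pool.Agent.N23.KP.Stm

/-!
Project SG (helper23), MP_839d28_al.  Statements for general `n`.
-/

namespace SG23
open Finset MeasureTheory

noncomputable section

/-! ### Part I : the projections `P ρ S` -/

/-- NEAR: a vector which is moved little by a subgroup is close to its fixed vectors -/
def ST_NEAR : Prop :=
  ∀ (X : Type) [Fintype X] [DecidableEq X] (E : Type) [NormedAddCommGroup E]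
    [InnerProductSpace ℝ E] [FiniteDimensional ℝ E] (ρ : SO X →* (E ≃ₗᵢ[ℝ] E))
    (H : Subgroup (SO X)) (v : E) (η : ℝ), (∀ g ∈ H, ‖ρ g v - v‖ ≤ η) →
    ‖v - (fixS ρ H).starProjection v‖ ≤ η

/-- PMONO -/
def ST_PMONO : Prop :=
  ∀ (X : Type) [Fintype X] [DecidableEq X] (E : Type) [NormedAddCommGroup E]
    [InnerProductSpace ℝ E] [FiniteDimensional ℝ E] (ρ : SO X →* (E ≃ₗᵢ[ℝ] E)),
    (∀ (S T : Finset X), S ⊆ T → ∀ v, P ρ S (P ρ T v) = P ρ T v ∧ P ρ T (P ρ S v) = P ρ T v) ∧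
    (∀ (S T : Finset X), Disjoint S T → ∀ v, P ρ S (P ρ T v) = P ρ T (P ρ S v)) ∧
    (∀ (S : Finset X), #S ≤ 1 → ∀ v, P ρ S v = v)

/-- PCONJ -/
def ST_PCONJ : Prop :=
  ∀ (X : Type) [Fintype X] [DecidableEq X] (E : Type) [NormedAddCommGroup E]
    [InnerProductSpace ℝ E] [FiniteDimensional ℝ E] (ρ : SO X →* (E ≃ₗᵢ[ℝ] E))
    (σ : alternatingGroup X) (S : Finset X) (v : E),
    ρ (alt σ) (P ρ S v) = P ρ (S.map (σ : Equiv.Perm X).toEmbedding) (ρ (alt σ) v)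

/-- PEMB -/
def ST_PEMB : Prop :=
  ∀ (Y X : Type) [Fintype Y] [DecidableEq Y] [Fintype X] [DecidableEq X] (E : Type)
    [NormedAddCommGroup E] [InnerProductSpace ℝ E] [FiniteDimensional ℝ E]
    (ρ : SO X →* (E ≃ₗᵢ[ℝ] E)) (e : Y ↪ X),
    (PR ρ → PR (ρ.comp (emb e))) ∧ ∀ (S : Finset Y) (v : E), P (ρ.comp (emb e)) S v = P ρ (S.map e) v

/-- REIX: renaming the coordinates -/
def ST_REIX : Prop :=
  ∀ (X Y : Type) [Fintype X] [DecidableEq X] [Fintype Y] [DecidableEq Y] (e : X ≃ Y),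
    (∀ (ι : Type) (g : ι → SO X) (K : ℝ), KS g K → KS (fun i => emb e.toEmbedding (g i)) K) ∧
    (∀ (ι : Type) [Fintype ι] (g : ι → SO X) (κ : ℝ), NS g κ →
      NS (fun i => emb e.toEmbedding (g i)) κ)

/-! ### Part II : the star inequality -/

/-- `μ` is the image of the Haar measure of `SO(X)` in the space of matrices -/
def HL {X : Type} [Fintype X] [DecidableEq X] (μ : Measure (X → X → ℝ)) : Prop :=
  IsProbabilityMeasure μ ∧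
  μ {x | ¬ ((Matrix.of x).transpose * Matrix.of x = 1 ∧ (Matrix.of x).det = 1)} = 0 ∧
  ∀ g : Matrix X X ℝ, g.transpose * g = 1 → g.det = 1 →
    μ.map (fun x : X → X → ℝ => fun i j => ∑ l, g i l * x l j) = μ

/-- EXH: existence of Haar measure -/
def ST_EXH : Prop :=
  ∀ (X : Type) [Fintype X] [DecidableEq X], ∃ μ : Measure (X → X → ℝ), HL μ

/-- the value of a polynomial in the entries -/
def ev {X : Type} [Fintype X] [DecidableEq X] (p : MvPolynomial (X × X) ℝ) (x : SO X) : ℝ :=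
  MvPolynomial.eval (fun z => (x : Matrix X X ℝ) z.1 z.2) p

/-- invariant means on the polynomial functions on `SO(X)` -/
def IM {X : Type} [Fintype X] [DecidableEq X] (I : MvPolynomial (X × X) ℝ →ₗ[ℝ] ℝ) : Prop :=
  (∀ p, (∀ x : SO X, 0 ≤ ev p x) → 0 ≤ I p) ∧ I 1 = 1 ∧
  (∀ (g : SO X) p q, (∀ x, ev q x = ev p (g * x)) → I q = I p) ∧
  (∀ (g : SO X) p q, (∀ x, ev q x = ev p (x * g)) → I q = I p)

/-- HM: existence of the invariant mean -/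
def ST_HM : Prop :=
  ∀ (X : Type) [Fintype X] [DecidableEq X], ∃ I : MvPolynomial (X × X) ℝ →ₗ[ℝ] ℝ, IM I

/-- the linear form `∑ l, a l * y l` -/
def lin {X : Type} [Fintype X] (a : X → ℝ) : MvPolynomial X ℝ :=
  ∑ l, MvPolynomial.C (a l) * MvPolynomial.X l

/-- polynomials in the column number `j` -/
def colp {X : Type} (j : X) : MvPolynomial X ℝ →ₐ[ℝ] MvPolynomial (X × X) ℝ :=
  MvPolynomial.rename fun l => (l, j)

/-- MOM: the moments of the entries -/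
def ST_MOM : Prop :=
  ∀ (X : Type) [Fintype X] [DecidableEq X], 2 ≤ Fintype.card X →
    ∀ I : MvPolynomial (X × X) ℝ →ₗ[ℝ] ℝ, IM I → ∃ c : ℕ → ℝ, c 0 = 1 ∧
      c 1 = 1 / (Fintype.card X : ℝ) ∧ (∀ m, 0 ≤ c m) ∧
      (∀ m, 2 ≤ m → c m ≤ 3 / ((Fintype.card X : ℝ) * (Fintype.card X + 2))) ∧
      ∀ (j : X) (b : X → ℝ) (m : ℕ), I (colp j (lin b) ^ (2 * m)) = c m * (∑ l, b l ^ 2) ^ m ∧
        I (colp j (lin b) ^ (2 * m + 1)) = 0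

/-- PAIRI: the conditional expectation of a function of one column given another column -/
def ST_PAIRI : Prop :=
  ∀ (X : Type) [Fintype X] [DecidableEq X], 3 ≤ Fintype.card X →
    ∀ I : MvPolynomial (X × X) ℝ →ₗ[ℝ] ℝ, IM I → ∃ c : ℕ → ℝ, c 0 = 1 ∧
      c 1 = 1 / ((Fintype.card X : ℝ) - 1) ∧ (∀ m, 0 ≤ c m) ∧
      (∀ m, 2 ≤ m → c m ≤ 3 / (((Fintype.card X : ℝ) - 1) * (Fintype.card X + 1))) ∧
      ∀ (i j : X), i ≠ j → ∀ (a : X → ℝ) (m : ℕ) (G : MvPolynomial X ℝ),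
        I (colp j (lin a) ^ (2 * m) * colp i G) =
          c m * I ((MvPolynomial.C (∑ l, a l ^ 2) - colp i (lin a) ^ 2) ^ m * colp i G) ∧
        I (colp j (lin a) ^ (2 * m + 1) * colp i G) = 0

/-- FLAG: simultaneous triangular form of two bilinear forms -/
def ST_FLAG : Prop :=
  ∀ (V : Type) [AddCommGroup V] [Module ℝ V] (A B : V →ₗ[ℝ] V →ₗ[ℝ] ℝ) (F : ℕ → Submodule ℝ V)
    (κ : ℕ → ℝ) (lo hi : ℝ) (d : ℕ),
    (∀ p q, A p q = A q p) → (∀ p q, B p q = B q p) → (∀ p, 0 ≤ A p p) →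
    (∀ m, F m ≤ F (m + 1)) → (∀ m, FiniteDimensional ℝ (F m)) →
    (∀ q ∈ F 0, ∀ p, B p q = A p q) →
    (∀ m, ∀ q ∈ F (m + 1), ∃ q' ∈ F (m + 1), q' - κ (m + 1) • q ∈ F m ∧ ∀ p, B p q = A p q') →
    (∀ m, -lo ≤ κ (m + 1) ∧ κ (m + 1) ≤ hi) → 0 ≤ lo → 0 ≤ hi →
    ∀ (ι : Type) [Fintype ι] [DecidableEq ι] [Nonempty ι] (q : ι → V), (∀ i, q i ∈ F d) →
    (∀ i, ∀ u ∈ F 0, A (q i) u = 0) →
    ∑ i, A (q i) (q i) + ∑ i, ∑ j, (if i = j then 0 else B (q i) (q j)) ≤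
      (1 + max lo (((Fintype.card ι : ℝ) - 1) * hi)) * ∑ i, A (q i) (q i)

/-- STARF: the star inequality for functions -/
def ST_STARF : Prop :=
  ∀ (X : Type) [Fintype X] [DecidableEq X], 3 ≤ Fintype.card X →
    ∀ I : MvPolynomial (X × X) ℝ →ₗ[ℝ] ℝ, IM I → ∀ h : X → MvPolynomial X ℝ,
    (∀ j, I (colp j (h j)) = 0) →
    I ((∑ j, colp j (h j)) ^ 2) ≤
      (1 + 3 / (Fintype.card X : ℝ)) * ∑ j, I (colp j (h j) ^ 2)

/-- COLFN: matrix coefficients of a vector fixed by `SO(X \ j)` are functions of the column `j` -/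
def ST_COLFN : Prop :=
  ∀ (X : Type) [Fintype X] [DecidableEq X] (E : Type) [NormedAddCommGroup E]
    [InnerProductSpace ℝ E] [FiniteDimensional ℝ E] (ρ : SO X →* (E ≃ₗᵢ[ℝ] E)), PR ρ →
    ∀ (j : X) (u w : E), (∀ g ∈ sub (univ.erase j), ρ g u = u) → ∀ ε : ℝ, 0 < ε →
    ∃ h : MvPolynomial X ℝ, ∀ x : SO X,
      |inner ℝ w (ρ x u) - MvPolynomial.eval (fun l => (x : Matrix X X ℝ) l j) h| ≤ ε

/-- STAR: the star inequality -/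
def ST_STAR : Prop :=
  ∀ (X : Type) [Fintype X] [DecidableEq X], 3 ≤ Fintype.card X →
    ∀ (E : Type) [NormedAddCommGroup E] [InnerProductSpace ℝ E] [FiniteDimensional ℝ E]
    (ρ : SO X →* (E ≃ₗᵢ[ℝ] E)), PR ρ → ∀ v : E,
    ∑ j, ‖P ρ (univ.erase j) v‖ ^ 2 ≤ (1 + 3 / (Fintype.card X : ℝ)) * ‖v‖ ^ 2 +
      ((Fintype.card X : ℝ) - 1 - 3 / (Fintype.card X : ℝ)) * ‖P ρ univ v‖ ^ 2

/-- STARS: the star inequality for subsets -/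
def ST_STARS : Prop :=
  ∀ (X : Type) [Fintype X] [DecidableEq X]
    (E : Type) [NormedAddCommGroup E] [InnerProductSpace ℝ E] [FiniteDimensional ℝ E]
    (ρ : SO X →* (E ≃ₗᵢ[ℝ] E)), PR ρ → ∀ (T : Finset X), 3 ≤ #T → ∀ v : E,
    ∑ j ∈ T, ‖P ρ (T.erase j) v‖ ^ 2 ≤ (1 + 3 / (#T : ℝ)) * ‖v‖ ^ 2 +
      ((#T : ℝ) - 1 - 3 / (#T : ℝ)) * ‖P ρ T v‖ ^ 2

/-! ### Part III : averages over subsets -/

/-- XM -/
def ST_XM : Prop :=
  ∀ (X : Type) [Fintype X] [DecidableEq X]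
    (E : Type) [NormedAddCommGroup E] [InnerProductSpace ℝ E] [FiniteDimensional ℝ E]
    (ρ : SO X →* (E ≃ₗᵢ[ℝ] E)), PR ρ → ∀ (Y : Finset X) (m : ℕ), m ≤ #Y → ∀ v : E,
    ∑ S ∈ Y.powersetCard m, ‖P ρ S v‖ ^ 2 ≤
      ((#Y).choose m : ℝ) * ((1 - ((m : ℝ) - 6) / #Y) * ‖v‖ ^ 2 +
        (((m : ℝ) - 6) / #Y) * ‖P ρ Y v‖ ^ 2)

/-- the average of the products `P B₁ ⋯ P B_q` over the ordered partitions of `Y` into `q` sets with
`M` elements -/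
def KK {X : Type} [Fintype X] [DecidableEq X] {E : Type} [NormedAddCommGroup E]
    [InnerProductSpace ℝ E] [FiniteDimensional ℝ E] (ρ : SO X →* (E ≃ₗᵢ[ℝ] E)) (M : ℕ) :
    ℕ → Finset X → (E →L[ℝ] E)
  | 0, _ => 1
  | q + 1, Y => (#(Y.powersetCard M) : ℝ)⁻¹ • ∑ B ∈ Y.powersetCard M, P ρ B * KK ρ M q (Y \ B)

/-- KEY -/
def ST_KEY : Prop :=
  ∀ (X : Type) [Fintype X] [DecidableEq X]
    (E : Type) [NormedAddCommGroup E] [InnerProductSpace ℝ E] [FiniteDimensional ℝ E]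
    (ρ : SO X →* (E ≃ₗᵢ[ℝ] E)), PR ρ → ∀ M : ℕ, 30 ≤ M → ∀ (q : ℕ) (Y : Finset X),
    #Y = (q + 1) * M → ∀ v : E,
    inner ℝ (KK ρ M (q + 1) Y v) v ≤ 3 / 5 * ‖v‖ ^ 2 + 2 / 5 * ‖P ρ Y v‖ ^ 2

/-- KEYD -/
def ST_KEYD : Prop :=
  ∀ (X : Type) [Fintype X] [DecidableEq X]
    (E : Type) [NormedAddCommGroup E] [InnerProductSpace ℝ E] [FiniteDimensional ℝ E]
    (ρ : SO X →* (E ≃ₗᵢ[ℝ] E)), PR ρ → ∀ M q : ℕ, 30 ≤ M → 0 < q → Fintype.card X = q * M →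
    ∀ (v : E) (η : ℝ),
    (∀ L : List (Finset X), L.length = q → (∀ B ∈ L, #B = M) → L.Pairwise Disjoint →
      ‖v - (L.map (P ρ)).prod v‖ ≤ η) →
    ‖v - P ρ univ v‖ ≤ 5 / 2 * η

/-! ### Part IV : the wreath step -/

/-- TENSO -/
def ST_TENSO : Prop :=
  ∀ (Q M Λ : Type) [Fintype Q] [DecidableEq Q] [Fintype M] [DecidableEq M] [Fintype Λ] [Nonempty Λ]
    (w : Λ → SO M) (lam θ η : ℝ), 0 ≤ lam → 0 ≤ θ → 0 < 1 - lam - 2 * θ → NS w lam →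
    ∀ (r : ℕ) (J : Fin r ↪ Q) (Bad : Finset (Fin r → Λ)),
    (#Bad : ℝ) ≤ θ * (Fintype.card Λ : ℝ) ^ r →
    ∀ (E : Type) [NormedAddCommGroup E] [InnerProductSpace ℝ E] [FiniteDimensional ℝ E]
      (ρ : SO (Q × M) →* (E ≃ₗᵢ[ℝ] E)), PR ρ → ∀ v : E,
    (∀ l : Fin r → Λ, l ∉ Bad →
      ‖ρ (row (Function.extend J (fun i => w (l i)) 1)) v - v‖ ≤ η) →
    ‖v - (List.ofFn fun i => P ρ (bl (J i))).prod v‖ ≤ η / (1 - lam - 2 * θ)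

/-- WRS: the wreath step -/
def ST_WRS : Prop :=
  ∀ (Q M Λ : Type) [Fintype Q] [DecidableEq Q] [Fintype M] [DecidableEq M] [Fintype Λ]
    [DecidableEq Λ] [Nonempty Λ] (x y : Λ → SO M) (lam θ : ℝ) (M₀ r : ℕ) (lab : Q → Option Λ),
    0 ≤ lam → 0 < θ → 0 < 1 - lam - 2 * θ → NS (fun a => KP23.cm (x a) (y a)) lam →
    Fintype.card Λ * M₀ = 2 * r → 0 < r → (Fintype.card Λ : ℝ) ^ 2 ≤ θ * r →
    Fintype.card Q = 8 * r → (∀ a, #(univ.filter fun j => lab j = some a) = M₀) →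
    ∀ (E : Type) [NormedAddCommGroup E] [InnerProductSpace ℝ E] [FiniteDimensional ℝ E]
      (ρ : SO (Q × M) →* (E ≃ₗᵢ[ℝ] E)), PR ρ → ∀ (v : E) (η : ℝ),
    (∀ h : alternatingGroup Q, ‖ρ (blk h) v - v‖ ≤ η) →
    ‖ρ (row fun j => (lab j).elim 1 x) v - v‖ ≤ η →
    ‖ρ (row fun j => (lab j).elim 1 y) v - v‖ ≤ η →
    ∀ L : List Q, L.Nodup → (∀ j, j ∈ L) →
      ‖v - (L.map fun j => P ρ (bl j)).prod v‖ ≤ 96 * η / (1 - lam - 2 * θ)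

/-- FULLS -/
def ST_FULLS : Prop :=
  ∀ (Q M Λ : Type) [Fintype Q] [DecidableEq Q] [Fintype M] [DecidableEq M] [Fintype Λ]
    [DecidableEq Λ] [Nonempty Λ] (x y : Λ → SO M) (lam θ : ℝ) (M₀ r : ℕ) (lab : Q → Option Λ),
    0 ≤ lam → 0 < θ → 0 < 1 - lam - 2 * θ → NS (fun a => KP23.cm (x a) (y a)) lam →
    Fintype.card Λ * M₀ = 2 * r → 0 < r → (Fintype.card Λ : ℝ) ^ 2 ≤ θ * r →
    Fintype.card Q = 8 * r → (∀ a, #(univ.filter fun j => lab j = some a) = M₀) →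
    30 ≤ Fintype.card M →
    ∀ (E : Type) [NormedAddCommGroup E] [InnerProductSpace ℝ E] [FiniteDimensional ℝ E]
      (ρ : SO (Q × M) →* (E ≃ₗᵢ[ℝ] E)), PR ρ → ∀ (v : E) (η : ℝ),
    (∀ h : alternatingGroup Q, ‖ρ (blk h) v - v‖ ≤ η) →
    ‖ρ (row fun j => (lab j).elim 1 x) v - v‖ ≤ η →
    ‖ρ (row fun j => (lab j).elim 1 y) v - v‖ ≤ η →
    (∀ σ : alternatingGroup (Q × M), ‖ρ (alt σ) v - v‖ ≤ η) →
    ‖v - P ρ univ v‖ ≤ 5 / 2 * (96 / (1 - lam - 2 * θ) + 2) * η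

/-- ALTK: Kazhdan sets of `Alt(X)`, from representations of `Sym(X)` to those of `Alt(X)` -/
def ST_ALTK : Prop :=
  ∀ (X : Type) [Fintype X] [DecidableEq X] (ι : Type) (g : ι → Equiv.Perm X) (K : ℝ)
    (hg : KP23.KZ g K) (E : Type) [NormedAddCommGroup E] [InnerProductSpace ℝ E]
    (τ : alternatingGroup X →* (E ≃ₗᵢ[ℝ] E)) (v : E) (η : ℝ),
    (∀ i, ‖τ ⟨g i, Equiv.Perm.mem_alternatingGroup.2 (hg.1 i)⟩ v - v‖ ≤ η) →
    ∀ h, ‖τ h v - v‖ ≤ K * η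

/-- COMS: every rotation in dimension `4 k` is a commutator -/
def ST_COMS : Prop :=
  ∀ (M : Type) [Fintype M] [DecidableEq M], 4 ∣ Fintype.card M → ∀ R : SO M,
    ∃ x y : SO M, R = KP23.cm x y

/-- POW: from the Kazhdan form to the norm form -/
def ST_POW : Prop :=
  ∀ (k : ℕ) (K : ℝ), 0 < K → ∃ L : ℕ, 0 < L ∧ ∀ (X : Type) [Fintype X] [DecidableEq X]
    (g : Fin k → SO X), KS g K → ∀ s : ℕ, 0 < s → ∃ u : Fin (L * s) → SO X, NS u (1 / 2)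

/-- STEP: the step of the recursion -/
def ST_STEP : Prop :=
  ∃ (k : ℕ) (K : ℝ), 0 < K ∧ ∀ L : ℕ, 0 < L → ∃ q : ℕ, 2 ≤ q ∧ 4 ∣ q ∧
    ∀ (M : Type) [Fintype M] [DecidableEq M], 30 ≤ Fintype.card M → 4 ∣ Fintype.card M →
    (∃ U : Fin L → SO M, NS U (1 / 2)) → ∃ g : Fin k → SO (Fin q × M), KS g K

/-! ### Part V : all `n` -/

/-- INDS: from `SO(n)` to `SO(n+1)` -/
def ST_INDS : Prop :=
  ∀ n : ℕ, 3 ≤ n → (∃ (k : ℕ) (K : ℝ) (g : Fin k → SO (Fin n)), 0 < K ∧ KS g K) →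
    ∃ (k : ℕ) (K : ℝ) (g : Fin k → SO (Fin (n + 1))), 0 < K ∧ KS g K

/-- RECS: the recursion -/
def ST_RECS : Prop :=
  ∃ L q : ℕ, 0 < L ∧ 2 ≤ q ∧ ∀ j : ℕ, ∃ U : Fin L → SO (Fin (32 * q ^ j)), NS U (1 / 2)

/-- UNI: bounded Kazhdan sets of `SO(n)` for all large `n` -/
def ST_UNI : Prop :=
  ∃ (k : ℕ) (K : ℝ) (N : ℕ), 0 < K ∧ ∀ n, N ≤ n → ∃ g : Fin k → SO (Fin n), KS g K

/-- ALLS: bounded Kazhdan sets of `SO(n)` for all `n ≥ 3` -/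
def ST_ALLS : Prop :=
  ∃ (k : ℕ) (K : ℝ), 0 < K ∧ ∀ n, 3 ≤ n → ∃ g : Fin k → SO (Fin n), KS g K

/-! ### Part VI : functions -/

/-- left translation of functions -/
def tr {X : Type} [Fintype X] (g : Matrix X X ℝ) (x : X → X → ℝ) : X → X → ℝ :=
  fun i j => ∑ l, g i l * x l j

/-- SUPP: Haar measure has full support -/
def ST_SUPP : Prop :=
  ∀ (X : Type) [Fintype X] [DecidableEq X] (μ : Measure (X → X → ℝ)), HL μ →
    ∀ f : (X → X → ℝ) → ℝ, Continuous f → (∀ᵐ x ∂μ, f x = 0) →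
    ∀ g : Matrix X X ℝ, g.transpose * g = 1 → g.det = 1 → f g = 0

/-- POLD: polynomials are dense -/
def ST_POLD : Prop :=
  ∀ (X : Type) [Fintype X] [DecidableEq X] (μ : Measure (X → X → ℝ)), HL μ →
    ∀ f : (X → X → ℝ) → ℝ, MemLp f 2 μ → ∀ ε : ℝ, 0 < ε →
    ∃ p : MvPolynomial (X × X) ℝ,
      ∫ x, (f x - MvPolynomial.eval (fun z => x z.1 z.2) p) ^ 2 ∂μ ≤ ε

/-- POLR: the gap for polynomials -/
def ST_POLR : Prop :=
  ∀ (X : Type) [Fintype X] [DecidableEq X] (μ : Measure (X → X → ℝ)), HL μ →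
    ∀ (k : ℕ) (K : ℝ) (g : Fin k → SO X), 0 < K → KS g K → ∀ p : MvPolynomial (X × X) ℝ,
    ∫ x, MvPolynomial.eval (fun z => x z.1 z.2) p ∂μ = 0 →
    ∫ x, MvPolynomial.eval (fun z => x z.1 z.2) p ^ 2 ∂μ ≤
      K ^ 2 * ∑ i, ∫ x, (MvPolynomial.eval (fun z => tr (g i : Matrix X X ℝ) x z.1 z.2) p -
        MvPolynomial.eval (fun z => x z.1 z.2) p) ^ 2 ∂μ

/-- L2G: the gap for square integrable functions -/
def ST_L2G : Prop :=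
  ∀ (X : Type) [Fintype X] [DecidableEq X] (μ : Measure (X → X → ℝ)), HL μ →
    ∀ (k : ℕ) (K : ℝ) (g : Fin k → SO X), 0 < K → KS g K → ∀ f : (X → X → ℝ) → ℝ,
    MemLp f 2 μ → ∫ x, f x ∂μ = 0 →
    ∫ x, f x ^ 2 ∂μ ≤ K ^ 2 * ∑ i, ∫ x, (f (tr (g i : Matrix X X ℝ) x) - f x) ^ 2 ∂μ

/-- DENS: density of the group generated by a Kazhdan set -/
def ST_DENS : Prop :=
  ∀ (X : Type) [Fintype X] [DecidableEq X] (k : ℕ) (K : ℝ) (g : Fin k → SO X), 0 < K → KS g K →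
    ∀ S : Set (Matrix X X ℝ), (∀ i, (g i : Matrix X X ℝ) ∈ S) →
    (∀ i, (g i : Matrix X X ℝ).transpose ∈ S) →
    (∀ s ∈ S, s.transpose * s = 1 ∧ s.det = 1) →
    ∀ h : Matrix X X ℝ, h.transpose * h = 1 → h.det = 1 →
    h ∈ closure ((Submonoid.closure S : Submonoid (Matrix X X ℝ)) : Set (Matrix X X ℝ))

/-- PADS: symmetric rotations -/
def ST_PADS : Prop :=
  ∀ (n m : ℕ) (S : Finset (Matrix (Fin n) (Fin n) ℝ)), 3 ≤ n →
    ∃ T : Finset (Matrix (Fin n) (Fin n) ℝ), #T = m ∧ Disjoint S T ∧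
      ∀ s ∈ T, s.transpose = s ∧ s.transpose * s = 1 ∧ s.det = 1

/-- FIN: the frozen statement -/
def ST_FIN : Prop :=
  ∃ ε : ℝ, 0 < ε ∧ ∃ k : ℕ, 0 < k ∧ ∀ n : ℕ, 3 ≤ n →
    ∃ S : Finset (Matrix (Fin n) (Fin n) ℝ), S.card = k ∧
      (∀ s ∈ S, s.transpose * s = 1 ∧ s.det = 1) ∧
      (∀ s ∈ S, s.transpose ∈ S) ∧
      (∀ g : Matrix (Fin n) (Fin n) ℝ, g.transpose * g = 1 → g.det = 1 →
        g ∈ closure ((Submonoid.closure (S : Set (Matrix (Fin n) (Fin n) ℝ)) :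
          Set (Matrix (Fin n) (Fin n) ℝ)))) ∧
      ∀ μ : Measure (Fin n → Fin n → ℝ), IsProbabilityMeasure μ →
        μ {x | ¬ ((Matrix.of x).transpose * Matrix.of x = 1 ∧ (Matrix.of x).det = 1)} = 0 →
        (∀ g : Matrix (Fin n) (Fin n) ℝ, g.transpose * g = 1 → g.det = 1 →
          μ.map (fun x : Fin n → Fin n → ℝ => fun i j => ∑ l, g i l * x l j) = μ) →
        ∀ f : (Fin n → Fin n → ℝ) → ℝ, MemLp f 2 μ → ∫ x, f x ∂μ = 0 →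
          ∑ s ∈ S, ∫ x, f (fun i j => ∑ l, s i l * x l j) * f x ∂μ
            ≤ ((k : ℝ) - ε) * ∫ x, f x ^ 2 ∂μ

end

end SG23
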