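import Mathlib
import Pool.Agent.N23.SG.Stm

/-!
# Bounded Kazhdan sets of `SO(n)` for all `n ≥ 3`
-/

set_option autoImplicit false

namespace SG23

open Finset

/-- padding a Kazhdan family by the identity -/
theorem alls_pad {X : Type} [Fintype X] [DecidableEq X] {k k' : ℕ} {K K' : ℝ} (g : Fin k → SO X)
    (hk : k < k') (hK : K ≤ K') (h : KS g K) : ∃ g' : Fin k' → SO X, KS g' K' := by
  refine ⟨fun i => if h : (i : ℕ) < k then g ⟨i, h⟩ else 1, ?_⟩
  intro E _ _ _ ρ hρ v η hη
  have h0 : 0 ≤ η := by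
    have := hη ⟨k, hk⟩
    simpa using this
  have h1 : ∀ i, ‖ρ (g i) v - v‖ ≤ η := by
    intro i
    have := hη ⟨i, lt_trans i.2 hk⟩
    simpa using this
  exact (h E ρ hρ v η h1).trans (mul_le_mul_of_nonneg_right hK h0)

theorem ALLS (hU : ST_UNI) (hI : ST_INDS)
    (h3 : ∃ (k : ℕ) (K : ℝ) (g : Fin k → SO (Fin 3)), 0 < K ∧ KS g K) : ST_ALLS := by
  have hall : ∀ n : ℕ, 3 ≤ n → ∃ (k : ℕ) (K : ℝ) (g : Fin k → SO (Fin n)), 0 < K ∧ KS g K := by
    intro n hn
    induction n, hn using Nat.le_induction with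
    | base => exact h3
    | succ n hn ih => exact hI n hn ih
  have hfin : ∀ N : ℕ, ∃ (k : ℕ) (K : ℝ), 0 < K ∧ ∀ n, 3 ≤ n → n < N →
      ∃ g : Fin k → SO (Fin n), KS g K := by
    intro N
    induction N with
    | zero => exact ⟨0, 1, one_pos, fun n _ hn => absurd hn (Nat.not_lt_zero n)⟩
    | succ N ih =>
      obtain ⟨k, K, hK, h⟩ := ih
      by_cases hN : 3 ≤ N
      · obtain ⟨k1, K1, g1, hK1, h1⟩ := hall N hN
        refine ⟨k + k1 + 1, K + K1, by positivity, ?_⟩
        intro n hn hnN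
        rcases Nat.lt_or_ge n N with hlt | hge
        · obtain ⟨g, hg⟩ := h n hn hlt
          exact alls_pad g (by omega) (by linarith) hg
        · have : n = N := by omega
          subst this
          exact alls_pad g1 (by omega) (by linarith) h1
      · exact ⟨k, K, hK, fun n hn hnN => h n hn (by omega)⟩
  obtain ⟨k, K, N, hK, h⟩ := hU
  obtain ⟨k1, K1, hK1, h1⟩ := hfin N
  refine ⟨k + k1 + 1, K + K1, by positivity, ?_⟩
  intro n hn
  rcases Nat.lt_or_ge n N with hlt | hge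
  · obtain ⟨g, hg⟩ := h1 n hn hlt
    exact alls_pad g (by omega) (by linarith) hg
  · obtain ⟨g, hg⟩ := h n hge
    exact alls_pad g (by omega) (by linarith) hg

end SG23
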