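import Pool.Agent.N23.SG.Stm

/-!
Project SG (helper23), MP_839d28_al: induced representations, from `Sym(X)` to `Alt(X)`.
-/

namespace SG23
open Finset Equiv.Perm

noncomputable section

variable {X : Type} [Fintype X] [DecidableEq X] {E : Type} [NormedAddCommGroup E]
  [InnerProductSpace ℝ E]

/-- Representatives of the cosets of the alternating group. -/
def ALTKc (s : Equiv.Perm X) (u : ℤˣ) : Equiv.Perm X := if u = 1 then 1 else s

omit [Fintype X] [DecidableEq X] in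
lemma ALTK_sq {s : Equiv.Perm X} (h : s * s = 1) (u : ℤˣ) : ALTKc s u * ALTKc s u = 1 := by
  unfold ALTKc
  split_ifs
  · exact one_mul 1
  · exact h

lemma ALTK_sign {s : Equiv.Perm X} (h : sign s = -1) (u : ℤˣ) : sign (ALTKc s u) = u := by
  unfold ALTKc
  rcases Int.units_eq_one_or u with hu | hu
  · rw [if_pos hu, hu, Equiv.Perm.sign_one]
  · rw [if_neg (by rw [hu]; decide), hu, h]

lemma ALTK_mem {s : Equiv.Perm X} (h : sign s = -1) (g : Equiv.Perm X) (u : ℤˣ) :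
    ALTKc s u * g * ALTKc s (u * sign g) ∈ alternatingGroup X := by
  rw [mem_alternatingGroup, Equiv.Perm.sign_mul, Equiv.Perm.sign_mul, ALTK_sign h, ALTK_sign h]
  have h1 := Int.units_mul_self u
  have h2 := Int.units_mul_self (sign g)
  calc u * sign g * (u * sign g) = (u * u) * (sign g * sign g) := by
        rw [mul_mul_mul_comm]
    _ = 1 := by rw [h1, h2, one_mul]

/-- The element of the alternating group. -/
def ALTKe {s : Equiv.Perm X} (h : sign s = -1) (g : Equiv.Perm X) (u : ℤˣ) :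
    alternatingGroup X := ⟨ALTKc s u * g * ALTKc s (u * sign g), ALTK_mem h g u⟩

lemma ALTKe_mul {s : Equiv.Perm X} (h0 : s * s = 1) (h : sign s = -1) (g k : Equiv.Perm X)
    (u : ℤˣ) : ALTKe h (g * k) u = ALTKe h g u * ALTKe h k (u * sign g) := by
  apply Subtype.ext
  show ALTKc s u * (g * k) * ALTKc s (u * sign (g * k)) =
    (ALTKc s u * g * ALTKc s (u * sign g)) *
      (ALTKc s (u * sign g) * k * ALTKc s (u * sign g * sign k))
  have h1 := ALTK_sq h0 (u * sign g)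
  rw [Equiv.Perm.sign_mul, ← mul_assoc u]
  calc _ = ALTKc s u * g * 1 * (k * ALTKc s (u * sign g * sign k)) := by group
    _ = ALTKc s u * g * (ALTKc s (u * sign g) * ALTKc s (u * sign g)) *
        (k * ALTKc s (u * sign g * sign k)) := by rw [h1]
    _ = _ := by group

/-- The induced representation. -/
def ALTKl {s : Equiv.Perm X} (h : sign s = -1) (τ : alternatingGroup X →* (E ≃ₗᵢ[ℝ] E))
    (g : Equiv.Perm X) : PiLp 2 (fun _ : ℤˣ => E) →ₗ[ℝ] PiLp 2 (fun _ : ℤˣ => E) where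
  toFun f := WithLp.toLp 2 fun u => τ (ALTKe h g u) (f (u * sign g))
  map_add' f f' := by
    ext u
    simp
  map_smul' c f := by
    ext u
    simp

lemma ALTKl_apply {s : Equiv.Perm X} (h : sign s = -1) (τ : alternatingGroup X →* (E ≃ₗᵢ[ℝ] E))
    (g : Equiv.Perm X) (f : PiLp 2 (fun _ : ℤˣ => E)) (u : ℤˣ) :
    ALTKl h τ g f u = τ (ALTKe h g u) (f (u * sign g)) := rfl

lemma ALTKl_mul {s : Equiv.Perm X} (h0 : s * s = 1) (h : sign s = -1)
    (τ : alternatingGroup X →* (E ≃ₗᵢ[ℝ] E)) (g k : Equiv.Perm X)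
    (f : PiLp 2 (fun _ : ℤˣ => E)) :
    ALTKl h τ (g * k) f = ALTKl h τ g (ALTKl h τ k f) := by
  ext u
  rw [ALTKl_apply, ALTKl_apply, ALTKl_apply, ALTKe_mul h0, map_mul, Equiv.Perm.sign_mul, ← mul_assoc]
  rfl

lemma ALTKl_one {s : Equiv.Perm X} (h0 : s * s = 1) (h : sign s = -1)
    (τ : alternatingGroup X →* (E ≃ₗᵢ[ℝ] E)) (f : PiLp 2 (fun _ : ℤˣ => E)) :
    ALTKl h τ 1 f = f := by
  ext u
  have h1 : ALTKe h 1 u = 1 := by
    apply Subtype.ext
    show ALTKc s u * 1 * ALTKc s (u * sign 1) = 1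
    rw [Equiv.Perm.sign_one, mul_one, mul_one, ALTK_sq h0]
  rw [ALTKl_apply, h1, map_one, Equiv.Perm.sign_one, mul_one]
  rfl

lemma ALTKl_norm {s : Equiv.Perm X} (h : sign s = -1)
    (τ : alternatingGroup X →* (E ≃ₗᵢ[ℝ] E)) (g : Equiv.Perm X)
    (f : PiLp 2 (fun _ : ℤˣ => E)) : ‖ALTKl h τ g f‖ = ‖f‖ := by
  rw [PiLp.norm_eq_of_L2, PiLp.norm_eq_of_L2]
  congr 1
  refine Fintype.sum_equiv (Equiv.mulRight (sign g)) _ _ fun u => ?_
  rw [ALTKl_apply, LinearIsometryEquiv.norm_map]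
  rfl

/-- The induced representation. -/
def ALTKr {s : Equiv.Perm X} (h0 : s * s = 1) (h : sign s = -1)
    (τ : alternatingGroup X →* (E ≃ₗᵢ[ℝ] E)) :
    Equiv.Perm X →* (PiLp 2 (fun _ : ℤˣ => E) ≃ₗᵢ[ℝ] PiLp 2 (fun _ : ℤˣ => E)) where
  toFun g :=
    { toLinearEquiv := LinearEquiv.ofLinearMap (ALTKl h τ g) (ALTKl h τ g⁻¹)
        (by
          ext1 f
          show ALTKl h τ g (ALTKl h τ g⁻¹ f) = f
          rw [← ALTKl_mul h0, mul_inv_cancel, ALTKl_one h0])
        (by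
          ext1 f
          show ALTKl h τ g⁻¹ (ALTKl h τ g f) = f
          rw [← ALTKl_mul h0, inv_mul_cancel, ALTKl_one h0])
      norm_map' := fun f => ALTKl_norm h τ g f }
  map_one' := by
    ext1 f
    exact ALTKl_one h0 h τ f
  map_mul' g k := by
    ext1 f
    exact ALTKl_mul h0 h τ g k f

lemma ALTKr_apply {s : Equiv.Perm X} (h0 : s * s = 1) (h : sign s = -1)
    (τ : alternatingGroup X →* (E ≃ₗᵢ[ℝ] E)) (g : Equiv.Perm X)
    (f : PiLp 2 (fun _ : ℤˣ => E)) : ALTKr h0 h τ g f = ALTKl h τ g f := rfl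

lemma ALTKr_norm {s : Equiv.Perm X} (h0 : s * s = 1) (h : sign s = -1)
    (τ : alternatingGroup X →* (E ≃ₗᵢ[ℝ] E)) (v : E) (g : Equiv.Perm X) (hg : sign g = 1) :
    ‖ALTKr h0 h τ g (WithLp.toLp 2 fun u : ℤˣ => if u = 1 then v else 0) -
      (WithLp.toLp 2 fun u : ℤˣ => if u = 1 then v else 0)‖ =
      ‖τ ⟨g, mem_alternatingGroup.2 hg⟩ v - v‖ := by
  have h1 : ALTKe h g 1 = ⟨g, mem_alternatingGroup.2 hg⟩ := by
    apply Subtype.ext
    show ALTKc s 1 * g * ALTKc s (1 * sign g) = g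
    rw [hg, one_mul]
    unfold ALTKc
    rw [if_pos rfl, one_mul, mul_one]
  rw [PiLp.norm_eq_of_L2, Finset.sum_eq_single (1 : ℤˣ)]
  · rw [Real.sqrt_sq (norm_nonneg _)]
    congr 1
    have e2 : (1 : ℤˣ) * sign g = 1 := by rw [hg, one_mul]
    rw [PiLp.sub_apply, ALTKr_apply, ALTKl_apply, h1, e2]
    simp
  · intro u _ hu
    rw [PiLp.sub_apply, ALTKr_apply, ALTKl_apply, hg, mul_one]
    simp [hu]
  · intro h2
    exact (h2 (Finset.mem_univ _)).elim

theorem ALTK : ST_ALTK := by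
  intro X _ _ ι g K hg E _ _ τ v η hv h
  rcases subsingleton_or_nontrivial X with hX | hX
  · have h1 := hg.2 E (1 : Equiv.Perm X →* (E ≃ₗᵢ[ℝ] E)) v η (fun i => by
      have h2 : (1 : Equiv.Perm X →* (E ≃ₗᵢ[ℝ] E)) (g i) v - v = 0 := by simp
      rw [h2, norm_zero]
      exact (norm_nonneg _).trans (hv i)) 1 Equiv.Perm.sign_one
    have h2 : (1 : Equiv.Perm X →* (E ≃ₗᵢ[ℝ] E)) 1 v - v = 0 := by simp
    rw [h2, norm_zero] at h1
    have h3 : h = 1 := Subsingleton.elim _ _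
    have h4 : τ h v - v = 0 := by
      rw [h3, map_one]
      simp
    rw [h4, norm_zero]
    exact h1
  · obtain ⟨a, b, hab⟩ := exists_pair_ne X
    have h0 : Equiv.swap a b * Equiv.swap a b = 1 := Equiv.swap_mul_self a b
    have hs : sign (Equiv.swap a b) = -1 := sign_swap hab
    have h1 := hg.2 _ (ALTKr h0 hs τ) (WithLp.toLp 2 fun u : ℤˣ => if u = 1 then v else 0) η
      (fun i => by
        rw [ALTKr_norm h0 hs τ v (g i) (hg.1 i)]
        exact hv i) h (mem_alternatingGroup.1 h.2)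
    rw [ALTKr_norm h0 hs τ v (h : Equiv.Perm X) (mem_alternatingGroup.1 h.2)] at h1
    exact h1

end

end SG23
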