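import Pool.Agent.N23.SG.BStm

/-!
Project SG (helper23), MP_839d28_al.  BALL: volume of the balls in the group of unit quaternions
(helper395).
-/

namespace SG23
open MeasureTheory Quaternion Pointwise
open Pool.Agent.H762R3.UQ Pool.Agent.Helper36.SphMeas

noncomputable section

/-- the lower ends of a box -/
def BALL_a (δ : ℝ) (i : Fin 4) : ℝ := if i = 0 then 1 / 2 else -(δ / 8)

/-- the upper ends of a box -/
def BALL_b (δ : ℝ) (i : Fin 4) : ℝ := if i = 0 then 3 / 4 else δ / 8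

/-- the box -/
def BALL_box (δ : ℝ) : Set (EuclideanSpace ℝ (Fin 4)) :=
  {x | ∀ i, x i ∈ Set.Ioo (BALL_a δ i) (BALL_b δ i)}

lemma BALL_vol (δ : ℝ) (hδ : 0 < δ) :
    volume (BALL_box δ) = ENNReal.ofReal (δ ^ 3 / 256) := by
  have h1 : BALL_box δ = (WithLp.ofLp : EuclideanSpace ℝ (Fin 4) → (Fin 4 → ℝ)) ⁻¹'
      (Set.pi Set.univ (fun i => Set.Ioo (BALL_a δ i) (BALL_b δ i))) := by
    ext x
    simp [BALL_box, Set.mem_pi]
  have hle : ∀ i, 0 ≤ BALL_b δ i - BALL_a δ i := by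
    intro i
    unfold BALL_a BALL_b
    split_ifs
    · norm_num
    · linarith
  rw [h1, (PiLp.volume_preserving_ofLp (Fin 4)).measure_preimage
    (MeasurableSet.univ_pi fun i => measurableSet_Ioo).nullMeasurableSet, Real.volume_pi_Ioo,
    Fin.prod_univ_four, ← ENNReal.ofReal_mul, ← ENNReal.ofReal_mul, ← ENNReal.ofReal_mul]
  · congr 1
    simp [BALL_a, BALL_b]
    ring
  all_goals
    first
    | exact hle _
    | exact mul_nonneg (hle _) (hle _)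
    | exact mul_nonneg (mul_nonneg (hle _) (hle _)) (hle _)

lemma BALL_pt (δ : ℝ) (hδ : 0 < δ) (hδ1 : δ ≤ 1) (x : EuclideanSpace ℝ (Fin 4))
    (hx : x ∈ BALL_box δ) : 0 < ‖x‖ ∧ ‖x‖ < 1 ∧
      ∃ q : U, ‖(q : ℍ[ℝ]) - 1‖ ≤ δ ∧ x = ‖x‖ • psi q := by
  have h0 := hx 0
  have h1 := hx 1
  have h2 := hx 2
  have h3 := hx 3
  simp [BALL_a, BALL_b] at h0 h1 h2 h3
  have hr : ‖x‖ ^ 2 = x 0 ^ 2 + x 1 ^ 2 + x 2 ^ 2 + x 3 ^ 2 := by
    rw [EuclideanSpace.norm_sq_eq, Fin.sum_univ_four]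
    simp [sq_abs]
  have hr0 := norm_nonneg x
  have s1 : x 1 ^ 2 ≤ δ ^ 2 / 64 := by nlinarith
  have s2 : x 2 ^ 2 ≤ δ ^ 2 / 64 := by nlinarith
  have s3 : x 3 ^ 2 ≤ δ ^ 2 / 64 := by nlinarith
  have hd2 : δ ^ 2 ≤ 1 := by nlinarith
  have hpos : 0 < ‖x‖ := by
    rcases hr0.lt_or_eq with h | h
    · exact h
    · rw [← h] at hr
      nlinarith [sq_nonneg (x 1), sq_nonneg (x 2), sq_nonneg (x 3)]
  have hlt : ‖x‖ < 1 := by
    have : ‖x‖ ^ 2 < 1 := by nlinarith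
    nlinarith
  refine ⟨hpos, hlt, ?_⟩
  have hmem : ‖(Quaternion.linearIsometryEquivTuple).symm (‖x‖⁻¹ • x)‖ = 1 := by
    rw [LinearIsometryEquiv.norm_map, norm_smul, norm_inv, norm_norm, inv_mul_cancel₀ hpos.ne']
  let q : U := ⟨(Quaternion.linearIsometryEquivTuple).symm (‖x‖⁻¹ • x), by
    rw [mem_sphere_iff_norm, sub_zero]
    exact hmem⟩
  have hq : psi q = ‖x‖⁻¹ • x := by
    show Quaternion.linearIsometryEquivTuple ((Quaternion.linearIsometryEquivTuple).symm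
      (‖x‖⁻¹ • x)) = _
    rw [LinearIsometryEquiv.apply_symm_apply]
  refine ⟨q, ?_, ?_⟩
  · have hn : ‖(q : ℍ[ℝ]) - 1‖ ^ 2 =
        (‖x‖⁻¹ * x 0 - 1) ^ 2 + (‖x‖⁻¹ * x 1) ^ 2 + (‖x‖⁻¹ * x 2) ^ 2 + (‖x‖⁻¹ * x 3) ^ 2 := by
      have e1 : ‖(q : ℍ[ℝ]) - 1‖ = ‖Quaternion.linearIsometryEquivTuple ((q : ℍ[ℝ]) - 1)‖ :=
        (LinearIsometryEquiv.norm_map _ _).symm
      rw [e1, map_sub]
      have e2 : Quaternion.linearIsometryEquivTuple (q : ℍ[ℝ]) = ‖x‖⁻¹ • x := hq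
      have hc : Quaternion.linearIsometryEquivTuple (1 : ℍ[ℝ]) =
        !₂[(1 : ℍ[ℝ]).re, (1 : ℍ[ℝ]).imI, (1 : ℍ[ℝ]).imJ, (1 : ℍ[ℝ]).imK] := rfl
      rw [e2, hc, EuclideanSpace.norm_sq_eq, Fin.sum_univ_four]
      simp [mul_pow, sq_abs]
    have hE : ‖(q : ℍ[ℝ]) - 1‖ ^ 2 ≤ δ ^ 2 := by
      rw [hn]
      have e3 : (‖x‖⁻¹ * x 0 - 1) ^ 2 + (‖x‖⁻¹ * x 1) ^ 2 + (‖x‖⁻¹ * x 2) ^ 2 +
          (‖x‖⁻¹ * x 3) ^ 2 = ((‖x‖ - x 0) ^ 2 + x 1 ^ 2 + x 2 ^ 2 + x 3 ^ 2) / ‖x‖ ^ 2 := by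
        field_simp
        ring
      rw [e3, div_le_iff₀ (by positivity)]
      have e4 : x 0 ≤ ‖x‖ := by
        by_contra h
        push Not at h
        nlinarith [sq_nonneg (x 1), sq_nonneg (x 2), sq_nonneg (x 3)]
      have e5 : (‖x‖ - x 0) ^ 2 ≤ x 1 ^ 2 + x 2 ^ 2 + x 3 ^ 2 := by
        have : (‖x‖ - x 0) * (‖x‖ + x 0) = x 1 ^ 2 + x 2 ^ 2 + x 3 ^ 2 := by
          have : (‖x‖ - x 0) * (‖x‖ + x 0) = ‖x‖ ^ 2 - x 0 ^ 2 := by ring
          rw [this, hr]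
          ring
        rw [← this]
        have e7 : 0 ≤ x 0 := le_trans (by norm_num) h0.1.le
        nlinarith [mul_nonneg (sub_nonneg.mpr e4) e7]
      have e8 : (1 / 4 : ℝ) ≤ x 0 ^ 2 := by nlinarith [h0.1]
      have e6 : (1 / 4 : ℝ) ≤ ‖x‖ ^ 2 := by
        linarith [sq_nonneg (x 1), sq_nonneg (x 2), sq_nonneg (x 3)]
      have e9 : δ ^ 2 * (1 / 4) ≤ δ ^ 2 * ‖x‖ ^ 2 := mul_le_mul_of_nonneg_left e6 (sq_nonneg δ)
      have e10 := sq_nonneg δ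
      linarith
    exact (sq_le_sq₀ (norm_nonneg _) hδ.le).mp hE
  · rw [hq, smul_smul, mul_inv_cancel₀ hpos.ne', one_smul]

theorem BALL : ST_BALL := by
  set T : ENNReal := (volume : Measure (EuclideanSpace ℝ (Fin 4))).toSphere Set.univ with hT
  have hT0 : T ≠ 0 := toSphere_univ_ne_zero (by norm_num)
  have hT1 : T ≠ ⊤ := measure_ne_top _ _
  refine ⟨T.toReal⁻¹ / 64, ?_, ?_⟩
  · have := ENNReal.toReal_pos hT0 hT1
    positivity
  intro δ hδ hδ1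
  set S : Set U := {q : U | ‖(q : ℍ[ℝ]) - 1‖ ≤ δ} with hS
  have hSm : MeasurableSet S := by
    have : IsClosed S := isClosed_le
      ((continuous_subtype_val.sub continuous_const).norm) continuous_const
    exact this.measurableSet
  have hSm2 : MeasurableSet (psi '' S) := psi_emb.measurableSet_image.2 hSm
  have h1 : (mu4 : Measure U) S = T⁻¹ *
      (volume : Measure (EuclideanSpace ℝ (Fin 4))).toSphere (Subtype.val ⁻¹' (psi '' S)) := by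
    rw [mu4_apply, sph_apply hSm2]
  have h2 : (volume : Measure (EuclideanSpace ℝ (Fin 4))).toSphere (Subtype.val ⁻¹' (psi '' S)) =
      4 * volume (Set.Ioo (0 : ℝ) 1 • (psi '' S)) := by
    rw [Measure.toSphere_apply' _ (measurable_subtype_coe hSm2)]
    congr 1
    · simp
    · congr 2
      rw [Subtype.image_preimage_coe, Set.inter_eq_right]
      rintro _ ⟨q, _, rfl⟩
      rw [mem_sphere_iff_norm, sub_zero]
      exact norm_psi q
  have h3 : ENNReal.ofReal (δ ^ 3 / 256) ≤ volume (Set.Ioo (0 : ℝ) 1 • (psi '' S)) := by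
    rw [← BALL_vol δ hδ]
    refine measure_mono fun x hx => ?_
    obtain ⟨hp, hl, q, hq, hxq⟩ := BALL_pt δ hδ hδ1 x hx
    rw [hxq]
    exact Set.smul_mem_smul ⟨by simpa using hp, by simpa using hl⟩ ⟨q, hq, rfl⟩
  have h4 : T⁻¹ * (4 * ENNReal.ofReal (δ ^ 3 / 256)) ≤ (mu4 : Measure U) S := by
    rw [h1, h2]
    gcongr
  have h5 := ENNReal.toReal_mono (measure_ne_top _ _) h4
  rw [ENNReal.toReal_mul, ENNReal.toReal_mul, ENNReal.toReal_inv,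
    ENNReal.toReal_ofReal (by positivity)] at h5
  refine le_trans (le_of_eq ?_) h5
  simp
  ring

end

end SG23
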