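import Pool.Agent.N23.SG.BStm

/-!
# Project SG (helper23), part BASE3: spectral gap for `SO(3)`, assembly (helper143)
-/

set_option autoImplicit false

namespace SG23
open Finset MeasureTheory Quaternion
open Pool.Agent.H762R3.UQ Pool.Agent.H762R3.Rot

noncomputable section

section BASE3
variable {X : Type} [Fintype X] [DecidableEq X]
variable {E : Type} [NormedAddCommGroup E] [InnerProductSpace ℝ E]

lemma BASE3_inv (ρ : SO X →* (E ≃ₗᵢ[ℝ] E)) (g : SO X) (v : E) : ρ g⁻¹ (ρ g v) = v := by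
  have h1 : ρ (g⁻¹ * g) v = ρ g⁻¹ (ρ g v) := by
    rw [map_mul]
    rfl
  rw [← h1, inv_mul_cancel, map_one]
  rfl

lemma BASE3_inv' (ρ : SO X →* (E ≃ₗᵢ[ℝ] E)) (g : SO X) (v : E) : ρ g (ρ g⁻¹ v) = v := by
  have h1 : ρ (g * g⁻¹) v = ρ g (ρ g⁻¹ v) := by
    rw [map_mul]
    rfl
  rw [← h1, mul_inv_cancel, map_one]
  rfl

/-- the restriction of a representation to an invariant subspace -/
def BASE3_rs (ρ : SO X →* (E ≃ₗᵢ[ℝ] E)) (W : Submodule ℝ E) (hW : ∀ g, ∀ w ∈ W, ρ g w ∈ W) :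
    SO X →* (W ≃ₗᵢ[ℝ] W) where
  toFun g :=
    { toFun := fun w => ⟨ρ g w, hW g w w.2⟩
      invFun := fun w => ⟨ρ g⁻¹ w, hW g⁻¹ w w.2⟩
      map_add' := fun a b => Subtype.ext (map_add (ρ g) _ _)
      map_smul' := fun c a => Subtype.ext (map_smul (ρ g) _ _)
      left_inv := fun w => Subtype.ext (BASE3_inv ρ g w)
      right_inv := fun w => Subtype.ext (BASE3_inv' ρ g w)
      norm_map' := fun w => (ρ g).norm_map w }
  map_one' := by
    ext w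
    change ρ 1 w = w
    rw [map_one]
    rfl
  map_mul' g h := by
    ext w
    change ρ (g * h) w = ρ g (ρ h w)
    rw [map_mul]
    rfl

lemma BASE3_rs_apply (ρ : SO X →* (E ≃ₗᵢ[ℝ] E)) (W : Submodule ℝ E)
    (hW : ∀ g, ∀ w ∈ W, ρ g w ∈ W) (g : SO X) (w : W) :
    ((BASE3_rs ρ W hW g w : W) : E) = ρ g w := rfl

lemma BASE3_PR (ρ : SO X →* (E ≃ₗᵢ[ℝ] E)) (W : Submodule ℝ E) (hW : ∀ g, ∀ w ∈ W, ρ g w ∈ W)
    (h : PR ρ) : PR (BASE3_rs ρ W hW) := by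
  obtain ⟨k, hk⟩ := h
  refine ⟨k, fun x y => ?_⟩
  obtain ⟨Q, hQ, h⟩ := hk x y
  exact ⟨Q, hQ, fun g => by rw [← h g]; rfl⟩

lemma BASE3_mem_sub (g : SO X) : g ∈ sub (univ : Finset X) := by
  intro i j hij
  simp at hij

lemma BASE3_P_zero [FiniteDimensional ℝ E] (ρ : SO X →* (E ≃ₗᵢ[ℝ] E)) (v : E) :
    P ρ univ v = 0 ↔ ∀ u : E, (∀ g, ρ g u = u) → inner ℝ u v = 0 := by
  unfold P
  rw [Submodule.starProjection_apply_eq_zero_iff, Submodule.mem_orthogonal]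
  constructor
  · intro h u hu
    exact h u (fun g _ => hu g)
  · intro h u hu
    exact h u (fun g => hu g (BASE3_mem_sub g))

lemma BASE3_orth (ρ : SO X →* (E ≃ₗᵢ[ℝ] E)) (W : Submodule ℝ E) (hW : ∀ g, ∀ w ∈ W, ρ g w ∈ W) :
    ∀ g, ∀ w ∈ Wᗮ, ρ g w ∈ Wᗮ := by
  intro g w hw
  rw [Submodule.mem_orthogonal] at hw ⊢
  intro u hu
  have h1 : ρ g (ρ g⁻¹ u) = u := BASE3_inv' ρ g u
  rw [← h1, LinearIsometryEquiv.inner_map_map]
  exact hw _ (hW g⁻¹ u hu)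

end BASE3

lemma BASE3_claim (d₀ : ℕ) (c : ℝ) (hc : 0 < c)
    (hB : ∀ (E : Type) [NormedAddCommGroup E] [InnerProductSpace ℝ E] [FiniteDimensional ℝ E]
      (ρ : SO (Fin 3) →* (E ≃ₗᵢ[ℝ] E)), PR ρ → Irr ρ → d₀ ≤ Module.finrank ℝ E →
      ∀ v : E, c * ‖v‖ ^ 2 ≤ ∑ i, ‖ρ (rho (gq i)) v - v‖ ^ 2)
    (hS : ∀ (E : Type) [NormedAddCommGroup E] [InnerProductSpace ℝ E] [FiniteDimensional ℝ E]
      (ρ : SO (Fin 3) →* (E ≃ₗᵢ[ℝ] E)), PR ρ → Module.finrank ℝ E ≤ d₀ →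
      ∀ v : E, P ρ univ v = 0 → c * ‖v‖ ^ 2 ≤ ∑ i, ‖ρ (rho (gq i)) v - v‖ ^ 2) :
    ∀ (n : ℕ) (E : Type) [NormedAddCommGroup E] [InnerProductSpace ℝ E] [FiniteDimensional ℝ E]
      (ρ : SO (Fin 3) →* (E ≃ₗᵢ[ℝ] E)), Module.finrank ℝ E ≤ n → PR ρ →
      ∀ v : E, P ρ univ v = 0 → c * ‖v‖ ^ 2 ≤ ∑ i, ‖ρ (rho (gq i)) v - v‖ ^ 2 := by
  intro n
  induction n with
  | zero =>
    intro E _ _ _ ρ hn hρ v hv
    exact hS E ρ hρ (hn.trans (Nat.zero_le _)) v hv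
  | succ n ih =>
    intro E _ _ _ ρ hn hρ v hv
    by_cases hsmall : Module.finrank ℝ E ≤ d₀
    · exact hS E ρ hρ hsmall v hv
    by_cases hirr : Irr ρ
    · exact hB E ρ hρ hirr (not_le.1 hsmall).le v
    unfold Irr at hirr
    push Not at hirr
    obtain ⟨W, hW, hbot, htop⟩ := hirr
    have hW' := BASE3_orth ρ W hW
    have hsum : Module.finrank ℝ W + Module.finrank ℝ Wᗮ = Module.finrank ℝ E :=
      Submodule.finrank_add_finrank_orthogonal W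
    have h1 : 0 < Module.finrank ℝ W := by
      rw [Module.finrank_pos_iff]
      exact Submodule.nontrivial_iff_ne_bot.2 hbot
    have h2 : Module.finrank ℝ W < Module.finrank ℝ E := Submodule.finrank_lt htop
    have hv' := (BASE3_P_zero ρ v).1 hv
    obtain ⟨y, hy, z, hz, hyz⟩ := W.exists_add_mem_mem_orthogonal v
    obtain ⟨w, hw⟩ : ∃ w : W, (w : E) = y := ⟨⟨y, hy⟩, rfl⟩
    obtain ⟨w', hw'⟩ : ∃ w' : Wᗮ, (w' : E) = z := ⟨⟨z, hz⟩, rfl⟩
    have hdec : v = (w : E) + (w' : E) := by rw [hw, hw', hyz]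
    have hPw : P (BASE3_rs ρ W hW) univ w = 0 := by
      rw [BASE3_P_zero]
      intro u hu
      have h3 := hv' (u : E) (fun g => congrArg Subtype.val (hu g))
      rw [hdec, inner_add_right, Submodule.inner_right_of_mem_orthogonal u.2 w'.2, add_zero] at h3
      exact h3
    have hPw' : P (BASE3_rs ρ Wᗮ hW') univ w' = 0 := by
      rw [BASE3_P_zero]
      intro u hu
      have h3 := hv' (u : E) (fun g => congrArg Subtype.val (hu g))
      rw [hdec, inner_add_right, Submodule.inner_left_of_mem_orthogonal w.2 u.2, zero_add] at h3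
      exact h3
    have i1 := ih W (BASE3_rs ρ W hW) (by omega) (BASE3_PR ρ W hW hρ) w hPw
    have i2 := ih Wᗮ (BASE3_rs ρ Wᗮ hW') (by omega) (BASE3_PR ρ Wᗮ hW' hρ) w' hPw'
    have hnorm : ‖v‖ ^ 2 = ‖w‖ ^ 2 + ‖w'‖ ^ 2 := by
      have h3 : inner ℝ (w : E) (w' : E) = 0 := Submodule.inner_right_of_mem_orthogonal w.2 w'.2
      have h4 := norm_add_sq_real (w : E) (w' : E)
      rw [h3, ← hdec] at h4
      rw [h4, Submodule.coe_norm, Submodule.coe_norm]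
      ring
    have hdisp : ∀ g : SO (Fin 3), ‖ρ g v - v‖ ^ 2 =
        ‖BASE3_rs ρ W hW g w - w‖ ^ 2 + ‖BASE3_rs ρ Wᗮ hW' g w' - w'‖ ^ 2 := by
      intro g
      have h5 : ρ g v - v = (((BASE3_rs ρ W hW g w - w : W) : E)) +
          ((BASE3_rs ρ Wᗮ hW' g w' - w' : Wᗮ) : E) := by
        rw [Submodule.coe_sub, Submodule.coe_sub, BASE3_rs_apply, BASE3_rs_apply]
        conv_lhs => rw [hdec, map_add]
        abel
      have h3 : inner ℝ (((BASE3_rs ρ W hW g w - w : W) : E))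
          ((BASE3_rs ρ Wᗮ hW' g w' - w' : Wᗮ) : E) = 0 :=
        Submodule.inner_right_of_mem_orthogonal (Subtype.property _) (Subtype.property _)
      have h4 := norm_add_sq_real (((BASE3_rs ρ W hW g w - w : W) : E))
          ((BASE3_rs ρ Wᗮ hW' g w' - w' : Wᗮ) : E)
      rw [h5, h4, h3, Submodule.coe_norm, Submodule.coe_norm]
      ring
    calc c * ‖v‖ ^ 2 = c * ‖w‖ ^ 2 + c * ‖w'‖ ^ 2 := by rw [hnorm]; ring
      _ ≤ ∑ i, ‖BASE3_rs ρ W hW (rho (gq i)) w - w‖ ^ 2 +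
          ∑ i, ‖BASE3_rs ρ Wᗮ hW' (rho (gq i)) w' - w'‖ ^ 2 := add_le_add i1 i2
      _ = ∑ i, ‖ρ (rho (gq i)) v - v‖ ^ 2 := by
        rw [← Finset.sum_add_distrib]
        exact Finset.sum_congr rfl fun i _ => (hdisp _).symm

theorem BASE3 (hB : ST_BIG) (hS : ST_SMALL) : ST_BASE3 := by
  obtain ⟨d₀, c1, hc1, hB⟩ := hB
  obtain ⟨c2, hc2, hS⟩ := hS d₀
  set c := min c1 c2 with hcdef
  have hc : 0 < c := lt_min hc1 hc2
  have hclaim := BASE3_claim d₀ c hc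
    (fun E _ _ _ ρ h1 h2 h3 v => le_trans
      (mul_le_mul_of_nonneg_right (min_le_left _ _) (by positivity)) (hB E ρ h1 h2 h3 v))
    (fun E _ _ _ ρ h1 h2 v h3 => le_trans
      (mul_le_mul_of_nonneg_right (min_le_right _ _) (by positivity)) (hS E ρ h1 h2 v h3))
  refine ⟨Real.sqrt (3 / c), Real.sqrt_pos.2 (by positivity), ?_⟩
  intro E _ _ _ ρ hρ v η hη
  have hη0 : 0 ≤ η := (norm_nonneg _).trans (hη 0)
  set w := v - P ρ univ v with hw
  have hfix : ∀ g, ρ g (P ρ univ v) = P ρ univ v := by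
    intro g
    have h1 : P ρ univ v ∈ fixS ρ (sub univ) := by
      unfold P
      exact Submodule.starProjection_apply_mem _ _
    exact h1 g (BASE3_mem_sub g)
  have hPw : P ρ univ w = 0 := by
    rw [hw, map_sub, sub_eq_zero]
    symm
    unfold P
    exact Submodule.starProjection_eq_self_iff.2 (Submodule.starProjection_apply_mem _ _)
  have h1 := hclaim (Module.finrank ℝ E) E ρ le_rfl hρ w hPw
  have h2 : ∀ g, ρ g w - w = ρ g v - v := by
    intro g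
    rw [hw, map_sub, hfix]
    abel
  have h3 : c * ‖w‖ ^ 2 ≤ 3 * η ^ 2 := by
    refine h1.trans ?_
    calc ∑ i : Fin 3, ‖ρ (rho (gq i)) w - w‖ ^ 2 ≤ ∑ _i : Fin 3, η ^ 2 := by
          refine Finset.sum_le_sum fun i _ => ?_
          rw [h2]
          exact pow_le_pow_left₀ (norm_nonneg _) (hη i) 2
      _ = 3 * η ^ 2 := by
          rw [Finset.sum_const, Finset.card_univ, Fintype.card_fin, nsmul_eq_mul]
          norm_num
  have h4 : ‖w‖ ^ 2 ≤ (Real.sqrt (3 / c) * η) ^ 2 := by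
    rw [mul_pow, Real.sq_sqrt (by positivity)]
    rw [div_mul_eq_mul_div, le_div_iff₀ hc]
    linarith
  exact (pow_le_pow_iff_left₀ (norm_nonneg _) (by positivity) two_ne_zero).1 h4

end

end SG23
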