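import Pool.Agent.N23.SG.BStm

/-! Project SG (helper23), part BIG. -/

set_option autoImplicit false

namespace SG23
open Finset MeasureTheory Quaternion
open Pool.Agent.H762R3.UQ Pool.Agent.H762R3.Rot

/-! ### the largest eigenvalue -/

section eig
variable {E : Type} [NormedAddCommGroup E] [InnerProductSpace ℝ E]

/-- the sum of the `g i` and their inverses -/
noncomputable def bigA (g : Fin 3 → (E ≃ₗᵢ[ℝ] E)) : E →ₗ[ℝ] E :=
  ∑ i, ((g i).toLinearEquiv.toLinearMap + (g i)⁻¹.toLinearEquiv.toLinearMap)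

lemma bigA_apply (g : Fin 3 → (E ≃ₗᵢ[ℝ] E)) (v : E) :
    bigA g v = ∑ i, (g i v + (g i)⁻¹ v) := by
  simp [bigA, LinearMap.sum_apply]

lemma big_adj (g : E ≃ₗᵢ[ℝ] E) (v w : E) : inner ℝ (g v) w = inner ℝ v (g⁻¹ w) := by
  have h : w = g (g⁻¹ w) := (g.apply_symm_apply w).symm
  conv_lhs => rw [h]
  exact g.inner_map_map v _

lemma big_adj' (g : E ≃ₗᵢ[ℝ] E) (v w : E) : inner ℝ (g⁻¹ v) w = inner ℝ v (g w) := by
  have := big_adj g⁻¹ v w
  rwa [inv_inv] at this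

lemma bigA_symm (g : Fin 3 → (E ≃ₗᵢ[ℝ] E)) : (bigA g).IsSymmetric := by
  intro v w
  rw [bigA_apply, bigA_apply, sum_inner, inner_sum]
  refine Finset.sum_congr rfl fun i _ => ?_
  rw [inner_add_left, inner_add_right, big_adj, big_adj']
  ring

lemma big_energy (g : Fin 3 → (E ≃ₗᵢ[ℝ] E)) (v : E) :
    ∑ i, ‖g i v - v‖ ^ 2 = 6 * ‖v‖ ^ 2 - inner ℝ (bigA g v) v := by
  rw [bigA_apply, sum_inner]
  have h : ∀ i, ‖g i v - v‖ ^ 2 = 2 * ‖v‖ ^ 2 - inner ℝ (g i v + (g i)⁻¹ v) v := by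
    intro i
    rw [norm_sub_sq_real, (g i).norm_map, inner_add_left, big_adj', real_inner_comm v (g i v)]
    ring
  rw [Finset.sum_congr rfl fun i _ => h i, Finset.sum_sub_distrib]
  simp
  ring

lemma big_rayleigh [FiniteDimensional ℝ E] (T : E →ₗ[ℝ] E) (hT : T.IsSymmetric) (L : ℝ)
    (h : ∀ (v : E) (l : ℝ), ‖v‖ = 1 → T v = l • v → l ≤ L) (v : E) :
    inner ℝ (T v) v ≤ L * ‖v‖ ^ 2 := by
  let b := hT.eigenvectorBasis (rfl : Module.finrank ℝ E = Module.finrank ℝ E)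
  let ev := hT.eigenvalues (rfl : Module.finrank ℝ E = Module.finrank ℝ E)
  have hb : ∀ i, T (b i) = ev i • b i := fun i => by
    have := hT.apply_eigenvectorBasis (rfl : Module.finrank ℝ E = Module.finrank ℝ E) i
    exact_mod_cast this
  have hL : ∀ i, ev i ≤ L := fun i => h (b i) (ev i) (b.orthonormal.1 i) (hb i)
  have h1 : inner ℝ (T v) v = ∑ i, ev i * (inner ℝ (b i) v) ^ 2 := by
    have h2 : T v = ∑ i, inner ℝ (b i) v • (ev i • b i) := by
      conv_lhs => rw [← b.sum_repr' v, map_sum]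
      refine Finset.sum_congr rfl fun i _ => ?_
      rw [map_smul, hb]
    rw [h2, sum_inner]
    refine Finset.sum_congr rfl fun i _ => ?_
    rw [inner_smul_left, inner_smul_left]
    simp
    ring
  have h3 : ‖v‖ ^ 2 = ∑ i, (inner ℝ (b i) v) ^ 2 := by
    rw [← b.sum_sq_norm_inner_right v]
    refine Finset.sum_congr rfl fun i _ => ?_
    rw [Real.norm_eq_abs, sq_abs]
  rw [h1, h3, Finset.mul_sum]
  exact Finset.sum_le_sum fun i _ => mul_le_mul_of_nonneg_right (hL i) (sq_nonneg _)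

end eig

/-! ### numbers -/

lemma big_theta (l : ℝ) (hl : 11 / 2 < l) : ∃ θ : ℝ, 19 / 10 < θ ∧
    l = Real.sqrt 5 * (θ + 1 / θ) := by
  have h5 : 0 < Real.sqrt 5 := by positivity
  have h5s : Real.sqrt 5 ^ 2 = 5 := Real.sq_sqrt (by norm_num)
  have h5u : Real.sqrt 5 < 2.2361 := by
    rw [Real.sqrt_lt' (by norm_num)]
    norm_num
  set s := l / Real.sqrt 5 with hs
  have hs1 : 2.4596 < s := by
    rw [hs, lt_div_iff₀ h5]
    nlinarith
  have hD : 0 < s ^ 2 - 4 := by nlinarith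
  set r := Real.sqrt (s ^ 2 - 4) with hr
  have hr0 : 0 < r := Real.sqrt_pos.2 hD
  have hr2 : r ^ 2 = s ^ 2 - 4 := Real.sq_sqrt hD.le
  have hr1 : 1.4 < r := by
    by_contra h
    push Not at h
    nlinarith
  refine ⟨(s + r) / 2, by linarith, ?_⟩
  have h2 : (s + r) / 2 + 1 / ((s + r) / 2) = s := by
    have h3 : s + r ≠ 0 := by nlinarith
    field_simp
    nlinarith
  rw [h2, hs]
  field_simp

/-- growth: `C (l + 1) (5^(1/50) 5^(2/3))^l < (361/100)^l` for large `l` -/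
lemma big_growth (C : ℝ) (hC : 0 < C) : ∃ l0 : ℕ, ∀ l : ℕ, l0 ≤ l →
    C * (l + 1) * (5 : ℝ) ^ ((l : ℝ) / 50) * ((5 : ℝ) ^ ((2 : ℝ) / 3)) ^ l <
      ((361 : ℝ) / 100) ^ l := by
  set a : ℝ := (5 : ℝ) ^ ((1 : ℝ) / 50) with ha
  set b : ℝ := (5 : ℝ) ^ ((2 : ℝ) / 3) with hb
  have ha0 : 0 < a := by positivity
  have hb0 : 0 < b := by positivity
  have hab : a * b < 361 / 100 := by
    have h1 : (a * b) ^ 150 < (361 / 100 : ℝ) ^ 150 := by
      have h2 : a ^ 150 = 5 ^ 3 := by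
        rw [ha, ← Real.rpow_natCast, ← Real.rpow_mul (by norm_num)]
        norm_num
      have h3 : b ^ 150 = 5 ^ 100 := by
        rw [hb, ← Real.rpow_natCast, ← Real.rpow_mul (by norm_num)]
        norm_num
      rw [mul_pow, h2, h3]
      norm_num
    exact lt_of_pow_lt_pow_left₀ 150 (by norm_num) h1
  set r : ℝ := a * b / (361 / 100) with hr
  have hr0 : 0 < r := by positivity
  have hr1 : r < 1 := by
    rw [hr, div_lt_one (by norm_num)]
    exact hab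
  have h1 : Filter.Tendsto (fun l : ℕ => C * (((l : ℝ) * r ^ l) + r ^ l)) Filter.atTop
      (nhds (C * (0 + 0))) := by
    apply Filter.Tendsto.const_mul
    apply Filter.Tendsto.add
    · exact tendsto_self_mul_const_pow_of_lt_one hr0.le hr1
    · exact tendsto_pow_atTop_nhds_zero_of_lt_one hr0.le hr1
  rw [add_zero, mul_zero] at h1
  have h2 := h1.eventually (gt_mem_nhds (zero_lt_one))
  obtain ⟨l0, hl0⟩ := Filter.eventually_atTop.1 h2
  refine ⟨l0, fun l hl => ?_⟩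
  have h3 := hl0 l hl
  have h4 : (5 : ℝ) ^ ((l : ℝ) / 50) = a ^ l := by
    rw [ha, ← Real.rpow_natCast, ← Real.rpow_mul (by norm_num)]
    congr 1
    ring
  have h5 : r ^ l * (361 / 100) ^ l = a ^ l * b ^ l := by
    rw [← mul_pow, ← mul_pow, hr]
    congr 1
    field_simp
  have h6 : (0 : ℝ) < (361 / 100) ^ l := by positivity
  rw [h4]
  calc C * (l + 1) * a ^ l * b ^ l = C * (l + 1) * (a ^ l * b ^ l) := by ring
    _ = C * ((l : ℝ) * r ^ l + r ^ l) * (361 / 100) ^ l := by rw [← h5]; ring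
    _ < 1 * (361 / 100) ^ l := by
        exact mul_lt_mul_of_pos_right h3 h6
    _ = (361 / 100) ^ l := one_mul _

theorem BIG (hB : ST_BALL) (hC : ST_CNTB) (hG : ST_GJS) : ST_BIG := by
  obtain ⟨c0, hc0, hB⟩ := hB
  obtain ⟨C, hC0, hC⟩ := hC
  obtain ⟨l0, hl0⟩ := big_growth (1312 * C / c0) (by positivity)
  refine ⟨5 ^ l0, 1 / 2, by norm_num, ?_⟩
  intro E _ _ _ ρ hPR hIrr hd v
  set d : ℕ := Module.finrank ℝ E with hdd
  have hd1 : 1 ≤ d := le_trans (Nat.one_le_pow _ _ (by norm_num)) hd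
  have hdR : (1 : ℝ) ≤ d := by exact_mod_cast hd1
  -- all eigenvalues are at most 11/2
  have key : ∀ (v : E) (l : ℝ), ‖v‖ = 1 → bigA (fun i => ρ (rho (gq i))) v = l • v →
      l ≤ 11 / 2 := by
    intro v lam hv hev
    by_contra hlam
    push Not at hlam
    obtain ⟨θ, hθ, hθ2⟩ := big_theta lam hlam
    have hev' : ∑ i, (ρ (rho (gq i)) v + ρ (rho (gq i))⁻¹ v) =
        (Real.sqrt 5 * (θ + 1 / θ)) • v := by
      rw [← hθ2, ← hev, bigA_apply]
      refine Finset.sum_congr rfl fun i _ => ?_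
      rw [map_inv]
    set δ : ℝ := 1 / (8 * d) with hδ
    have hδ0 : 0 < δ := by positivity
    have hδ1 : δ ≤ 1 := by
      rw [hδ, div_le_one (by positivity)]
      linarith
    have hdδ : 8 * (d : ℝ) * δ = 1 := by
      rw [hδ]
      field_simp
    -- choice of l
    have hX : (1 : ℝ) ≤ (8 * d) ^ 3 := one_le_pow₀ (by linarith)
    obtain ⟨m, hm1, hm2⟩ := exists_nat_pow_near hX (by norm_num : (1 : ℝ) < 5)
    set l : ℕ := m + 1 with hl
    have hl2 : (5 : ℝ) ^ l ≤ 5 * (8 * d) ^ 3 := by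
      rw [hl, pow_succ]
      linarith
    have hlbig : l0 ≤ l := by
      have h1 : (5 : ℝ) ^ l0 ≤ d := by exact_mod_cast hd
      have h2 : (d : ℝ) ≤ (8 * d) ^ 3 := by
        nlinarith [mul_nonneg (by linarith : (0 : ℝ) ≤ d) (by linarith : (0 : ℝ) ≤ d),
          mul_nonneg (mul_nonneg (by linarith : (0 : ℝ) ≤ d) (by linarith : (0 : ℝ) ≤ d))
            (by linarith : (0 : ℝ) ≤ d)]
      have h3 : (5 : ℝ) ^ l0 < 5 ^ l := lt_of_le_of_lt (h1.trans h2) hm2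
      exact ((pow_lt_pow_iff_right₀ (by norm_num : (1 : ℝ) < 5)).1 h3).le
    have g1 := hG E ρ hPR hIrr v hv θ (by linarith) hev' δ hδ0 hdδ.le l
    have g2 := hB δ hδ0 hδ1
    have g3 := hC l (2 * δ) (by positivity) (by linarith)
    have hL5 : (0 : ℝ) < 5 ^ l := by positivity
    have hx0 : (0 : ℝ) < (5 : ℝ) ^ ((l : ℝ) / 50) := by positivity
    have hδ8 : δ * (8 * d) = 1 := by linarith
    have hδ3 : δ ^ 3 * (8 * d) ^ 3 = 1 := by rw [← mul_pow, hδ8, one_pow]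
    have g4 : (2 * δ) ^ 3 * 5 ^ l + 1 ≤ 41 := by
      have : δ ^ 3 * 5 ^ l ≤ 5 := by
        calc δ ^ 3 * 5 ^ l ≤ δ ^ 3 * (5 * (8 * d) ^ 3) := by gcongr
          _ = 5 * (δ ^ 3 * (8 * d) ^ 3) := by ring
          _ = 5 := by rw [hδ3, mul_one]
      nlinarith
    have hθ0 : 0 < θ := by linarith
    -- the main inequality
    have g5 : (5 * θ ^ 2) ^ l * (c0 * δ ^ 3) * d ≤
        4 * (C * (l + 1) * 5 ^ l * (5 : ℝ) ^ ((l : ℝ) / 50) * 41) := by
      calc (5 * θ ^ 2) ^ l * (c0 * δ ^ 3) * d ≤ (5 * θ ^ 2) ^ l *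
            ((mu4 : Measure U) {q : U | ‖(q : ℍ[ℝ]) - 1‖ ≤ δ}).toReal * d := by gcongr
        _ ≤ _ := g1
        _ ≤ 4 * (C * (l + 1) * 5 ^ l * (5 : ℝ) ^ ((l : ℝ) / 50) *
            ((2 * δ) ^ 3 * 5 ^ l + 1)) := by
            exact mul_le_mul_of_nonneg_left g3 (by norm_num)
        _ ≤ _ := by gcongr
    have g6 : (θ ^ 2) ^ l * δ ^ 2 ≤
        1312 * C / c0 * (l + 1) * (5 : ℝ) ^ ((l : ℝ) / 50) := by
      have e1 : (5 * θ ^ 2) ^ l * (c0 * δ ^ 3) * d =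
          5 ^ l * c0 / 8 * ((θ ^ 2) ^ l * δ ^ 2) * (8 * d * δ) := by
        rw [mul_pow]; ring
      rw [e1, hdδ, mul_one] at g5
      have e2 : 4 * (C * (l + 1) * 5 ^ l * (5 : ℝ) ^ ((l : ℝ) / 50) * 41) =
          5 ^ l * c0 / 8 * (1312 * C / c0 * (l + 1) * (5 : ℝ) ^ ((l : ℝ) / 50)) := by
        field_simp
        ring
      rw [e2] at g5
      exact le_of_mul_le_mul_left g5 (by positivity)
    have g7 : 1 ≤ δ ^ 2 * ((5 : ℝ) ^ ((2 : ℝ) / 3)) ^ l := by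
      set b : ℝ := (5 : ℝ) ^ ((2 : ℝ) / 3) with hb
      have hb0 : 0 < b := by positivity
      have hb3 : b ^ 3 = 25 := by
        rw [hb, ← Real.rpow_natCast, ← Real.rpow_mul (by norm_num)]
        norm_num
      have h1 : (1 : ℝ) ^ 3 ≤ (δ ^ 2 * b ^ l) ^ 3 := by
        have h2 : (δ ^ 2 * b ^ l) ^ 3 = (δ ^ 3 * 5 ^ l) ^ 2 := by
          have h3 : (b ^ l) ^ 3 = (5 ^ l) ^ 2 := by
            rw [← pow_mul, mul_comm l 3, pow_mul, hb3, ← pow_mul, mul_comm l 2, pow_mul]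
            norm_num
          rw [mul_pow, h3]
          ring
        have h4 : 1 ≤ δ ^ 3 * 5 ^ l := by
          rw [← hδ3]
          exact mul_le_mul_of_nonneg_left hm2.le (by positivity)
        rw [h2, one_pow]
        exact one_le_pow₀ h4
      exact le_of_pow_le_pow_left₀ (by norm_num) (by positivity) h1
    have g8 : (θ ^ 2) ^ l ≤ 1312 * C / c0 * (l + 1) * (5 : ℝ) ^ ((l : ℝ) / 50) *
        ((5 : ℝ) ^ ((2 : ℝ) / 3)) ^ l := by
      calc (θ ^ 2) ^ l = (θ ^ 2) ^ l * 1 := (mul_one _).symm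
        _ ≤ (θ ^ 2) ^ l * (δ ^ 2 * ((5 : ℝ) ^ ((2 : ℝ) / 3)) ^ l) := by gcongr
        _ = ((θ ^ 2) ^ l * δ ^ 2) * ((5 : ℝ) ^ ((2 : ℝ) / 3)) ^ l := by ring
        _ ≤ _ := by gcongr
    have g9 := hl0 l hlbig
    have g10 : ((361 : ℝ) / 100) ^ l ≤ (θ ^ 2) ^ l := by
      apply pow_le_pow_left₀ (by norm_num)
      nlinarith
    linarith
  have h1 := big_energy (fun i => ρ (rho (gq i))) v
  have h2 := big_rayleigh (bigA (fun i => ρ (rho (gq i)))) (bigA_symm _) (11 / 2) key v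
  rw [h1]
  linarith

end SG23
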