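import Pool.Agent.N23.SG.BStm

/-! SG/CNTB: close pairs of reduced words (helper195). -/

namespace SG23
open Finset MeasureTheory Quaternion
open Pool.Agent.H762R3.UQ Pool.Agent.H762R3.Rot

theorem CNTB_alg {a b δ : ℝ} (ha : 1 ≤ a) (hb : 1 ≤ b) (hδ : 0 < δ) (hδ2 : δ ≤ 2) :
    b * ((δ ^ 2 * a + 1) * (δ * a + 1)) ≤ 7 * (a * b) * (δ ^ 3 * (a * b) + 1) := by
  have hab : 0 ≤ a * b := by positivity
  have h1 : b ≤ a * b := by nlinarith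
  have h2 : a * a * b ≤ (a * b) * (a * b) := by
    have : 0 ≤ a * a * b := by positivity
    nlinarith
  have h3 : δ ^ 2 ≤ 4 := by nlinarith
  have h4 : δ ^ 3 * (a * a * b) ≤ δ ^ 3 * ((a * b) * (a * b)) :=
    mul_le_mul_of_nonneg_left h2 (by positivity)
  have h5 : δ ^ 2 * (a * b) ≤ 4 * (a * b) := mul_le_mul_of_nonneg_right h3 hab
  have h6 : δ * (a * b) ≤ 2 * (a * b) := mul_le_mul_of_nonneg_right hδ2 hab
  have h7 : 0 ≤ δ ^ 3 * ((a * b) * (a * b)) := by positivity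
  have h8 : b * ((δ ^ 2 * a + 1) * (δ * a + 1)) =
      δ ^ 3 * (a * a * b) + δ ^ 2 * (a * b) + δ * (a * b) + b := by ring
  have h9 : 7 * (a * b) * (δ ^ 3 * (a * b) + 1) =
      7 * (δ ^ 3 * ((a * b) * (a * b))) + 7 * (a * b) := by ring
  rw [h8, h9]
  linarith

open Classical in
theorem CNTB (hP : ST_PAIRC) (hF : ST_FREEQ) (hN : ST_NNB) : ST_CNTB := by
  obtain ⟨C₀, hC₀, hN⟩ := hN
  refine ⟨9 * C₀, by positivity, fun l δ hδ hδ2 => ?_⟩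
  have h1 := hP U gq (fun q => ‖(q : ℍ[ℝ]) - 1‖ ≤ δ) l
  have hterm : ∀ m ∈ range (l + 1),
      6 / 5 * (5 : ℝ) ^ (l - m) * #((RW (2 * m)).filter fun z => ‖((wp gq z : U) : ℍ[ℝ]) - 1‖ ≤ δ) ≤
        9 * C₀ * 5 ^ l * (5 : ℝ) ^ ((l : ℝ) / 50) * (δ ^ 3 * 5 ^ l + 1) := by
    intro m hm
    rw [mem_range] at hm
    have hml : m ≤ l := by omega
    have h2 : (#((RW (2 * m)).filter fun z => ‖((wp gq z : U) : ℍ[ℝ]) - 1‖ ≤ δ) : ℝ) ≤ NN m δ := by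
      exact_mod_cast hF m δ
    have h3 := h2.trans (hN m δ hδ hδ2)
    have h4 : (5 : ℝ) ^ ((m : ℝ) / 50) ≤ (5 : ℝ) ^ ((l : ℝ) / 50) := by
      apply Real.rpow_le_rpow_of_exponent_le (by norm_num)
      have : (m : ℝ) ≤ l := by exact_mod_cast hml
      linarith
    have ha : (1 : ℝ) ≤ 5 ^ m := one_le_pow₀ (by norm_num)
    have hb : (1 : ℝ) ≤ 5 ^ (l - m) := one_le_pow₀ (by norm_num)
    have hab : (5 : ℝ) ^ m * 5 ^ (l - m) = 5 ^ l := by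
      rw [← pow_add]
      congr 1
      omega
    have h5 := CNTB_alg ha hb hδ hδ2
    rw [hab] at h5
    have h6 : 0 < (5 : ℝ) ^ ((l : ℝ) / 50) := by positivity
    have h7 : 0 ≤ 7 * (5 : ℝ) ^ l * (δ ^ 3 * 5 ^ l + 1) := by positivity
    calc 6 / 5 * (5 : ℝ) ^ (l - m) * #((RW (2 * m)).filter fun z => ‖((wp gq z : U) : ℍ[ℝ]) - 1‖ ≤ δ)
        ≤ 6 / 5 * (5 : ℝ) ^ (l - m) * (C₀ * (δ ^ 2 * 5 ^ m + 1) * (δ * 5 ^ m + 1) *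
            (5 : ℝ) ^ ((m : ℝ) / 50)) := mul_le_mul_of_nonneg_left h3 (by positivity)
      _ ≤ 6 / 5 * (5 : ℝ) ^ (l - m) * (C₀ * (δ ^ 2 * 5 ^ m + 1) * (δ * 5 ^ m + 1) *
            (5 : ℝ) ^ ((l : ℝ) / 50)) := by
          apply mul_le_mul_of_nonneg_left _ (by positivity)
          exact mul_le_mul_of_nonneg_left h4 (by positivity)
      _ = 6 / 5 * C₀ * (5 : ℝ) ^ ((l : ℝ) / 50) *
            ((5 : ℝ) ^ (l - m) * ((δ ^ 2 * 5 ^ m + 1) * (δ * 5 ^ m + 1))) := by ring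
      _ ≤ 6 / 5 * C₀ * (5 : ℝ) ^ ((l : ℝ) / 50) * (7 * (5 : ℝ) ^ l * (δ ^ 3 * 5 ^ l + 1)) :=
          mul_le_mul_of_nonneg_left h5 (by positivity)
      _ ≤ 9 * C₀ * 5 ^ l * (5 : ℝ) ^ ((l : ℝ) / 50) * (δ ^ 3 * 5 ^ l + 1) := by
          have h8 : 0 ≤ C₀ * (5 : ℝ) ^ ((l : ℝ) / 50) * ((5 : ℝ) ^ l * (δ ^ 3 * 5 ^ l + 1)) := by
            positivity
          have e1 : 6 / 5 * C₀ * (5 : ℝ) ^ ((l : ℝ) / 50) * (7 * (5 : ℝ) ^ l * (δ ^ 3 * 5 ^ l + 1)) =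
            42 / 5 * (C₀ * (5 : ℝ) ^ ((l : ℝ) / 50) * ((5 : ℝ) ^ l * (δ ^ 3 * 5 ^ l + 1))) := by ring
          have e2 : 9 * C₀ * 5 ^ l * (5 : ℝ) ^ ((l : ℝ) / 50) * (δ ^ 3 * 5 ^ l + 1) =
            9 * (C₀ * (5 : ℝ) ^ ((l : ℝ) / 50) * ((5 : ℝ) ^ l * (δ ^ 3 * 5 ^ l + 1))) := by ring
          rw [e1, e2]
          linarith
  have h2 := sum_le_sum hterm
  rw [sum_const, card_range, nsmul_eq_mul] at h2
  have h3 : ((l + 1 : ℕ) : ℝ) * (9 * C₀ * 5 ^ l * (5 : ℝ) ^ ((l : ℝ) / 50) * (δ ^ 3 * 5 ^ l + 1)) =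
      9 * C₀ * (l + 1) * 5 ^ l * (5 : ℝ) ^ ((l : ℝ) / 50) * (δ ^ 3 * 5 ^ l + 1) := by
    push_cast
    ring
  rw [h3] at h2
  refine le_trans ?_ (h1.trans (le_trans (le_of_eq ?_) h2))
  · apply le_of_eq
    congr 2
  · apply sum_congr rfl
    intro m _
    congr 3

end SG23
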