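import Pool.Agent.N23.SG.Stm

/-!
Project SG (helper23), part COLFN (helper364): matrix coefficients of a vector fixed by
`SO(X \ j)` are functions of the column `j`.
-/

set_option autoImplicit false

namespace SG23
open Finset

section
variable {X : Type} [Fintype X] [DecidableEq X]

theorem colfn_entry (g : SO X) (i j : X) : (g : Matrix X X ℝ) i j ∈ Set.Icc (-1 : ℝ) 1 := by
  have h1 : ∑ k, (g : Matrix X X ℝ) k j * (g : Matrix X X ℝ) k j = 1 := by
    have h := congrFun (congrFun (SO_left g) j) j
    rw [Matrix.mul_apply, Matrix.one_apply_eq] at h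
    exact h
  have h2 : (g : Matrix X X ℝ) i j * (g : Matrix X X ℝ) i j ≤ 1 := by
    rw [← h1]
    exact single_le_sum (f := fun k => (g : Matrix X X ℝ) k j * (g : Matrix X X ℝ) k j)
      (fun k _ => mul_self_nonneg _) (mem_univ i)
  constructor <;> nlinarith

theorem colfn_compact : CompactSpace (SO X) := by
  have hc : IsCompact {A : Matrix X X ℝ | A ∈ Matrix.specialOrthogonalGroup X ℝ} := by
    have h1 : IsCompact (Set.pi Set.univ fun _ : X => Set.pi Set.univ fun _ : X =>
        Set.Icc (-1 : ℝ) 1) :=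
      isCompact_univ_pi fun _ => isCompact_univ_pi fun _ => isCompact_Icc
    refine IsCompact.of_isClosed_subset h1 ?_ ?_
    · have h2 : {A : Matrix X X ℝ | A ∈ Matrix.specialOrthogonalGroup X ℝ} =
          {A : Matrix X X ℝ | A.transpose * A = 1} ∩ {A : Matrix X X ℝ | A.det = 1} := by
        ext A
        exact mem_SO A
      have h3 : IsClosed {A : Matrix X X ℝ | A.transpose * A = 1} :=
        isClosed_eq (continuous_id.matrix_transpose.matrix_mul continuous_id) continuous_const
      have h4 : IsClosed {A : Matrix X X ℝ | A.det = 1} :=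
        isClosed_eq continuous_id.matrix_det continuous_const
      rw [h2]
      exact h3.inter h4
    · intro A hA i _ j _
      exact colfn_entry ⟨A, hA⟩ i j
  exact isCompact_iff_compactSpace.1 hc

theorem colfn_fix (x y : SO X) (j : X)
    (h : ∀ l, (x : Matrix X X ℝ) l j = (y : Matrix X X ℝ) l j) :
    x⁻¹ * y ∈ sub (univ.erase j) := by
  have hg : ((x⁻¹ * y : SO X) : Matrix X X ℝ) =
      (x : Matrix X X ℝ).transpose * (y : Matrix X X ℝ) := by
    rw [← SO_inv]
    rfl
  intro i k hik
  rw [hg, Matrix.mul_apply]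
  simp only [Matrix.transpose_apply]
  have hik' : i = j ∨ k = j := by
    rcases hik with h1 | h1
    · left
      by_contra h2
      exact h1 (mem_erase.2 ⟨h2, mem_univ _⟩)
    · right
      by_contra h2
      exact h1 (mem_erase.2 ⟨h2, mem_univ _⟩)
  rcases hik' with rfl | rfl
  · have h1 := congrFun (congrFun (SO_left y) i) k
    rw [Matrix.mul_apply] at h1
    rw [← h1]
    refine sum_congr rfl fun l _ => ?_
    rw [h l, Matrix.transpose_apply]
  · have h1 := congrFun (congrFun (SO_left x) i) k
    rw [Matrix.mul_apply] at h1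
    rw [← h1]
    refine sum_congr rfl fun l _ => ?_
    rw [← h l, Matrix.transpose_apply]

end

theorem COLFN : ST_COLFN := by
  intro X _ _ E _ _ _ ρ hρ j u w hu ε hε
  have : CompactSpace (SO X) := colfn_compact
  obtain ⟨k, hk⟩ := hρ
  obtain ⟨P, -, hP⟩ := hk u w
  have hent : ∀ a b : X, Continuous fun x : SO X => (x : Matrix X X ℝ) a b := fun a b =>
    (continuous_apply b).comp ((continuous_apply a).comp continuous_subtype_val)
  -- the coefficient as a continuous function
  let f : C(SO X, ℝ) := ⟨fun x => inner ℝ w (ρ x u), by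
    have h1 : (fun x : SO X => inner ℝ w (ρ x u)) =
        fun x : SO X => MvPolynomial.eval (fun p : X × X => (x : Matrix X X ℝ) p.1 p.2) P := by
      funext x
      exact hP x
    rw [h1]
    exact P.continuous_eval.comp (continuous_pi fun p => hent p.1 p.2)⟩
  -- the column
  let π₀ : SO X → (X → ℝ) := fun x l => (x : Matrix X X ℝ) l j
  have hπ₀ : Continuous π₀ := continuous_pi fun l => hent l j
  have : CompactSpace (Set.range π₀) := isCompact_iff_compactSpace.1 (isCompact_range hπ₀)
  let π : C(SO X, Set.range π₀) := ⟨fun x => ⟨π₀ x, x, rfl⟩, hπ₀.subtype_mk _⟩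
  have hπ : Continuous π := π.continuous
  have hπs : Function.Surjective π := by
    rintro ⟨_, x, rfl⟩
    exact ⟨x, rfl⟩
  have hq : Topology.IsQuotientMap π := Topology.IsQuotientMap.of_surjective_continuous hπs hπ
  have hfac : Function.FactorsThrough f π := by
    intro x y hxy
    have h1 : π₀ x = π₀ y := congrArg Subtype.val hxy
    have h2 := colfn_fix x y j fun l => congrFun h1 l
    have h3 := hu _ h2
    show inner ℝ w (ρ x u) = inner ℝ w (ρ y u)
    have h4 : ρ y u = ρ x (ρ (x⁻¹ * y) u) := by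
      have h5 : ρ y = ρ x * ρ (x⁻¹ * y) := by
        rw [← map_mul, mul_inv_cancel_left]
      rw [h5]
      rfl
    rw [h4, h3]
  let Fc : C(Set.range π₀, ℝ) := hq.lift f hfac
  have hFc : ∀ x, Fc (π x) = inner ℝ w (ρ x u) := fun x =>
    DFunLike.congr_fun (hq.lift_comp f hfac) x
  -- the coordinate functions
  let co : X → C(Set.range π₀, ℝ) := fun l =>
    ⟨fun p => p.1 l, (continuous_apply l).comp continuous_subtype_val⟩
  let A : Subalgebra ℝ C(Set.range π₀, ℝ) := (MvPolynomial.aeval co : _ →ₐ[ℝ] _).range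
  have hsep : A.SeparatesPoints := by
    intro p q hpq
    have h1 : ∃ l, p.1 l ≠ q.1 l := by
      by_contra h
      push Not at h
      exact hpq (Subtype.ext (funext h))
    obtain ⟨l, hl⟩ := h1
    refine ⟨co l, ⟨co l, ?_, rfl⟩, hl⟩
    exact ⟨MvPolynomial.X l, by simp⟩
  obtain ⟨⟨G, h, hh⟩, hG⟩ :=
    ContinuousMap.exists_mem_subalgebra_near_continuousMap_of_separatesPoints A hsep Fc ε hε
  refine ⟨h, fun x => ?_⟩
  have hev : ∀ p : Set.range π₀, (MvPolynomial.aeval co h : C(Set.range π₀, ℝ)) p =
      MvPolynomial.eval (fun l => p.1 l) h := by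
    intro p
    have h1 := MvPolynomial.comp_aeval_apply co (ContinuousMap.evalAlgHom ℝ ℝ p) h
    have h2 : (ContinuousMap.evalAlgHom ℝ ℝ p) (MvPolynomial.aeval co h) =
        (MvPolynomial.aeval co h : C(Set.range π₀, ℝ)) p := rfl
    rw [← h2, h1, MvPolynomial.aeval_eq_eval]
    rfl
  have h6 : (MvPolynomial.aeval co h : C(Set.range π₀, ℝ)) = G := hh
  have h7 : ‖G - Fc‖ < ε := hG
  have h8 : ‖(G - Fc) (π x)‖ ≤ ‖G - Fc‖ := ContinuousMap.norm_coe_le_norm _ _
  rw [ContinuousMap.sub_apply, hFc x, ← h6, hev (π x), Real.norm_eq_abs, abs_sub_comm] at h8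
  exact (h8.trans_lt (by rw [h6]; exact h7)).le

end SG23
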