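import Mathlib
import Pool.Agent.N23.SG.Stm

/-!
Project SG (helper23), MP_839d28_al: part COMS, every rotation in dimension `4 k` is a commutator
(helper507).
-/

namespace SG23
open Finset

noncomputable section

section COMS_abs

variable {E : Type} [NormedAddCommGroup E] [InnerProductSpace ℝ E]

/-- `j` orthogonal planes on which `R` is a rotation (if `δ i = 1`) or a reflection
(if `δ i = -1`) -/
def COMS_G (R : E →ₗ[ℝ] E) (j : ℕ) (δ : Fin j → ℝ) : Prop :=
  ∃ (v : Fin j → Fin 2 → E) (c s : Fin j → ℝ), (∀ i, c i ^ 2 + s i ^ 2 = 1) ∧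
    (∀ i, R (v i 0) = c i • v i 0 + s i • v i 1) ∧
    (∀ i, R (v i 1) = δ i • (-s i • v i 0 + c i • v i 1)) ∧
    ∀ i a i' a', inner ℝ (v i a) (v i' a') = if i = i' ∧ a = a' then (1 : ℝ) else 0

lemma COMS_zero (R : E →ₗ[ℝ] E) (δ : Fin 0 → ℝ) : COMS_G R 0 δ :=
  ⟨fun i => i.elim0, fun i => i.elim0, fun i => i.elim0, fun i => i.elim0, fun i => i.elim0,
    fun i => i.elim0, fun i => i.elim0⟩

lemma COMS_add {R : E →ₗ[ℝ] E} {j : ℕ} {δ : Fin j → ℝ} (v : Fin j → Fin 2 → E) (c s : Fin j → ℝ)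
    (h1 : ∀ i, c i ^ 2 + s i ^ 2 = 1)
    (h2 : ∀ i, R (v i 0) = c i • v i 0 + s i • v i 1)
    (h3 : ∀ i, R (v i 1) = δ i • (-s i • v i 0 + c i • v i 1))
    (h4 : ∀ i a i' a', inner ℝ (v i a) (v i' a') = if i = i' ∧ a = a' then (1 : ℝ) else 0)
    (x y : E) (c' s' δ' : ℝ) (g1 : c' ^ 2 + s' ^ 2 = 1) (g2 : R x = c' • x + s' • y)
    (g3 : R y = δ' • (-s' • x + c' • y)) (gx : inner ℝ x x = (1 : ℝ)) (gy : inner ℝ y y = (1 : ℝ))
    (gxy : inner ℝ x y = (0 : ℝ)) (hx : ∀ i a, inner ℝ (v i a) x = (0 : ℝ))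
    (hy : ∀ i a, inner ℝ (v i a) y = (0 : ℝ)) :
    COMS_G R (j + 1) (Fin.cons δ' δ : Fin (j + 1) → ℝ) := by
  refine ⟨(Fin.cons ![x, y] v : Fin (j + 1) → Fin 2 → E), (Fin.cons c' c : Fin (j + 1) → ℝ),
    (Fin.cons s' s : Fin (j + 1) → ℝ), ?_, ?_, ?_, ?_⟩
  · intro i
    refine Fin.cases ?_ (fun i => ?_) i
    · simpa using g1
    · simpa using h1 i
  · intro i
    refine Fin.cases ?_ (fun i => ?_) i
    · simpa using g2
    · simpa using h2 i
  · intro i
    refine Fin.cases ?_ (fun i => ?_) i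
    · simpa using g3
    · simpa using h3 i
  · have gyx : inner ℝ y x = (0 : ℝ) := by rw [real_inner_comm]; exact gxy
    have hx' : ∀ i a, inner ℝ x (v i a) = (0 : ℝ) := fun i a => by
      rw [real_inner_comm]; exact hx i a
    have hy' : ∀ i a, inner ℝ y (v i a) = (0 : ℝ) := fun i a => by
      rw [real_inner_comm]; exact hy i a
    intro i a i' a'
    refine Fin.cases ?_ (fun i => ?_) i
    · refine Fin.cases ?_ (fun i' => ?_) i'
      · fin_cases a <;> fin_cases a' <;> simp [gx, gy, gxy, gyx, -inner_self_eq_norm_sq_to_K,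
          -real_inner_self_eq_norm_sq]
      · have h0 : ¬ ((0 : Fin (j + 1)) = i'.succ ∧ a = a') := by
          rintro ⟨h, -⟩
          exact (Fin.succ_ne_zero i') h.symm
        rw [if_neg h0]
        fin_cases a
        · simpa using hx' i' a'
        · simpa using hy' i' a'
    · refine Fin.cases ?_ (fun i' => ?_) i'
      · have h0 : ¬ (i.succ = (0 : Fin (j + 1)) ∧ a = a') := by
          rintro ⟨h, -⟩
          exact (Fin.succ_ne_zero i) h
        rw [if_neg h0]
        fin_cases a'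
        · simpa using hx i a
        · simpa using hy i a
      · simp only [Fin.cons_succ, h4, Fin.succ_inj]

variable [FiniteDimensional ℝ E]

lemma COMS_step {R Rt : E →ₗ[ℝ] E} (hadj : ∀ x y, inner ℝ (R x) y = inner ℝ x (Rt y))
    (hRt : ∀ x, R (Rt x) = x) (htR : ∀ x, Rt (R x) = x) {j : ℕ}
    (hG : COMS_G R j (fun _ => 1)) (hj : 2 * j + 2 ≤ Module.finrank ℝ E) :
    COMS_G R (j + 1) (fun _ => 1) ∨ (2 * j + 2 = Module.finrank ℝ E ∧
      COMS_G R (j + 1) (Fin.cons (-1) (fun _ => 1) : Fin (j + 1) → ℝ)) := by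
  obtain ⟨v, c, s, h1, h2, h3, h4⟩ := hG
  have hone : (fun _ => 1 : Fin (j + 1) → ℝ) = (Fin.cons 1 (fun _ => 1) : Fin (j + 1) → ℝ) := by
    funext i
    refine Fin.cases ?_ (fun i => ?_) i <;> simp
  rw [hone]
  -- the inverse on the planes
  have ht0 : ∀ i, Rt (v i 0) = c i • v i 0 - s i • v i 1 := by
    intro i
    have : R (c i • v i 0 - s i • v i 1) = v i 0 := by
      rw [map_sub, map_smul, map_smul, h2, h3, one_smul]
      have e : c i • (c i • v i 0 + s i • v i 1) - s i • (-s i • v i 0 + c i • v i 1) =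
          (c i ^ 2 + s i ^ 2) • v i 0 := by module
      rw [e, h1, one_smul]
    rw [← this, htR, this]
  have ht1 : ∀ i, Rt (v i 1) = s i • v i 0 + c i • v i 1 := by
    intro i
    have : R (s i • v i 0 + c i • v i 1) = v i 1 := by
      rw [map_add, map_smul, map_smul, h2, h3, one_smul]
      have e : s i • (c i • v i 0 + s i • v i 1) + c i • (-s i • v i 0 + c i • v i 1) =
          (c i ^ 2 + s i ^ 2) • v i 1 := by module
      rw [e, h1, one_smul]
    rw [← this, htR, this]
  -- the orthogonal complement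
  let F : E →ₗ[ℝ] (Fin j × Fin 2 → ℝ) := LinearMap.pi fun p => innerₛₗ ℝ (v p.1 p.2)
  have hmem : ∀ x, x ∈ LinearMap.ker F ↔ ∀ i a, inner ℝ (v i a) x = (0 : ℝ) := by
    intro x
    rw [LinearMap.mem_ker]
    constructor
    · intro h i a
      exact congrFun h (i, a)
    · intro h
      funext p
      exact h p.1 p.2
  have hadj' : ∀ x y, inner ℝ x (R y) = inner ℝ (Rt x) y := by
    intro x y
    rw [real_inner_comm, hadj, real_inner_comm]
  have hRinv : ∀ x ∈ LinearMap.ker F, R x ∈ LinearMap.ker F := by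
    intro x hx
    rw [hmem] at hx ⊢
    intro i a
    rw [hadj']
    fin_cases a
    · show inner ℝ (Rt (v i 0)) x = (0 : ℝ)
      rw [ht0, inner_sub_left, real_inner_smul_left, real_inner_smul_left, hx, hx]
      ring
    · show inner ℝ (Rt (v i 1)) x = (0 : ℝ)
      rw [ht1, inner_add_left, real_inner_smul_left, real_inner_smul_left, hx, hx]
      ring
  have hRtinv : ∀ x ∈ LinearMap.ker F, Rt x ∈ LinearMap.ker F := by
    intro x hx
    rw [hmem] at hx ⊢
    intro i a
    rw [← hadj]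
    fin_cases a
    · show inner ℝ (R (v i 0)) x = (0 : ℝ)
      rw [h2, inner_add_left, real_inner_smul_left, real_inner_smul_left, hx, hx]
      ring
    · show inner ℝ (R (v i 1)) x = (0 : ℝ)
      rw [h3, one_smul, inner_add_left, real_inner_smul_left, real_inner_smul_left, hx, hx]
      ring
  have hTinv : ∀ x ∈ LinearMap.ker F, (R + Rt) x ∈ LinearMap.ker F := by
    intro x hx
    exact Submodule.add_mem _ (hRinv x hx) (hRtinv x hx)
  obtain ⟨n, hn⟩ : ∃ n, Module.finrank ℝ (LinearMap.ker F) = n := ⟨_, rfl⟩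
  have hn2 : Module.finrank ℝ E ≤ n + 2 * j := by
    have e1 := LinearMap.finrank_range_add_finrank_ker F
    have e2 := Submodule.finrank_le (LinearMap.range F)
    rw [Module.finrank_fintype_fun_eq_card] at e2
    simp only [Fintype.card_prod, Fintype.card_fin] at e2
    omega
  let T : LinearMap.ker F →ₗ[ℝ] LinearMap.ker F := (R + Rt).restrict hTinv
  have hTc : ∀ x : LinearMap.ker F, ((T x : LinearMap.ker F) : E) = R x + Rt x := fun x => rfl
  have hT : T.IsSymmetric := by
    intro x y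
    rw [Submodule.coe_inner, Submodule.coe_inner, hTc, hTc, inner_add_left, inner_add_right,
      hadj, hadj', add_comm]
  obtain ⟨e, he⟩ : ∃ e : Fin n → E, e = fun k => ((hT.eigenvectorBasis hn k : LinearMap.ker F) : E) :=
    ⟨_, rfl⟩
  obtain ⟨l, hl⟩ : ∃ l : Fin n → ℝ, l = fun k => hT.eigenvalues hn k / 2 := ⟨_, rfl⟩
  have heW : ∀ k i a, inner ℝ (v i a) (e k) = (0 : ℝ) := by
    intro k
    rw [he]
    exact (hmem _).1 (hT.eigenvectorBasis hn k).2
  have heo : ∀ k k', inner ℝ (e k) (e k') = if k = k' then (1 : ℝ) else 0 := by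
    intro k k'
    have := (orthonormal_iff_ite.1 (hT.eigenvectorBasis hn).orthonormal) k k'
    rw [he]
    exact this
  have heT : ∀ k, R (e k) + Rt (e k) = (2 * l k) • e k := by
    intro k
    have := congrArg Subtype.val (hT.apply_eigenvectorBasis hn k)
    rw [he, hl]
    rw [show ((fun k => hT.eigenvalues hn k / 2) k) = hT.eigenvalues hn k / 2 from rfl,
      mul_div_cancel₀ _ (two_ne_zero)]
    exact this
  have hWx : ∀ x, (∀ i a, inner ℝ (v i a) x = (0 : ℝ)) → ∀ i a, inner ℝ (v i a) (R x) = (0 : ℝ) :=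
    fun x hx => (hmem _).1 (hRinv x ((hmem x).2 hx))
  have hRR : ∀ x, inner ℝ (R x) (R x) = (inner ℝ x x : ℝ) := by
    intro x
    rw [hadj, htR]
  by_cases hcase : ∃ k, R (e k) ≠ l k • e k
  · -- a rotation by an angle different from 0 and pi
    left
    obtain ⟨k, hk⟩ := hcase
    obtain ⟨x, hx⟩ : ∃ x, x = e k := ⟨_, rfl⟩
    obtain ⟨c', hc'⟩ : ∃ c', c' = l k := ⟨_, rfl⟩
    have hxx : inner ℝ x x = (1 : ℝ) := by rw [hx, heo, if_pos rfl]
    have hxW : ∀ i a, inner ℝ (v i a) x = (0 : ℝ) := by rw [hx]; exact heW k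
    have hxT : R x + Rt x = (2 * c') • x := by rw [hx, hc']; exact heT k
    rw [← hx, ← hc'] at hk
    have hRx : inner ℝ (R x) x = c' := by
      have e1 : inner ℝ (R x + Rt x) x = 2 * c' := by
        rw [hxT, real_inner_smul_left, hxx, mul_one]
      rw [inner_add_left, ← hadj', real_inner_comm x (R x)] at e1
      have e2 : inner ℝ x (R x) = inner ℝ (R x) x := real_inner_comm _ _
      linarith
    obtain ⟨r, hr⟩ : ∃ r, r = R x - c' • x := ⟨_, rfl⟩
    have hr0 : r ≠ 0 := by
      rw [hr]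
      exact sub_ne_zero.2 hk
    obtain ⟨s', hs'⟩ : ∃ s', s' = ‖r‖ := ⟨_, rfl⟩
    have hs0 : s' ≠ 0 := by rw [hs']; exact norm_ne_zero_iff.2 hr0
    have hRx' : inner ℝ x (R x) = c' := by rw [real_inner_comm]; exact hRx
    have hs2 : s' ^ 2 = 1 - c' ^ 2 := by
      rw [hs', ← real_inner_self_eq_norm_sq, hr, inner_sub_left, inner_sub_right, inner_sub_right,
        real_inner_smul_left, real_inner_smul_right, real_inner_smul_left, real_inner_smul_right,
        hRR, hRx, hRx', hxx]
      ring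
    have hRRx : R (R x) = (2 * c') • R x - x := by
      have e1 := congrArg R hxT
      rw [map_add, hRt, map_smul] at e1
      rw [← e1]
      abel
    obtain ⟨y, hy⟩ : ∃ y, y = s'⁻¹ • r := ⟨_, rfl⟩
    have hsy : s' • y = r := by rw [hy, smul_smul, mul_inv_cancel₀ hs0, one_smul]
    refine COMS_add v c s h1 h2 h3 h4 x y c' s' 1 ?_ ?_ ?_ hxx ?_ ?_ hxW ?_
    · rw [hs2]; ring
    · rw [hsy, hr]; abel
    · have hRx2 : R x = c' • x + s' • y := by rw [hsy, hr]; abel
      have e1 : s' • R y = s' • ((1 : ℝ) • (-s' • x + c' • y)) := by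
        have e3 : c' ^ 2 - 1 = -(s' * s') := by linear_combination hs2
        calc s' • R y = R (s' • y) := (map_smul _ _ _).symm
          _ = R (R x - c' • x) := by rw [hsy, hr]
          _ = ((2 * c') • R x - x) - c' • R x := by rw [map_sub, map_smul, hRRx]
          _ = c' • R x - x := by module
          _ = c' • (c' • x + s' • y) - x := by rw [hRx2]
          _ = (c' ^ 2 - 1) • x + (c' * s') • y := by module
          _ = s' • ((1 : ℝ) • (-s' • x + c' • y)) := by rw [e3]; module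
      have e2 := congrArg (fun z => s'⁻¹ • z) e1
      simp only [smul_smul, inv_mul_cancel₀ hs0, one_smul] at e2
      rw [e2, one_smul]
    · rw [hy, real_inner_smul_left, real_inner_smul_right, real_inner_self_eq_norm_sq, ← hs']
      field_simp
    · rw [hy, real_inner_smul_right, hr, inner_sub_right, real_inner_smul_right, hRx', hxx]
      ring
    · intro i a
      rw [hy, real_inner_smul_right, hr, inner_sub_right, real_inner_smul_right, hxW,
        hWx x hxW]
      ring
  · -- all eigenvectors are fixed up to sign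
    push Not at hcase
    have hl1 : ∀ k, l k = 1 ∨ l k = -1 := by
      intro k
      have e1 := hRR (e k)
      rw [hcase, real_inner_smul_left, real_inner_smul_right, heo, if_pos rfl, mul_one] at e1
      exact mul_self_eq_one_iff.1 e1
    by_cases hsame : ∃ k k', k ≠ k' ∧ l k = l k'
    · left
      obtain ⟨k, k', hkk, hll⟩ := hsame
      refine COMS_add v c s h1 h2 h3 h4 (e k) (e k') (l k) 0 1 ?_ ?_ ?_ ?_ ?_ ?_ (heW k) (heW k')
      · rcases hl1 k with h | h <;> rw [h] <;> norm_num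
      · rw [hcase, zero_smul, add_zero]
      · rw [hcase, hll, neg_zero, zero_smul, zero_add, one_smul]
      · rw [heo, if_pos rfl]
      · rw [heo, if_pos rfl]
      · rw [heo, if_neg hkk]
    · right
      push Not at hsame
      have hn' : n ≤ 2 := by
        have hinj : Function.Injective (fun k : Fin n => decide (l k = 1)) := by
          intro k k' hkk
          by_contra hne
          apply hsame k k' hne
          simp only [decide_eq_decide] at hkk
          rcases hl1 k with h | h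
          · rw [h, hkk.1 h]
          · rcases hl1 k' with h' | h'
            · rw [h', hkk.2 h']
            · rw [h, h']
        have := Fintype.card_le_of_injective _ hinj
        simpa using this
      have hn3 : n = 2 := by omega
      refine ⟨by omega, ?_⟩
      obtain ⟨k, k', hkk⟩ : ∃ k k' : Fin n, k ≠ k' := by
        refine ⟨⟨0, by omega⟩, ⟨1, by omega⟩, ?_⟩
        intro h
        have := congrArg Fin.val h
        simp at this
      obtain ⟨k₁, k₂, hk12, hk1, hk2⟩ : ∃ k₁ k₂ : Fin n, k₁ ≠ k₂ ∧ l k₁ = 1 ∧ l k₂ = -1 := by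
        have hne := hsame k k' hkk
        rcases hl1 k with h | h
        · rcases hl1 k' with h' | h'
          · exact absurd (h.trans h'.symm) hne
          · exact ⟨k, k', hkk, h, h'⟩
        · rcases hl1 k' with h' | h'
          · exact ⟨k', k, hkk.symm, h', h⟩
          · exact absurd (h.trans h'.symm) hne
      refine COMS_add v c s h1 h2 h3 h4 (e k₁) (e k₂) 1 0 (-1) ?_ ?_ ?_ ?_ ?_ ?_ (heW k₁) (heW k₂)
      · norm_num
      · rw [hcase, hk1, zero_smul, add_zero]
      · rw [hcase, hk2, neg_zero, zero_smul, zero_add, one_smul]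
      · rw [heo, if_pos rfl]
      · rw [heo, if_pos rfl]
      · rw [heo, if_neg hk12]

lemma COMS_all {R Rt : E →ₗ[ℝ] E} (hadj : ∀ x y, inner ℝ (R x) y = inner ℝ x (Rt y))
    (hRt : ∀ x, R (Rt x) = x) (htR : ∀ x, Rt (R x) = x) : ∀ j : ℕ,
    2 * j ≤ Module.finrank ℝ E → COMS_G R j (fun _ => 1) ∨ ∃ j', 2 * j' + 2 = Module.finrank ℝ E ∧
      COMS_G R (j' + 1) (Fin.cons (-1) (fun _ => 1) : Fin (j' + 1) → ℝ) := by
  intro j
  induction j with
  | zero => exact fun _ => Or.inl (COMS_zero R _)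
  | succ j ih =>
    intro hj
    rcases ih (by omega) with h | h
    · rcases COMS_step hadj hRt htR h (by omega) with h' | h'
      · exact Or.inl h'
      · exact Or.inr ⟨j, h'⟩
    · exact Or.inr h

end COMS_abs

section COMS_mat

variable {M : Type} [Fintype M] [DecidableEq M]

/-- the blocks -/
def COMS_B (δ c s : ℝ) : Matrix (Fin 2) (Fin 2) ℝ := !![c, -(δ * s); s, δ * c]

lemma COMS_conj {m : ℕ} (hm : 2 * m = Fintype.card M) {δ : Fin m → ℝ} (R : Matrix M M ℝ)
    (h : COMS_G (Matrix.toLpLin 2 2 R : EuclideanSpace ℝ M →ₗ[ℝ] EuclideanSpace ℝ M) m δ) :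
    ∃ (O : Matrix M (Fin 2 × Fin m) ℝ) (c s : Fin m → ℝ), (∀ i, c i ^ 2 + s i ^ 2 = 1) ∧
      O * O.transpose = 1 ∧ O.transpose * O = 1 ∧
      R = O * Matrix.blockDiagonal (fun i => COMS_B (δ i) (c i) (s i)) * O.transpose := by
  obtain ⟨v, c, s, h1, h2, h3, h4⟩ := h
  obtain ⟨O, hO⟩ : ∃ O : Matrix M (Fin 2 × Fin m) ℝ, O = Matrix.of fun x p => v p.2 p.1 x :=
    ⟨_, rfl⟩
  have hOtO : O.transpose * O = 1 := by
    ext p q
    rw [Matrix.mul_apply, Matrix.one_apply]
    have e1 : ∑ x, O.transpose p x * O x q = inner ℝ (v p.2 p.1) (v q.2 q.1) := by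
      rw [PiLp.inner_apply]
      refine Finset.sum_congr rfl fun x _ => ?_
      rw [Matrix.transpose_apply, hO]
      simp [mul_comm]
    rw [e1, h4]
    refine if_congr ?_ rfl rfl
    rw [Prod.ext_iff, and_comm]
  have hcard : Fintype.card (Fin 2 × Fin m) = Fintype.card M := by
    simp only [Fintype.card_prod, Fintype.card_fin]
    omega
  have hOOt : O * O.transpose = 1 :=
    (Matrix.mul_eq_one_comm_of_equiv (Fintype.equivOfCardEq hcard)).1 hOtO
  refine ⟨O, c, s, h1, hOOt, hOtO, ?_⟩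
  have hRO : R * O = O * Matrix.blockDiagonal (fun i => COMS_B (δ i) (c i) (s i)) := by
    ext x p
    obtain ⟨a, i⟩ := p
    rw [Matrix.mul_apply, Matrix.mul_apply]
    have e1 : ∑ y, R x y * O y (a, i) =
        (Matrix.toLpLin 2 2 R : EuclideanSpace ℝ M →ₗ[ℝ] EuclideanSpace ℝ M) (v i a) x := by
      rw [Matrix.ofLp_toLpLin, Matrix.toLin'_apply, hO]
      rfl
    have e2 : ∑ q : Fin 2 × Fin m, O x q *
        Matrix.blockDiagonal (fun i => COMS_B (δ i) (c i) (s i)) q (a, i) =
        v i 0 x * COMS_B (δ i) (c i) (s i) 0 a + v i 1 x * COMS_B (δ i) (c i) (s i) 1 a := by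
      rw [Fintype.sum_prod_type, Fin.sum_univ_two]
      congr 1
      · rw [Finset.sum_eq_single i]
        · rw [Matrix.blockDiagonal_apply, if_pos rfl, hO]
          rfl
        · intro i' _ hi'
          rw [Matrix.blockDiagonal_apply, if_neg hi', mul_zero]
        · intro h; exact absurd (mem_univ _) h
      · rw [Finset.sum_eq_single i]
        · rw [Matrix.blockDiagonal_apply, if_pos rfl, hO]
          rfl
        · intro i' _ hi'
          rw [Matrix.blockDiagonal_apply, if_neg hi', mul_zero]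
        · intro h; exact absurd (mem_univ _) h
    rw [e1, e2]
    fin_cases a
    · show (Matrix.toLpLin 2 2 R : EuclideanSpace ℝ M →ₗ[ℝ] EuclideanSpace ℝ M) (v i 0) x = _
      rw [h2]
      simp [COMS_B]
      ring
    · show (Matrix.toLpLin 2 2 R : EuclideanSpace ℝ M →ₗ[ℝ] EuclideanSpace ℝ M) (v i 1) x = _
      rw [h3]
      simp [COMS_B]
      ring
  rw [← hRO, Matrix.mul_assoc, hOOt, Matrix.mul_one]

/-- half angles -/
lemma COMS_half (c s : ℝ) (h : c ^ 2 + s ^ 2 = 1) :
    ∃ p q : ℝ, p ^ 2 + q ^ 2 = 1 ∧ p ^ 2 - q ^ 2 = c ∧ 2 * p * q = s := by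
  obtain ⟨w, hw⟩ := IsAlgClosed.exists_pow_nat_eq (⟨c, s⟩ : ℂ) (n := 2) (by norm_num)
  have h1 := congrArg Complex.re hw
  have h2 := congrArg Complex.im hw
  simp only [pow_two, Complex.mul_re, Complex.mul_im] at h1 h2
  have h3 : w.re ^ 2 - w.im ^ 2 = c := by linarith
  have h4 : 2 * w.re * w.im = s := by linarith
  refine ⟨w.re, w.im, ?_, h3, h4⟩
  have h5 : (w.re ^ 2 + w.im ^ 2) ^ 2 = 1 := by
    rw [← h, ← h3, ← h4]
    ring
  have h6 : 0 ≤ w.re ^ 2 + w.im ^ 2 := by positivity
  nlinarith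

lemma COMS_det {m : ℕ} (O : Matrix M (Fin 2 × Fin m) ℝ) (h1 : O * O.transpose = 1)
    (h2 : O.transpose * O = 1) (X : Fin m → Matrix (Fin 2) (Fin 2) ℝ) :
    (O * Matrix.blockDiagonal X * O.transpose).det = ∏ i, (X i).det := by
  rw [Matrix.det_conj_of_mul_eq_one h1 h2, Matrix.det_blockDiagonal]

lemma COMS_mul {m : ℕ} (O : Matrix M (Fin 2 × Fin m) ℝ)
    (h2 : O.transpose * O = 1) (X Y : Fin m → Matrix (Fin 2) (Fin 2) ℝ) :
    (O * Matrix.blockDiagonal X * O.transpose) * (O * Matrix.blockDiagonal Y * O.transpose) =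
      O * Matrix.blockDiagonal (fun i => X i * Y i) * O.transpose := by
  rw [Matrix.blockDiagonal_mul]
  calc (O * Matrix.blockDiagonal X * O.transpose) * (O * Matrix.blockDiagonal Y * O.transpose)
      = O * Matrix.blockDiagonal X * (O.transpose * O) * Matrix.blockDiagonal Y * O.transpose := by
        simp only [Matrix.mul_assoc]
    _ = _ := by rw [h2, Matrix.mul_one]; simp only [Matrix.mul_assoc]

lemma COMS_tr {m : ℕ} (O : Matrix M (Fin 2 × Fin m) ℝ)
    (X : Fin m → Matrix (Fin 2) (Fin 2) ℝ) :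
    (O * Matrix.blockDiagonal X * O.transpose).transpose =
      O * Matrix.blockDiagonal (fun i => (X i).transpose) * O.transpose := by
  rw [Matrix.transpose_mul, Matrix.transpose_mul, Matrix.transpose_transpose,
    Matrix.blockDiagonal_transpose, Matrix.mul_assoc]

/-- the element of `SO(M)` with given blocks -/
lemma COMS_mem {m : ℕ} (O : Matrix M (Fin 2 × Fin m) ℝ) (h1 : O * O.transpose = 1)
    (h2 : O.transpose * O = 1) (X : Fin m → Matrix (Fin 2) (Fin 2) ℝ)
    (hX : ∀ i, (X i).transpose * X i = 1) (hd : ∏ i, (X i).det = 1) :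
    O * Matrix.blockDiagonal X * O.transpose ∈ Matrix.specialOrthogonalGroup M ℝ := by
  rw [mem_SO, COMS_tr, COMS_mul O h2, COMS_det O h1 h2]
  refine ⟨?_, hd⟩
  have : (fun i => (X i).transpose * X i) = (1 : Fin m → Matrix (Fin 2) (Fin 2) ℝ) := by
    funext i
    exact hX i
  rw [this, Matrix.blockDiagonal_one, Matrix.mul_one, h1]

end COMS_mat

/-- COMS -/
theorem COMS : ST_COMS := by
  intro M _ _ hM R
  obtain ⟨k, hk⟩ := hM
  obtain ⟨L, hL⟩ : ∃ L : EuclideanSpace ℝ M →ₗ[ℝ] EuclideanSpace ℝ M,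
      L = Matrix.toLpLin 2 2 (R : Matrix M M ℝ) := ⟨_, rfl⟩
  obtain ⟨Lt, hLt⟩ : ∃ L : EuclideanSpace ℝ M →ₗ[ℝ] EuclideanSpace ℝ M,
      L = Matrix.toLpLin 2 2 (R : Matrix M M ℝ).transpose := ⟨_, rfl⟩
  have hLa : ∀ x, L x = WithLp.toLp 2 ((R : Matrix M M ℝ).mulVec x.ofLp) := by
    intro x
    rw [hL, Matrix.toLpLin_apply]
  have hLta : ∀ x, Lt x = WithLp.toLp 2 ((R : Matrix M M ℝ).transpose.mulVec x.ofLp) := by
    intro x
    rw [hLt, Matrix.toLpLin_apply]
  have hadj : ∀ x y, inner ℝ (L x) y = inner ℝ x (Lt y) := by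
    intro x y
    rw [EuclideanSpace.inner_eq_star_dotProduct, EuclideanSpace.inner_eq_star_dotProduct, hLa,
      hLta]
    simp only [star_trivial]
    rw [Matrix.mulVec_transpose, ← Matrix.dotProduct_mulVec]
  have hRt : ∀ x, L (Lt x) = x := by
    intro x
    rw [hLa, hLta]
    simp only [Matrix.mulVec_mulVec]
    rw [SO_right, Matrix.one_mulVec]
  have htR : ∀ x, Lt (L x) = x := by
    intro x
    rw [hLa, hLta]
    simp only [Matrix.mulVec_mulVec]
    rw [SO_left, Matrix.one_mulVec]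
  have hfr : Module.finrank ℝ (EuclideanSpace ℝ M) = Fintype.card M := finrank_euclideanSpace
  have hG : COMS_G L (2 * k) (fun _ => 1) := by
    rcases COMS_all hadj hRt htR (2 * k) (by rw [hfr, hk]; omega) with h | ⟨j, hj, h⟩
    · exact h
    · exfalso
      rw [hfr] at hj
      rw [hL] at h
      obtain ⟨O, c, s, h1, h2, h3, h4⟩ := COMS_conj (m := j + 1) (by omega) _ h
      have h5 := SO_det R
      rw [h4, COMS_det O h2 h3] at h5
      have h6 : ∀ i : Fin (j + 1), (COMS_B ((Fin.cons (-1) (fun _ => 1) : Fin (j + 1) → ℝ) i) (c i)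
          (s i)).det = (Fin.cons (-1) (fun _ => 1) : Fin (j + 1) → ℝ) i := by
        intro i
        rw [COMS_B, Matrix.det_fin_two_of]
        have := h1 i
        linear_combination ((Fin.cons (-1) (fun _ => 1) : Fin (j + 1) → ℝ) i) * this
      rw [Finset.prod_congr rfl fun i _ => h6 i, Fin.prod_univ_succ] at h5
      simp at h5
      norm_num at h5
  rw [hL] at hG
  obtain ⟨O, c, s, h1, h2, h3, h4⟩ := COMS_conj (m := 2 * k) (by omega) _ hG
  choose p q hpq hc hs using fun i => COMS_half (c i) (s i) (h1 i)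
  obtain ⟨X, hX⟩ : ∃ X : Fin (2 * k) → Matrix (Fin 2) (Fin 2) ℝ,
      X = fun i => !![p i, -q i; q i, p i] := ⟨_, rfl⟩
  obtain ⟨Y, hY⟩ : ∃ Y : Fin (2 * k) → Matrix (Fin 2) (Fin 2) ℝ,
      Y = fun _ => !![1, 0; 0, -1] := ⟨_, rfl⟩
  have hXm := COMS_mem O h2 h3 X (by
    intro i
    rw [hX]
    have := hpq i
    ext a b
    fin_cases a <;> fin_cases b <;> simp [Matrix.mul_apply, Fin.sum_univ_two]
    · linear_combination this
    · ring
    · ring
    · linear_combination this) (by
    refine Finset.prod_eq_one fun i _ => ?_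
    rw [hX, Matrix.det_fin_two_of]
    linear_combination hpq i)
  have hYm := COMS_mem O h2 h3 Y (by
    intro i
    rw [hY]
    ext a b
    fin_cases a <;> fin_cases b <;> simp [Matrix.mul_apply, Fin.sum_univ_two]) (by
    have : ∀ i, (Y i).det = -1 := by
      intro i
      rw [hY, Matrix.det_fin_two_of]
      norm_num
    rw [Finset.prod_congr rfl fun i _ => this i, Finset.prod_const, Finset.card_univ,
      Fintype.card_fin, pow_mul]
    norm_num)
  refine ⟨⟨_, hXm⟩, ⟨_, hYm⟩, ?_⟩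
  apply Subtype.ext
  have e : ((KP23.cm (⟨_, hXm⟩ : SO M) ⟨_, hYm⟩ : SO M) : Matrix M M ℝ) =
      (O * Matrix.blockDiagonal X * O.transpose) * (O * Matrix.blockDiagonal Y * O.transpose) *
      (O * Matrix.blockDiagonal X * O.transpose).transpose *
      (O * Matrix.blockDiagonal Y * O.transpose).transpose := by
    show (O * Matrix.blockDiagonal X * O.transpose) * (O * Matrix.blockDiagonal Y * O.transpose) *
      (((⟨_, hXm⟩ : SO M)⁻¹ : SO M) : Matrix M M ℝ) *
      (((⟨_, hYm⟩ : SO M)⁻¹ : SO M) : Matrix M M ℝ) = _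
    rw [SO_inv, SO_inv]
  rw [e, COMS_tr, COMS_tr, COMS_mul O h3, COMS_mul O h3, COMS_mul O h3, h4]
  congr 3
  funext i
  have e1 := hc i
  have e2 := hs i
  have t1 : (!![p i, -q i; q i, p i] : Matrix (Fin 2) (Fin 2) ℝ).transpose =
      !![p i, q i; -q i, p i] := by
    ext a b
    fin_cases a <;> fin_cases b <;> rfl
  have t2 : (!![1, 0; 0, -1] : Matrix (Fin 2) (Fin 2) ℝ).transpose = !![1, 0; 0, -1] := by
    ext a b
    fin_cases a <;> fin_cases b <;> rfl
  rw [hX, hY]
  show COMS_B 1 (c i) (s i) = !![p i, -q i; q i, p i] * !![1, 0; 0, -1] *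
    (!![p i, -q i; q i, p i] : Matrix (Fin 2) (Fin 2) ℝ).transpose *
    (!![1, 0; 0, -1] : Matrix (Fin 2) (Fin 2) ℝ).transpose
  rw [t1, t2, Matrix.mul_fin_two, Matrix.mul_fin_two, Matrix.mul_fin_two, COMS_B, ← e1, ← e2]
  ext a b
  fin_cases a <;> fin_cases b <;> simp <;> ring

end

end SG23
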