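import Pool.Agent.N23.SG.Stm

/-!
Project SG (helper23): the group generated by a Kazhdan set is dense.  Written by helper432.
-/

set_option linter.unusedSectionVars false

namespace SG23
open Finset MeasureTheory

noncomputable section

section
variable {X : Type} [Fintype X] [DecidableEq X]

/-- matrices as points of a Euclidean space -/
def dens_phi (x : X → X → ℝ) : EuclideanSpace ℝ (X × X) := WithLp.toLp 2 (fun p => x p.1 p.2)

/-- the inverse map -/
def dens_psi (y : EuclideanSpace ℝ (X × X)) : Matrix X X ℝ := fun i j => y (i, j)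

lemma dens_phi_cont : Continuous (dens_phi (X := X)) := by
  unfold dens_phi
  refine (PiLp.continuous_toLp 2 _).comp ?_
  refine continuous_pi fun p => ?_
  exact (continuous_apply p.2).comp (continuous_apply p.1)

lemma dens_psi_cont : Continuous (dens_psi (X := X)) := by
  unfold dens_psi
  refine continuous_pi fun i => continuous_pi fun j => ?_
  exact (continuous_apply (i, j)).comp (PiLp.continuous_ofLp 2 _)

lemma dens_psi_phi (x : Matrix X X ℝ) : dens_psi (dens_phi x) = x := rfl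

lemma dens_dist (x y : X → X → ℝ) :
    dist (dens_phi x) (dens_phi y) =
      Real.sqrt (Matrix.trace ((Matrix.of x - Matrix.of y).transpose * (Matrix.of x - Matrix.of y))) := by
  rw [EuclideanSpace.dist_eq]
  congr 1
  rw [Matrix.trace, Fintype.sum_prod_type, Finset.sum_comm]
  refine Finset.sum_congr rfl fun j _ => ?_
  rw [Matrix.diag_apply, Matrix.mul_apply]
  refine Finset.sum_congr rfl fun i _ => ?_
  rw [Matrix.transpose_apply, Matrix.sub_apply, Matrix.of_apply, Matrix.of_apply, Real.dist_eq,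
    sq_abs, sq]
  rfl

lemma dens_tr (g : Matrix X X ℝ) (x : X → X → ℝ) : Matrix.of (tr g x) = g * Matrix.of x := by
  ext i j
  rw [Matrix.mul_apply]
  rfl

lemma dens_dist_tr (g : Matrix X X ℝ) (hg : g.transpose * g = 1) (x y : X → X → ℝ) :
    dist (dens_phi (tr g x)) (dens_phi (tr g y)) = dist (dens_phi x) (dens_phi y) := by
  rw [dens_dist, dens_dist, dens_tr, dens_tr, ← mul_sub, Matrix.transpose_mul]
  congr 2
  calc (Matrix.of x - Matrix.of y).transpose * g.transpose * (g * (Matrix.of x - Matrix.of y))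
      = (Matrix.of x - Matrix.of y).transpose * (g.transpose * g) * (Matrix.of x - Matrix.of y) := by
        simp only [Matrix.mul_assoc]
    _ = _ := by rw [hg, Matrix.mul_one]

lemma dens_tr_tr (g h : Matrix X X ℝ) (hg : g * h = 1) (x : X → X → ℝ) : tr g (tr h x) = x := by
  have : Matrix.of (tr g (tr h x)) = Matrix.of x := by
    rw [dens_tr, dens_tr, ← Matrix.mul_assoc, hg, Matrix.one_mul]
  exact this

/-- the set `Γ` in the Euclidean space -/
def dens_im (Γ : Set (Matrix X X ℝ)) : Set (EuclideanSpace ℝ (X × X)) := {y | dens_psi y ∈ Γ}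

lemma dens_mem_im (Γ : Set (Matrix X X ℝ)) (x : X → X → ℝ) (h : Matrix.of x ∈ Γ) :
    dens_phi x ∈ dens_im Γ := h

lemma dens_phi_psi (y : EuclideanSpace ℝ (X × X)) : dens_phi (dens_psi y) = y := rfl

/-- the distance from the set `Γ` -/
def dens_F (Γ : Set (Matrix X X ℝ)) (x : X → X → ℝ) : ℝ :=
  Metric.infDist (dens_phi x) (dens_im Γ)

lemma dens_im_ne (Γ : Set (Matrix X X ℝ)) (hne : Γ.Nonempty) : (dens_im Γ).Nonempty := by
  obtain ⟨γ, hγ⟩ := hne
  exact ⟨dens_phi γ, dens_mem_im Γ γ hγ⟩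

lemma dens_F_cont (Γ : Set (Matrix X X ℝ)) : Continuous (dens_F Γ) :=
  (Metric.continuous_infDist_pt _).comp dens_phi_cont

lemma dens_F_le (Γ : Set (Matrix X X ℝ)) (hne : Γ.Nonempty) (g : Matrix X X ℝ)
    (hg : g.transpose * g = 1) (hΓ : ∀ γ ∈ Γ, g * γ ∈ Γ) (x : X → X → ℝ) :
    dens_F Γ (tr g x) ≤ dens_F Γ x := by
  unfold dens_F
  rw [Metric.le_infDist (dens_im_ne Γ hne)]
  intro y hy
  have hy' : dens_psi y ∈ Γ := hy
  have h1 : dens_phi (tr g (dens_psi y)) ∈ dens_im Γ := by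
    refine dens_mem_im Γ _ ?_
    have h2 : Matrix.of (tr g (dens_psi y)) = g * dens_psi y := dens_tr g (dens_psi y)
    exact h2 ▸ hΓ _ hy'
  calc Metric.infDist (dens_phi (tr g x)) (dens_im Γ)
      ≤ dist (dens_phi (tr g x)) (dens_phi (tr g (dens_psi y))) := Metric.infDist_le_dist_of_mem h1
    _ = dist (dens_phi x) (dens_phi (dens_psi y)) := dens_dist_tr g hg x _
    _ = dist (dens_phi x) y := by rw [dens_phi_psi]

lemma dens_F_one (Γ : Set (Matrix X X ℝ)) (x : Matrix X X ℝ) (h1 : x ∈ Γ) : dens_F Γ x = 0 :=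
  Metric.infDist_zero_of_mem (dens_mem_im Γ x h1)

lemma dens_F_bd (Γ : Set (Matrix X X ℝ)) (h1 : (1 : Matrix X X ℝ) ∈ Γ) (x : X → X → ℝ)
    (hx : (Matrix.of x).transpose * Matrix.of x = 1) :
    dens_F Γ x ≤ 2 * Real.sqrt (Fintype.card X) := by
  have hn : ∀ y : X → X → ℝ, (Matrix.of y).transpose * Matrix.of y = 1 →
      dist (dens_phi y) (dens_phi 0) = Real.sqrt (Fintype.card X) := by
    intro y hy
    rw [dens_dist]
    have : (Matrix.of (0 : X → X → ℝ)) = 0 := rfl
    rw [this, sub_zero, hy, Matrix.trace_one]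
  calc dens_F Γ x ≤ dist (dens_phi x) (dens_phi (1 : Matrix X X ℝ)) :=
        Metric.infDist_le_dist_of_mem (dens_mem_im Γ _ h1)
    _ ≤ dist (dens_phi x) (dens_phi 0) + dist (dens_phi (1 : Matrix X X ℝ)) (dens_phi 0) :=
        dist_triangle_right _ _ _
    _ = 2 * Real.sqrt (Fintype.card X) := by
        rw [hn x hx, hn (1 : Matrix X X ℝ) (by
          change (1 : Matrix X X ℝ).transpose * (1 : Matrix X X ℝ) = 1
          rw [Matrix.transpose_one, Matrix.one_mul])]
        ring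

lemma dens_F_closure (Γ : Set (Matrix X X ℝ)) (hne : Γ.Nonempty) (x : Matrix X X ℝ)
    (hx : dens_F Γ x = 0) : x ∈ closure Γ := by
  have h1 : dens_phi x ∈ closure (dens_im Γ) :=
    (Metric.mem_closure_iff_infDist_zero (dens_im_ne Γ hne)).2 hx
  exact map_mem_closure (t := Γ) dens_psi_cont h1 (fun y hy => hy)

end

theorem DENS (hL : ST_L2G) (hE : ST_EXH) (hS : ST_SUPP) : ST_DENS := by
  intro X _ _ k K g hK hg S h1 h2 h3 h hh hdet
  obtain ⟨μ, hμ⟩ := hE X
  obtain ⟨hprob, hsupp, hinv⟩ := id hμ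
  set Γ : Set (Matrix X X ℝ) := ((Submonoid.closure S : Submonoid (Matrix X X ℝ)) :
    Set (Matrix X X ℝ)) with hΓ
  have h1Γ : (1 : Matrix X X ℝ) ∈ Γ := (Submonoid.closure S).one_mem
  have hne : Γ.Nonempty := ⟨1, h1Γ⟩
  have hmul : ∀ s ∈ S, ∀ γ ∈ Γ, s * γ ∈ Γ := fun s hs γ hγ =>
    (Submonoid.closure S).mul_mem (Submonoid.subset_closure hs) hγ
  have horth : ∀ᵐ x ∂μ, (Matrix.of x).transpose * Matrix.of x = 1 := by
    have : ∀ᵐ x ∂μ, (Matrix.of x).transpose * Matrix.of x = 1 ∧ (Matrix.of x).det = 1 := hsupp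
    exact this.mono fun x hx => hx.1
  set c : ℝ := ∫ x, dens_F Γ x ∂μ with hc
  set f : (X → X → ℝ) → ℝ := fun x => dens_F Γ x - c with hf
  have hfc : Continuous f := (dens_F_cont Γ).sub continuous_const
  have hFbd : ∀ᵐ x ∂μ, ‖dens_F Γ x‖ ≤ 2 * Real.sqrt (Fintype.card X) := by
    refine horth.mono fun x hx => ?_
    rw [Real.norm_of_nonneg (show 0 ≤ dens_F Γ x from Metric.infDist_nonneg)]
    exact dens_F_bd Γ h1Γ x hx
  have hFint : Integrable (dens_F Γ) μ :=
    Integrable.of_bound (dens_F_cont Γ).aestronglyMeasurable _ hFbd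
  have hfL : MemLp f 2 μ := by
    refine MemLp.of_bound hfc.aestronglyMeasurable (2 * Real.sqrt (Fintype.card X) + ‖c‖) ?_
    refine hFbd.mono fun x hx => ?_
    exact (norm_sub_le _ _).trans (add_le_add hx le_rfl)
  have hmean : ∫ x, f x ∂μ = 0 := by
    rw [hf]
    rw [integral_sub hFint (integrable_const _), integral_const]
    simp [← hc]
  have hkey := hL X μ hμ k K g hK hg f hfL hmean
  have hzero : ∀ i, ∀ x, f (tr (g i : Matrix X X ℝ) x) - f x = 0 := by
    intro i x
    have ha : dens_F Γ (tr (g i : Matrix X X ℝ) x) ≤ dens_F Γ x :=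
      dens_F_le Γ hne _ (SO_left (g i)) (hmul _ (h1 i)) x
    have hb : dens_F Γ x ≤ dens_F Γ (tr (g i : Matrix X X ℝ) x) := by
      have hb1 := dens_F_le Γ hne (g i : Matrix X X ℝ).transpose (by
        rw [Matrix.transpose_transpose]
        exact SO_right (g i)) (hmul _ (h2 i)) (tr (g i : Matrix X X ℝ) x)
      rwa [dens_tr_tr _ _ (SO_left (g i))] at hb1
    have hab := le_antisymm ha hb
    rw [hf]
    simp only
    rw [hab, sub_self]
  have hle : ∫ x, f x ^ 2 ∂μ ≤ 0 := by
    refine hkey.trans (le_of_eq ?_)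
    simp only [hzero]
    simp
  have heq : ∫ x, f x ^ 2 ∂μ = 0 := le_antisymm hle (integral_nonneg fun x => sq_nonneg _)
  have hae : ∀ᵐ x ∂μ, f x = 0 := by
    have h4 := (integral_eq_zero_iff_of_nonneg (fun x => sq_nonneg (f x)) hfL.integrable_sq).1 heq
    refine h4.mono fun x hx => ?_
    exact pow_eq_zero_iff (two_ne_zero) |>.1 hx
  have h5 := hS X μ hμ f hfc hae 1 (by rw [Matrix.transpose_one, Matrix.one_mul]) Matrix.det_one
  have h6 := hS X μ hμ f hfc hae h hh hdet
  rw [hf] at h5 h6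
  simp only at h5 h6
  rw [dens_F_one Γ 1 h1Γ] at h5
  refine dens_F_closure Γ hne h ?_
  linarith

end

end SG23
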