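import Pool.Agent.N23.SG.Stm

/-!
Project SG (helper23), MP_839d28_al.  EXH (helper263): Haar measure of `SO(X)` as a measure on matrices.
-/

namespace SG23
open Finset MeasureTheory

noncomputable section

section
variable {X : Type} [Fintype X] [DecidableEq X]

lemma EXH_cinv : ContinuousInv (SO X) := by
  refine ⟨?_⟩
  have h1 : Continuous fun g : SO X => (g : Matrix X X ℝ).transpose :=
    Continuous.matrix_transpose continuous_subtype_val
  refine continuous_induced_rng.2 ?_
  have h2 : (Subtype.val ∘ fun g : SO X => g⁻¹) = fun g : SO X => (g : Matrix X X ℝ).transpose := by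
    funext g
    exact SO_inv g
  rw [h2]
  exact h1

lemma EXH_closed : IsClosed {x : X → X → ℝ | (Matrix.of x).transpose * Matrix.of x = 1 ∧
    (Matrix.of x).det = 1} := by
  have h0 : Continuous fun x : X → X → ℝ => (Matrix.of x : Matrix X X ℝ) := continuous_id
  refine IsClosed.inter ?_ ?_
  · exact isClosed_eq (h0.matrix_transpose.matrix_mul h0) continuous_const
  · exact isClosed_eq h0.matrix_det continuous_const

lemma EXH_entry {x : X → X → ℝ} (h : (Matrix.of x).transpose * Matrix.of x = 1) (i j : X) :
    x i j ∈ Set.Icc (-1 : ℝ) 1 := by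
  have h1 := congrFun (congrFun h j) j
  rw [Matrix.mul_apply, Matrix.one_apply_eq] at h1
  have h2 : x i j * x i j ≤ 1 := by
    rw [← h1]
    exact single_le_sum (f := fun l => (Matrix.of x).transpose j l * (Matrix.of x) l j)
      (fun l _ => mul_self_nonneg (x l j)) (mem_univ i)
  constructor <;> nlinarith

lemma EXH_compact : CompactSpace (SO X) := by
  have h1 : IsCompact {x : X → X → ℝ | (Matrix.of x).transpose * Matrix.of x = 1 ∧
      (Matrix.of x).det = 1} := by
    refine IsCompact.of_isClosed_subset (isCompact_univ_pi fun _ : X =>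
      isCompact_univ_pi fun _ : X => isCompact_Icc (a := (-1 : ℝ)) (b := 1)) EXH_closed ?_
    intro x hx i _ j _
    exact EXH_entry hx.1 i j
  have h2 : {x : X → X → ℝ | (Matrix.of x).transpose * Matrix.of x = 1 ∧ (Matrix.of x).det = 1} =
      ((Matrix.specialOrthogonalGroup X ℝ : Submonoid (Matrix X X ℝ)) : Set (Matrix X X ℝ)) := by
    ext x
    exact (mem_SO (Matrix.of x)).symm
  rw [h2] at h1
  exact isCompact_iff_compactSpace.1 h1

/-- EXH -/
theorem EXH : ST_EXH := by
  intro X _ _
  have i1 : ContinuousInv (SO X) := EXH_cinv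
  have i2 : IsTopologicalGroup (SO X) := {}
  have i3 : CompactSpace (SO X) := EXH_compact
  let i4 : MeasurableSpace (SO X) := borel (SO X)
  have i5 : BorelSpace (SO X) := ⟨rfl⟩
  let m : Measure (SO X) := Measure.haarMeasure ⊤
  have hm1 : m Set.univ = 1 := by
    have h := Measure.haarMeasure_self (K₀ := (⊤ : TopologicalSpace.PositiveCompacts (SO X)))
    simpa using h
  have hmp : IsProbabilityMeasure m := ⟨hm1⟩
  let φ : SO X → (X → X → ℝ) := fun g i j => (g : Matrix X X ℝ) i j
  have hφ : Continuous φ := continuous_subtype_val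
  refine ⟨m.map φ, Measure.isProbabilityMeasure_map hφ.measurable.aemeasurable, ?_, ?_⟩
  · rw [Measure.map_apply hφ.measurable]
    · have h1 : φ ⁻¹' {x | ¬ ((Matrix.of x).transpose * Matrix.of x = 1 ∧ (Matrix.of x).det = 1)} = ∅ := by
        rw [Set.eq_empty_iff_forall_notMem]
        intro g hg
        exact hg ((mem_SO _).1 g.2)
      rw [h1, measure_empty]
    · exact EXH_closed.measurableSet.compl
  · intro g hg1 hg2
    have hT : Continuous fun x : X → X → ℝ => (fun i j => ∑ l, g i l * x l j : X → X → ℝ) := by
      fun_prop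
    rw [Measure.map_map hT.measurable hφ.measurable]
    let g' : SO X := ⟨g, (mem_SO _).2 ⟨hg1, hg2⟩⟩
    have h1 : ((fun x : X → X → ℝ => (fun i j => ∑ l, g i l * x l j : X → X → ℝ)) ∘ φ) =
        φ ∘ fun h => g' * h := by
      funext h i j
      show ∑ l, g i l * (h : Matrix X X ℝ) l j = (g * (h : Matrix X X ℝ)) i j
      rw [Matrix.mul_apply]
    rw [h1, ← Measure.map_map hφ.measurable (continuous_const_mul g').measurable,
      MeasureTheory.map_mul_left_eq_self]

end

end

end SG23
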