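import Pool.Agent.N23.SG.Stm

/-!
Project SG (helper23), FIN: assembly of the frozen statement (helper712)
-/

set_option autoImplicit false

namespace SG23
open Finset MeasureTheory

lemma fin_meas {n : ℕ} (s : Matrix (Fin n) (Fin n) ℝ) :
    Measurable (fun x : Fin n → Fin n → ℝ => tr s x) := by
  unfold tr
  refine measurable_pi_lambda _ fun i => measurable_pi_lambda _ fun j => ?_
  refine Finset.measurable_sum _ fun l _ => ?_
  have h : Measurable fun x : Fin n → Fin n → ℝ => x l j := by fun_prop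
  exact h.const_mul _

/-- one translation -/
lemma fin_one {n : ℕ} {μ : Measure (Fin n → Fin n → ℝ)} {s : Matrix (Fin n) (Fin n) ℝ}
    (hs : μ.map (fun x : Fin n → Fin n → ℝ => fun i j => ∑ l, s i l * x l j) = μ)
    {f : (Fin n → Fin n → ℝ) → ℝ} (hf : MemLp f 2 μ) :
    ∫ x, f (tr s x) * f x ∂μ = ∫ x, f x ^ 2 ∂μ - 1 / 2 * ∫ x, (f (tr s x) - f x) ^ 2 ∂μ := by
  have hs' : μ.map (fun x => tr s x) = μ := hs
  have hmp : MeasurePreserving (fun x => tr s x) μ μ := ⟨fin_meas s, hs'⟩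
  have hf2 : MemLp (fun x => f (tr s x)) 2 μ := hf.comp_measurePreserving hmp
  have i1 : Integrable (fun x => f (tr s x) ^ 2) μ := hf2.integrable_sq
  have i2 : Integrable (fun x => f x ^ 2) μ := hf.integrable_sq
  have i3 : Integrable (fun x => f (tr s x) * f x) μ := hf2.integrable_mul hf
  have e1 : ∫ x, f (tr s x) ^ 2 ∂μ = ∫ x, f x ^ 2 ∂μ := by
    have h1 : AEStronglyMeasurable (fun y => f y ^ 2) (μ.map (fun x => tr s x)) := by
      rw [hs']
      exact i2.aestronglyMeasurable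
    have h2 := integral_map (fin_meas s).aemeasurable h1
    rw [hs'] at h2
    exact h2.symm
  have e2 : ∫ x, (f (tr s x) - f x) ^ 2 ∂μ =
      ∫ x, f (tr s x) ^ 2 ∂μ - 2 * ∫ x, f (tr s x) * f x ∂μ + ∫ x, f x ^ 2 ∂μ := by
    have h1 : (fun x => (f (tr s x) - f x) ^ 2) =
        fun x => (f (tr s x) ^ 2 - 2 * (f (tr s x) * f x)) + f x ^ 2 := by
      funext x
      ring
    have i4 : Integrable (fun x => f (tr s x) ^ 2 - 2 * (f (tr s x) * f x)) μ :=
      i1.sub (i3.const_mul 2)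
    rw [h1, integral_add i4 i2, integral_sub i1 (i3.const_mul 2), integral_const_mul]
  rw [e2, e1]
  ring

theorem FIN (hA : ST_ALLS) (hL : ST_L2G) (hD : ST_DENS) (hP : ST_PADS) : ST_FIN := by
  classical
  obtain ⟨k0, K, hK, hg⟩ := hA
  have hk0 : (0 : ℝ) < (k0 : ℝ) + 1 := by positivity
  refine ⟨1 / (2 * (K ^ 2 * ((k0 : ℝ) + 1))), by positivity, 2 * k0 + 1, by omega, fun n hn => ?_⟩
  obtain ⟨g, hKS⟩ := hg n hn
  obtain ⟨S0, hS0⟩ : ∃ S0 : Finset (Matrix (Fin n) (Fin n) ℝ), S0 =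
      univ.image (fun i => (g i : Matrix (Fin n) (Fin n) ℝ)) ∪
        univ.image (fun i => (g i : Matrix (Fin n) (Fin n) ℝ).transpose) := ⟨_, rfl⟩
  have hcard : #S0 ≤ 2 * k0 := by
    rw [hS0]
    refine (card_union_le _ _).trans ?_
    have h1 : #(univ.image (fun i => (g i : Matrix (Fin n) (Fin n) ℝ))) ≤ k0 :=
      card_image_le.trans (by rw [card_univ, Fintype.card_fin])
    have h2 : #(univ.image (fun i => (g i : Matrix (Fin n) (Fin n) ℝ).transpose)) ≤ k0 :=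
      card_image_le.trans (by rw [card_univ, Fintype.card_fin])
    omega
  obtain ⟨T, hT1, hT2, hT3⟩ := hP n (2 * k0 + 1 - #S0) S0 hn
  have hmem : ∀ s, s ∈ S0 ↔ (∃ i, (g i : Matrix (Fin n) (Fin n) ℝ) = s) ∨
      ∃ i, (g i : Matrix (Fin n) (Fin n) ℝ).transpose = s := by
    intro s
    rw [hS0, mem_union, mem_image, mem_image]
    simp
  have hSO : ∀ s ∈ S0 ∪ T, s.transpose * s = 1 ∧ s.det = 1 := by
    intro s hs
    rcases mem_union.1 hs with h | h
    · rcases (hmem s).1 h with ⟨i, rfl⟩ | ⟨i, rfl⟩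
      · exact ⟨SO_left _, SO_det _⟩
      · rw [Matrix.transpose_transpose, Matrix.det_transpose]
        exact ⟨SO_right _, SO_det _⟩
    · exact (hT3 s h).2
  refine ⟨S0 ∪ T, ?_, hSO, ?_, ?_, ?_⟩
  · rw [card_union_of_disjoint hT2, hT1]
    omega
  · intro s hs
    rcases mem_union.1 hs with h | h
    · refine mem_union_left _ ((hmem _).2 ?_)
      rcases (hmem s).1 h with ⟨i, rfl⟩ | ⟨i, rfl⟩
      · exact Or.inr ⟨i, rfl⟩
      · exact Or.inl ⟨i, (Matrix.transpose_transpose _).symm⟩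
    · rw [(hT3 s h).1]
      exact mem_union_right _ h
  · intro h hh1 hh2
    refine hD (Fin n) k0 K g hK hKS _ (fun i => ?_) (fun i => ?_) (fun s hs => ?_) h hh1 hh2
    · exact mem_coe.2 (mem_union_left _ ((hmem _).2 (Or.inl ⟨i, rfl⟩)))
    · exact mem_coe.2 (mem_union_left _ ((hmem _).2 (Or.inr ⟨i, rfl⟩)))
    · exact hSO s (mem_coe.1 hs)
  · intro μ hμ1 hμ2 hμ3 f hf hf0
    have hHL : HL μ := ⟨hμ1, hμ2, hμ3⟩
    have h1 := hL (Fin n) μ hHL k0 K g hK hKS f hf hf0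
    obtain ⟨I, hI⟩ : ∃ I : ℝ, I = ∫ x, f x ^ 2 ∂μ := ⟨_, rfl⟩
    obtain ⟨D, hDD⟩ : ∃ D : Matrix (Fin n) (Fin n) ℝ → ℝ, D =
      fun s => ∫ x, (f (tr s x) - f x) ^ 2 ∂μ := ⟨_, rfl⟩
    have hD0 : ∀ s, 0 ≤ D s := by
      intro s
      rw [hDD]
      exact integral_nonneg fun x => sq_nonneg _
    have h2 : ∑ s ∈ S0 ∪ T, ∫ x, f (fun i j => ∑ l, s i l * x l j) * f x ∂μ =
        ∑ s ∈ S0 ∪ T, (I - 1 / 2 * D s) := by
      refine sum_congr rfl fun s hs => ?_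
      rw [hI, hDD]
      exact fin_one (hμ3 s (hSO s hs).1 (hSO s hs).2) hf
    have hcS : #(S0 ∪ T) = 2 * k0 + 1 := by
      rw [card_union_of_disjoint hT2, hT1]
      omega
    have h3 : ∑ i, D (g i : Matrix (Fin n) (Fin n) ℝ) ≤ k0 * ∑ s ∈ S0 ∪ T, D s := by
      have h4 : ∀ i : Fin k0, D (g i : Matrix (Fin n) (Fin n) ℝ) ≤ ∑ s ∈ S0 ∪ T, D s := fun i =>
        single_le_sum (f := D) (fun s _ => hD0 s)
          (mem_union_left _ ((hmem _).2 (Or.inl ⟨i, rfl⟩)))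
      refine (sum_le_sum fun i _ => h4 i).trans ?_
      rw [sum_const, card_univ, Fintype.card_fin, nsmul_eq_mul]
    have hS0n : 0 ≤ ∑ s ∈ S0 ∪ T, D s := sum_nonneg fun s _ => hD0 s
    have h5 : I ≤ K ^ 2 * ((k0 : ℝ) + 1) * ∑ s ∈ S0 ∪ T, D s := by
      have h6 : I ≤ K ^ 2 * ∑ i, D (g i : Matrix (Fin n) (Fin n) ℝ) := by
        rw [hI, hDD]
        exact h1
      have hK2 : 0 < K ^ 2 := by positivity
      have h7 := mul_le_mul_of_nonneg_left h3 hK2.le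
      nlinarith
    rw [h2, sum_sub_distrib, sum_const, hcS, nsmul_eq_mul, ← mul_sum, ← hI, sub_mul]
    have h8 : 1 / (2 * (K ^ 2 * ((k0 : ℝ) + 1))) * I ≤ 1 / 2 * ∑ s ∈ S0 ∪ T, D s := by
      have hc : 0 < K ^ 2 * ((k0 : ℝ) + 1) := by positivity
      rw [div_mul_eq_mul_div, one_mul, div_le_iff₀ (by positivity)]
      nlinarith
    linarith

end SG23
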