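import Pool.Agent.N23.SG.BStm

/-!
Project SG (helper23), leaf FREEQ (helper408): the three rotations are free, words as integer
quaternions.
-/

set_option autoImplicit false

namespace SG23
open Finset MeasureTheory Quaternion
open Pool.Agent.H762R3.UQ Pool.Agent.H762R3.Rot

noncomputable section

/-- the letter as an integer quaternion -/
def freeqL (a : Fin 3 × Bool) : ℍ[ℤ] :=
  ⟨1, if a.1 = 0 then (if a.2 then 2 else -2) else 0, if a.1 = 1 then (if a.2 then 2 else -2) else 0,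
    if a.1 = 2 then (if a.2 then 2 else -2) else 0⟩

/-- the word as an integer quaternion -/
def freeqX (w : List (Fin 3 × Bool)) : ℍ[ℤ] := (w.map freeqL).prod

lemma freeqX_nil : freeqX [] = 1 := rfl

lemma freeqX_cons (a : Fin 3 × Bool) (w : List (Fin 3 × Bool)) :
    freeqX (a :: w) = freeqL a * freeqX w := by
  simp [freeqX]

/-- the inverse letter -/
def freeqF (a : Fin 3 × Bool) : Fin 3 × Bool := (a.1, !a.2)

lemma freeqL_flip (a : Fin 3 × Bool) : freeqL (freeqF a) * freeqL a = (5 : ℤ) • (1 : ℍ[ℤ]) := by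
  obtain ⟨i, b⟩ := a
  fin_cases i <;> cases b <;> ext <;> rfl

lemma freeqL_three (a b : Fin 3 × Bool) (h : ok b a) :
    ∃ (t : ℤ) (c : ℍ[ℤ]), (t = 2 ∨ t = -6) ∧
      freeqL a * (freeqL b * freeqL a) = t • freeqL a + (5 : ℤ) • c := by
  obtain ⟨i, x⟩ := a
  obtain ⟨j, y⟩ := b
  by_cases hij : i = j
  · subst hij
    have hxy : y = x := h rfl
    subst hxy
    refine ⟨-6, -freeqL (freeqF (i, y)), Or.inr rfl, ?_⟩
    fin_cases i <;> cases y <;> ext <;> rfl
  · refine ⟨2, -freeqL (freeqF (j, y)), Or.inl rfl, ?_⟩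
    fin_cases i <;> fin_cases j <;> first | exact absurd rfl hij | skip
    all_goals cases x <;> cases y <;> ext <;> rfl

lemma freeqL_normSq (a : Fin 3 × Bool) : normSq (freeqL a) = 5 := by
  obtain ⟨i, b⟩ := a
  fin_cases i <;> cases b <;> rfl

lemma freeqX_normSq (w : List (Fin 3 × Bool)) : normSq (freeqX w) = 5 ^ w.length := by
  induction w with
  | nil => simp [freeqX_nil]
  | cons a t ih => rw [freeqX_cons, map_mul, ih, freeqL_normSq, List.length_cons, pow_succ']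

/-- divisibility by `5` of an integer quaternion -/
def freeqD (x : ℍ[ℤ]) : Prop := ∃ y : ℍ[ℤ], x = (5 : ℤ) • y

lemma freeqD_iff (x : ℍ[ℤ]) : freeqD x ↔
    (5 : ℤ) ∣ x.re ∧ (5 : ℤ) ∣ x.imI ∧ (5 : ℤ) ∣ x.imJ ∧ (5 : ℤ) ∣ x.imK := by
  constructor
  · rintro ⟨y, rfl⟩
    refine ⟨⟨y.re, ?_⟩, ⟨y.imI, ?_⟩, ⟨y.imJ, ?_⟩, ⟨y.imK, ?_⟩⟩ <;> rfl
  · rintro ⟨⟨a, ha⟩, ⟨b, hb⟩, ⟨c, hc⟩, ⟨d, hd⟩⟩
    refine ⟨⟨a, b, c, d⟩, ?_⟩
    ext
    · exact ha
    · exact hb
    · exact hc
    · exact hd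

lemma freeqD_of_smul (t : ℤ) (ht : t = 2 ∨ t = -6) (x : ℍ[ℤ]) (h : freeqD (t • x)) : freeqD x := by
  rw [freeqD_iff] at h ⊢
  have e1 : (t • x).re = t * x.re := rfl
  have e2 : (t • x).imI = t * x.imI := rfl
  have e3 : (t • x).imJ = t * x.imJ := rfl
  have e4 : (t • x).imK = t * x.imK := rfl
  rw [e1, e2, e3, e4] at h
  obtain ⟨h1, h2, h3, h4⟩ := h
  rcases ht with rfl | rfl
  · refine ⟨?_, ?_, ?_, ?_⟩ <;> omega
  · refine ⟨?_, ?_, ?_, ?_⟩ <;> omega

/-- a reduced word is not divisible by `5` -/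
lemma freeqX_not (w : List (Fin 3 × Bool)) (hw : List.IsChain ok w) : ¬ freeqD (freeqX w) := by
  induction w with
  | nil =>
    rw [freeqX_nil, freeqD_iff]
    intro h
    have h1 : (5 : ℤ) ∣ (1 : ℤ) := h.1
    omega
  | cons b u ih =>
    cases u with
    | nil =>
      rw [freeqX_cons, freeqX_nil, mul_one, freeqD_iff]
      intro h
      have h1 : (5 : ℤ) ∣ (1 : ℤ) := h.1
      omega
    | cons a t =>
      have hw2 : ok b a ∧ List.IsChain ok (a :: t) := by
        simpa using hw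
      intro h
      apply ih hw2.2
      obtain ⟨y, hy⟩ := h
      obtain ⟨s, c, hs, hc⟩ := freeqL_three a b hw2.1
      refine freeqD_of_smul s hs _ ⟨freeqL a * y - c * freeqX t, ?_⟩
      have h1 : freeqL a * freeqX (b :: a :: t) = freeqL a * ((5 : ℤ) • y) := by rw [hy]
      rw [freeqX_cons, freeqX_cons, ← mul_assoc, ← mul_assoc, mul_assoc (freeqL a), hc, add_mul,
        smul_mul_assoc, smul_mul_assoc, mul_smul_comm] at h1
      rw [freeqX_cons, smul_sub, ← h1]
      abel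

/-- reduced words are determined by their integer quaternions -/
lemma freeqX_inj : ∀ (w w' : List (Fin 3 × Bool)), w.length = w'.length → List.IsChain ok w →
    List.IsChain ok w' → freeqX w = freeqX w' → w = w' := by
  intro w
  induction w with
  | nil =>
    intro w' hl _ _ _
    rw [List.length_nil] at hl
    exact (List.length_eq_zero_iff.1 hl.symm).symm
  | cons a t ih =>
    intro w' hl hw hw' h
    cases w' with
    | nil => simp at hl
    | cons b t' =>
      have hab : a = b := by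
        by_contra hne
        have hok : ok (freeqF a) b := by
          intro h1
          have h2 : a.1 = b.1 := h1
          have h3 : a.2 ≠ b.2 := fun h3 => hne (Prod.ext h2 h3)
          show (!a.2) = b.2
          revert h3
          cases a.2 <;> cases b.2 <;> simp
        have hc : List.IsChain ok (freeqF a :: b :: t') := by
          simpa using ⟨hok, hw'⟩
        apply freeqX_not _ hc
        refine ⟨freeqX t, ?_⟩
        rw [freeqX_cons, ← h, freeqX_cons, ← mul_assoc, freeqL_flip, smul_mul_assoc, one_mul]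
      subst hab
      have ht : freeqX t = freeqX t' := by
        rw [freeqX_cons, freeqX_cons] at h
        have hne : freeqL a ≠ 0 := by
          intro h0
          have := freeqL_normSq a
          rw [h0, map_zero] at this
          norm_num at this
        exact mul_left_cancel₀ hne h
      rw [ih t' (by simpa using hl) hw.tail hw'.tail ht]

lemma freeq_mem_RW (l : ℕ) (w : List (Fin 3 × Bool)) (h : w ∈ RW l) :
    w.length = l ∧ List.IsChain ok w := by
  induction l generalizing w with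
  | zero =>
    simp only [RW, mem_singleton] at h
    subst h
    simp
  | succ l ih =>
    simp only [RW, mem_image, mem_filter, mem_product, mem_univ, true_and] at h
    obtain ⟨p, ⟨hp1, hp2⟩, rfl⟩ := h
    obtain ⟨h1, h2⟩ := ih p.2 hp1
    refine ⟨by simp [h1], ?_⟩
    rw [List.isChain_cons]
    exact ⟨hp2, h2⟩

/-- the inclusion of the integer quaternions into the real ones -/
def freeqC (x : ℍ[ℤ]) : ℍ[ℝ] := ⟨x.re, x.imI, x.imJ, x.imK⟩

lemma freeqC_mul (x y : ℍ[ℤ]) : freeqC (x * y) = freeqC x * freeqC y := by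
  ext
  · show ((x * y).re : ℝ) = (freeqC x * freeqC y).re
    rw [Quaternion.re_mul, Quaternion.re_mul]
    push_cast
    rfl
  · show ((x * y).imI : ℝ) = (freeqC x * freeqC y).imI
    rw [Quaternion.imI_mul, Quaternion.imI_mul]
    push_cast
    rfl
  · show ((x * y).imJ : ℝ) = (freeqC x * freeqC y).imJ
    rw [Quaternion.imJ_mul, Quaternion.imJ_mul]
    push_cast
    rfl
  · show ((x * y).imK : ℝ) = (freeqC x * freeqC y).imK
    rw [Quaternion.imK_mul, Quaternion.imK_mul]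
    push_cast
    rfl

lemma freeqC_one : freeqC 1 = 1 := by
  ext
  · show ((1 : ℤ) : ℝ) = 1
    norm_num
  · show ((0 : ℤ) : ℝ) = 0
    norm_num
  · show ((0 : ℤ) : ℝ) = 0
    norm_num
  · show ((0 : ℤ) : ℝ) = 0
    norm_num

lemma freeq_sqrt : Real.sqrt 5 * (1 / Real.sqrt (1 + 2 ^ 2)) = 1 := by
  have : (1 : ℝ) + 2 ^ 2 = 5 := by norm_num
  rw [this]
  have h5 : Real.sqrt 5 ≠ 0 := by positivity
  field_simp

lemma freeq_letter_true (i : Fin 3) :
    Real.sqrt 5 • ((gq i : U) : ℍ[ℝ]) = freeqC (freeqL (i, true)) := by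
  have hc : Real.sqrt 5 * Real.cos (2 * Real.arctan 2 / 2) = 1 := by
    rw [mul_div_cancel_left₀ _ (two_ne_zero), Real.cos_arctan]
    exact freeq_sqrt
  have hs : Real.sqrt 5 * Real.sin (2 * Real.arctan 2 / 2) = 2 := by
    rw [mul_div_cancel_left₀ _ (two_ne_zero), Real.sin_arctan]
    have := freeq_sqrt
    calc Real.sqrt 5 * (2 / Real.sqrt (1 + 2 ^ 2)) = 2 * (Real.sqrt 5 * (1 / Real.sqrt (1 + 2 ^ 2))) := by
          ring
      _ = 2 := by rw [this, mul_one]
  have key : ∀ (P : Prop) [Decidable P], Real.sqrt 5 *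
      (if P then Real.sin (2 * Real.arctan 2 / 2) else 0) = ((if P then (2 : ℤ) else 0 : ℤ) : ℝ) := by
    intro P _
    split_ifs
    · rw [hs]; norm_num
    · simp
  ext
  · show Real.sqrt 5 * Real.cos (2 * Real.arctan 2 / 2) = ((1 : ℤ) : ℝ)
    rw [hc]; norm_num
  · exact key (i = 0)
  · exact key (i = 1)
  · exact key (i = 2)

lemma freeq_coe_inv (x : U) : ((x⁻¹ : U) : ℍ[ℝ]) = star (x : ℍ[ℝ]) := by
  have h1 : ((x⁻¹ : U) : ℍ[ℝ]) = ((x : ℍ[ℝ]))⁻¹ := rfl
  rw [h1]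
  apply inv_eq_of_mul_eq_one_right
  rw [Quaternion.self_mul_star, Quaternion.normSq_eq_norm_mul_self,
    Pool.Agent.H762R3.UQ.norm_coe]; simp

lemma freeqL_false (i : Fin 3) : freeqL (i, false) = star (freeqL (i, true)) := by
  fin_cases i <;> ext <;> rfl

lemma freeqC_star (x : ℍ[ℤ]) : freeqC (star x) = star (freeqC x) := by
  ext
  · show (((star x).re : ℤ) : ℝ) = (star (freeqC x)).re
    rw [Quaternion.re_star, Quaternion.re_star]; rfl
  · show (((star x).imI : ℤ) : ℝ) = (star (freeqC x)).imI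
    rw [Quaternion.imI_star, Quaternion.imI_star]; push_cast; rfl
  · show (((star x).imJ : ℤ) : ℝ) = (star (freeqC x)).imJ
    rw [Quaternion.imJ_star, Quaternion.imJ_star]; push_cast; rfl
  · show (((star x).imK : ℤ) : ℝ) = (star (freeqC x)).imK
    rw [Quaternion.imK_star, Quaternion.imK_star]; push_cast; rfl

lemma freeq_letter (a : Fin 3 × Bool) :
    Real.sqrt 5 • (((if a.2 then gq a.1 else (gq a.1)⁻¹ : U)) : ℍ[ℝ]) = freeqC (freeqL a) := by
  obtain ⟨i, b⟩ := a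
  cases b
  · show Real.sqrt 5 • (((gq i)⁻¹ : U) : ℍ[ℝ]) = freeqC (freeqL (i, false))
    rw [freeqL_false, freeqC_star, ← freeq_letter_true, freeq_coe_inv, Quaternion.star_smul]
  · exact freeq_letter_true i

lemma freeq_word (w : List (Fin 3 × Bool)) :
    (Real.sqrt 5) ^ w.length • ((wp gq w : U) : ℍ[ℝ]) = freeqC (freeqX w) := by
  induction w with
  | nil =>
    rw [freeqX_nil, freeqC_one, List.length_nil, pow_zero, one_smul]
    rfl
  | cons a t ih =>
    have h1 : ((wp gq (a :: t) : U) : ℍ[ℝ]) =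
        (((if a.2 then gq a.1 else (gq a.1)⁻¹ : U)) : ℍ[ℝ]) * ((wp gq t : U) : ℍ[ℝ]) := by
      simp only [wp, List.map_cons, List.prod_cons]
      rfl
    rw [h1, freeqX_cons, freeqC_mul, ← ih, ← freeq_letter, List.length_cons, pow_succ',
      smul_mul_smul_comm]

lemma freeq_sqrt_pow (m : ℕ) : (Real.sqrt 5) ^ (2 * m) = (5 : ℝ) ^ m := by
  rw [pow_mul, Real.sq_sqrt (by norm_num)]

/-- the real part -/
lemma freeq_re (w : List (Fin 3 × Bool)) (m : ℕ) (hw : w.length = 2 * m) :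
    (5 : ℝ) ^ m * ((wp gq w : U) : ℍ[ℝ]).re = ((freeqX w).re : ℝ) := by
  have h0 := freeq_word w
  rw [hw, freeq_sqrt_pow] at h0
  exact congrArg (fun x : ℍ[ℝ] => x.re) h0

lemma freeq_dist (q : U) : ‖(q : ℍ[ℝ]) - 1‖ ^ 2 = 2 - 2 * (q : ℍ[ℝ]).re := by
  have h1 := Pool.Agent.H762R3.UQ.norm_coe q
  have h2 : ‖(q : ℍ[ℝ])‖ * ‖(q : ℍ[ℝ])‖ = 1 := by rw [h1]; norm_num
  rw [← Quaternion.normSq_eq_norm_mul_self, Quaternion.normSq_def'] at h2
  rw [sq, ← Quaternion.normSq_eq_norm_mul_self, Quaternion.normSq_def']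
  have e1 : ((q : ℍ[ℝ]) - 1).re = (q : ℍ[ℝ]).re - 1 := by simp
  have e2 : ((q : ℍ[ℝ]) - 1).imI = (q : ℍ[ℝ]).imI := by simp
  have e3 : ((q : ℍ[ℝ]) - 1).imJ = (q : ℍ[ℝ]).imJ := by simp
  have e4 : ((q : ℍ[ℝ]) - 1).imK = (q : ℍ[ℝ]).imK := by simp
  rw [e1, e2, e3, e4]
  linarith

/-- the four coordinates -/
def freeqV (x : ℍ[ℤ]) : Fin 4 → ℤ := ![x.re, x.imI, x.imJ, x.imK]

lemma freeqV_inj (x y : ℍ[ℤ]) (h : freeqV x = freeqV y) : x = y := by
  ext
  · exact congrFun h 0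
  · exact congrFun h 1
  · exact congrFun h 2
  · exact congrFun h 3

lemma freeqV_sum (x : ℍ[ℤ]) : ∑ i, freeqV x i ^ 2 = normSq x := by
  rw [Quaternion.normSq_def', Fin.sum_univ_four]
  rfl

lemma freeq_fin (m : ℕ) (δ : ℝ) :
    Finite {x : Fin 4 → ℤ // ∑ i, x i ^ 2 = 5 ^ (2 * m) ∧
      2 * ((5 : ℝ) ^ m - x 0) ≤ δ ^ 2 * 5 ^ m} := by
  have hf : (Set.Icc (fun _ : Fin 4 => (-(5 ^ (2 * m)) : ℤ)) (fun _ => (5 ^ (2 * m) : ℤ))).Finite :=
    Set.finite_Icc _ _
  refine (hf.subset ?_).to_subtype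
  rintro x ⟨hx, -⟩
  have hb : ∀ i, |x i| ≤ 5 ^ (2 * m) := by
    intro i
    have h1 : x i ^ 2 ≤ 5 ^ (2 * m) := by
      rw [← hx]
      exact Finset.single_le_sum (f := fun i => x i ^ 2) (fun j _ => sq_nonneg (x j)) (mem_univ i)
    have h2 : |x i| ≤ x i ^ 2 := by
      rw [← sq_abs]
      have h3 : 0 ≤ |x i| := abs_nonneg _
      by_cases h4 : |x i| = 0
      · rw [h4]; norm_num
      · have : 1 ≤ |x i| := by omega
        nlinarith
    exact h2.trans h1
  exact ⟨fun i => (abs_le.1 (hb i)).1, fun i => (abs_le.1 (hb i)).2⟩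

theorem FREEQ : ST_FREEQ := by
  classical
  intro m δ
  have := freeq_fin m δ
  set S := (RW (2 * m)).filter fun z => ‖((wp gq z : U) : ℍ[ℝ]) - 1‖ ≤ δ with hS
  have hmem : ∀ z ∈ S, ∑ i, freeqV (freeqX z) i ^ 2 = 5 ^ (2 * m) ∧
      2 * ((5 : ℝ) ^ m - freeqV (freeqX z) 0) ≤ δ ^ 2 * 5 ^ m := by
    intro z hz
    rw [hS, mem_filter] at hz
    obtain ⟨hz1, hz2⟩ := hz
    obtain ⟨hl, _⟩ := freeq_mem_RW _ _ hz1
    refine ⟨by rw [freeqV_sum, freeqX_normSq, hl], ?_⟩
    have h1 := freeq_re z m hl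
    have h2 := freeq_dist (wp gq z)
    have h3 : ‖((wp gq z : U) : ℍ[ℝ]) - 1‖ ^ 2 ≤ δ ^ 2 :=
      pow_le_pow_left₀ (norm_nonneg _) hz2 2
    rw [h2] at h3
    have h4 : (freeqV (freeqX z) 0 : ℤ) = (freeqX z).re := rfl
    rw [h4, ← h1]
    have h5 : (0 : ℝ) < 5 ^ m := by positivity
    nlinarith
  have hinj : Function.Injective (fun z : S =>
      (⟨freeqV (freeqX z.1), hmem z.1 z.2⟩ : {x : Fin 4 → ℤ // ∑ i, x i ^ 2 = 5 ^ (2 * m) ∧
      2 * ((5 : ℝ) ^ m - x 0) ≤ δ ^ 2 * 5 ^ m})) := by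
    intro z z' h
    have h1 : freeqV (freeqX z.1) = freeqV (freeqX z'.1) := congrArg Subtype.val h
    have h2 := freeqV_inj _ _ h1
    have hz := freeq_mem_RW _ _ (mem_filter.1 z.2).1
    have hz' := freeq_mem_RW _ _ (mem_filter.1 z'.2).1
    exact Subtype.ext (freeqX_inj _ _ (hz.1.trans hz'.1.symm) hz.2 hz'.2 h2)
  have h := Nat.card_le_card_of_injective _ hinj
  rw [Nat.card_eq_fintype_card, Fintype.card_coe] at h
  exact h

end

end SG23
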