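import Pool.Agent.N23.SG.BStm

/-!
Project SG (helper23), MP_839d28_al: FREQ, rotations close to the identity (helper543).
-/

set_option linter.unusedSimpArgs false

namespace SG23
open Finset MeasureTheory Quaternion
open Pool.Agent.H762R3.UQ Pool.Agent.H762R3.Rot
open Pool.Agent.TH591.Lie (Skew xi xi_skew xi_apply bv_apply bv toMat toMat_apply toMat_one vec entL
  entL_apply op op_apply op_mul op_one PolyRep exists_extension dR dR_skew dR_bracket)

noncomputable section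

/-- the cross product with `u`, as an operator -/
def freqT (u : Fin 3 → ℝ) : EuclideanSpace ℝ (Fin 3) →L[ℝ] EuclideanSpace ℝ (Fin 3) :=
  u 0 • xi 2 1 + u 1 • xi 0 2 + u 2 • xi 1 0

lemma freqT_apply (u : Fin 3 → ℝ) (v : EuclideanSpace ℝ (Fin 3)) :
    freqT u v = u 0 • (v 1 • bv 2 - v 2 • bv 1) + u 1 • (v 2 • bv 0 - v 0 • bv 2) +
      u 2 • (v 0 • bv 1 - v 1 • bv 0) := by
  rw [← xi_apply, ← xi_apply, ← xi_apply]
  rfl

lemma freqT_0 (u : Fin 3 → ℝ) (v : EuclideanSpace ℝ (Fin 3)) :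
    freqT u v 0 = u 1 * v 2 - u 2 * v 1 := by
  rw [freqT_apply]
  simp only [PiLp.add_apply, PiLp.sub_apply, PiLp.smul_apply, bv_apply, smul_eq_mul,
    (by decide : ¬ (0 : Fin 3) = 1), (by decide : ¬ (0 : Fin 3) = 2), (by decide : ¬ (1 : Fin 3) = 0),
    (by decide : ¬ (1 : Fin 3) = 2), (by decide : ¬ (2 : Fin 3) = 0), (by decide : ¬ (2 : Fin 3) = 1),
    if_true, if_false]
  ring

lemma freqT_1 (u : Fin 3 → ℝ) (v : EuclideanSpace ℝ (Fin 3)) :
    freqT u v 1 = u 2 * v 0 - u 0 * v 2 := by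
  rw [freqT_apply]
  simp only [PiLp.add_apply, PiLp.sub_apply, PiLp.smul_apply, bv_apply, smul_eq_mul,
    (by decide : ¬ (0 : Fin 3) = 1), (by decide : ¬ (0 : Fin 3) = 2), (by decide : ¬ (1 : Fin 3) = 0),
    (by decide : ¬ (1 : Fin 3) = 2), (by decide : ¬ (2 : Fin 3) = 0), (by decide : ¬ (2 : Fin 3) = 1),
    if_true, if_false]
  ring

lemma freqT_2 (u : Fin 3 → ℝ) (v : EuclideanSpace ℝ (Fin 3)) :
    freqT u v 2 = u 0 * v 1 - u 1 * v 0 := by
  rw [freqT_apply]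
  simp only [PiLp.add_apply, PiLp.sub_apply, PiLp.smul_apply, bv_apply, smul_eq_mul,
    (by decide : ¬ (0 : Fin 3) = 1), (by decide : ¬ (0 : Fin 3) = 2), (by decide : ¬ (1 : Fin 3) = 0),
    (by decide : ¬ (1 : Fin 3) = 2), (by decide : ¬ (2 : Fin 3) = 0), (by decide : ¬ (2 : Fin 3) = 1),
    if_true, if_false]
  ring

lemma freqT_skew (u : Fin 3 → ℝ) : Skew (freqT u) := by
  intro x y
  have h1 := xi_skew (2 : Fin 3) 1 x y
  have h2 := xi_skew (0 : Fin 3) 2 x y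
  have h3 := xi_skew (1 : Fin 3) 0 x y
  show inner ℝ (u 0 • xi 2 1 x + u 1 • xi 0 2 x + u 2 • xi 1 0 x) y =
    -inner ℝ x (u 0 • xi 2 1 y + u 1 • xi 0 2 y + u 2 • xi 1 0 y)
  rw [inner_add_left, inner_add_left, inner_add_right, inner_add_right, real_inner_smul_left,
    real_inner_smul_left, real_inner_smul_left, real_inner_smul_right, real_inner_smul_right,
    real_inner_smul_right, h1, h2, h3]
  ring

/-- the cross product -/
def freqC (u w : Fin 3 → ℝ) : Fin 3 → ℝ :=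
  ![u 1 * w 2 - u 2 * w 1, u 2 * w 0 - u 0 * w 2, u 0 * w 1 - u 1 * w 0]

lemma freqT_bracket (u w : Fin 3 → ℝ) :
    freqT u * freqT w - freqT w * freqT u = freqT (freqC u w) := by
  ext v i
  show freqT u (freqT w v) i - freqT w (freqT u v) i = freqT (freqC u w) v i
  fin_cases i
  · show freqT u (freqT w v) 0 - freqT w (freqT u v) 0 = freqT (freqC u w) v 0
    simp only [freqT_0, freqT_1, freqT_2, freqC, Matrix.cons_val_zero, Matrix.cons_val_one,
      Matrix.cons_val_two, Matrix.head_cons, Matrix.tail_cons, Matrix.cons_val]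
    ring
  · show freqT u (freqT w v) 1 - freqT w (freqT u v) 1 = freqT (freqC u w) v 1
    simp only [freqT_0, freqT_1, freqT_2, freqC, Matrix.cons_val_zero, Matrix.cons_val_one,
      Matrix.cons_val_two, Matrix.head_cons, Matrix.tail_cons, Matrix.cons_val]
    ring
  · show freqT u (freqT w v) 2 - freqT w (freqT u v) 2 = freqT (freqC u w) v 2
    simp only [freqT_0, freqT_1, freqT_2, freqC, Matrix.cons_val_zero, Matrix.cons_val_one,
      Matrix.cons_val_two, Matrix.head_cons, Matrix.tail_cons, Matrix.cons_val]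
    ring

/-- a unit vector is the third vector of a positive orthonormal basis -/
lemma freq_basis (n : Fin 3 → ℝ) (hn : n 0 ^ 2 + n 1 ^ 2 + n 2 ^ 2 = 1) :
    ∃ a b : Fin 3 → ℝ, freqC a b = n ∧ freqC b n = a ∧ freqC n a = b := by
  obtain ⟨a, ha, han⟩ : ∃ a : Fin 3 → ℝ, a 0 ^ 2 + a 1 ^ 2 + a 2 ^ 2 = 1 ∧
      a 0 * n 0 + a 1 * n 1 + a 2 * n 2 = 0 := by
    by_cases h : n 0 ^ 2 + n 1 ^ 2 = 0
    · have h0 : n 0 = 0 := by nlinarith [sq_nonneg (n 0), sq_nonneg (n 1)]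
      refine ⟨![1, 0, 0], by simp, ?_⟩
      simp [h0]
    · have hpos : 0 < n 0 ^ 2 + n 1 ^ 2 := lt_of_le_of_ne (by positivity) (Ne.symm h)
      set r := √(n 0 ^ 2 + n 1 ^ 2) with hr
      have hr0 : 0 < r := Real.sqrt_pos.mpr hpos
      have hr2 : r ^ 2 = n 0 ^ 2 + n 1 ^ 2 := Real.sq_sqrt hpos.le
      refine ⟨![-(n 1) / r, n 0 / r, 0], ?_, ?_⟩
      · simp only [Matrix.cons_val_zero, Matrix.cons_val_one, Matrix.cons_val]
        field_simp
        rw [hr2]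
        ring
      · simp only [Matrix.cons_val_zero, Matrix.cons_val_one, Matrix.cons_val]
        field_simp
        ring
  refine ⟨a, freqC n a, ?_, ?_, rfl⟩
  · funext i
    fin_cases i
    · show a 1 * (n 0 * a 1 - n 1 * a 0) - a 2 * (n 2 * a 0 - n 0 * a 2) = n 0
      linear_combination n 0 * ha - a 0 * han
    · show a 2 * (n 1 * a 2 - n 2 * a 1) - a 0 * (n 0 * a 1 - n 1 * a 0) = n 1
      linear_combination n 1 * ha - a 1 * han
    · show a 0 * (n 2 * a 0 - n 0 * a 2) - a 1 * (n 1 * a 2 - n 2 * a 1) = n 2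
      linear_combination n 2 * ha - a 2 * han
  · funext i
    fin_cases i
    · show (n 2 * a 0 - n 0 * a 2) * n 2 - (n 0 * a 1 - n 1 * a 0) * n 1 = a 0
      linear_combination a 0 * hn - n 0 * han
    · show (n 0 * a 1 - n 1 * a 0) * n 0 - (n 1 * a 2 - n 2 * a 1) * n 2 = a 1
      linear_combination a 1 * hn - n 1 * han
    · show (n 1 * a 2 - n 2 * a 1) * n 1 - (n 2 * a 0 - n 0 * a 2) * n 0 = a 2
      linear_combination a 2 * hn - n 2 * han

/-- the quaternion `cos s + sin s n` -/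
def freqQ (n : Fin 3 → ℝ) (s : ℝ) : ℍ[ℝ] :=
  ⟨Real.cos s, Real.sin s * n 0, Real.sin s * n 1, Real.sin s * n 2⟩

lemma freqQ_mem (n : Fin 3 → ℝ) (hn : n 0 ^ 2 + n 1 ^ 2 + n 2 ^ 2 = 1) (s : ℝ) :
    freqQ n s ∈ Metric.sphere (0 : ℍ[ℝ]) 1 := by
  apply unit_of
  show Real.cos s ^ 2 + (Real.sin s * n 0) ^ 2 + (Real.sin s * n 1) ^ 2 +
    (Real.sin s * n 2) ^ 2 = 1
  linear_combination Real.cos_sq_add_sin_sq s + Real.sin s ^ 2 * hn

lemma freqQ_mul (n : Fin 3 → ℝ) (hn : n 0 ^ 2 + n 1 ^ 2 + n 2 ^ 2 = 1) (s t : ℝ) :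
    freqQ n (s + t) = freqQ n s * freqQ n t := by
  have hc := Real.cos_add s t
  have hs := Real.sin_add s t
  ext
  · rw [Quaternion.re_mul]
    simp only [freqQ]
    rw [hc]
    linear_combination (Real.sin s * Real.sin t) * hn
  · rw [Quaternion.imI_mul]
    simp only [freqQ]
    rw [hs]
    ring
  · rw [Quaternion.imJ_mul]
    simp only [freqQ]
    rw [hs]
    ring
  · rw [Quaternion.imK_mul]
    simp only [freqQ]
    rw [hs]
    ring

/-- the derivative of the rotation matrix -/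
lemma freq_deriv (n : Fin 3 → ℝ) :
    HasDerivAt (fun s : ℝ => vec (rotM (freqQ n s))) ((2 : ℝ) • entL (freqT n)) 0 := by
  rw [hasDerivAt_pi]
  have hc : HasDerivAt (fun s : ℝ => Real.cos s) 0 0 := by
    have := Real.hasDerivAt_cos 0
    rwa [Real.sin_zero, neg_zero] at this
  have hs : HasDerivAt (fun s : ℝ => Real.sin s) 1 0 := by
    have := Real.hasDerivAt_sin 0
    rwa [Real.cos_zero] at this
  have h0 := hs.mul_const (n 0)
  have h1 := hs.mul_const (n 1)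
  have h2 := hs.mul_const (n 2)
  have e : ∀ a b : Fin 3, ((2 : ℝ) • entL (freqT n)) (a, b) =
      2 * (freqT n (EuclideanSpace.single b 1)) a := fun a b => rfl
  rintro ⟨a, b⟩
  rw [e]
  fin_cases a <;> fin_cases b
  · have h := (((hc.pow 2).add (h0.pow 2)).sub (h1.pow 2)).sub (h2.pow 2)
    convert! h using 1
    simp [freqT_0]
  · have h := (((h0.mul h1).sub (hc.mul h2)).const_mul (2 : ℝ))
    convert! h using 1
    simp [freqT_0]
  · have h := (((h0.mul h2).add (hc.mul h1)).const_mul (2 : ℝ))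
    convert! h using 1
    simp [freqT_0]
  · have h := (((h0.mul h1).add (hc.mul h2)).const_mul (2 : ℝ))
    convert! h using 1
    simp [freqT_1]
  · have h := (((hc.pow 2).sub (h0.pow 2)).add (h1.pow 2)).sub (h2.pow 2)
    convert! h using 1
    simp [freqT_1]
  · have h := (((h1.mul h2).sub (hc.mul h0)).const_mul (2 : ℝ))
    convert! h using 1
    simp [freqT_1]
  · have h := (((h0.mul h2).sub (hc.mul h1)).const_mul (2 : ℝ))
    convert! h using 1
    simp [freqT_2]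
  · have h := (((h1.mul h2).add (hc.mul h0)).const_mul (2 : ℝ))
    convert! h using 1
    simp [freqT_2]
  · have h := (((hc.pow 2).sub (h0.pow 2)).sub (h1.pow 2)).add (h2.pow 2)
    convert! h using 1
    simp [freqT_2]

lemma freqQ_zero (n : Fin 3 → ℝ) : rotM (freqQ n 0) = 1 := by
  have h : freqQ n 0 = 1 := by
    ext <;> simp [freqQ]
  rw [h]
  have h1 := congrArg Subtype.val rho_one
  exact h1

/-- polar form of a unit quaternion -/
lemma freq_polar (q : U) : ∃ (n : Fin 3 → ℝ) (s : ℝ), n 0 ^ 2 + n 1 ^ 2 + n 2 ^ 2 = 1 ∧ 0 ≤ s ∧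
    s ≤ Real.pi ∧ (q : ℍ[ℝ]) = freqQ n s := by
  have hq := unit_eq q
  have h1 : -1 ≤ (q : ℍ[ℝ]).re := by
    nlinarith [sq_nonneg (q : ℍ[ℝ]).imI, sq_nonneg (q : ℍ[ℝ]).imJ, sq_nonneg (q : ℍ[ℝ]).imK]
  have h2 : (q : ℍ[ℝ]).re ≤ 1 := by
    nlinarith [sq_nonneg (q : ℍ[ℝ]).imI, sq_nonneg (q : ℍ[ℝ]).imJ, sq_nonneg (q : ℍ[ℝ]).imK]
  set s := Real.arccos (q : ℍ[ℝ]).re with hs
  have hc : Real.cos s = (q : ℍ[ℝ]).re := Real.cos_arccos h1 h2
  have hsin : Real.sin s ^ 2 = (q : ℍ[ℝ]).imI ^ 2 + (q : ℍ[ℝ]).imJ ^ 2 + (q : ℍ[ℝ]).imK ^ 2 := by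
    have := Real.cos_sq_add_sin_sq s
    rw [hc] at this
    linarith
  by_cases h0 : Real.sin s = 0
  · rw [h0] at hsin
    have hI : (q : ℍ[ℝ]).imI = 0 := by
      nlinarith [sq_nonneg (q : ℍ[ℝ]).imI, sq_nonneg (q : ℍ[ℝ]).imJ, sq_nonneg (q : ℍ[ℝ]).imK]
    have hJ : (q : ℍ[ℝ]).imJ = 0 := by
      nlinarith [sq_nonneg (q : ℍ[ℝ]).imI, sq_nonneg (q : ℍ[ℝ]).imJ, sq_nonneg (q : ℍ[ℝ]).imK]
    have hK : (q : ℍ[ℝ]).imK = 0 := by
      nlinarith [sq_nonneg (q : ℍ[ℝ]).imI, sq_nonneg (q : ℍ[ℝ]).imJ, sq_nonneg (q : ℍ[ℝ]).imK]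
    refine ⟨![1, 0, 0], s, by simp, Real.arccos_nonneg _, Real.arccos_le_pi _, ?_⟩
    ext
    · exact hc.symm
    · show _ = Real.sin s * _
      rw [h0, hI, zero_mul]
    · show _ = Real.sin s * _
      rw [h0, hJ, zero_mul]
    · show _ = Real.sin s * _
      rw [h0, hK, zero_mul]
  · refine ⟨![(q : ℍ[ℝ]).imI / Real.sin s, (q : ℍ[ℝ]).imJ / Real.sin s,
      (q : ℍ[ℝ]).imK / Real.sin s], s, ?_, Real.arccos_nonneg _, Real.arccos_le_pi _, ?_⟩
    · simp only [Matrix.cons_val_zero, Matrix.cons_val_one, Matrix.cons_val]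
      field_simp
      exact hsin.symm
    · ext
      · exact hc.symm
      · show _ = Real.sin s * ((q : ℍ[ℝ]).imI / Real.sin s)
        field_simp
      · show _ = Real.sin s * ((q : ℍ[ℝ]).imJ / Real.sin s)
        field_simp
      · show _ = Real.sin s * ((q : ℍ[ℝ]).imK / Real.sin s)
        field_simp

lemma freq_norm (n : Fin 3 → ℝ) (hn : n 0 ^ 2 + n 1 ^ 2 + n 2 ^ 2 = 1) (s : ℝ) (h0 : 0 ≤ s)
    (h1 : s ≤ Real.pi) : s ≤ 2 * ‖freqQ n s - 1‖ := by
  have h2 : ‖freqQ n s - 1‖ ^ 2 = 2 - 2 * Real.cos s := by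
    rw [sq, ← Quaternion.normSq_eq_norm_mul_self, Quaternion.normSq_def']
    rw [Quaternion.re_sub, Quaternion.imI_sub, Quaternion.imJ_sub,
      Quaternion.imK_sub, Quaternion.re_one, Quaternion.imI_one, Quaternion.imJ_one,
      Quaternion.imK_one]
    simp only [freqQ]
    linear_combination Real.cos_sq_add_sin_sq s + Real.sin s ^ 2 * hn
  have h3 : 2 - 2 * Real.cos s = (2 * Real.sin (s / 2)) ^ 2 := by
    have h4 := Real.cos_sq' (s / 2)
    have h5 : Real.cos s = 2 * Real.cos (s / 2) ^ 2 - 1 := by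
      rw [← Real.cos_two_mul]
      congr 1
      ring
    rw [h5, h4]
    ring
  have hsn : 0 ≤ Real.sin (s / 2) := Real.sin_nonneg_of_nonneg_of_le_pi (by linarith) (by linarith)
  have h6 : ‖freqQ n s - 1‖ = 2 * Real.sin (s / 2) := by
    rw [h3] at h2
    exact (sq_eq_sq₀ (norm_nonneg _) (by linarith)).mp h2
  have h7 := Real.mul_le_sin (x := s / 2) (by linarith) (by linarith)
  rw [h6]
  have hpi := Real.pi_pos
  have h8 : 2 / Real.pi * (s / 2) = s / Real.pi := by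
    field_simp
  rw [h8, div_le_iff₀ hpi] at h7
  have h9 := Real.pi_le_four
  nlinarith

theorem FREQ (hD : ST_DIML) : ST_FREQ := by
  intro E _ _ _ ρ hρ q v
  obtain ⟨k, hk⟩ := hρ
  obtain ⟨R, hR, hRρ⟩ := exists_extension ρ k hk
  obtain ⟨n, s, hn, hs0, hs1, hq⟩ := freq_polar q
  obtain ⟨a, b, hab, hbn, hna⟩ := freq_basis n hn
  set d : ℝ := (Module.finrank ℝ E : ℝ) with hd
  have hd0 : 0 ≤ d := Nat.cast_nonneg _
  have hbr : ∀ u w : Fin 3 → ℝ, dR R (freqT u) * dR R (freqT w) - dR R (freqT w) * dR R (freqT u) =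
      dR R (freqT (freqC u w)) := by
    intro u w
    rw [dR_bracket ρ R hR hRρ _ _ (freqT_skew u) (freqT_skew w), freqT_bracket]
  have hsk : ∀ u : Fin 3 → ℝ, Skew (dR R (freqT u)) := fun u =>
    dR_skew ρ R hR hRρ _ (freqT_skew u)
  have hbound : ∀ x, ‖dR R (freqT n) x‖ ≤ d * ‖x‖ := by
    refine hD E (dR R (freqT a)) (dR R (freqT b)) (dR R (freqT n)) (hsk a) (hsk b) (hsk n) ?_ ?_ ?_
    · rw [hbr, hab]
    · rw [hbr, hbn]
    · rw [hbr, hna]
  set F : ℝ → E →L[ℝ] E := fun s => R (vec (rotM (freqQ n s))) with hF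
  have hFρ : ∀ s, F s = op ρ (rho ⟨freqQ n s, freqQ_mem n hn s⟩) := fun s =>
    hRρ (rho ⟨freqQ n s, freqQ_mem n hn s⟩)
  have hFmul : ∀ s t, F (s + t) = F s * F t := by
    intro s t
    rw [hFρ, hFρ, hFρ, ← op_mul, ← rho_mul]
    congr 2
    exact Subtype.ext (freqQ_mul n hn s t)
  have hF0 : HasDerivAt F ((2 : ℝ) • dR R (freqT n)) 0 := by
    have h1 := (hR (vec (rotM (freqQ n 0)))).hasFDerivAt.comp_hasDerivAt (0 : ℝ) (freq_deriv n)
    rw [freqQ_zero, map_smul] at h1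
    exact h1
  have hFt : ∀ t, HasDerivAt F (F t * ((2 : ℝ) • dR R (freqT n))) t := by
    intro t
    have h1 : HasDerivAt (fun u : ℝ => F (u - t)) ((2 : ℝ) • dR R (freqT n)) t := by
      have h2 : HasDerivAt F ((2 : ℝ) • dR R (freqT n)) (t - t) := by
        rw [sub_self]; exact hF0
      exact h2.comp_sub_const t t
    have h3 := h1.const_mul (F t)
    refine h3.congr_of_eventuallyEq (Filter.Eventually.of_forall fun u => ?_)
    show F u = F t * F (u - t)
    rw [← hFmul]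
    congr 1
    ring
  have hfd : ∀ t, HasDerivAt (fun t => F t v) (F t (((2 : ℝ) • dR R (freqT n)) v)) t := by
    intro t
    have h1 := (hFt t).clm_apply (hasDerivAt_const t v)
    simp only [map_zero, add_zero] at h1
    exact h1
  have hnorm : ∀ t, ‖F t (((2 : ℝ) • dR R (freqT n)) v)‖ ≤ 2 * d * ‖v‖ := by
    intro t
    rw [hFρ, op_apply, LinearIsometryEquiv.norm_map]
    show ‖(2 : ℝ) • dR R (freqT n) v‖ ≤ _
    rw [norm_smul, Real.norm_eq_abs, abs_of_pos (by norm_num : (0 : ℝ) < 2)]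
    have := hbound v
    nlinarith
  have hmv := Convex.norm_image_sub_le_of_norm_hasDerivWithin_le
    (f := fun t => F t v) (f' := fun t => F t (((2 : ℝ) • dR R (freqT n)) v)) (s := Set.univ)
    (x := 0) (y := s) (C := 2 * d * ‖v‖) (fun t _ => (hfd t).hasDerivWithinAt) (fun t _ => hnorm t)
    convex_univ (Set.mem_univ _) (Set.mem_univ _)
  have e0 : F 0 v = v := by
    have h1 : F 0 = 1 := by
      have h2 : F 0 = R (vec (1 : Matrix (Fin 3) (Fin 3) ℝ)) := by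
        rw [hF]
        simp only
        rw [freqQ_zero]
      rw [h2, ← op_one ρ]
      exact hRρ 1
    rw [h1]
    rfl
  have es : F s v = ρ (rho q) v := by
    rw [hFρ, op_apply]
    congr 3
    exact Subtype.ext hq.symm
  simp only [e0, es, sub_zero] at hmv
  rw [Real.norm_eq_abs, abs_of_nonneg hs0] at hmv
  have h5 := freq_norm n hn s hs0 hs1
  rw [← hq] at h5
  calc ‖ρ (rho q) v - v‖ ≤ 2 * d * ‖v‖ * s := hmv
    _ ≤ 2 * d * ‖v‖ * (2 * ‖(q : ℍ[ℝ]) - 1‖) :=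
        mul_le_mul_of_nonneg_left h5 (by positivity)
    _ = 4 * d * ‖(q : ℍ[ℝ]) - 1‖ * ‖v‖ := by ring

end

end SG23
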