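import Pool.Agent.N23.SG.Stm

/-!
# SG/FULLS: from blocks and even permutations to `SO(Q × M)` (helper374)
-/

set_option autoImplicit false

namespace SG23
open Finset

section FULLSaux

variable {X : Type} [Fintype X] [DecidableEq X] {E : Type} [NormedAddCommGroup E]
    [InnerProductSpace ℝ E] [FiniteDimensional ℝ E]

lemma FULLS_prod_norm (ρ : SO X →* (E ≃ₗᵢ[ℝ] E)) (L : List (Finset X)) (w : E) :
    ‖(L.map (P ρ)).prod w‖ ≤ ‖w‖ := by
  induction L with
  | nil => simp
  | cons B L ih =>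
    rw [List.map_cons, List.prod_cons]
    exact (Submodule.norm_starProjection_apply_le _ _).trans ih

lemma FULLS_conj (hC : ST_PCONJ) (ρ : SO X →* (E ≃ₗᵢ[ℝ] E)) (σ : alternatingGroup X) {Q : Type}
    (b B : Q → Finset X) (hB : ∀ j, B j = (b j).map (σ : Equiv.Perm X).toEmbedding)
    (L : List Q) (w : E) :
    ((L.map fun j => P ρ (B j)).prod) (ρ (alt σ) w) =
      ρ (alt σ) ((L.map fun j => P ρ (b j)).prod w) := by
  induction L with
  | nil => simp
  | cons j L ih =>
    rw [List.map_cons, List.prod_cons, List.map_cons, List.prod_cons]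
    change P ρ (B j) (((L.map fun j => P ρ (B j)).prod) (ρ (alt σ) w)) =
      ρ (alt σ) (P ρ (b j) ((L.map fun j => P ρ (b j)).prod w))
    rw [ih, hC X E ρ σ (b j), ← hB]

/-- an even permutation which maps the blocks to given sets -/
lemma FULLS_perm {Q M : Type} [Fintype Q] [DecidableEq Q] [Fintype M] [DecidableEq M]
    (hM : 2 ≤ Fintype.card M) (hQ : Nonempty Q) (B : Q → Finset (Q × M))
    (hc : ∀ j, #(B j) = Fintype.card M) (hd : ∀ i j, i ≠ j → Disjoint (B i) (B j)) :
    ∃ σ : alternatingGroup (Q × M), ∀ j, B j = (bl j).map (σ : Equiv.Perm (Q × M)).toEmbedding := by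
  classical
  have hf : ∀ j, Nonempty (M ≃ B j) := fun j => by
    refine ⟨Fintype.equivOfCardEq ?_⟩
    rw [Fintype.card_coe, hc]
  obtain ⟨f⟩ : Nonempty (∀ j, M ≃ B j) := ⟨fun j => (hf j).some⟩
  have hinj : Function.Injective (fun z : Q × M => ((f z.1 z.2 : B z.1) : Q × M)) := by
    rintro ⟨j, m⟩ ⟨j', m'⟩ h
    simp only at h
    by_cases hj : j = j'
    · subst hj
      have h2 : f j m = f j m' := Subtype.ext h
      rw [(f j).injective h2]
    · exfalso
      have h1 : ((f j m : B j) : Q × M) ∈ B j := (f j m).2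
      have h2 : ((f j m : B j) : Q × M) ∈ B j' := by rw [h]; exact (f j' m').2
      exact Finset.disjoint_left.1 (hd j j' hj) h1 h2
  obtain ⟨s, hs⟩ : ∃ s : Equiv.Perm (Q × M), ∀ z, s z = ((f z.1 z.2 : B z.1) : Q × M) :=
    ⟨Equiv.ofBijective _ (Finite.injective_iff_bijective.1 hinj), fun _ => rfl⟩
  have hcard : ∀ j : Q, #(bl j : Finset (Q × M)) = Fintype.card M := by
    intro j
    have h1 : (bl j : Finset (Q × M)) = ({j} : Finset Q) ×ˢ (univ : Finset M) := by
      ext ⟨a, b⟩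
      simp [bl, eq_comm]
    rw [h1, card_product, card_singleton, one_mul, card_univ]
  have hmap : ∀ j, (bl j).map s.toEmbedding = B j := by
    intro j
    refine Finset.eq_of_subset_of_card_le ?_ ?_
    · intro z hz
      rw [Finset.mem_map] at hz
      obtain ⟨w, hw, rfl⟩ := hz
      have hw1 : w.1 = j := by simpa [bl] using hw
      subst hw1
      change s w ∈ B w.1
      rw [hs]
      exact (f w.1 w.2).2
    · rw [Finset.card_map, hc, hcard]
  rcases Int.units_eq_one_or (Equiv.Perm.sign s) with h | h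
  · exact ⟨⟨s, Equiv.Perm.mem_alternatingGroup.2 h⟩, fun j => (hmap j).symm⟩
  · obtain ⟨j0⟩ := hQ
    obtain ⟨m1, m2, hm⟩ : ∃ m1 m2 : M, m1 ≠ m2 :=
      Fintype.one_lt_card_iff.1 (by omega)
    have hsw : Equiv.Perm.sign (s * Equiv.swap (j0, m1) (j0, m2)) = 1 := by
      rw [Equiv.Perm.sign_mul, h, Equiv.Perm.sign_swap (by
        intro h'
        exact hm (Prod.ext_iff.1 h').2)]
      simp
    refine ⟨⟨_, Equiv.Perm.mem_alternatingGroup.2 hsw⟩, fun j => ?_⟩
    have hfst : ∀ z : Q × M, (Equiv.swap (j0, m1) (j0, m2) z).1 = z.1 := by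
      intro z
      by_cases h1 : z = (j0, m1)
      · rw [h1, Equiv.swap_apply_left]
      · by_cases h2 : z = (j0, m2)
        · rw [h2, Equiv.swap_apply_right]
        · rw [Equiv.swap_apply_of_ne_of_ne h1 h2]
    rw [← hmap j]
    ext z
    simp only [Finset.mem_map_equiv, bl, mem_filter, mem_univ, true_and]
    change (s.symm z).1 = j ↔ ((s * Equiv.swap (j0, m1) (j0, m2)).symm z).1 = j
    have h3 : (s * Equiv.swap (j0, m1) (j0, m2)).symm z =
        Equiv.swap (j0, m1) (j0, m2) (s.symm z) := by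
      rw [Equiv.symm_apply_eq]
      simp
    rw [h3, hfst]

end FULLSaux

theorem FULLS (hW : ST_WRS) (hK : ST_KEYD) (hC : ST_PCONJ) : ST_FULLS := by
  intro Q M Λ _ _ _ _ _ _ _ x y lam θ M₀ r lab hlam hθ hpos hNS hcard hr hsq hQ hlab h30
    E _ _ _ ρ hρ v η hblk hx hy halt
  have hWR := hW Q M Λ x y lam θ M₀ r lab hlam hθ hpos hNS hcard hr hsq hQ hlab E ρ hρ v η
    hblk hx hy
  have hη : 0 ≤ η := (norm_nonneg _).trans (halt 1)
  have hKD := hK (Q × M) E ρ hρ (Fintype.card M) (Fintype.card Q) h30 (by omega)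
    (Fintype.card_prod Q M) v ((96 / (1 - lam - 2 * θ) + 2) * η) ?_
  · rw [← mul_assoc] at hKD
    exact hKD
  intro L hlen hLc hLd
  have e0 : Q ≃ Fin L.length := Fintype.equivOfCardEq (by rw [Fintype.card_fin, hlen])
  have hget : ∀ i j : Fin L.length, i ≠ j → Disjoint (L.get i) (L.get j) := by
    intro i j hij
    rw [List.pairwise_iff_get] at hLd
    rcases lt_or_gt_of_ne hij with h | h
    · exact hLd i j h
    · exact (hLd j i h).symm
  obtain ⟨σ, hσ⟩ := FULLS_perm (Q := Q) (M := M) (by omega)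
    (Fintype.card_pos_iff.1 (by omega)) (fun j => L.get (e0 j))
    (fun j => hLc _ (List.get_mem _ _)) (fun i j hij => hget _ _ (fun h => hij (e0.injective h)))
  obtain ⟨LQ, hLQ⟩ : ∃ LQ : List Q, LQ = List.ofFn fun i : Fin L.length => e0.symm i := ⟨_, rfl⟩
  have hnd : LQ.Nodup := by
    rw [hLQ, List.nodup_ofFn]
    exact e0.symm.injective
  have hmem : ∀ j, j ∈ LQ := by
    intro j
    rw [hLQ, List.mem_ofFn]
    exact ⟨e0 j, e0.symm_apply_apply j⟩
  have hL : L.map (P ρ) = LQ.map (fun j => P ρ (L.get (e0 j))) := by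
    rw [hLQ, List.map_ofFn]
    conv_lhs => rw [← List.ofFn_get L, List.map_ofFn]
    congr 1
    funext i
    simp
  have h1 := hWR LQ hnd hmem
  obtain ⟨u, hu⟩ : ∃ u, u = ρ (alt σ⁻¹) v := ⟨_, rfl⟩
  have huv : ρ (alt σ) u = v := by
    rw [hu, map_inv, map_inv]
    exact LinearIsometryEquiv.apply_symm_apply _ _
  have h2 : ‖u - v‖ ≤ η := by
    rw [hu]
    exact halt σ⁻¹
  obtain ⟨PP, hPi⟩ : ∃ PP : E →L[ℝ] E, PP = (LQ.map fun j => P ρ (bl j)).prod := ⟨_, rfl⟩
  have hPin : ∀ w, ‖PP w‖ ≤ ‖w‖ := by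
    intro w
    have h3 := FULLS_prod_norm ρ (LQ.map fun j => bl j) w
    rw [List.map_map] at h3
    rw [hPi]
    exact h3
  rw [← hPi] at h1
  have h4 : (L.map (P ρ)).prod v = ρ (alt σ) (PP u) := by
    rw [hL, hPi, ← FULLS_conj hC ρ σ (fun j => bl j) (fun j => L.get (e0 j)) hσ LQ u, huv]
  have h5 : v - (L.map (P ρ)).prod v = ρ (alt σ) (u - PP u) := by
    rw [h4, map_sub, huv]
  rw [h5, LinearIsometryEquiv.norm_map]
  have h6 : u - PP u = (v - PP v) + ((u - v) - PP (u - v)) := by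
    rw [map_sub]
    abel
  rw [h6]
  have h7 : ‖(u - v) - PP (u - v)‖ ≤ 2 * η := by
    have h8 := norm_sub_le (u - v) (PP (u - v))
    have h9 := hPin (u - v)
    linarith
  have h10 := norm_add_le (v - PP v) ((u - v) - PP (u - v))
  have h11 : (96 / (1 - lam - 2 * θ) + 2) * η = 96 * η / (1 - lam - 2 * θ) + 2 * η := by ring
  rw [h11]
  linarith

end SG23
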