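import Pool.Agent.N23.SG.SCHUR

/-!
Project SG (helper23), leaf GJS (helper720): the inequality of Gamburd, Jakobson and Sarnak.
-/

namespace SG23
open Finset MeasureTheory Quaternion
open Pool.Agent.H762R3.UQ Pool.Agent.H762R3.Rot

noncomputable section

/-- the double cover as a homomorphism -/
def gjsR : U →* SO (Fin 3) where
  toFun := rho
  map_one' := rho_one
  map_mul' := rho_mul

lemma gjs_int {f : U → ℝ} (hm : Measurable f) (C : ℝ) (hC : ∀ x, |f x| ≤ C) :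
    Integrable f (mu4 : Measure U) :=
  Integrable.of_bound hm.aestronglyMeasurable C (Filter.Eventually.of_forall hC)

/-- the ball around the identity -/
def gjsB (δ : ℝ) : Set U := {q : U | ‖(q : ℍ[ℝ]) - 1‖ ≤ δ}

lemma gjsB_meas (δ : ℝ) : MeasurableSet (gjsB δ) := by
  have h : Continuous fun q : U => ‖(q : ℍ[ℝ]) - 1‖ :=
    (continuous_subtype_val.sub continuous_const).norm
  exact (isClosed_le h continuous_const).measurableSet

/-- the indicator function of the ball -/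
def gjsF (δ : ℝ) : U → ℝ := (gjsB δ).indicator fun _ => (1 : ℝ)

lemma gjsF_meas (δ : ℝ) : Measurable (gjsF δ) := measurable_const.indicator (gjsB_meas δ)

lemma gjsF_of {δ : ℝ} {x : U} (h : x ∈ gjsB δ) : gjsF δ x = 1 := Set.indicator_of_mem h _

lemma gjsF_not {δ : ℝ} {x : U} (h : x ∉ gjsB δ) : gjsF δ x = 0 := Set.indicator_of_notMem h _

lemma gjsF_nonneg (δ : ℝ) (x : U) : 0 ≤ gjsF δ x := by
  by_cases h : x ∈ gjsB δ
  · rw [gjsF_of h]; norm_num
  · rw [gjsF_not h]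

lemma gjsF_le (δ : ℝ) (x : U) : gjsF δ x ≤ 1 := by
  by_cases h : x ∈ gjsB δ
  · rw [gjsF_of h]
  · rw [gjsF_not h]; norm_num

lemma gjsF_integral (δ : ℝ) :
    ∫ x, gjsF δ x ∂(mu4 : Measure U) = ((mu4 : Measure U) (gjsB δ)).toReal := by
  unfold gjsF
  rw [integral_indicator (gjsB_meas δ)]
  simp [Measure.real]

lemma gjs_mulmeas (g : U) : Measurable fun x : U => g * x :=
  (continuous_const.mul continuous_id).measurable

lemma gjs_quot (b b' : U) : ‖((b' * b⁻¹ : U) : ℍ[ℝ]) - 1‖ = ‖(b' : ℍ[ℝ]) - (b : ℍ[ℝ])‖ := by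
  have h1 : (b : ℍ[ℝ]) * ((b⁻¹ : U) : ℍ[ℝ]) = 1 := congrArg Subtype.val (mul_inv_cancel b)
  have h2 : ((b' * b⁻¹ : U) : ℍ[ℝ]) - 1 = ((b' : ℍ[ℝ]) - (b : ℍ[ℝ])) * ((b⁻¹ : U) : ℍ[ℝ]) := by
    rw [sub_mul, h1]
    rfl
  rw [h2, norm_mul, Pool.Agent.H762R3.UQ.norm_coe, mul_one]

lemma gjs_pair {δ : ℝ} {a a' x : U} (h : a * x ∈ gjsB δ) (h' : a' * x ∈ gjsB δ) :
    ‖((a' * a⁻¹ : U) : ℍ[ℝ]) - 1‖ ≤ 2 * δ := by
  have e : a' * a⁻¹ = (a' * x) * (a * x)⁻¹ := by group
  rw [e, gjs_quot]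
  have h1 : ‖((a * x : U) : ℍ[ℝ]) - 1‖ ≤ δ := h
  have h2 : ‖((a' * x : U) : ℍ[ℝ]) - 1‖ ≤ δ := h'
  calc ‖((a' * x : U) : ℍ[ℝ]) - ((a * x : U) : ℍ[ℝ])‖
      = ‖(((a' * x : U) : ℍ[ℝ]) - 1) - (((a * x : U) : ℍ[ℝ]) - 1)‖ := by congr 1; abel
    _ ≤ ‖((a' * x : U) : ℍ[ℝ]) - 1‖ + ‖((a * x : U) : ℍ[ℝ]) - 1‖ := norm_sub_le _ _
    _ ≤ 2 * δ := by linarith

open Classical in
/-- second moment of the sum of the translated indicators -/
lemma gjs_second (δ : ℝ) (W : Finset (List (Fin 3 × Bool))) :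
    ∫ x, (∑ w ∈ W, gjsF δ (wp gq w * x)) ^ 2 ∂(mu4 : Measure U) ≤
      ((mu4 : Measure U) (gjsB δ)).toReal *
        #((W ×ˢ W).filter fun w => ‖((wp gq w.2 * (wp gq w.1)⁻¹ : U) : ℍ[ℝ]) - 1‖ ≤ 2 * δ) := by
  have h1 : ∀ x : U, (∑ w ∈ W, gjsF δ (wp gq w * x)) ^ 2 =
      ∑ p ∈ W ×ˢ W, gjsF δ (wp gq p.1 * x) * gjsF δ (wp gq p.2 * x) := by
    intro x
    rw [sq, Finset.sum_mul_sum, ← Finset.sum_product']
  simp only [h1]
  have hm : ∀ g : U, Measurable fun x : U => gjsF δ (g * x) := fun g =>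
    (gjsF_meas δ).comp (gjs_mulmeas g)
  have hi : ∀ p ∈ W ×ˢ W, Integrable (fun x : U => gjsF δ (wp gq p.1 * x) *
      gjsF δ (wp gq p.2 * x)) (mu4 : Measure U) := by
    intro p _
    refine gjs_int ((hm _).mul (hm _)) 1 fun x => ?_
    rw [abs_of_nonneg (mul_nonneg (gjsF_nonneg _ _) (gjsF_nonneg _ _))]
    exact mul_le_one₀ (gjsF_le _ _) (gjsF_nonneg _ _) (gjsF_le _ _)
  rw [integral_finsetSum _ hi, Finset.card_filter, Nat.cast_sum, Finset.mul_sum]
  refine Finset.sum_le_sum fun p _ => ?_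
  by_cases hp : ‖((wp gq p.2 * (wp gq p.1)⁻¹ : U) : ℍ[ℝ]) - 1‖ ≤ 2 * δ
  · rw [if_pos hp, Nat.cast_one, mul_one, ← gjsF_integral, ← sch_inv (gjsF δ) (wp gq p.1)]
    refine integral_mono (gjs_int ((hm _).mul (hm _)) 1 fun x => ?_)
      (gjs_int (hm _) 1 fun x => ?_) fun x => ?_
    · rw [abs_of_nonneg (mul_nonneg (gjsF_nonneg _ _) (gjsF_nonneg _ _))]
      exact mul_le_one₀ (gjsF_le _ _) (gjsF_nonneg _ _) (gjsF_le _ _)
    · rw [abs_of_nonneg (gjsF_nonneg _ _)]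
      exact gjsF_le _ _
    · exact mul_le_of_le_one_right (gjsF_nonneg _ _) (gjsF_le _ _)
  · rw [if_neg hp, Nat.cast_zero, mul_zero]
    refine le_of_eq ?_
    rw [← integral_zero U ℝ (μ := (mu4 : Measure U))]
    refine integral_congr_ae (Filter.Eventually.of_forall fun x => ?_)
    show gjsF δ (wp gq p.1 * x) * gjsF δ (wp gq p.2 * x) = 0
    by_cases hx : wp gq p.1 * x ∈ gjsB δ
    · by_cases hx' : wp gq p.2 * x ∈ gjsB δ
      · exact absurd (gjs_pair hx hx') hp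
      · rw [gjsF_not hx', mul_zero]
    · rw [gjsF_not hx, zero_mul]

theorem GJS (hF : ST_FREQ) (hS : ST_SCHUR) (hN : ST_NBW) : ST_GJS := by
  intro E _ _ _ ρ hρ hirr v hv θ hθ heig δ hδ hd l
  set d : ℝ := (Module.finrank ℝ E : ℝ) with hdd
  have hd0 : 0 ≤ d := Nat.cast_nonneg _
  set η : ℝ := ((mu4 : Measure U) (gjsB δ)).toReal with hη
  have hη0 : 0 ≤ η := ENNReal.toReal_nonneg
  -- non-backtracking powers
  obtain ⟨t, ht, hsum⟩ := hN U gq E (ρ.comp gjsR) v θ hθ (by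
    rw [← heig]
    refine Finset.sum_congr rfl fun i _ => ?_
    show ρ (rho (gq i)) v + ρ (rho (gq i)⁻¹) v = _
    rw [rho_inv]) l
  have hsum' : ∑ w ∈ RW l, ρ (rho (wp gq w)) v = t • v := hsum
  have hbase : 0 < Real.sqrt 5 * θ := mul_pos (Real.sqrt_pos.2 (by norm_num)) (by linarith)
  have hpow : 0 < (Real.sqrt 5 * θ) ^ l := pow_pos hbase l
  have ht0 : 0 < t := lt_of_lt_of_le hpow ht
  have ht2 : (5 * θ ^ 2) ^ l ≤ t ^ 2 := by
    have e : (5 * θ ^ 2) ^ l = ((Real.sqrt 5 * θ) ^ l) ^ 2 := by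
      rw [← pow_mul, mul_comm l 2, pow_mul, mul_pow (Real.sqrt 5) θ 2,
        Real.sq_sqrt (by norm_num)]
    rw [e]
    exact pow_le_pow_left₀ hpow.le ht 2
  -- the matrix coefficient
  set φ : U → ℝ := fun x => inner ℝ v (ρ (rho x) v) with hφ
  have hφc : Continuous φ := sch_coef hρ v v
  have hφ1 : ∀ x, |φ x| ≤ 1 := by
    intro x
    have := abs_real_inner_le_norm v (ρ (rho x) v)
    rw [LinearIsometryEquiv.norm_map, hv, mul_one] at this
    exact this
  set f : U → ℝ := fun x => ∑ w ∈ RW l, gjsF δ (wp gq w * x) with hf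
  have hfm : Measurable f := by
    refine Finset.measurable_fun_sum _ fun w _ => ?_
    exact (gjsF_meas δ).comp (gjs_mulmeas _)
  have hf0 : ∀ x, 0 ≤ f x := fun x => Finset.sum_nonneg fun w _ => gjsF_nonneg _ _
  have hf1 : ∀ x, f x ≤ #(RW l) := by
    intro x
    calc f x ≤ ∑ _w ∈ RW l, (1 : ℝ) := Finset.sum_le_sum fun w _ => gjsF_le _ _
      _ = #(RW l) := by simp
  have hfa : ∀ x, |f x| ≤ #(RW l) := fun x => by rw [abs_of_nonneg (hf0 x)]; exact hf1 x
  have hN0 : (0 : ℝ) ≤ #(RW l) := Nat.cast_nonneg _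
  -- (2) the integral of phi f
  have hint1 : ∫ x, φ x * f x ∂(mu4 : Measure U) = t * ∫ x, φ x * gjsF δ x ∂(mu4 : Measure U) := by
    have e1 : ∀ x, φ x * f x = ∑ w ∈ RW l, φ x * gjsF δ (wp gq w * x) := fun x => by
      rw [hf]; exact Finset.mul_sum _ _ _
    have e2 : ∀ w ∈ RW l, Integrable (fun x : U => φ x * gjsF δ (wp gq w * x))
        (mu4 : Measure U) := by
      intro w _
      refine gjs_int (hφc.measurable.mul ((gjsF_meas δ).comp (gjs_mulmeas _))) 1 fun x => ?_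
      rw [abs_mul, abs_of_nonneg (gjsF_nonneg δ (wp gq w * x))]
      exact mul_le_one₀ (hφ1 x) (gjsF_nonneg _ _) (gjsF_le _ _)
    have e3 : ∀ w ∈ RW l, ∫ x, φ x * gjsF δ (wp gq w * x) ∂(mu4 : Measure U) =
        ∫ x, inner ℝ (ρ (rho (wp gq w)) v) (ρ (rho x) v) * gjsF δ x ∂(mu4 : Measure U) := by
      intro w _
      rw [← sch_inv (fun x : U => φ x * gjsF δ (wp gq w * x)) (wp gq w)⁻¹]
      refine integral_congr_ae (Filter.Eventually.of_forall fun x => ?_)
      show φ ((wp gq w)⁻¹ * x) * gjsF δ (wp gq w * ((wp gq w)⁻¹ * x)) =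
        inner ℝ (ρ (rho (wp gq w)) v) (ρ (rho x) v) * gjsF δ x
      rw [mul_inv_cancel_left]
      congr 1
      show inner ℝ v (ρ (rho ((wp gq w)⁻¹ * x)) v) = _
      rw [← (ρ (rho (wp gq w))).inner_map_map v (ρ (rho ((wp gq w)⁻¹ * x)) v)]
      congr 1
      have : ρ (rho (wp gq w)) (ρ (rho ((wp gq w)⁻¹ * x)) v) =
          (ρ (rho (wp gq w)) * ρ (rho ((wp gq w)⁻¹ * x))) v := rfl
      rw [this, ← map_mul, ← rho_mul, mul_inv_cancel_left]
    have e4 : ∀ w ∈ RW l, Integrable (fun x : U => inner ℝ (ρ (rho (wp gq w)) v) (ρ (rho x) v) *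
        gjsF δ x) (mu4 : Measure U) := by
      intro w _
      refine gjs_int ((sch_coef hρ v (ρ (rho (wp gq w)) v)).measurable.mul (gjsF_meas δ)) 1
        fun x => ?_
      rw [abs_mul, abs_of_nonneg (gjsF_nonneg δ x)]
      refine mul_le_one₀ ?_ (gjsF_nonneg _ _) (gjsF_le _ _)
      have := abs_real_inner_le_norm (ρ (rho (wp gq w)) v) (ρ (rho x) v)
      rw [LinearIsometryEquiv.norm_map, LinearIsometryEquiv.norm_map, hv, mul_one] at this
      exact this
    calc ∫ x, φ x * f x ∂(mu4 : Measure U)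
        = ∫ x, ∑ w ∈ RW l, φ x * gjsF δ (wp gq w * x) ∂(mu4 : Measure U) := by
          refine integral_congr_ae (Filter.Eventually.of_forall fun x => ?_)
          exact e1 x
      _ = ∑ w ∈ RW l, ∫ x, φ x * gjsF δ (wp gq w * x) ∂(mu4 : Measure U) :=
          integral_finsetSum _ e2
      _ = ∑ w ∈ RW l, ∫ x, inner ℝ (ρ (rho (wp gq w)) v) (ρ (rho x) v) * gjsF δ x
            ∂(mu4 : Measure U) := Finset.sum_congr rfl e3
      _ = ∫ x, ∑ w ∈ RW l, inner ℝ (ρ (rho (wp gq w)) v) (ρ (rho x) v) * gjsF δ x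
            ∂(mu4 : Measure U) := (integral_finsetSum _ e4).symm
      _ = ∫ x, t * (φ x * gjsF δ x) ∂(mu4 : Measure U) := by
          refine integral_congr_ae (Filter.Eventually.of_forall fun x => ?_)
          show ∑ w ∈ RW l, inner ℝ (ρ (rho (wp gq w)) v) (ρ (rho x) v) * gjsF δ x =
            t * (φ x * gjsF δ x)
          rw [← Finset.sum_mul, ← sum_inner, hsum', real_inner_smul_left, mul_assoc]
      _ = _ := integral_const_mul _ _
  -- (3) lower bound near the identity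
  have hint2 : η / 2 ≤ ∫ x, φ x * gjsF δ x ∂(mu4 : Measure U) := by
    have e1 : η / 2 = ∫ x, (1 / 2 : ℝ) * gjsF δ x ∂(mu4 : Measure U) := by
      rw [integral_const_mul, gjsF_integral]; ring
    rw [e1]
    refine integral_mono (gjs_int (measurable_const.mul (gjsF_meas δ)) 1 fun x => ?_)
      (gjs_int (hφc.measurable.mul (gjsF_meas δ)) 1 fun x => ?_) fun x => ?_
    · rw [abs_mul, abs_of_nonneg (gjsF_nonneg δ x)]
      refine mul_le_one₀ ?_ (gjsF_nonneg _ _) (gjsF_le _ _)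
      norm_num
    · rw [abs_mul, abs_of_nonneg (gjsF_nonneg δ x)]
      exact mul_le_one₀ (hφ1 x) (gjsF_nonneg _ _) (gjsF_le _ _)
    · show (1 / 2 : ℝ) * gjsF δ x ≤ φ x * gjsF δ x
      by_cases hx : x ∈ gjsB δ
      · rw [gjsF_of hx, mul_one, mul_one]
        have h1 := hF E ρ hρ x v
        have h2 : ‖(x : ℍ[ℝ]) - 1‖ ≤ δ := hx
        rw [hv, mul_one, ← hdd] at h1
        have h3 : ‖ρ (rho x) v - v‖ ≤ 1 / 2 := by
          have : 4 * d * ‖(x : ℍ[ℝ]) - 1‖ ≤ 4 * d * δ :=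
            mul_le_mul_of_nonneg_left h2 (by linarith)
          linarith
        have h4 : φ x = 1 + inner ℝ v (ρ (rho x) v - v) := by
          rw [inner_sub_right, real_inner_self_eq_norm_sq, hv]
          show inner ℝ v (ρ (rho x) v) = _
          ring
        have h5 := abs_le.1 (abs_real_inner_le_norm v (ρ (rho x) v - v))
        rw [hv, one_mul] at h5
        rw [h4]
        linarith [h5.1]
      · rw [gjsF_not hx, mul_zero, mul_zero]
  -- (4) the second moment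
  have hint3 := gjs_second δ (RW l)
  set M : ℕ := #((RW l ×ˢ RW l).filter fun w =>
        ‖((wp gq w.2 * (wp gq w.1)⁻¹ : U) : ℍ[ℝ]) - 1‖ ≤ 2 * δ) with hM
  rw [← hη] at hint3
  -- (5) orthogonality relations
  have hint4 : (∫ x, φ x ^ 2 ∂(mu4 : Measure U)) * d = 1 := by
    have h := hS E ρ hρ hirr v v
    rw [hv] at h
    rw [hdd]
    simpa using h
  -- Cauchy-Schwarz
  have hdpos : 0 < d := by
    rcases hd0.lt_or_eq with h | h
    · exact h
    · rw [← h, mul_zero] at hint4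
      norm_num at hint4
  have hquad : ∀ s : ℝ, 0 ≤ (η * M * d) * (s * s) + (-(t * η * d)) * s + 1 := by
    intro s
    rcases le_total s 0 with hs | hs
    · have h1 : 0 ≤ (η * M * d) * (s * s) :=
        mul_nonneg (mul_nonneg (mul_nonneg hη0 (Nat.cast_nonneg _)) hd0) (mul_self_nonneg s)
      have h2 : 0 ≤ (-(t * η * d)) * s := by
        have : 0 ≤ (t * η * d) * (-s) :=
          mul_nonneg (mul_nonneg (mul_nonneg ht0.le hη0) hd0) (by linarith)
        linarith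
      linarith
    · have i1 : Integrable (fun x => φ x ^ 2) (mu4 : Measure U) := by
        refine gjs_int (hφc.measurable.pow_const 2) 1 fun x => ?_
        rw [abs_pow]
        exact pow_le_one₀ (abs_nonneg _) (hφ1 x)
      have i2 : Integrable (fun x => φ x * f x) (mu4 : Measure U) := by
        refine gjs_int (hφc.measurable.mul hfm) (#(RW l)) fun x => ?_
        rw [abs_mul]
        calc |φ x| * |f x| ≤ 1 * #(RW l) := mul_le_mul (hφ1 x) (hfa x) (abs_nonneg _) zero_le_one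
          _ = _ := one_mul _
      have i3 : Integrable (fun x => f x ^ 2) (mu4 : Measure U) := by
        refine gjs_int (hfm.pow_const 2) ((#(RW l) : ℝ) ^ 2) fun x => ?_
        rw [abs_pow]
        exact pow_le_pow_left₀ (abs_nonneg _) (hfa x) 2
      have h0 : 0 ≤ ∫ x, (φ x - s * f x) ^ 2 ∂(mu4 : Measure U) :=
        integral_nonneg fun x => sq_nonneg _
      have h1 : ∫ x, (φ x - s * f x) ^ 2 ∂(mu4 : Measure U) =
          ∫ x, φ x ^ 2 ∂(mu4 : Measure U) - 2 * s * ∫ x, φ x * f x ∂(mu4 : Measure U) +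
            s ^ 2 * ∫ x, f x ^ 2 ∂(mu4 : Measure U) := by
        have i4 : Integrable (fun x => φ x ^ 2 - 2 * s * (φ x * f x)) (mu4 : Measure U) :=
          i1.sub (i2.const_mul _)
        rw [← integral_const_mul, ← integral_const_mul, ← integral_sub i1 (i2.const_mul _),
          ← integral_add i4 (i3.const_mul _)]
        refine integral_congr_ae (Filter.Eventually.of_forall fun x => ?_)
        show (φ x - s * f x) ^ 2 = φ x ^ 2 - 2 * s * (φ x * f x) + s ^ 2 * f x ^ 2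
        ring
      rw [h1, hint1] at h0
      have h2 : ∫ x, f x ^ 2 ∂(mu4 : Measure U) ≤ η * M := hint3
      have h3 : t * (η / 2) ≤ t * ∫ x, φ x * gjsF δ x ∂(mu4 : Measure U) :=
        mul_le_mul_of_nonneg_left hint2 ht0.le
      have h4 : 2 * s * (t * (η / 2)) ≤ 2 * s * (t * ∫ x, φ x * gjsF δ x ∂(mu4 : Measure U)) :=
        mul_le_mul_of_nonneg_left h3 (by linarith)
      have h5 : s ^ 2 * ∫ x, f x ^ 2 ∂(mu4 : Measure U) ≤ s ^ 2 * (η * M) :=
        mul_le_mul_of_nonneg_left h2 (sq_nonneg s)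
      have h6 : 0 ≤ (∫ x, φ x ^ 2 ∂(mu4 : Measure U)) - 2 * s * (t * (η / 2)) +
          s ^ 2 * (η * M) := by linarith
      have h7 := mul_nonneg h6 hd0
      have h8 : ((∫ x, φ x ^ 2 ∂(mu4 : Measure U)) - 2 * s * (t * (η / 2)) +
          s ^ 2 * (η * M)) * d = (∫ x, φ x ^ 2 ∂(mu4 : Measure U)) * d +
            (-(t * η * d)) * s + (η * M * d) * (s * s) := by ring
      rw [h8, hint4] at h7
      linarith
  have hdisc := discrim_le_zero hquad
  rw [discrim] at hdisc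
  have hfin : t ^ 2 * η * d * (η * d) ≤ 4 * M * (η * d) := by nlinarith [hdisc]
  show (5 * θ ^ 2) ^ l * η * d ≤ 4 * M
  rcases (mul_nonneg hη0 hd0).lt_or_eq with hp | hp
  · have h1 : t ^ 2 * η * d ≤ 4 * M := le_of_mul_le_mul_right hfin hp
    have h2 : (5 * θ ^ 2) ^ l * (η * d) ≤ t ^ 2 * (η * d) :=
      mul_le_mul_of_nonneg_right ht2 hp.le
    calc (5 * θ ^ 2) ^ l * η * d = (5 * θ ^ 2) ^ l * (η * d) := by ring
      _ ≤ t ^ 2 * (η * d) := h2
      _ = t ^ 2 * η * d := by ring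
      _ ≤ _ := h1
  · rw [mul_assoc, ← hp, mul_zero]
    positivity

end

end SG23
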