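import Pool.Agent.N23.SG.Stm

/-!
Project SG (helper23), MP_839d28_al.  HM: the bi-invariant mean on polynomial functions (helper362).
-/

namespace SG23
open Finset MeasureTheory

noncomputable section

section HMsec

variable {X : Type} [Fintype X] [DecidableEq X]

/-- left translation -/
def hmT (g : Matrix X X ℝ) (x : X → X → ℝ) : X → X → ℝ := fun i j => ∑ l, g i l * x l j

/-- the product of `x` and the transpose of `y` -/
def hmM (w : (X → X → ℝ) × (X → X → ℝ)) : X × X → ℝ := fun z => ∑ l, w.1 z.1 l * w.2 z.2 l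

lemma hm_cont (p : MvPolynomial (X × X) ℝ) :
    Continuous fun w : (X → X → ℝ) × (X → X → ℝ) => MvPolynomial.eval (hmM w) p := by
  have h : Continuous (hmM (X := X)) := by unfold hmM; fun_prop
  exact (MvPolynomial.continuous_eval p).comp h

lemma hmT_cont (g : Matrix X X ℝ) : Continuous (hmT g) := by unfold hmT; fun_prop

/-- the special orthogonal matrices -/
def hmA (X : Type) [Fintype X] [DecidableEq X] : Set (X → X → ℝ) :=
  {x | (Matrix.of x).transpose * Matrix.of x = 1 ∧ (Matrix.of x).det = 1}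

lemma hm_bound {x : X → X → ℝ} (hx : x ∈ hmA X) (i j : X) : |x i j| ≤ 1 := by
  have h1 := congrFun (congrFun hx.1 j) j
  rw [Matrix.mul_apply, Matrix.one_apply_eq] at h1
  simp only [Matrix.transpose_apply, Matrix.of_apply] at h1
  have h2 : x i j * x i j ≤ ∑ l, x l j * x l j :=
    Finset.single_le_sum (f := fun l => x l j * x l j) (fun l _ => mul_self_nonneg _)
      (Finset.mem_univ i)
  rw [h1] at h2
  rw [abs_le]
  constructor <;> nlinarith

/-- the rotation `x yᵀ` -/
def hmS (x y : X → X → ℝ) (hx : x ∈ hmA X) (hy : y ∈ hmA X) : SO X :=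
  ⟨Matrix.of x * (Matrix.of y).transpose, by
    rw [mem_SO]
    constructor
    · have h1 : Matrix.of y * (Matrix.of y).transpose = 1 := mul_eq_one_comm.1 hy.1
      rw [Matrix.transpose_mul, Matrix.transpose_transpose, Matrix.mul_assoc,
        ← Matrix.mul_assoc (Matrix.of x).transpose, hx.1, Matrix.one_mul, h1]
    · rw [Matrix.det_mul, Matrix.det_transpose, hx.2, hy.2, one_mul]⟩

lemma hm_ev (p : MvPolynomial (X × X) ℝ) (x y : X → X → ℝ) (hx : x ∈ hmA X) (hy : y ∈ hmA X) :
    MvPolynomial.eval (hmM (x, y)) p = ev p (hmS x y hx hy) := by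
  unfold ev
  congr 1

variable {μ : Measure (X → X → ℝ)}

lemma hm_ae (h : HL μ) : ∀ᵐ w ∂(μ.prod μ), w.1 ∈ hmA X ∧ w.2 ∈ hmA X := by
  have := h.1
  have h1 : ∀ᵐ x ∂μ, x ∈ hmA X := h.2.1
  exact (Measure.quasiMeasurePreserving_fst.ae h1).and (Measure.quasiMeasurePreserving_snd.ae h1)

lemma hm_int (h : HL μ) (p : MvPolynomial (X × X) ℝ) :
    Integrable (fun w => MvPolynomial.eval (hmM w) p) (μ.prod μ) := by
  have := h.1
  let B : Set (X → X → ℝ) := Set.pi Set.univ fun _ => Set.pi Set.univ fun _ => Set.Icc (-1) 1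
  have hB : IsCompact B := isCompact_univ_pi fun _ => isCompact_univ_pi fun _ => isCompact_Icc
  obtain ⟨C, hC⟩ := (hB.prod hB).exists_bound_of_continuousOn (hm_cont p).continuousOn
  refine Integrable.of_bound (hm_cont p).aestronglyMeasurable C ?_
  filter_upwards [hm_ae h] with w hw
  refine hC w ⟨?_, ?_⟩
  · intro i _ j _
    exact abs_le.1 (hm_bound hw.1 i j)
  · intro i _ j _
    exact abs_le.1 (hm_bound hw.2 i j)

lemma hm_pres (h : HL μ) (g : SO X) : MeasurePreserving (hmT (g : Matrix X X ℝ)) μ μ :=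
  ⟨(hmT_cont _).measurable, h.2.2 _ (SO_left g) (SO_det g)⟩

/-- invariance under measure preserving continuous maps -/
lemma hm_inv (h : HL μ) (p : MvPolynomial (X × X) ℝ)
    (f : (X → X → ℝ) × (X → X → ℝ) → (X → X → ℝ) × (X → X → ℝ))
    (hf : MeasurePreserving f (μ.prod μ) (μ.prod μ)) :
    ∫ w, MvPolynomial.eval (hmM (f w)) p ∂(μ.prod μ) =
      ∫ w, MvPolynomial.eval (hmM w) p ∂(μ.prod μ) := by
  have h1 := integral_map (μ := μ.prod μ) hf.measurable.aemeasurable
    (f := fun w => MvPolynomial.eval (hmM w) p) (hm_cont p).aestronglyMeasurable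
  rw [hf.map_eq] at h1
  exact h1.symm

end HMsec

/-- HM -/
theorem HM (hE : ST_EXH) : ST_HM := by
  intro X _ _
  obtain ⟨μ, h⟩ := hE X
  have := h.1
  refine ⟨{ toFun := fun p => ∫ w, MvPolynomial.eval (hmM w) p ∂(μ.prod μ)
            map_add' := ?_
            map_smul' := ?_ }, ?_, ?_, ?_, ?_⟩
  · intro p q
    simp only [map_add]
    exact integral_add (hm_int h p) (hm_int h q)
  · intro c p
    simp only [MvPolynomial.smul_eval, RingHom.id_apply, smul_eq_mul]
    exact integral_const_mul _ _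
  · intro p hp
    change 0 ≤ ∫ w, MvPolynomial.eval (hmM w) p ∂(μ.prod μ)
    apply integral_nonneg_of_ae
    filter_upwards [hm_ae h] with w hw
    change 0 ≤ MvPolynomial.eval (hmM (w.1, w.2)) p
    rw [hm_ev p w.1 w.2 hw.1 hw.2]
    exact hp _
  · change ∫ w, MvPolynomial.eval (hmM w) 1 ∂(μ.prod μ) = 1
    simp
  · intro g p q hpq
    change ∫ w, MvPolynomial.eval (hmM w) q ∂(μ.prod μ) = ∫ w, MvPolynomial.eval (hmM w) p ∂(μ.prod μ)
    rw [← hm_inv h p (Prod.map (hmT (g : Matrix X X ℝ)) id)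
      ((hm_pres h g).prod (MeasurePreserving.id μ))]
    apply integral_congr_ae
    filter_upwards [hm_ae h] with w hw
    change MvPolynomial.eval (hmM (w.1, w.2)) q = _
    rw [hm_ev q w.1 w.2 hw.1 hw.2, hpq]
    unfold ev
    congr 2
    funext z
    change (((g : Matrix X X ℝ) * (Matrix.of w.1 * (Matrix.of w.2).transpose)) z.1 z.2) =
      ∑ l, (∑ k, (g : Matrix X X ℝ) z.1 k * w.1 k l) * w.2 z.2 l
    rw [← Matrix.mul_assoc, Matrix.mul_apply]
    refine sum_congr rfl fun l _ => ?_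
    rw [Matrix.mul_apply]
    rfl
  · intro g p q hpq
    change ∫ w, MvPolynomial.eval (hmM w) q ∂(μ.prod μ) = ∫ w, MvPolynomial.eval (hmM w) p ∂(μ.prod μ)
    rw [← hm_inv h p (Prod.map id (hmT ((g⁻¹ : SO X) : Matrix X X ℝ)))
      ((MeasurePreserving.id μ).prod (hm_pres h g⁻¹))]
    apply integral_congr_ae
    filter_upwards [hm_ae h] with w hw
    change MvPolynomial.eval (hmM (w.1, w.2)) q = _
    rw [hm_ev q w.1 w.2 hw.1 hw.2, hpq]
    unfold ev
    congr 2
    funext z
    change ((Matrix.of w.1 * (Matrix.of w.2).transpose * (g : Matrix X X ℝ)) z.1 z.2) =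
      ∑ l, w.1 z.1 l * (∑ k, ((g⁻¹ : SO X) : Matrix X X ℝ) z.2 k * w.2 k l)
    rw [SO_inv, Matrix.mul_assoc, Matrix.mul_apply]
    refine sum_congr rfl fun l _ => ?_
    rw [Matrix.mul_apply]
    congr 1
    refine sum_congr rfl fun k _ => ?_
    rw [Matrix.transpose_apply, Matrix.transpose_apply, mul_comm]
    rfl

end

end SG23
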