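import Pool.Agent.N23.SG.Stm

/-!
Project SG (helper23), part INDS: from `SO(n)` to `SO(n + 1)`.
-/

set_option autoImplicit false

namespace SG23
open Finset

lemma inds_pyth {E : Type} [NormedAddCommGroup E] [InnerProductSpace ℝ E] [FiniteDimensional ℝ E]
    (U : Submodule ℝ E) (v : E) :
    ‖v‖ ^ 2 = ‖U.starProjection v‖ ^ 2 + ‖v - U.starProjection v‖ ^ 2 := by
  have h : inner ℝ (v - U.starProjection v) (U.starProjection v) = 0 :=
    Submodule.starProjection_inner_eq_zero v _ (Submodule.starProjection_apply_mem U v)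
  have h2 : v = (v - U.starProjection v) + U.starProjection v := by abel
  have h3 := norm_add_sq_eq_norm_sq_add_norm_sq_of_inner_eq_zero _ _ h
  rw [← h2] at h3
  nlinarith

lemma inds_map {n : ℕ} (j : Fin (n + 1)) :
    (univ : Finset (Fin n)).map (Fin.succAboveEmb j) = univ.erase j := by
  ext x
  simp only [mem_map, mem_univ, true_and, mem_erase, and_true, Fin.coe_succAboveEmb]
  exact Fin.exists_succAbove_eq_iff

lemma inds_reindex {X ι : Type} [Fintype X] [DecidableEq X] [Fintype ι] (g : ι → SO X) (K : ℝ)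
    (h : KS g K) : KS (fun i : Fin (Fintype.card ι) => g ((Fintype.equivFin ι).symm i)) K := by
  intro E _ _ _ ρ hρ v η hv
  refine h E ρ hρ v η fun i => ?_
  have := hv (Fintype.equivFin ι i)
  simpa using this

theorem INDS (hS : ST_STAR) (hE : ST_PEMB) : ST_INDS := by
  rintro n hn ⟨k, K, g, hK, hg⟩
  have key : KS (fun o : Option (Fin (n + 1) × Fin k) =>
      (Option.elim o 1 (fun q => emb (Fin.succAboveEmb q.1) (g q.2)) : SO (Fin (n + 1))))
      ((n + 1) * K) := by
    intro E _ _ _ ρ hρ v η hv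
    have hη : 0 ≤ η := by
      have := hv none
      simp only [Option.elim, map_one] at this
      have h1 : ‖(1 : E ≃ₗᵢ[ℝ] E) v - v‖ = 0 := by
        rw [LinearIsometryEquiv.coe_one, id_eq, sub_self, norm_zero]
      rwa [h1] at this
    have hj : ∀ j : Fin (n + 1), ‖v - P ρ (univ.erase j) v‖ ≤ K * η := by
      intro j
      have h1 := hg E (ρ.comp (emb (Fin.succAboveEmb j)))
        ((hE (Fin n) (Fin (n + 1)) E ρ (Fin.succAboveEmb j)).1 hρ) v η
        (fun i => hv (some (j, i)))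
      rwa [(hE (Fin n) (Fin (n + 1)) E ρ (Fin.succAboveEmb j)).2, inds_map] at h1
    have hstar := hS (Fin (n + 1)) (by rw [Fintype.card_fin]; omega) E ρ hρ v
    rw [Fintype.card_fin] at hstar
    have hN : ((n + 1 : ℕ) : ℝ) = (n : ℝ) + 1 := by push_cast; ring
    rw [hN] at hstar
    have hn4 : (4 : ℝ) ≤ (n : ℝ) + 1 := by
      have : (3 : ℝ) ≤ n := by exact_mod_cast hn
      linarith
    set N : ℝ := (n : ℝ) + 1 with hNd
    have h3 : 3 / N ≤ 3 / 4 := by gcongr
    have h30 : 0 ≤ 3 / N := by positivity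
    have hsum : N * ‖v‖ ^ 2 - N * (K * η) ^ 2 ≤ ∑ j : Fin (n + 1), ‖P ρ (univ.erase j) v‖ ^ 2 := by
      have h4 : ∑ _j : Fin (n + 1), (‖v‖ ^ 2 - (K * η) ^ 2) ≤
          ∑ j : Fin (n + 1), ‖P ρ (univ.erase j) v‖ ^ 2 := by
        refine Finset.sum_le_sum fun j _ => ?_
        have h5 := inds_pyth (fixS ρ (sub (univ.erase j))) v
        have h6 : ‖v - P ρ (univ.erase j) v‖ ^ 2 ≤ (K * η) ^ 2 := by
          gcongr
          exact hj j
        have h7 : ‖v‖ ^ 2 = ‖P ρ (univ.erase j) v‖ ^ 2 + ‖v - P ρ (univ.erase j) v‖ ^ 2 := h5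
        linarith
      rw [Finset.sum_const, Finset.card_univ, Fintype.card_fin, nsmul_eq_mul, hN] at h4
      linarith
    have hP : ‖v‖ ^ 2 = ‖P ρ univ v‖ ^ 2 + ‖v - P ρ univ v‖ ^ 2 :=
      inds_pyth (fixS ρ (sub univ)) v
    have hD0 : 0 ≤ ‖v - P ρ univ v‖ ^ 2 := by positivity
    have hmain : ‖v - P ρ univ v‖ ^ 2 ≤ N * (K * η) ^ 2 := by
      nlinarith
    have hfin : ‖v - P ρ univ v‖ ^ 2 ≤ (N * K * η) ^ 2 := by
      refine hmain.trans ?_
      have : (N * K * η) ^ 2 = N * (N * (K * η) ^ 2) := by ring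
      rw [this]
      have h8 : 0 ≤ N * (K * η) ^ 2 := by positivity
      nlinarith
    exact (sq_le_sq₀ (norm_nonneg _) (by positivity)).1 hfin
  exact ⟨_, (n + 1) * K, _, by positivity, inds_reindex _ _ key⟩

end SG23
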