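import Pool.Agent.N23.SG.Stm

/-!
SG/KEY (helper916): the quadratic form of the average over ordered partitions
-/

set_option autoImplicit false
set_option linter.all false

namespace SG23
open Finset

section KEYaux
variable {X : Type} [Fintype X] [DecidableEq X] {E : Type} [NormedAddCommGroup E]
  [InnerProductSpace ℝ E] [FiniteDimensional ℝ E]

lemma KEY_sym (ρ : SO X →* (E ≃ₗᵢ[ℝ] E)) (S : Finset X) (u v : E) :
    inner ℝ (P ρ S u) v = inner ℝ u (P ρ S v) :=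
  Submodule.inner_starProjection_left_eq_right _ u v

lemma KEY_idem (hP : ST_PMONO) (ρ : SO X →* (E ≃ₗᵢ[ℝ] E)) (S : Finset X) (v : E) :
    P ρ S (P ρ S v) = P ρ S v := ((hP X E ρ).1 S S (Finset.Subset.refl S) v).1

lemma KEY_norm (ρ : SO X →* (E ≃ₗᵢ[ℝ] E)) (S : Finset X) (v : E) : ‖P ρ S v‖ ≤ ‖v‖ :=
  Submodule.norm_starProjection_apply_le _ v

lemma KEY_sq (hP : ST_PMONO) (ρ : SO X →* (E ≃ₗᵢ[ℝ] E)) (S : Finset X) (v : E) :
    inner ℝ (P ρ S v) v = ‖P ρ S v‖ ^ 2 := by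
  rw [← real_inner_self_eq_norm_sq, KEY_sym, KEY_sym, KEY_idem hP]

lemma KEY_comm (hP : ST_PMONO) (ρ : SO X →* (E ≃ₗᵢ[ℝ] E)) (M : ℕ) (B : Finset X) :
    ∀ (q : ℕ) (Z : Finset X), Disjoint B Z → ∀ v : E,
      KK ρ M q Z (P ρ B v) = P ρ B (KK ρ M q Z v) := by
  intro q
  induction q with
  | zero =>
    intro Z _ v
    simp only [KK, ContinuousLinearMap.one_apply]
  | succ q ih =>
    intro Z hZ v
    simp only [KK, ContinuousLinearMap.smul_apply, ContinuousLinearMap.sum_apply,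
      ContinuousLinearMap.mul_apply', map_smul, map_sum]
    congr 1
    refine sum_congr rfl fun B' hB' => ?_
    have hB'Z : B' ⊆ Z := (mem_powersetCard.1 hB').1
    have h1 : Disjoint B (Z \ B') := hZ.mono_right sdiff_subset
    have h2 : Disjoint B' B := (hZ.mono_right hB'Z).symm
    show P ρ B' (KK ρ M q (Z \ B') (P ρ B v)) = P ρ B (P ρ B' (KK ρ M q (Z \ B') v))
    rw [ih _ h1, (hP X E ρ).2.1 B' B h2]

end KEYaux

theorem KEY (hX : ST_XM) (hP : ST_PMONO) : ST_KEY := by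
  intro X _ _ E _ _ _ ρ hρ M hM q
  induction q with
  | zero =>
    intro Y hY v
    have hY1 : #Y = M := by omega
    have h1 : Y.powersetCard M = {Y} := by rw [← hY1]; exact powersetCard_self Y
    have h2 : KK ρ M (0 + 1) Y v = P ρ Y v := by
      simp only [KK, ContinuousLinearMap.smul_apply, ContinuousLinearMap.sum_apply,
        ContinuousLinearMap.mul_apply', ContinuousLinearMap.one_apply]
      rw [h1, sum_singleton, card_singleton]
      simp
    rw [h2, KEY_sq hP]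
    have h3 := KEY_norm ρ Y v
    have h4 : ‖P ρ Y v‖ ^ 2 ≤ ‖v‖ ^ 2 := pow_le_pow_left₀ (norm_nonneg _) h3 2
    linarith
  | succ q ih =>
    intro Y hY v
    set n : ℕ := #Y with hn
    have hMn : M ≤ n := by rw [hY]; nlinarith
    have hn0 : (0 : ℝ) < n := by
      have : 0 < n := by rw [hY]; positivity
      exact_mod_cast this
    set C : ℕ := n.choose M with hC
    have hCp : 0 < C := Nat.choose_pos hMn
    have hCr : (0 : ℝ) < C := by exact_mod_cast hCp
    have hcard : #(Y.powersetCard M) = C := card_powersetCard _ _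
    have h1 : inner ℝ (KK ρ M (q + 1 + 1) Y v) v =
        (C : ℝ)⁻¹ * ∑ B ∈ Y.powersetCard M, inner ℝ (P ρ B (KK ρ M (q + 1) (Y \ B) v)) v := by
      have h2 : KK ρ M (q + 1 + 1) Y v =
          (C : ℝ)⁻¹ • ∑ B ∈ Y.powersetCard M, P ρ B (KK ρ M (q + 1) (Y \ B) v) := by
        rw [← hcard]
        show ((#(Y.powersetCard M) : ℝ)⁻¹ • ∑ B ∈ Y.powersetCard M,
          P ρ B * KK ρ M (q + 1) (Y \ B)) v = _
        simp only [ContinuousLinearMap.smul_apply, ContinuousLinearMap.sum_apply,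
          ContinuousLinearMap.mul_apply']
        rfl
      rw [h2, real_inner_smul_left, sum_inner]
    rw [h1]
    have h2 : ∀ B ∈ Y.powersetCard M, inner ℝ (P ρ B (KK ρ M (q + 1) (Y \ B) v)) v ≤
        3 / 5 * ‖P ρ B v‖ ^ 2 + 2 / 5 * ‖P ρ (Y \ B) v‖ ^ 2 := by
      intro B hB
      obtain ⟨hB1, hB2⟩ := mem_powersetCard.1 hB
      have h3 : inner ℝ (P ρ B (KK ρ M (q + 1) (Y \ B) v)) v =
          inner ℝ (KK ρ M (q + 1) (Y \ B) (P ρ B v)) (P ρ B v) := by
        rw [KEY_comm hP ρ M B (q + 1) (Y \ B) disjoint_sdiff, KEY_sym, KEY_sym, KEY_idem hP]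
      rw [h3]
      have h4 : #(Y \ B) = (q + 1) * M := by
        rw [card_sdiff_of_subset hB1, hB2, ← hn, hY]
        have : (q + 1 + 1) * M = (q + 1) * M + M := by ring
        omega
      refine (ih (Y \ B) h4 (P ρ B v)).trans ?_
      have h5 : P ρ (Y \ B) (P ρ B v) = P ρ B (P ρ (Y \ B) v) :=
        (hP X E ρ).2.1 (Y \ B) B sdiff_disjoint v
      rw [h5]
      have h6 := KEY_norm ρ B (P ρ (Y \ B) v)
      have h7 : ‖P ρ B (P ρ (Y \ B) v)‖ ^ 2 ≤ ‖P ρ (Y \ B) v‖ ^ 2 :=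
        pow_le_pow_left₀ (norm_nonneg _) h6 2
      linarith
    have h3 := hX X E ρ hρ Y M hMn v
    have h4 := hX X E ρ hρ Y (n - M) (Nat.sub_le _ _) v
    rw [← hn] at h3 h4
    rw [Nat.choose_symm hMn] at h4
    have h5 : ∑ S ∈ Y.powersetCard (n - M), ‖P ρ S v‖ ^ 2 =
        ∑ B ∈ Y.powersetCard M, ‖P ρ (Y \ B) v‖ ^ 2 := by
      refine sum_bij' (fun S _ => Y \ S) (fun B _ => Y \ B) ?_ ?_ ?_ ?_ ?_
      · intro S hS
        obtain ⟨a1, a2⟩ := mem_powersetCard.1 hS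
        rw [mem_powersetCard]
        refine ⟨sdiff_subset, ?_⟩
        rw [card_sdiff_of_subset a1, a2, ← hn]
        omega
      · intro S hS
        obtain ⟨a1, a2⟩ := mem_powersetCard.1 hS
        rw [mem_powersetCard]
        refine ⟨sdiff_subset, ?_⟩
        rw [card_sdiff_of_subset a1, a2]
      · intro S hS
        exact Finset.sdiff_sdiff_eq_self (mem_powersetCard.1 hS).1
      · intro S hS
        exact Finset.sdiff_sdiff_eq_self (mem_powersetCard.1 hS).1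
      · intro S hS
        rw [Finset.sdiff_sdiff_eq_self (mem_powersetCard.1 hS).1]
    rw [h5] at h4
    have h6 := sum_le_sum h2
    rw [sum_add_distrib, ← mul_sum, ← mul_sum] at h6
    have h7 : ‖P ρ Y v‖ ^ 2 ≤ ‖v‖ ^ 2 :=
      pow_le_pow_left₀ (norm_nonneg _) (KEY_norm ρ Y v) 2
    set p : ℝ := ‖P ρ Y v‖ ^ 2 with hp
    set w : ℝ := ‖v‖ ^ 2 with hw
    have hMr : (30 : ℝ) ≤ M := by exact_mod_cast hM
    have hnM : ((n - M : ℕ) : ℝ) = (n : ℝ) - M := by push_cast [Nat.cast_sub hMn]; ring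
    rw [hnM] at h4
    have h8 : ∑ B ∈ Y.powersetCard M, inner ℝ (P ρ B (KK ρ M (q + 1) (Y \ B) v)) v ≤
        (C : ℝ) * (3 / 5 * ((1 - ((M : ℝ) - 6) / n) * w + (((M : ℝ) - 6) / n) * p) +
          2 / 5 * ((1 - (((n : ℝ) - M) - 6) / n) * w + ((((n : ℝ) - M) - 6) / n) * p)) := by
      refine h6.trans ?_
      have := add_le_add (mul_le_mul_of_nonneg_left h3 (by norm_num : (0 : ℝ) ≤ 3 / 5))
        (mul_le_mul_of_nonneg_left h4 (by norm_num : (0 : ℝ) ≤ 2 / 5))
      refine this.trans (le_of_eq ?_)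
      ring
    have h9 : (3 / 5 * ((1 - ((M : ℝ) - 6) / n) * w + (((M : ℝ) - 6) / n) * p) +
          2 / 5 * ((1 - (((n : ℝ) - M) - 6) / n) * w + ((((n : ℝ) - M) - 6) / n) * p)) =
        3 / 5 * w + 2 / 5 * p - (((M : ℝ) - 30) / (5 * n)) * (w - p) := by
      field_simp
      ring
    rw [h9] at h8
    have h10 : 0 ≤ (((M : ℝ) - 30) / (5 * n)) * (w - p) :=
      mul_nonneg (div_nonneg (by linarith) (by positivity)) (by linarith)
    calc (C : ℝ)⁻¹ * ∑ B ∈ Y.powersetCard M, inner ℝ (P ρ B (KK ρ M (q + 1) (Y \ B) v)) v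
        ≤ (C : ℝ)⁻¹ * ((C : ℝ) * (3 / 5 * w + 2 / 5 * p - (((M : ℝ) - 30) / (5 * n)) * (w - p))) :=
          mul_le_mul_of_nonneg_left h8 (by positivity)
      _ = 3 / 5 * w + 2 / 5 * p - (((M : ℝ) - 30) / (5 * n)) * (w - p) := by
          rw [← mul_assoc, inv_mul_cancel₀ hCr.ne', one_mul]
      _ ≤ _ := by linarith

end SG23
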