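import Pool.Agent.N23.SG.Stm

/-!
Project SG (helper23), MP_839d28_al.  KEYD: from all ordered partitions to everything.
(helper745)
-/

namespace SG23
open Finset

section
variable {X : Type} [Fintype X] [DecidableEq X] {E : Type} [NormedAddCommGroup E]
    [InnerProductSpace ℝ E] [FiniteDimensional ℝ E]

lemma KEYD_card_ne {M q : ℕ} {Y : Finset X} (hY : #Y = (q + 1) * M) :
    (#(Y.powersetCard M) : ℝ) ≠ 0 := by
  have h : M ≤ #Y := by rw [hY]; nlinarith
  have h2 : 0 < #(Y.powersetCard M) := by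
    rw [Finset.card_powersetCard]
    exact Nat.choose_pos h
  exact_mod_cast h2.ne'

lemma KEYD_card_sdiff {M q : ℕ} {Y B : Finset X} (hY : #Y = (q + 1) * M)
    (hB : B ∈ Y.powersetCard M) : #(Y \ B) = q * M := by
  rw [Finset.mem_powersetCard] at hB
  rw [Finset.card_sdiff_of_subset hB.1, hY, hB.2]
  rw [Nat.add_mul, Nat.one_mul, Nat.add_sub_cancel]

lemma KEYD_KK_succ (ρ : SO X →* (E ≃ₗᵢ[ℝ] E)) (M q : ℕ) (Y : Finset X) (v : E) :
    KK ρ M (q + 1) Y v =
      (#(Y.powersetCard M) : ℝ)⁻¹ • ∑ B ∈ Y.powersetCard M, P ρ B (KK ρ M q (Y \ B) v) := by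
  simp only [KK, ContinuousLinearMap.smul_apply, ContinuousLinearMap.sum_apply]
  rfl

lemma KEYD_avg (ρ : SO X →* (E ≃ₗᵢ[ℝ] E)) (M : ℕ) (v : E) (η : ℝ) :
    ∀ (q : ℕ) (Y : Finset X), #Y = q * M → ∀ T : E →L[ℝ] E,
    (∀ L : List (Finset X), L.length = q → (∀ B ∈ L, B ⊆ Y) → (∀ B ∈ L, #B = M) →
      L.Pairwise Disjoint → ‖v - T ((L.map (P ρ)).prod v)‖ ≤ η) →
    ‖v - T (KK ρ M q Y v)‖ ≤ η := by
  intro q
  induction q with
  | zero =>
    intro Y _ T h
    have := h [] rfl (by simp) (by simp) List.Pairwise.nil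
    simpa [KK] using this
  | succ q ih =>
    intro Y hY T h
    have hc := KEYD_card_ne (X := X) hY
    have hB : ∀ B ∈ Y.powersetCard M, ‖v - T (P ρ B (KK ρ M q (Y \ B) v))‖ ≤ η := by
      intro B hB
      have h1 := ih (Y \ B) (KEYD_card_sdiff hY hB) (T * P ρ B)
      have hB' := hB
      rw [Finset.mem_powersetCard] at hB'
      refine h1 ?_
      intro L hlen hsub hcard hpw
      have h2 := h (B :: L) (by simp [hlen])
        (by
          intro C hC
          rcases List.mem_cons.1 hC with rfl | hC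
          · exact hB'.1
          · exact (hsub C hC).trans Finset.sdiff_subset)
        (by
          intro C hC
          rcases List.mem_cons.1 hC with rfl | hC
          · exact hB'.2
          · exact hcard C hC)
        (by
          refine List.pairwise_cons.2 ⟨?_, hpw⟩
          intro C hC
          exact (Finset.sdiff_disjoint.mono_left (hsub C hC)).symm)
      simpa using h2
    have hsum : v - T (KK ρ M (q + 1) Y v) =
        (#(Y.powersetCard M) : ℝ)⁻¹ •
          ∑ B ∈ Y.powersetCard M, (v - T (P ρ B (KK ρ M q (Y \ B) v))) := by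
      rw [KEYD_KK_succ, Finset.sum_sub_distrib, smul_sub, map_smul, map_sum, Finset.sum_const,
        ← Nat.cast_smul_eq_nsmul ℝ, smul_smul, inv_mul_cancel₀ hc, one_smul]
    rw [hsum, norm_smul, norm_inv, Real.norm_natCast]
    have hpos : (0 : ℝ) < (#(Y.powersetCard M) : ℝ) := lt_of_le_of_ne (Nat.cast_nonneg _) hc.symm
    rw [inv_mul_le_iff₀ hpos]
    calc ‖∑ B ∈ Y.powersetCard M, (v - T (P ρ B (KK ρ M q (Y \ B) v)))‖
        ≤ ∑ B ∈ Y.powersetCard M, η := norm_sum_le_of_le _ hB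
      _ = (#(Y.powersetCard M) : ℝ) * η := by rw [Finset.sum_const, nsmul_eq_mul]

lemma KEYD_fix (hP : ST_PMONO) (ρ : SO X →* (E ≃ₗᵢ[ℝ] E)) (M : ℕ) (v : E) :
    ∀ (q : ℕ) (Y : Finset X), #Y = q * M → KK ρ M q Y (P ρ univ v) = P ρ univ v := by
  intro q
  induction q with
  | zero => intro Y _; simp [KK]
  | succ q ih =>
    intro Y hY
    have hc := KEYD_card_ne (X := X) hY
    rw [KEYD_KK_succ]
    have : ∑ B ∈ Y.powersetCard M, P ρ B (KK ρ M q (Y \ B) (P ρ univ v)) =
        ∑ B ∈ Y.powersetCard M, P ρ univ v := by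
      refine Finset.sum_congr rfl ?_
      intro B hB
      rw [ih (Y \ B) (KEYD_card_sdiff hY hB)]
      exact ((hP X E ρ).1 B univ (Finset.subset_univ _) v).1
    rw [this, Finset.sum_const, ← Nat.cast_smul_eq_nsmul ℝ, smul_smul, inv_mul_cancel₀ hc, one_smul]

end

theorem KEYD (hK : ST_KEY) (hP : ST_PMONO) : ST_KEYD := by
  intro X _ _ E _ _ _ ρ hρ M q hM hq hcard v η hL
  obtain ⟨q', rfl⟩ : ∃ q', q = q' + 1 := ⟨q - 1, by omega⟩
  have hY : #(univ : Finset X) = (q' + 1) * M := by rw [Finset.card_univ, hcard]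
  have h1 : ‖v - KK ρ M (q' + 1) univ v‖ ≤ η := by
    have := KEYD_avg ρ M v η (q' + 1) univ hY (1 : E →L[ℝ] E)
    refine this ?_
    intro L hlen _ hB hpw
    exact hL L hlen hB hpw
  have hη : 0 ≤ η := le_trans (norm_nonneg _) h1
  have hfix := KEYD_fix hP ρ M v (q' + 1) univ hY
  have hPw : P ρ univ (v - P ρ univ v) = 0 := by
    rw [map_sub, ((hP X E ρ).1 univ univ (Finset.Subset.refl _) v).1, sub_self]
  have hkey := hK X E ρ hρ M hM q' univ hY (v - P ρ univ v)
  rw [hPw] at hkey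
  have hAw : (v - P ρ univ v) - KK ρ M (q' + 1) univ (v - P ρ univ v) =
      v - KK ρ M (q' + 1) univ v := by
    rw [map_sub, hfix]; abel
  have h2 : inner ℝ ((v - P ρ univ v) - KK ρ M (q' + 1) univ (v - P ρ univ v))
      (v - P ρ univ v) ≤ η * ‖v - P ρ univ v‖ := by
    refine (real_inner_le_norm _ _).trans ?_
    rw [hAw]
    exact mul_le_mul_of_nonneg_right h1 (norm_nonneg _)
  rw [inner_sub_left, real_inner_self_eq_norm_sq] at h2
  simp only [norm_zero] at hkey
  by_cases hw : ‖v - P ρ univ v‖ = 0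
  · rw [hw]; positivity
  · have hpos : 0 < ‖v - P ρ univ v‖ := lt_of_le_of_ne (norm_nonneg _) (Ne.symm hw)
    have h3 : 2 / 5 * ‖v - P ρ univ v‖ * ‖v - P ρ univ v‖ ≤ η * ‖v - P ρ univ v‖ := by
      nlinarith
    have h4 := le_of_mul_le_mul_right h3 hpos
    linarith

end SG23
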