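import Pool.Agent.N23.SG.Stm

/-!
Project SG (helper23), MP_839d28_al.  The gap for square integrable functions (helper148).
-/

namespace SG23
open Finset MeasureTheory

noncomputable section

namespace L2Gn

variable {X : Type} [Fintype X] [DecidableEq X] {μ : Measure (X → X → ℝ)}

lemma bd (hμ : HL μ) : ∀ᵐ x ∂μ, x ∈ Metric.closedBall (0 : X → X → ℝ) 1 := by
  rw [ae_iff]
  refine measure_mono_null ?_ hμ.2.1
  intro x hx
  simp only [Set.mem_setOf_eq] at hx ⊢
  intro h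
  apply hx
  rw [mem_closedBall_zero_iff, pi_norm_le_iff_of_nonneg zero_le_one]
  intro i
  rw [pi_norm_le_iff_of_nonneg zero_le_one]
  intro j
  have h1 : ((Matrix.of x).transpose * Matrix.of x) j j = 1 := by
    rw [h.1, Matrix.one_apply_eq]
  rw [Matrix.mul_apply] at h1
  simp only [Matrix.transpose_apply, Matrix.of_apply] at h1
  have h2 : x i j * x i j ≤ ∑ l, x l j * x l j :=
    Finset.single_le_sum (f := fun l => x l j * x l j) (fun l _ => mul_self_nonneg (x l j))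
      (Finset.mem_univ i)
  rw [h1] at h2
  rw [Real.norm_eq_abs]
  exact abs_le_one_iff_mul_self_le_one.2 h2

lemma mem (hμ : HL μ) (F : (X → X → ℝ) → ℝ) (hF : Continuous F) : MemLp F 2 μ := by
  have := hμ.1
  obtain ⟨C, hC⟩ := (isCompact_closedBall (0 : X → X → ℝ) 1).exists_bound_of_continuousOn
    hF.continuousOn
  exact MemLp.of_bound hF.aestronglyMeasurable C ((bd hμ).mono fun x hx => hC x hx)

lemma pcont (p : MvPolynomial (X × X) ℝ) :
    Continuous fun x : X → X → ℝ => MvPolynomial.eval (fun z => x z.1 z.2) p :=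
  (MvPolynomial.continuous_eval p).comp (by fun_prop)

lemma tcont (g : Matrix X X ℝ) : Continuous (tr g) := by
  unfold tr
  fun_prop

lemma yo (s : ℝ) (hs : 0 < s) (a b : ℝ) :
    (a + b) ^ 2 ≤ (1 + s) * a ^ 2 + (1 + 1 / s) * b ^ 2 := by
  have h : 0 ≤ (s * a - b) ^ 2 / s := by positivity
  have e : (1 + s) * a ^ 2 + (1 + 1 / s) * b ^ 2 - (a + b) ^ 2 = (s * a - b) ^ 2 / s := by
    field_simp
    ring
  linarith

lemma young (s : ℝ) (hs : 0 < s) {a b : (X → X → ℝ) → ℝ} (ha : MemLp a 2 μ) (hb : MemLp b 2 μ) :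
    ∫ x, (a x + b x) ^ 2 ∂μ ≤
      (1 + s) * ∫ x, a x ^ 2 ∂μ + (1 + 1 / s) * ∫ x, b x ^ 2 ∂μ := by
  have h1 : Integrable (fun x => (1 + s) * a x ^ 2) μ := ha.integrable_sq.const_mul _
  have h2 : Integrable (fun x => (1 + 1 / s) * b x ^ 2) μ := hb.integrable_sq.const_mul _
  rw [← integral_const_mul, ← integral_const_mul, ← integral_add h1 h2]
  exact integral_mono (ha.add hb).integrable_sq (h1.add h2) fun x => yo s hs _ _

lemma two {a b : (X → X → ℝ) → ℝ} (ha : MemLp a 2 μ) (hb : MemLp b 2 μ) :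
    ∫ x, (a x - b x) ^ 2 ∂μ ≤ 2 * ∫ x, a x ^ 2 ∂μ + 2 * ∫ x, b x ^ 2 ∂μ := by
  have h1 : Integrable (fun x => 2 * a x ^ 2) μ := ha.integrable_sq.const_mul _
  have h2 : Integrable (fun x => 2 * b x ^ 2) μ := hb.integrable_sq.const_mul _
  rw [← integral_const_mul, ← integral_const_mul, ← integral_add h1 h2]
  refine integral_mono (ha.sub hb).integrable_sq (h1.add h2) fun x => ?_
  show (a x - b x) ^ 2 ≤ 2 * a x ^ 2 + 2 * b x ^ 2
  nlinarith [sq_nonneg (a x + b x)]

end L2Gn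

open L2Gn in
theorem L2G (hD : ST_POLD) (hR : ST_POLR) : ST_L2G := by
  intro X _ _ μ hμ k K g hK hg f hf hf0
  have hprob := hμ.1
  have hT : ∀ i, MeasurePreserving (tr (g i : Matrix X X ℝ)) μ μ := fun i =>
    ⟨(tcont _).measurable, hμ.2.2 _ (SO_left _) (SO_det _)⟩
  have hinv : ∀ i (h : (X → X → ℝ) → ℝ), MemLp h 2 μ →
      ∫ x, h (tr (g i : Matrix X X ℝ) x) ^ 2 ∂μ = ∫ x, h x ^ 2 ∂μ := by
    intro i h hh
    have h1 : AEStronglyMeasurable (fun x => h x ^ 2) (μ.map (tr (g i : Matrix X X ℝ))) := by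
      rw [(hT i).map_eq]
      exact hh.integrable_sq.aestronglyMeasurable
    have h2 := integral_map (hT i).measurable.aemeasurable h1
    rw [(hT i).map_eq] at h2
    exact h2.symm
  obtain ⟨A, hA⟩ : ∃ A, A = ∫ x, f x ^ 2 ∂μ := ⟨_, rfl⟩
  obtain ⟨B, hB⟩ : ∃ B : Fin k → ℝ, B = fun i =>
    ∫ x, (f (tr (g i : Matrix X X ℝ) x) - f x) ^ 2 ∂μ := ⟨_, rfl⟩
  have hB0 : 0 ≤ ∑ i, B i := by
    refine Finset.sum_nonneg fun i _ => ?_
    rw [hB]
    exact integral_nonneg fun x => sq_nonneg _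
  have key : ∀ s : ℝ, 0 < s → ∀ δ : ℝ, 0 < δ →
      A ≤ (1 + s) * (K ^ 2 * ∑ i, ((1 + s) * B i + (1 + 1 / s) * (4 * δ))) +
        (1 + 1 / s) * δ := by
    intro s hs δ hδ
    obtain ⟨p0, hp0⟩ := hD X μ hμ f hf δ hδ
    have hp0m : MemLp (fun x : X → X → ℝ => MvPolynomial.eval (fun z => x z.1 z.2) p0) 2 μ :=
      mem hμ _ (pcont p0)
    obtain ⟨m, hm⟩ : ∃ m, m = ∫ x : X → X → ℝ, MvPolynomial.eval (fun z => x z.1 z.2) p0 ∂μ :=
      ⟨_, rfl⟩
    obtain ⟨p, hp⟩ : ∃ p : MvPolynomial (X × X) ℝ, p = p0 - MvPolynomial.C m := ⟨_, rfl⟩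
    have hpe : ∀ x : X → X → ℝ, MvPolynomial.eval (fun z => x z.1 z.2) p =
        MvPolynomial.eval (fun z => x z.1 z.2) p0 - m := by
      intro x
      rw [hp, map_sub, MvPolynomial.eval_C]
    obtain ⟨P', hP'⟩ : ∃ P' : (X → X → ℝ) → ℝ, P' = fun x =>
      MvPolynomial.eval (fun z => x z.1 z.2) p := ⟨_, rfl⟩
    have hPm : MemLp P' 2 μ := by
      rw [hP']
      exact mem hμ _ (pcont p)
    have hP0 : ∫ x, P' x ∂μ = 0 := by
      rw [hP']
      simp only [hpe]
      rw [integral_sub (hp0m.integrable (by norm_num)) (integrable_const _), ← hm,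
        integral_const, probReal_univ, one_smul, sub_self]
    have hd : MemLp (fun x => P' x - f x) 2 μ := hPm.sub hf
    have hdδ : ∫ x, (P' x - f x) ^ 2 ∂μ ≤ δ := by
      obtain ⟨h, hh⟩ : ∃ h : (X → X → ℝ) → ℝ, h = fun x =>
        f x - MvPolynomial.eval (fun z => x z.1 z.2) p0 := ⟨_, rfl⟩
      have hhm : MemLp h 2 μ := by
        rw [hh]
        exact hf.sub hp0m
      have hh0 : ∫ x, h x ∂μ = -m := by
        rw [hh, integral_sub (hf.integrable (by norm_num)) (hp0m.integrable (by norm_num)), hf0,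
          ← hm, zero_sub]
      have e : ∀ x, (P' x - f x) ^ 2 = h x ^ 2 + (2 * m * h x + m ^ 2) := by
        intro x
        rw [hP', hh]
        simp only [hpe]
        ring
      simp only [e]
      have i1 : Integrable (fun x => 2 * m * h x) μ := (hhm.integrable (by norm_num)).const_mul _
      have i2 : Integrable (fun x => 2 * m * h x + m ^ 2) μ := i1.add (integrable_const _)
      rw [integral_add hhm.integrable_sq i2,
        integral_add i1 (integrable_const _), integral_const_mul, hh0, integral_const,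
        probReal_univ, one_smul]
      have h3 : ∫ x, h x ^ 2 ∂μ ≤ δ := by
        rw [hh]
        exact hp0
      nlinarith [sq_nonneg m]
    have h1 : A ≤ (1 + s) * ∫ x, P' x ^ 2 ∂μ + (1 + 1 / s) * δ := by
      have h2 := young s hs hPm (hf.sub hPm)
      have e1 : ∀ x, P' x + (f x - P' x) = f x := fun x => by ring
      have e2 : ∀ x, (f x - P' x) ^ 2 = (P' x - f x) ^ 2 := fun x => by ring
      simp only [Pi.sub_apply, e1, e2] at h2
      rw [hA]
      refine h2.trans ?_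
      have : (1 + 1 / s) * ∫ x, (P' x - f x) ^ 2 ∂μ ≤ (1 + 1 / s) * δ :=
        mul_le_mul_of_nonneg_left hdδ (by positivity)
      linarith
    have h2 : ∫ x, P' x ^ 2 ∂μ ≤
        K ^ 2 * ∑ i, ∫ x, (P' (tr (g i : Matrix X X ℝ) x) - P' x) ^ 2 ∂μ := by
      have h3 := hR X μ hμ k K g hK hg p (by rw [hP'] at hP0; exact hP0)
      rw [hP']
      exact h3
    have h3 : ∀ i, ∫ x, (P' (tr (g i : Matrix X X ℝ) x) - P' x) ^ 2 ∂μ ≤
        (1 + s) * B i + (1 + 1 / s) * (4 * δ) := by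
      intro i
      have hfT : MemLp (fun x => f (tr (g i : Matrix X X ℝ) x)) 2 μ :=
        hf.comp_measurePreserving (hT i)
      have hdT : MemLp (fun x => P' (tr (g i : Matrix X X ℝ) x) - f (tr (g i : Matrix X X ℝ) x)) 2 μ :=
        hd.comp_measurePreserving (hT i)
      have ha : MemLp (fun x => f (tr (g i : Matrix X X ℝ) x) - f x) 2 μ := hfT.sub hf
      have hb : MemLp (fun x => (P' (tr (g i : Matrix X X ℝ) x) - f (tr (g i : Matrix X X ℝ) x)) -
        (P' x - f x)) 2 μ := hdT.sub hd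
      have h4 := young s hs ha hb
      have h5 := two hdT hd
      have h6 := hinv i _ hd
      rw [h6] at h5
      have e1 : ∀ x, f (tr (g i : Matrix X X ℝ) x) - f x +
          (P' (tr (g i : Matrix X X ℝ) x) - f (tr (g i : Matrix X X ℝ) x) - (P' x - f x)) =
            P' (tr (g i : Matrix X X ℝ) x) - P' x := fun x => by ring
      simp only [e1] at h4
      refine h4.trans ?_
      have h7 : (1 + 1 / s) * ∫ x, (P' (tr (g i : Matrix X X ℝ) x) -
          f (tr (g i : Matrix X X ℝ) x) - (P' x - f x)) ^ 2 ∂μ ≤ (1 + 1 / s) * (4 * δ) := by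
        apply mul_le_mul_of_nonneg_left _ (by positivity)
        linarith
      rw [hB]
      linarith
    have h4 : ∫ x, P' x ^ 2 ∂μ ≤ K ^ 2 * ∑ i, ((1 + s) * B i + (1 + 1 / s) * (4 * δ)) :=
      h2.trans (mul_le_mul_of_nonneg_left (Finset.sum_le_sum fun i _ => h3 i) (sq_nonneg K))
    have h5 := mul_le_mul_of_nonneg_left h4 (show 0 ≤ 1 + s by linarith)
    linarith
  have key2 : ∀ s : ℝ, 0 < s → A ≤ (1 + s) ^ 2 * (K ^ 2 * ∑ i, B i) := by
    intro s hs
    apply le_of_forall_pos_le_add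
    intro ε hε
    obtain ⟨D, hDD⟩ : ∃ D, D = (1 + s) * (K ^ 2 * (k * ((1 + 1 / s) * 4))) + (1 + 1 / s) :=
      ⟨_, rfl⟩
    have hDpos : 0 < D := by rw [hDD]; positivity
    have h1 := key s hs (ε / D) (by positivity)
    refine h1.trans (le_of_eq ?_)
    rw [Finset.sum_add_distrib, ← Finset.mul_sum, Finset.sum_const, Finset.card_univ,
      Fintype.card_fin, nsmul_eq_mul]
    have h2 : (1 + s) * (K ^ 2 * ((1 + s) * ∑ i, B i + k * ((1 + 1 / s) * (4 * (ε / D))))) +
        (1 + 1 / s) * (ε / D) = (1 + s) ^ 2 * (K ^ 2 * ∑ i, B i) + D * (ε / D) := by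
      rw [hDD]
      ring
    rw [h2, mul_div_cancel₀ _ hDpos.ne']
  rw [← hA]
  have hlim : Filter.Tendsto (fun n : ℕ => (1 + 1 / ((n : ℝ) + 1)) ^ 2 * (K ^ 2 * ∑ i, B i))
      Filter.atTop (nhds (K ^ 2 * ∑ i, B i)) := by
    have h0 : Filter.Tendsto (fun n : ℕ => 1 / ((n : ℝ) + 1)) Filter.atTop (nhds 0) :=
      tendsto_one_div_add_atTop_nhds_zero_nat
    have h1 := ((h0.const_add 1).pow 2).mul_const (K ^ 2 * ∑ i, B i)
    simpa using h1
  have h := ge_of_tendsto' hlim fun n => key2 (1 / ((n : ℝ) + 1)) (by positivity)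
  rw [hB] at h
  exact h

end

end SG23
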