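import Pool.Agent.N23.SG.Stm

/-!
Project SG (helper23), MP_839d28_al.  MOM: moments of the entries of a random rotation (helper823).
-/

namespace SG23
open Finset
open scoped Matrix

noncomputable section

section
variable {X : Type} [Fintype X] [DecidableEq X]

/-! ### rotations act transitively on spheres -/

/-- Householder reflection -/
def mom_hh (u : X → ℝ) : Matrix X X ℝ := 1 - (2 / (u ⬝ᵥ u)) • Matrix.vecMulVec u u

lemma mom_vecMul (u b : X → ℝ) : b ᵥ* mom_hh u = b - (2 * (b ⬝ᵥ u) / (u ⬝ᵥ u)) • u := by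
  rw [mom_hh, Matrix.vecMul_sub, Matrix.vecMul_one, Matrix.vecMul_smul, Matrix.vecMul_vecMulVec,
    smul_smul]
  congr 2
  ring

lemma mom_hh_tr (u : X → ℝ) : (mom_hh u).transpose = mom_hh u := by
  rw [mom_hh, Matrix.transpose_sub, Matrix.transpose_one, Matrix.transpose_smul,
    Matrix.transpose_vecMulVec]

lemma mom_hh_sq (u : X → ℝ) (hu : u ⬝ᵥ u ≠ 0) : mom_hh u * mom_hh u = 1 := by
  have h1 : Matrix.vecMulVec u u * Matrix.vecMulVec u u = (u ⬝ᵥ u) • Matrix.vecMulVec u u := by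
    rw [Matrix.vecMulVec_mul_vecMulVec, Matrix.vecMulVec_smul]
  set a : ℝ := 2 / (u ⬝ᵥ u) with ha
  set V : Matrix X X ℝ := Matrix.vecMulVec u u with hV
  have h2 : a * a * (u ⬝ᵥ u) = 2 * a := by
    rw [ha]; field_simp
  calc mom_hh u * mom_hh u = (1 - a • V) * (1 - a • V) := rfl
    _ = 1 - (2 * a) • V + (a * a) • (V * V) := by
      rw [sub_mul, one_mul, mul_sub, mul_one, smul_mul_smul_comm]
      module
    _ = 1 := by
      rw [h1, smul_smul, h2]
      module

lemma mom_hh_det (u : X → ℝ) (hu : u ⬝ᵥ u ≠ 0) : (mom_hh u).det = -1 := by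
  have h1 : mom_hh u = 1 + Matrix.replicateCol Unit ((-(2 / (u ⬝ᵥ u))) • u) *
      Matrix.replicateRow Unit u := by
    rw [← Matrix.vecMulVec_eq, Matrix.smul_vecMulVec, mom_hh, neg_smul, sub_eq_add_neg]
  rw [h1, Matrix.det_one_add_replicateCol_mul_replicateRow, dotProduct_smul, smul_eq_mul]
  field_simp
  norm_num

lemma mom_perp (hX : 2 ≤ Fintype.card X) (b : X → ℝ) : ∃ u : X → ℝ, u ⬝ᵥ u ≠ 0 ∧ b ⬝ᵥ u = 0 := by
  obtain ⟨i, j, hij⟩ := Fintype.one_lt_card_iff.1 hX
  by_cases hb : b i = 0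
  · refine ⟨Pi.single i 1, ?_, ?_⟩
    · simp
    · simp [hb]
  · refine ⟨Pi.single i (b j) - Pi.single j (b i), ?_, ?_⟩
    · rw [sub_dotProduct, single_dotProduct, single_dotProduct]
      simp [hij, hij.symm]
      intro h
      nlinarith [mul_self_nonneg (b i), mul_self_nonneg (b j), mul_self_pos.2 hb]
    · rw [dotProduct_sub, dotProduct_single, dotProduct_single]
      ring

/-- rotations act transitively on spheres -/
lemma mom_trans (hX : 2 ≤ Fintype.card X) (b b' : X → ℝ) (h : b ⬝ᵥ b = b' ⬝ᵥ b') :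
    ∃ g : SO X, b ᵥ* (g : Matrix X X ℝ) = b' := by
  by_cases hbb : b = b'
  · exact ⟨1, by rw [hbb]; exact Matrix.vecMul_one _⟩
  · obtain ⟨u, hu, hub⟩ := mom_perp hX b'
    set v : X → ℝ := b - b' with hv
    have hv0 : v ⬝ᵥ v ≠ 0 := by
      rw [Ne, dotProduct_self_eq_zero]
      exact sub_ne_zero.2 hbb
    refine ⟨⟨mom_hh v * mom_hh u, ?_⟩, ?_⟩
    · rw [mem_SO]
      constructor
      · rw [Matrix.transpose_mul, mom_hh_tr, mom_hh_tr]
        calc mom_hh u * mom_hh v * (mom_hh v * mom_hh u)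
            = mom_hh u * (mom_hh v * mom_hh v) * mom_hh u := by simp only [Matrix.mul_assoc]
          _ = 1 := by rw [mom_hh_sq v hv0, Matrix.mul_one, mom_hh_sq u hu]
      · rw [Matrix.det_mul, mom_hh_det v hv0, mom_hh_det u hu]
        norm_num
    · change b ᵥ* (mom_hh v * mom_hh u) = b'
      rw [← Matrix.vecMul_vecMul, mom_vecMul v b]
      have h1 : 2 * (b ⬝ᵥ v) / (v ⬝ᵥ v) = 1 := by
        rw [div_eq_one_iff_eq hv0, hv, dotProduct_sub, sub_dotProduct, dotProduct_sub,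
          dotProduct_sub, dotProduct_comm b' b, ← h]
        ring
      rw [h1, one_smul, hv, sub_sub_cancel, mom_vecMul u b', hub]
      simp

/-! ### evaluation -/

lemma mom_ev_colp (j : X) (h : MvPolynomial X ℝ) (x : SO X) :
    ev (colp j h) x = MvPolynomial.eval (fun l => (x : Matrix X X ℝ) l j) h := by
  unfold ev colp
  rw [MvPolynomial.eval_rename]
  rfl

lemma mom_ev_lin (j : X) (a : X → ℝ) (x : SO X) :
    ev (colp j (lin a)) x = ∑ l, a l * (x : Matrix X X ℝ) l j := by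
  rw [mom_ev_colp, lin]
  simp

lemma mom_ev_pow (p : MvPolynomial (X × X) ℝ) (k : ℕ) (x : SO X) : ev (p ^ k) x = ev p x ^ k := by
  simp [ev]

lemma mom_ev_mul (p q : MvPolynomial (X × X) ℝ) (x : SO X) : ev (p * q) x = ev p x * ev q x := by
  simp [ev]

lemma mom_ev_add (p q : MvPolynomial (X × X) ℝ) (x : SO X) : ev (p + q) x = ev p x + ev q x := by
  simp [ev]

lemma mom_ev_sub (p q : MvPolynomial (X × X) ℝ) (x : SO X) : ev (p - q) x = ev p x - ev q x := by
  simp [ev]

lemma mom_ev_one (x : SO X) : ev (1 : MvPolynomial (X × X) ℝ) x = 1 := by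
  simp [ev]

lemma mom_ev_sum {ι : Type} (s : Finset ι) (f : ι → MvPolynomial (X × X) ℝ) (x : SO X) :
    ev (∑ i ∈ s, f i) x = ∑ i ∈ s, ev (f i) x := by
  simp [ev]

lemma mom_single (j l : X) (x : SO X) :
    ev (colp j (lin (Pi.single l 1))) x = (x : Matrix X X ℝ) l j := by
  rw [mom_ev_lin]
  simp [Pi.single_apply]

omit [DecidableEq X] in
lemma mom_lin_add (a b : X → ℝ) : lin (a + b) = lin a + lin b := by
  unfold lin
  rw [← Finset.sum_add_distrib]
  refine Finset.sum_congr rfl fun l _ => ?_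
  rw [Pi.add_apply, MvPolynomial.C_add, add_mul]

omit [DecidableEq X] in
lemma mom_lin_smul (r : ℝ) (a : X → ℝ) : lin (r • a) = r • lin a := by
  unfold lin
  rw [Finset.smul_sum]
  refine Finset.sum_congr rfl fun l _ => ?_
  rw [Pi.smul_apply, smul_eq_mul, MvPolynomial.C_mul, mul_assoc, MvPolynomial.smul_eq_C_mul]

lemma mom_colp_smul (j : X) (r : ℝ) (a : X → ℝ) (k : ℕ) :
    colp j (lin (r • a)) ^ k = (r ^ k) • colp j (lin a) ^ k := by
  rw [mom_lin_smul, map_smul, smul_pow]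

lemma mom_norm (x : SO X) (j : X) : ∑ l, (x : Matrix X X ℝ) l j ^ 2 = 1 := by
  have h := congrFun (congrFun (SO_left x) j) j
  rw [Matrix.mul_apply, Matrix.one_apply_eq] at h
  rw [← h]
  exact Finset.sum_congr rfl fun l _ => by rw [Matrix.transpose_apply, sq]

/-! ### invariance -/

variable {I : MvPolynomial (X × X) ℝ →ₗ[ℝ] ℝ}

lemma mom_ext (hI : IM I) (p q : MvPolynomial (X × X) ℝ) (h : ∀ x, ev q x = ev p x) :
    I q = I p :=
  hI.2.2.1 1 p q fun x => by rw [one_mul]; exact h x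

/-- the moments depend only on the length of the vector -/
lemma mom_left (hX : 2 ≤ Fintype.card X) (hI : IM I) (j : X) (b b' : X → ℝ)
    (h : b ⬝ᵥ b = b' ⬝ᵥ b') (k : ℕ) : I (colp j (lin b') ^ k) = I (colp j (lin b) ^ k) := by
  obtain ⟨g, hg⟩ := mom_trans hX b b' h
  refine hI.2.2.1 g _ _ fun x => ?_
  rw [mom_ev_pow, mom_ev_pow, mom_ev_lin, mom_ev_lin]
  congr 1
  have h1 : ∀ l, ((g * x : SO X) : Matrix X X ℝ) l j =
      ∑ m, (g : Matrix X X ℝ) l m * (x : Matrix X X ℝ) m j := fun l => by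
    rw [← Matrix.mul_apply]; rfl
  calc ∑ l, b' l * (x : Matrix X X ℝ) l j
      = ∑ m, (∑ l, b l * (g : Matrix X X ℝ) l m) * (x : Matrix X X ℝ) m j := by
        rw [← hg]; rfl
    _ = ∑ m, ∑ l, b l * ((g : Matrix X X ℝ) l m * (x : Matrix X X ℝ) m j) := by
        refine Finset.sum_congr rfl fun m _ => ?_
        rw [Finset.sum_mul]
        exact Finset.sum_congr rfl fun l _ => by ring
    _ = ∑ l, ∑ m, b l * ((g : Matrix X X ℝ) l m * (x : Matrix X X ℝ) m j) := Finset.sum_comm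
    _ = ∑ l, b l * ((g * x : SO X) : Matrix X X ℝ) l j := by
        refine Finset.sum_congr rfl fun l _ => ?_
        rw [h1, Finset.mul_sum]

/-- the moments do not depend on the column -/
lemma mom_right (hX : 2 ≤ Fintype.card X) (hI : IM I) (j j' : X) (b : X → ℝ) (k : ℕ) :
    I (colp j' (lin b) ^ k) = I (colp j (lin b) ^ k) := by
  obtain ⟨g, hg⟩ := mom_trans hX (Pi.single j 1 : X → ℝ) (Pi.single j' 1) (by simp)
  refine hI.2.2.2 g⁻¹ _ _ fun x => ?_
  rw [mom_ev_pow, mom_ev_pow, mom_ev_lin, mom_ev_lin]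
  congr 1
  refine Finset.sum_congr rfl fun l _ => ?_
  congr 1
  have h1 : ((x * g⁻¹ : SO X) : Matrix X X ℝ) l j =
      ∑ m, (x : Matrix X X ℝ) l m * ((g⁻¹ : SO X) : Matrix X X ℝ) m j := by
    rw [← Matrix.mul_apply]; rfl
  have h2 : ∀ m, ((g⁻¹ : SO X) : Matrix X X ℝ) m j = (Pi.single j' 1 : X → ℝ) m := by
    intro m
    rw [SO_inv, Matrix.transpose_apply, ← hg, Matrix.single_vecMul, one_smul]
    try rfl
  rw [h1]
  simp only [h2]
  simp [Pi.single_apply]

end

theorem MOM : ST_MOM := by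
  intro X _ _ hX I hI
  have hpos := hI.1
  have hone := hI.2.1
  obtain ⟨l₀, l₁, hl⟩ := Fintype.one_lt_card_iff.1 (show 1 < Fintype.card X by omega)
  set e : X → X → ℝ := fun l => Pi.single l 1 with he
  have hee : ∀ l, e l ⬝ᵥ e l = 1 := fun l => by simp [he]
  have hev : ∀ j l x, ev (colp j (lin (e l))) x = (x : Matrix X X ℝ) l j := mom_single
  set c : ℕ → ℝ := fun m => I (colp l₀ (lin (e l₀)) ^ (2 * m)) with hc
  -- the even moments
  have heven : ∀ (j : X) (b : X → ℝ) (m : ℕ),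
      I (colp j (lin b) ^ (2 * m)) = c m * (∑ l, b l ^ 2) ^ m := by
    intro j b m
    have hbb : b ⬝ᵥ b = ∑ l, b l ^ 2 := Finset.sum_congr rfl fun l _ => (sq _).symm
    have hb0 : 0 ≤ ∑ l, b l ^ 2 := Finset.sum_nonneg fun l _ => sq_nonneg _
    have h1 : (Real.sqrt (∑ l, b l ^ 2) • e l₀) ⬝ᵥ (Real.sqrt (∑ l, b l ^ 2) • e l₀) = b ⬝ᵥ b := by
      rw [smul_dotProduct, dotProduct_smul, hee, hbb, smul_eq_mul, smul_eq_mul, mul_one,
        Real.mul_self_sqrt hb0]
    rw [mom_left hX hI j _ b h1 (2 * m), mom_colp_smul, map_smul, smul_eq_mul,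
      mom_right hX hI l₀ j (e l₀) (2 * m), pow_mul, Real.sq_sqrt hb0, mul_comm]
  -- the odd moments
  have hodd : ∀ (j : X) (b : X → ℝ) (m : ℕ), I (colp j (lin b) ^ (2 * m + 1)) = 0 := by
    intro j b m
    have h1 := mom_left hX hI j b ((-1 : ℝ) • b) (by simp) (2 * m + 1)
    rw [mom_colp_smul, map_smul, smul_eq_mul, pow_add, pow_mul] at h1
    norm_num at h1
    linarith
  have hcard : (0 : ℝ) < Fintype.card X := by exact_mod_cast (by omega : 0 < Fintype.card X)
  have hsum1 : ∀ l, ∑ i, e l i ^ 2 = 1 := fun l => by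
    rw [← hee l]; exact Finset.sum_congr rfl fun i _ => sq _
  -- the coordinates of the column `l₀`
  set y : X → MvPolynomial (X × X) ℝ := fun l => colp l₀ (lin (e l)) with hy
  have hyev : ∀ l x, ev (y l) x = (x : Matrix X X ℝ) l l₀ := fun l x => hev l₀ l x
  have hy2 : ∀ l, I (y l ^ 2) = c 1 := by
    intro l
    have := heven l₀ (e l) 1
    rw [hsum1, one_pow, mul_one, mul_one] at this
    exact this
  have hy4 : ∀ l, I (y l ^ 4) = c 2 := by
    intro l
    have := heven l₀ (e l) 2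
    rw [hsum1, one_pow, mul_one] at this
    exact this
  have hc1 : c 1 = 1 / (Fintype.card X : ℝ) := by
    have h1 : I (∑ l, y l ^ 2) = I 1 := by
      refine mom_ext hI _ _ fun x => ?_
      rw [mom_ev_sum, mom_ev_one, ← mom_norm x l₀]
      exact Finset.sum_congr rfl fun l _ => by rw [mom_ev_pow, hyev]
    rw [map_sum, hone] at h1
    simp only [hy2, Finset.sum_const, Finset.card_univ, nsmul_eq_mul] at h1
    rw [eq_div_iff hcard.ne', mul_comm]
    exact h1
  have hcpos : ∀ m, 0 ≤ c m := by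
    intro m
    refine hpos _ fun x => ?_
    rw [pow_mul, mom_ev_pow, mom_ev_pow]
    positivity
  -- the mixed moments
  have hs : ∀ l l', l ≠ l' → I (y l ^ 2 * y l' ^ 2) = c 2 / 3 := by
    intro l l' hll
    have hadd : colp l₀ (lin (e l + e l')) = y l + y l' := by
      rw [mom_lin_add, map_add]
    have hsub : colp l₀ (lin (e l + (-1 : ℝ) • e l')) = y l - y l' := by
      rw [mom_lin_add, map_add, mom_lin_smul, map_smul, neg_one_smul, ← sub_eq_add_neg]
    have hll0 : ∀ i, e l i * e l' i = 0 := by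
      intro i
      simp only [he, Pi.single_apply]
      by_cases h1 : i = l
      · have h2 : i ≠ l' := fun h => hll (h1.symm.trans h)
        rw [if_neg h2, mul_zero]
      · rw [if_neg h1, zero_mul]
    have e1 : ∑ i, (e l + e l') i ^ 2 = 2 := by
      have : ∀ i, (e l + e l') i ^ 2 = e l i ^ 2 + e l' i ^ 2 := fun i => by
        rw [Pi.add_apply]
        linear_combination 2 * hll0 i
      simp only [this, Finset.sum_add_distrib, hsum1]
      norm_num
    have e2 : ∑ i, (e l + (-1 : ℝ) • e l') i ^ 2 = 2 := by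
      have : ∀ i, (e l + (-1 : ℝ) • e l') i ^ 2 = e l i ^ 2 + e l' i ^ 2 := fun i => by
        rw [Pi.add_apply, Pi.smul_apply, smul_eq_mul]
        linear_combination (-2) * hll0 i
      simp only [this, Finset.sum_add_distrib, hsum1]
      norm_num
    have f1 := heven l₀ (e l + e l') 2
    have f2 := heven l₀ (e l + (-1 : ℝ) • e l') 2
    rw [hadd, e1] at f1
    rw [hsub, e2] at f2
    have f3 : (y l + y l') ^ (2 * 2) + (y l - y l') ^ (2 * 2) =
        (2 : ℝ) • y l ^ 4 + ((12 : ℝ) • (y l ^ 2 * y l' ^ 2) + (2 : ℝ) • y l' ^ 4) := by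
      simp only [MvPolynomial.smul_eq_C_mul]
      have c2 : (MvPolynomial.C (2 : ℝ) : MvPolynomial (X × X) ℝ) = 2 := by
        rw [← map_ofNat MvPolynomial.C 2]
      have c12 : (MvPolynomial.C (12 : ℝ) : MvPolynomial (X × X) ℝ) = 12 := by
        rw [← map_ofNat MvPolynomial.C 12]
      rw [c2, c12]
      ring
    have f4 := congrArg I f3
    rw [map_add, map_add, map_add, map_smul, map_smul, map_smul, hy4, hy4, f1, f2, smul_eq_mul,
      smul_eq_mul] at f4
    linarith
  have hc2 : c 2 = 3 / ((Fintype.card X : ℝ) * (Fintype.card X + 2)) := by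
    have h1 : I (∑ l, y l₀ ^ 2 * y l ^ 2) = I (y l₀ ^ 2) := by
      refine mom_ext hI _ _ fun x => ?_
      rw [mom_ev_sum]
      have : ∀ l, ev (y l₀ ^ 2 * y l ^ 2) x = ev (y l₀ ^ 2) x * (x : Matrix X X ℝ) l l₀ ^ 2 :=
        fun l => by rw [mom_ev_mul, mom_ev_pow (y l), hyev l]
      simp only [this]
      rw [← Finset.mul_sum, mom_norm, mul_one]
    rw [map_sum, hy2, hc1, ← Finset.add_sum_erase _ _ (Finset.mem_univ l₀)] at h1
    have h2 : ∀ l ∈ Finset.univ.erase l₀, I (y l₀ ^ 2 * y l ^ 2) = c 2 / 3 := fun l hl' =>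
      hs l₀ l (Finset.ne_of_mem_erase hl').symm
    rw [Finset.sum_congr rfl h2, Finset.sum_const, Finset.card_erase_of_mem (Finset.mem_univ l₀),
      Finset.card_univ, nsmul_eq_mul, Nat.cast_sub (by omega), ← pow_add, hy4, Nat.cast_one] at h1
    rw [eq_div_iff (by positivity)]
    field_simp at h1
    linarith
  refine ⟨c, ?_, hc1, hcpos, ?_, fun j b m => ⟨heven j b m, hodd j b m⟩⟩
  · simp only [hc, mul_zero, pow_zero]
    exact hone
  · intro m hm
    rw [← hc2]
    have h1 : 0 ≤ I (y l₀ ^ 4 - y l₀ ^ (2 * m)) := by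
      refine hpos _ fun x => ?_
      rw [mom_ev_sub, mom_ev_pow, mom_ev_pow, hyev]
      have h2 : (x : Matrix X X ℝ) l₀ l₀ ^ 2 ≤ 1 := by
        rw [← mom_norm x l₀]
        exact Finset.single_le_sum (f := fun l => (x : Matrix X X ℝ) l l₀ ^ 2)
          (fun l _ => sq_nonneg _) (Finset.mem_univ l₀)
      have h3 : ((x : Matrix X X ℝ) l₀ l₀ ^ 2) ^ m ≤ ((x : Matrix X X ℝ) l₀ l₀ ^ 2) ^ 2 :=
        pow_le_pow_of_le_one (sq_nonneg _) h2 hm
      rw [← pow_mul, ← pow_mul, show 2 * 2 = 4 from rfl] at h3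
      linarith
    rw [map_sub, hy4] at h1
    have h4 : I (y l₀ ^ (2 * m)) = c m := rfl
    linarith

end

end SG23
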