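import Pool.Agent.N23.SG.BStm

/-!
Project SG (helper23), leaf NBW: non-backtracking powers on an eigenvector
(written by helper574).
-/

namespace SG23
open Finset

noncomputable section

namespace NBWp

variable {G : Type} [Group G] (g : Fin 3 → G)

/-- value of a letter -/
def lt (a : Fin 3 × Bool) : G := if a.2 then g a.1 else (g a.1)⁻¹

theorem wp_nil : wp g [] = 1 := by simp [wp]

theorem wp_cons (a : Fin 3 × Bool) (w : List (Fin 3 × Bool)) :
    wp g (a :: w) = lt g a * wp g w := by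
  simp [wp, lt]

/-- the letters which can be put in front of a word -/
def okl (w : List (Fin 3 × Bool)) : Finset (Fin 3 × Bool) :=
  univ.filter fun a => ∀ b ∈ w.head?, ok a b

/-- the letters which cannot be put in front of a word -/
def badl (w : List (Fin 3 × Bool)) : Finset (Fin 3 × Bool) :=
  univ.filter fun a => ¬ ∀ b ∈ w.head?, ok a b

theorem sum_succ {M : Type} [AddCommMonoid M] (l : ℕ) (F : List (Fin 3 × Bool) → M) :
    ∑ w ∈ RW (l + 1), F w = ∑ w ∈ RW l, ∑ a ∈ okl w, F (a :: w) := by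
  have h : RW (l + 1) = ((univ ×ˢ RW l).filter fun p => ∀ b ∈ p.2.head?, ok p.1 b).image
      fun p => p.1 :: p.2 := rfl
  rw [h, sum_image]
  · rw [sum_filter, sum_product_right]
    refine sum_congr rfl fun w _ => ?_
    rw [okl, sum_filter]
  · rintro ⟨a, w⟩ _ ⟨b, w'⟩ _ hh
    simp only [List.cons.injEq] at hh
    rw [hh.1, hh.2]

theorem card_okl_nil : (okl []).card = 6 := by decide

theorem card_okl_cons (b : Fin 3 × Bool) (w : List (Fin 3 × Bool)) : (okl (b :: w)).card = 5 := by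
  have : okl (b :: w) = univ.filter fun a => ok a b := by
    unfold okl
    refine filter_congr fun a _ => ?_
    simp
  rw [this]
  clear this
  revert b
  decide

theorem badl_nil : badl [] = ∅ := by
  unfold badl
  simp

theorem badl_cons (b : Fin 3 × Bool) (w : List (Fin 3 × Bool)) : badl (b :: w) = {(b.1, !b.2)} := by
  have : badl (b :: w) = univ.filter fun a => ¬ ok a b := by
    unfold badl
    refine filter_congr fun a _ => ?_
    simp
  rw [this]
  clear this
  revert b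
  decide

theorem RW_zero : RW 0 = {[]} := rfl

theorem ne_nil_of_mem {l : ℕ} {w : List (Fin 3 × Bool)} (h : w ∈ RW (l + 1)) :
    ∃ b w', w = b :: w' := by
  have h1 : RW (l + 1) = ((univ ×ˢ RW l).filter fun p => ∀ b ∈ p.2.head?, ok p.1 b).image
      fun p => p.1 :: p.2 := rfl
  rw [h1, mem_image] at h
  obtain ⟨p, _, rfl⟩ := h
  exact ⟨p.1, p.2, rfl⟩

theorem lt_cancel (b : Fin 3 × Bool) : lt g (b.1, !b.2) * lt g b = 1 := by
  obtain ⟨i, c⟩ := b
  cases c <;> simp [lt]

variable {E : Type} [NormedAddCommGroup E] [InnerProductSpace ℝ E]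
  (ρ : G →* (E ≃ₗᵢ[ℝ] E)) (v : E)

/-- the sum over the reduced words of length `l` -/
def T (l : ℕ) : E := ∑ w ∈ RW l, ρ (wp g w) v

/-- the averaging operator -/
def A (u : E) : E := ∑ a : Fin 3 × Bool, ρ (lt g a) u

theorem A_eq (u : E) : A g ρ u = ∑ i, (ρ (g i) u + ρ (g i)⁻¹ u) := by
  unfold A
  rw [Fintype.sum_prod_type]
  refine sum_congr rfl fun i _ => ?_
  rw [Fintype.sum_bool]
  simp [lt]

theorem A_smul (t : ℝ) (u : E) : A g ρ (t • u) = t • A g ρ u := by
  unfold A
  rw [smul_sum]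
  refine sum_congr rfl fun a _ => ?_
  rw [map_smul]

theorem rho_cons (a : Fin 3 × Bool) (w : List (Fin 3 × Bool)) :
    ρ (wp g (a :: w)) v = ρ (lt g a) (ρ (wp g w) v) := by
  rw [wp_cons, map_mul]
  rfl

theorem A_T (l : ℕ) : A g ρ (T g ρ v l) =
    T g ρ v (l + 1) + ∑ w ∈ RW l, ∑ a ∈ badl w, ρ (lt g a) (ρ (wp g w) v) := by
  unfold T
  rw [sum_succ, ← sum_add_distrib]
  unfold A
  have h1 : ∀ a : Fin 3 × Bool, ρ (lt g a) (∑ w ∈ RW l, ρ (wp g w) v) =
      ∑ w ∈ RW l, ρ (lt g a) (ρ (wp g w) v) := fun a => map_sum _ _ _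
  rw [sum_congr rfl fun a _ => h1 a, sum_comm]
  refine sum_congr rfl fun w _ => ?_
  rw [sum_congr rfl fun a _ => rho_cons g ρ v a w]
  unfold okl badl
  rw [sum_filter_add_sum_filter_not]

theorem bad_zero : ∑ w ∈ RW 0, ∑ a ∈ badl w, ρ (lt g a) (ρ (wp g w) v) = 0 := by
  rw [RW_zero, sum_singleton, badl_nil, sum_empty]

theorem bad_succ (l : ℕ) : ∑ w ∈ RW (l + 1), ∑ a ∈ badl w, ρ (lt g a) (ρ (wp g w) v) =
    ∑ w ∈ RW l, ((okl w).card : ℝ) • ρ (wp g w) v := by
  rw [sum_succ]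
  refine sum_congr rfl fun w _ => ?_
  rw [Nat.cast_smul_eq_nsmul, ← sum_const]
  refine sum_congr rfl fun b _ => ?_
  rw [badl_cons, sum_singleton, rho_cons]
  have : ρ (lt g (b.1, !b.2)) (ρ (lt g b) (ρ (wp g w) v)) =
      ρ (lt g (b.1, !b.2) * lt g b) (ρ (wp g w) v) := by
    rw [map_mul]; rfl
  rw [this, lt_cancel, map_one]
  rfl

theorem A_T_zero : A g ρ (T g ρ v 0) = T g ρ v 1 := by
  rw [A_T, bad_zero, add_zero]

theorem A_T_one : A g ρ (T g ρ v 1) = T g ρ v 2 + (6 : ℝ) • T g ρ v 0 := by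
  rw [A_T, bad_succ]
  unfold T
  rw [RW_zero, sum_singleton, sum_singleton, card_okl_nil]
  norm_num

theorem A_T_succ (l : ℕ) : A g ρ (T g ρ v (l + 2)) =
    T g ρ v (l + 3) + (5 : ℝ) • T g ρ v (l + 1) := by
  rw [A_T, bad_succ]
  unfold T
  rw [smul_sum]
  congr 1
  refine sum_congr rfl fun w hw => ?_
  obtain ⟨b, w', rfl⟩ := ne_nil_of_mem hw
  rw [card_okl_cons]
  norm_num

theorem T_zero : T g ρ v 0 = v := by
  unfold T
  rw [RW_zero, sum_singleton, wp_nil, map_one]
  rfl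

end NBWp

open NBWp in
theorem NBW : ST_NBW := by
  intro G _ g E _ _ ρ v θ hθ hv
  rw [← A_eq g ρ v] at hv
  set x : ℝ := Real.sqrt 5 * θ with hx
  set y : ℝ := Real.sqrt 5 / θ with hy
  have h5 : Real.sqrt 5 * Real.sqrt 5 = 5 := Real.mul_self_sqrt (by norm_num)
  have h50 : 0 < Real.sqrt 5 := Real.sqrt_pos.2 (by norm_num)
  have hθ0 : 0 < θ := by linarith
  have hxy : x * y = 5 := by
    rw [hx, hy]
    field_simp
    nlinarith
  have hlam : Real.sqrt 5 * (θ + 1 / θ) = x + y := by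
    rw [hx, hy]
    field_simp
  rw [hlam] at hv
  have hx0 : 0 < x := by positivity
  have hy0 : 0 < y := by positivity
  have hyx : y < x := by
    rw [hx, hy, div_lt_iff₀ hθ0]
    nlinarith [mul_pos h50 hθ0]
  have hx2 : 5 < x ^ 2 := by nlinarith
  -- the induction
  have key : ∀ l : ℕ, ∃ t t' : ℝ, T g ρ v l = t • v ∧ T g ρ v (l + 1) = t' • v ∧ x ^ l ≤ t ∧
      x ^ l * (x - y) ≤ t' - y * t ∧
      (∃ t'' : ℝ, T g ρ v (l + 2) = t'' • v ∧ x ^ (l + 1) * (x - y) ≤ t'' - y * t') := by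
    intro l
    induction l with
    | zero =>
      have h1 : T g ρ v 1 = (x + y) • v := by
        rw [← A_T_zero, T_zero, hv]
      have h2 : T g ρ v 2 = ((x + y) * (x + y) - 6 * 1) • v := by
        have := A_T_one g ρ v
        rw [h1, A_smul, hv, T_zero] at this
        rw [sub_smul, eq_sub_iff_add_eq, mul_one, ← this, smul_smul]
      refine ⟨1, x + y, by rw [T_zero, one_smul], h1, by simp, ?_, _, h2, ?_⟩
      · rw [pow_zero]; linarith
      · rw [zero_add, pow_one]; nlinarith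
    | succ l ih =>
      obtain ⟨t, t', h0, h1, ht, ht', t'', h2, ht''⟩ := ih
      have hA : T g ρ v (l + 3) = ((x + y) * t'' - 5 * t') • v := by
        have := A_T_succ g ρ v l
        rw [h2, A_smul, hv, h1] at this
        rw [sub_smul, eq_sub_iff_add_eq, mul_smul, mul_smul, ← this, smul_smul, smul_smul,
          mul_comm]
      refine ⟨t', t'', h1, h2, ?_, ht'', _, hA, ?_⟩
      · rw [pow_succ]
        nlinarith [mul_le_mul_of_nonneg_left ht hy0.le]
      · have : (x + y) * t'' - 5 * t' - y * t'' = x * (t'' - y * t') := by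
          rw [← hxy]; ring
        rw [this, pow_succ]
        nlinarith [mul_le_mul_of_nonneg_left ht'' hx0.le]
  intro l
  obtain ⟨t, t', h0, -, ht, -⟩ := key l
  exact ⟨t, ht, h0⟩

end

end SG23
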