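import Pool.Agent.N23.SG.Stm

/-!
Project SG (helper23), MP_839d28_al, part PADS.  Lean proof: helper768.
-/

namespace SG23
open Finset

/-- the map `x ↦ 1 - 2 u uᵀ - 2 v vᵀ` -/
noncomputable def pads_s {n : ℕ} (u v : Fin n → ℝ) : Matrix (Fin n) (Fin n) ℝ :=
  1 - (2 : ℝ) • Matrix.vecMulVec u u - (2 : ℝ) • Matrix.vecMulVec v v

lemma pads_mul {n : ℕ} (u v : Fin n → ℝ) : Matrix.vecMulVec u u * Matrix.vecMulVec v v =
    (u ⬝ᵥ v) • Matrix.vecMulVec u v := by
  ext i j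
  rw [Matrix.mul_apply, Matrix.smul_apply]
  simp only [Matrix.vecMulVec_apply, dotProduct, smul_eq_mul, Finset.sum_mul]
  refine Finset.sum_congr rfl fun l _ => ?_
  ring

lemma pads_det {n : ℕ} (u : Fin n → ℝ) (hu : u ⬝ᵥ u = 1) :
    (1 - (2 : ℝ) • Matrix.vecMulVec u u).det = -1 := by
  have h1 : (1 - (2 : ℝ) • Matrix.vecMulVec u u) =
      1 + Matrix.replicateCol Unit ((-2 : ℝ) • u) * Matrix.replicateRow Unit u := by
    ext i j
    simp [Matrix.mul_apply, Matrix.vecMulVec_apply]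
    ring
  rw [h1, Matrix.det_one_add_replicateCol_mul_replicateRow, dotProduct_smul, hu]
  norm_num

lemma pads_symm {n : ℕ} (u v : Fin n → ℝ) : (pads_s u v).transpose = pads_s u v := by
  ext i j
  simp only [pads_s, Matrix.transpose_apply, Matrix.sub_apply, Matrix.smul_apply,
    Matrix.vecMulVec_apply, Matrix.one_apply, eq_comm, mul_comm]

lemma pads_sq {n : ℕ} (u v : Fin n → ℝ) (hu : u ⬝ᵥ u = 1) (hv : v ⬝ᵥ v = 1) (huv : u ⬝ᵥ v = 0) :
    pads_s u v * pads_s u v = 1 := by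
  have h1 := pads_mul u u
  have h2 := pads_mul v v
  have h3 := pads_mul u v
  have h4 := pads_mul v u
  rw [hu, one_smul] at h1
  rw [hv, one_smul] at h2
  rw [huv, zero_smul] at h3
  rw [dotProduct_comm, huv, zero_smul] at h4
  unfold pads_s
  simp only [sub_mul, mul_sub, Matrix.smul_mul, Matrix.mul_smul, h1, h2, h3, h4, one_mul, mul_one,
    smul_zero, smul_smul]
  module

lemma pads_det2 {n : ℕ} (u v : Fin n → ℝ) (hu : u ⬝ᵥ u = 1) (hv : v ⬝ᵥ v = 1)
    (huv : u ⬝ᵥ v = 0) : (pads_s u v).det = 1 := by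
  have h3 := pads_mul u v
  rw [huv, zero_smul] at h3
  have h1 : pads_s u v = (1 - (2 : ℝ) • Matrix.vecMulVec u u) *
      (1 - (2 : ℝ) • Matrix.vecMulVec v v) := by
    unfold pads_s
    simp only [sub_mul, mul_sub, Matrix.smul_mul, Matrix.mul_smul, h3, one_mul, mul_one,
      smul_zero]
    module
  rw [h1, Matrix.det_mul, pads_det u hu, pads_det v hv]
  norm_num

theorem PADS : ST_PADS := by
  classical
  intro n m S hn
  obtain ⟨u, hu⟩ : ∃ u : ℝ → Fin n → ℝ, u = fun x =>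
    Pi.single (⟨0, by omega⟩ : Fin n) (Real.sqrt x) +
      Pi.single (⟨1, by omega⟩ : Fin n) (Real.sqrt (1 - x)) := ⟨_, rfl⟩
  obtain ⟨v, hv⟩ : ∃ v : Fin n → ℝ, v = Pi.single (⟨2, by omega⟩ : Fin n) 1 := ⟨_, rfl⟩
  have h10 : (⟨1, by omega⟩ : Fin n) ≠ ⟨0, by omega⟩ := by
    intro h; simp at h
  have h20 : (⟨2, by omega⟩ : Fin n) ≠ ⟨0, by omega⟩ := by
    intro h; simp at h
  have h21 : (⟨2, by omega⟩ : Fin n) ≠ ⟨1, by omega⟩ := by
    intro h; simp at h
  have huu : ∀ x ∈ Set.Icc (0 : ℝ) 1, u x ⬝ᵥ u x = 1 := by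
    intro x hx
    rw [hu]
    simp only [dotProduct_add, dotProduct_single, Pi.add_apply,
      Pi.single_eq_same, Pi.single_eq_of_ne h10, Pi.single_eq_of_ne h10.symm, zero_add, add_zero]
    have h1 := Real.mul_self_sqrt hx.1
    have h2 := Real.mul_self_sqrt (sub_nonneg.2 hx.2)
    linarith
  have hvv : v ⬝ᵥ v = 1 := by
    rw [hv]
    simp only [single_dotProduct, Pi.single_eq_same, mul_one]
  have huv : ∀ x, u x ⬝ᵥ v = 0 := by
    intro x
    rw [hu, hv]
    simp only [add_dotProduct, single_dotProduct, Pi.single_eq_of_ne h20.symm,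
      Pi.single_eq_of_ne h21.symm, mul_zero, add_zero]
  have hinj : Set.InjOn (fun x => pads_s (u x) v) (Set.Icc (0 : ℝ) 1) := by
    intro x hx y hy hxy
    have h1 := congrFun (congrFun hxy ⟨0, by omega⟩) ⟨0, by omega⟩
    have h2 : ∀ x ∈ Set.Icc (0 : ℝ) 1, pads_s (u x) v ⟨0, by omega⟩ ⟨0, by omega⟩ = 1 - 2 * x := by
      intro x hx
      simp only [pads_s, Matrix.sub_apply, Matrix.smul_apply, Matrix.vecMulVec_apply,
        Matrix.one_apply_eq, hu, hv, Pi.add_apply, Pi.single_eq_same,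
        Pi.single_eq_of_ne h10.symm, Pi.single_eq_of_ne h20.symm, smul_eq_mul, add_zero,
        Real.mul_self_sqrt hx.1, mul_zero, sub_zero]
    simp only [] at h1
    rw [h2 x hx, h2 y hy] at h1
    linarith
  have hinf : ((fun x => pads_s (u x) v) '' (Set.Icc (0 : ℝ) 1)).Infinite :=
    (Set.Icc_infinite one_pos).image hinj
  obtain ⟨T, hT1, hT2⟩ := (hinf.sdiff S.finite_toSet).exists_subset_card_eq m
  refine ⟨T, hT2, ?_, ?_⟩
  · rw [Finset.disjoint_left]
    intro a ha hb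
    exact (hT1 hb).2 ha
  · intro s hs
    obtain ⟨x, hx, rfl⟩ := (hT1 hs).1
    refine ⟨pads_symm _ _, ?_, pads_det2 _ _ (huu x hx) hvv (huv x)⟩
    rw [pads_symm]
    exact pads_sq _ _ (huu x hx) hvv (huv x)

end SG23
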