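import Pool.Agent.N23.SG.BStm

/-!
Project SG (helper23), MP_839d28_al. Leaf PAIRC (helper60): pairs of reduced words with given quotient.
-/

namespace SG23
open Finset

namespace PAIRCaux

/-- letters -/
abbrev L := Fin 3 × Bool

/-- inverse letter -/
def bar (a : L) : L := (a.1, !a.2)

/-- inverse word -/
def winv (w : List L) : List L := (w.map bar).reverse

lemma bar_bar (a : L) : bar (bar a) = a := by
  unfold bar; simp

lemma winv_winv (w : List L) : winv (winv w) = w := by
  unfold winv
  rw [List.map_reverse, List.reverse_reverse, List.map_map]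
  have : bar ∘ bar = id := by funext a; exact bar_bar a
  rw [this, List.map_id]

lemma winv_length (w : List L) : (winv w).length = w.length := by
  unfold winv; simp

lemma mem_RW (l : ℕ) : ∀ w : List L, w ∈ RW l ↔ w.length = l ∧ List.IsChain ok w := by
  induction l with
  | zero =>
    intro w
    unfold RW
    rw [mem_singleton]
    constructor
    · rintro rfl; simp
    · rintro ⟨h, -⟩; exact List.length_eq_zero_iff.1 h
  | succ l ih =>
    intro w
    unfold RW
    simp only [mem_image, mem_filter, mem_product, mem_univ, true_and]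
    constructor
    · rintro ⟨⟨a, w'⟩, ⟨h1, h2⟩, rfl⟩
      simp only at h1 h2 ⊢
      obtain ⟨h3, h4⟩ := (ih w').1 h1
      refine ⟨by simp [h3], ?_⟩
      exact List.isChain_cons.2 ⟨h2, h4⟩
    · rintro ⟨h1, h2⟩
      cases w with
      | nil => simp at h1
      | cons a w' =>
        rw [List.isChain_cons] at h2
        exact ⟨(a, w'), ⟨(ih w').2 ⟨by simpa using h1, h2.2⟩, h2.1⟩, rfl⟩

lemma ok_bar (a b : L) : ok (bar b) (bar a) ↔ ok a b := by
  unfold ok bar
  constructor
  · intro h h1
    have := h h1.symm
    simp at this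
    exact this.symm
  · intro h h1
    have := h h1.symm
    simp [this]

lemma chain_winv {w : List L} (h : List.IsChain ok w) : List.IsChain ok (winv w) := by
  unfold winv
  rw [List.isChain_reverse, List.isChain_map]
  refine h.imp ?_
  intro a b hab
  exact (ok_bar a b).2 hab

section
variable {G : Type} [Group G] (g : Fin 3 → G)

lemma wp_append (u v : List L) : wp g (u ++ v) = wp g u * wp g v := by
  unfold wp
  rw [List.map_append, List.prod_append]

lemma wp_winv (u : List L) : wp g (winv u) = (wp g u)⁻¹ := by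
  induction u with
  | nil => simp [winv, wp]
  | cons a u ih =>
    have h1 : winv (a :: u) = winv u ++ [bar a] := by unfold winv; simp
    have h2 : wp g (a :: u) = wp g [a] * wp g u := by
      rw [← wp_append]; rfl
    rw [h1, wp_append, ih, h2, mul_inv_rev]
    congr 1
    unfold wp bar
    rcases a with ⟨i, b⟩
    cases b <;> simp

end

/-- the length of the different parts -/
noncomputable def ml (p : List L × List L) : ℕ := sInf {m | p.1.drop m = p.2.drop m}

lemma ml_spec {l : ℕ} {w w' : List L} (h : w.length = l) (h' : w'.length = l) :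
    w.drop (ml (w, w')) = w'.drop (ml (w, w')) ∧ ml (w, w') ≤ l := by
  have hne : l ∈ {m | w.drop m = w'.drop m} := by
    simp only [Set.mem_ofPred_eq]
    rw [List.drop_eq_nil_of_le (by omega), List.drop_eq_nil_of_le (by omega)]
  exact ⟨Nat.sInf_mem ⟨l, hne⟩, Nat.sInf_le hne⟩

lemma ml_ne {l : ℕ} {w w' : List L} (h : w.length = l) (h' : w'.length = l) {k : ℕ} (hk : ml (w, w') = k + 1)
    (h1 : k < w.length) (h2 : k < w'.length) : w[k] ≠ w'[k] := by
  intro heq
  have h3 := (ml_spec h h').1
  rw [hk] at h3
  have h4 : k ∈ {m | w.drop m = w'.drop m} := by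
    simp only [Set.mem_ofPred_eq]
    rw [List.drop_eq_getElem_cons h1, List.drop_eq_getElem_cons h2, heq, h3]
  have h5 : ml (w, w') ≤ k := Nat.sInf_le h4
  omega

/-- the quotient word -/
noncomputable def zw (p : List L × List L) : List L := p.2.take (ml p) ++ winv (p.1.take (ml p))

lemma zw_mem {l : ℕ} {w w' : List L} (h : w ∈ RW l) (h' : w' ∈ RW l) : zw (w, w') ∈ RW (2 * ml (w, w')) := by
  rw [mem_RW] at h h' ⊢
  obtain ⟨h1, h2⟩ := h
  obtain ⟨h1', h2'⟩ := h'
  obtain ⟨h3, h4⟩ := ml_spec h1 h1'
  obtain ⟨m, hm⟩ : ∃ m, m = ml (w, w') := ⟨_, rfl⟩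
  unfold zw
  rw [← hm] at h3 h4 ⊢
  constructor
  · rw [List.length_append, winv_length, List.length_take, List.length_take]
    simp only
    omega
  · simp only
    rw [List.isChain_append]
    refine ⟨h2'.take m, chain_winv (h2.take m), ?_⟩
    intro x hx y hy
    cases m with
    | zero => simp at hx
    | succ k =>
      have hk1 : k < w.length := by omega
      have hk2 : k < w'.length := by omega
      have hne := ml_ne h1 h1' hm.symm hk1 hk2
      have e1 : w'.take (k + 1) = w'.take k ++ [w'[k]] := (List.take_append_getElem hk2).symm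
      have e2 : w.take (k + 1) = w.take k ++ [w[k]] := (List.take_append_getElem hk1).symm
      rw [e1, List.getLast?_append] at hx
      rw [e2] at hy
      have e3 : ∀ (v : List L) (c : L), winv (v ++ [c]) = bar c :: winv v := by
        intro v c
        unfold winv
        rw [List.map_append, List.reverse_append]
        rfl
      rw [e3] at hy
      simp only [List.getLast?_singleton, Option.some_or, Option.mem_def, Option.some.injEq, List.head?_cons] at hx hy
      subst hx hy
      unfold ok bar
      intro h5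
      simp only at h5 ⊢
      by_contra hcon
      apply hne
      refine Prod.ext h5.symm ?_
      revert hcon
      cases (w'[k]).2 <;> cases (w[k]).2 <;> simp

lemma card_ok (b : L) : #((univ : Finset L).filter fun a => ok a b) = 5 := by
  revert b; decide

lemma card_RW_succ (l : ℕ) : #(RW (l + 2)) ≤ 5 * #(RW (l + 1)) := by
  have h0 : RW (l + 2) = ((univ ×ˢ RW (l + 1)).filter fun p => ∀ b ∈ p.2.head?, ok p.1 b).image
      fun p => p.1 :: p.2 := rfl
  rw [h0]
  refine card_image_le.trans ?_
  have h1 : ((univ ×ˢ RW (l + 1)).filter fun p : L × List L => ∀ b ∈ p.2.head?, ok p.1 b) ⊆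
      (RW (l + 1)).biUnion fun w => ((univ : Finset L).filter fun a => ∀ b ∈ w.head?, ok a b).image fun a => (a, w) := by
    rintro ⟨a, w⟩ hp
    rw [mem_filter, mem_product] at hp
    rw [mem_biUnion]
    refine ⟨w, hp.1.2, ?_⟩
    rw [mem_image]
    exact ⟨a, mem_filter.2 ⟨mem_univ _, hp.2⟩, rfl⟩
  refine (card_le_card h1).trans (card_biUnion_le.trans ?_)
  rw [mul_comm, ← smul_eq_mul]
  apply sum_le_card_nsmul
  intro w hw
  refine card_image_le.trans ?_
  rw [mem_RW] at hw
  cases w with
  | nil => simp at hw
  | cons b w =>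
    refine le_of_eq ?_
    rw [← card_ok b]
    congr 1
    ext a
    simp

lemma card_RW (k : ℕ) : (#(RW k) : ℝ) ≤ 6 / 5 * 5 ^ k := by
  cases k with
  | zero =>
    have : #(RW 0) = 1 := rfl
    rw [this]; norm_num
  | succ k =>
    induction k with
    | zero =>
      have : #(RW (0 + 1)) ≤ 6 := by decide
      have : (#(RW (0 + 1)) : ℝ) ≤ 6 := by exact_mod_cast this
      norm_num at this ⊢
      linarith
    | succ k ih =>
      have h1 := card_RW_succ k
      have h2 : (#(RW (k + 1 + 1)) : ℝ) ≤ 5 * #(RW (k + 1)) := by exact_mod_cast h1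
      calc (#(RW (k + 1 + 1)) : ℝ) ≤ 5 * #(RW (k + 1)) := h2
        _ ≤ 5 * (6 / 5 * 5 ^ (k + 1)) := by linarith
        _ = _ := by ring

end PAIRCaux

open PAIRCaux in
/-- **PAIRC.** -/
theorem PAIRC : ST_PAIRC := by
  intro G _ g C _ l
  set S := (RW l ×ˢ RW l).filter fun w => C (wp g w.2 * (wp g w.1)⁻¹) with hS
  set Tg : Finset (Σ _ : ℕ, List L × List L) := (range (l + 1)).sigma
    fun m => RW (l - m) ×ˢ ((RW (2 * m)).filter fun z => C (wp g z)) with hTg
  have hcard : #S ≤ #Tg := by
    refine card_le_card_of_injOn (fun p => ⟨ml p, (p.1.drop (ml p), zw p)⟩) ?_ ?_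
    · rintro ⟨w, w'⟩ hp
      rw [hS, mem_coe, mem_filter, mem_product] at hp
      obtain ⟨⟨hw, hw'⟩, hC⟩ := hp
      simp only at hw hw' hC
      obtain ⟨h1, h2⟩ := (mem_RW l w).1 hw
      obtain ⟨h1', h2'⟩ := (mem_RW l w').1 hw'
      obtain ⟨h3, h4⟩ := ml_spec h1 h1'
      rw [hTg, mem_coe, mem_sigma, mem_product, mem_filter, mem_range]
      refine ⟨Nat.lt_succ_of_le h4, ?_, zw_mem hw hw', ?_⟩
      · rw [mem_RW]
        exact ⟨by simp [h1], h2.drop _⟩
      · have e : wp g (zw (w, w')) = wp g w' * (wp g w)⁻¹ := by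
          unfold zw
          simp only
          rw [wp_append, wp_winv]
          have e1 : wp g w = wp g (w.take (ml (w, w'))) * wp g (w.drop (ml (w, w'))) := by
            rw [← wp_append, List.take_append_drop]
          have e2 : wp g w' = wp g (w'.take (ml (w, w'))) * wp g (w.drop (ml (w, w'))) := by
            rw [h3, ← wp_append, List.take_append_drop]
          rw [e1, e2]
          group
        simp only
        rw [e]
        exact hC
    · rintro ⟨w, w'⟩ hp ⟨v, v'⟩ hq heq
      rw [hS, mem_coe, mem_filter, mem_product] at hp hq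
      obtain ⟨⟨hw, hw'⟩, -⟩ := hp
      obtain ⟨⟨hv, hv'⟩, -⟩ := hq
      simp only at hw hw' hv hv'
      obtain ⟨h1, -⟩ := (mem_RW l w).1 hw
      obtain ⟨h1', -⟩ := (mem_RW l w').1 hw'
      obtain ⟨h2, -⟩ := (mem_RW l v).1 hv
      obtain ⟨h2', -⟩ := (mem_RW l v').1 hv'
      obtain ⟨h3, h4⟩ := ml_spec h1 h1'
      obtain ⟨h5, h6⟩ := ml_spec h2 h2'
      simp only [Sigma.mk.injEq, heq_eq_eq, Prod.mk.injEq] at heq
      obtain ⟨e1, e2, e3⟩ := heq
      unfold zw at e3
      simp only at e3
      rw [← e1] at e2 e3 h5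
      obtain ⟨e4, e5⟩ := List.append_inj e3 (by rw [List.length_take, List.length_take, h1', h2'])
      have e6 : w.take (ml (w, w')) = v.take (ml (w, w')) := by
        rw [← winv_winv (w.take _), e5, winv_winv]
      have e7 : w = v := by
        rw [← List.take_append_drop (ml (w, w')) w, ← List.take_append_drop (ml (w, w')) v, e6, e2]
      have e8 : w' = v' := by
        rw [← List.take_append_drop (ml (w, w')) w', ← List.take_append_drop (ml (w, w')) v', e4, ← h3, ← h5, e2]
      rw [e7, e8]
  have h1 : (#S : ℝ) ≤ #Tg := by exact_mod_cast hcard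
  refine h1.trans ?_
  rw [hTg, card_sigma]
  push_cast
  apply sum_le_sum
  intro m _
  rw [card_product]
  push_cast
  exact mul_le_mul_of_nonneg_right (card_RW _) (Nat.cast_nonneg _)

end SG23
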