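import Pool.Agent.N23.SG.Stm

/-!
Project SG (helper23), PAIRI: the conditional expectation of a function of one column given another
column.  By helper75.
-/

namespace SG23
open Finset

noncomputable section

section
variable {X : Type} [Fintype X] [DecidableEq X]

theorem PAIRI_ext {I : MvPolynomial (X × X) ℝ →ₗ[ℝ] ℝ} (hI : IM I) (p q : MvPolynomial (X × X) ℝ)
    (h : ∀ x : SO X, ev q x = ev p x) : I q = I p :=
  hI.2.2.1 1 p q (fun x => by rw [one_mul]; exact h x)

theorem PAIRI_ev_mul (p q : MvPolynomial (X × X) ℝ) (x : SO X) :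
    ev (p * q) x = ev p x * ev q x := map_mul _ _ _

theorem PAIRI_ev_pow (p : MvPolynomial (X × X) ℝ) (k : ℕ) (x : SO X) :
    ev (p ^ k) x = ev p x ^ k := map_pow _ _ _

theorem PAIRI_ev_sub (p q : MvPolynomial (X × X) ℝ) (x : SO X) :
    ev (p - q) x = ev p x - ev q x := map_sub _ _ _

theorem PAIRI_ev_sum {ι : Type} (s : Finset ι) (p : ι → MvPolynomial (X × X) ℝ) (x : SO X) :
    ev (∑ i ∈ s, p i) x = ∑ i ∈ s, ev (p i) x := map_sum _ _ _

theorem PAIRI_ev_prod {ι : Type} (s : Finset ι) (p : ι → MvPolynomial (X × X) ℝ) (x : SO X) :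
    ev (∏ i ∈ s, p i) x = ∏ i ∈ s, ev (p i) x := map_prod _ _ _

theorem PAIRI_ev_C (r : ℝ) (x : SO X) : ev (MvPolynomial.C r) x = r := MvPolynomial.eval_C _

theorem PAIRI_ev_X (z : X × X) (x : SO X) :
    ev (MvPolynomial.X z) x = (x : Matrix X X ℝ) z.1 z.2 := MvPolynomial.eval_X _

theorem PAIRI_ev_colp (j : X) (P : MvPolynomial X ℝ) (x : SO X) :
    ev (colp j P) x = MvPolynomial.eval (fun l => (x : Matrix X X ℝ) l j) P := by
  unfold ev colp
  rw [MvPolynomial.eval_rename]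
  rfl

theorem PAIRI_ev_lin (j : X) (a : X → ℝ) (x : SO X) :
    ev (colp j (lin a)) x = ∑ l, a l * (x : Matrix X X ℝ) l j := by
  rw [PAIRI_ev_colp]
  unfold lin
  rw [map_sum]
  exact Finset.sum_congr rfl fun l _ => by rw [map_mul, MvPolynomial.eval_C, MvPolynomial.eval_X]

/-- the sum of the squares of the coordinates of a rotated vector -/
theorem PAIRI_sq (a : X → ℝ) (x : SO X) :
    ∑ z, (∑ l, a l * (x : Matrix X X ℝ) l z) ^ 2 = ∑ l, a l ^ 2 := by
  have h1 : ∀ l l', ∑ z, (x : Matrix X X ℝ) l z * (x : Matrix X X ℝ) l' z =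
      if l = l' then 1 else 0 := by
    intro l l'
    have := congrFun (congrFun (SO_right x) l) l'
    rw [Matrix.mul_apply, Matrix.one_apply] at this
    exact this
  have h2 : ∀ z, (∑ l, a l * (x : Matrix X X ℝ) l z) ^ 2 =
      ∑ l, ∑ l', a l * a l' * ((x : Matrix X X ℝ) l z * (x : Matrix X X ℝ) l' z) := by
    intro z
    rw [sq, Finset.sum_mul_sum]
    exact Finset.sum_congr rfl fun l _ => Finset.sum_congr rfl fun l' _ => by ring
  simp only [h2]
  rw [Finset.sum_comm]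
  refine Finset.sum_congr rfl fun l _ => ?_
  rw [Finset.sum_comm]
  have h3 : ∀ l', ∑ z, a l * a l' * ((x : Matrix X X ℝ) l z * (x : Matrix X X ℝ) l' z) =
      if l = l' then a l * a l' else 0 := by
    intro l'
    rw [← Finset.mul_sum, h1]
    split_ifs <;> ring
  simp only [h3]
  rw [Finset.sum_ite_eq univ l (fun l' => a l * a l'), if_pos (mem_univ l), sq]

end

section
variable {Y X : Type} [Fintype Y] [DecidableEq Y] [Fintype X] [DecidableEq X]

theorem PAIRI_mul_emb (e : Y ↪ X) (h : SO Y) (x : SO X) (l z : X) :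
    ((x * emb e h : SO X) : Matrix X X ℝ) l z = (x : Matrix X X ℝ) l z +
      ∑ y', (∑ y, (x : Matrix X X ℝ) l (e y) * ((h : Matrix Y Y ℝ) - 1) y y') *
        (if z = e y' then 1 else 0) := by
  have h0 : ((x * emb e h : SO X) : Matrix X X ℝ) = (x : Matrix X X ℝ) * embm e (h : Matrix Y Y ℝ) :=
    rfl
  have h1 : ∀ y, ((x : Matrix X X ℝ) * vmat e) l y = (x : Matrix X X ℝ) l (e y) := by
    intro y
    rw [Matrix.mul_apply]
    unfold vmat
    simp only [Matrix.of_apply, mul_ite, mul_one, mul_zero]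
    rw [Finset.sum_ite_eq' univ (e y) (fun w => (x : Matrix X X ℝ) l w), if_pos (mem_univ _)]
  rw [h0]
  unfold embm
  rw [Matrix.mul_add, Matrix.mul_one, Matrix.add_apply, ← Matrix.mul_assoc, ← Matrix.mul_assoc,
    Matrix.mul_apply]
  congr 1
  refine Finset.sum_congr rfl fun y' _ => ?_
  rw [Matrix.mul_apply]
  simp only [h1]
  rfl

theorem PAIRI_col_i (e : Y ↪ X) (h : SO Y) (x : SO X) (i : X) (hi : ∀ y, e y ≠ i) (l : X) :
    ((x * emb e h : SO X) : Matrix X X ℝ) l i = (x : Matrix X X ℝ) l i := by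
  rw [PAIRI_mul_emb, Finset.sum_eq_zero, add_zero]
  intro y' _
  rw [if_neg (fun h' => hi y' h'.symm), mul_zero]

theorem PAIRI_col_e (e : Y ↪ X) (h : SO Y) (x : SO X) (y0 : Y) (l : X) :
    ((x * emb e h : SO X) : Matrix X X ℝ) l (e y0) =
      ∑ y, (x : Matrix X X ℝ) l (e y) * (h : Matrix Y Y ℝ) y y0 := by
  rw [PAIRI_mul_emb, Finset.sum_eq_single y0]
  · rw [if_pos rfl, mul_one]
    simp only [Matrix.sub_apply, mul_sub, Finset.sum_sub_distrib]
    have h1 : ∑ y, (x : Matrix X X ℝ) l (e y) * (1 : Matrix Y Y ℝ) y y0 =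
        (x : Matrix X X ℝ) l (e y0) := by
      rw [Finset.sum_eq_single y0]
      · rw [Matrix.one_apply_eq, mul_one]
      · intro y _ hy
        rw [Matrix.one_apply_ne hy, mul_zero]
      · intro h'; exact absurd (mem_univ _) h'
    rw [h1]
    ring
  · intro y' _ hy'
    rw [if_neg (fun h' => hy' (e.injective h').symm), mul_zero]
  · intro h'; exact absurd (mem_univ _) h'

/-- the moment identity in commutative algebras -/
theorem PAIRI_mom {I' : MvPolynomial (Y × Y) ℝ →ₗ[ℝ] ℝ} (y0 : Y) (k : ℕ) (Φ : MvPolynomial Y ℝ)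
    (hΦ : ∀ b : Y → ℝ, I' (colp y0 (lin b) ^ k) = MvPolynomial.eval b Φ)
    {A : Type} [CommRing A] [Algebra ℝ A] (β : Y → A) :
    ∑ f : Fin k → Y, algebraMap ℝ A (I' (∏ t, MvPolynomial.X (f t, y0))) * ∏ t, β (f t) =
      MvPolynomial.aeval β Φ := by
  have h1 : (∑ f : Fin k → Y, MvPolynomial.C (I' (∏ t, MvPolynomial.X (f t, y0))) *
      ∏ t, MvPolynomial.X (f t) : MvPolynomial Y ℝ) = Φ := by
    apply MvPolynomial.funext
    intro b
    rw [← hΦ b]
    have h2 : (colp y0 (lin b) : MvPolynomial (Y × Y) ℝ) =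
        ∑ y, MvPolynomial.C (b y) * MvPolynomial.X (y, y0) := by
      unfold colp lin
      rw [map_sum]
      exact Finset.sum_congr rfl fun l _ => by
        rw [map_mul, MvPolynomial.rename_C, MvPolynomial.rename_X]
    rw [h2, Fintype.sum_pow, map_sum, map_sum]
    refine Finset.sum_congr rfl fun f _ => ?_
    have h5 : ∀ M : ℝ, MvPolynomial.eval b (MvPolynomial.C M * ∏ t, MvPolynomial.X (f t)) =
        M * ∏ t, b (f t) := by
      intro M
      rw [map_mul, MvPolynomial.eval_C, map_prod]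
      simp only [MvPolynomial.eval_X]
    have h3 : (∏ t, MvPolynomial.C (b (f t)) : MvPolynomial (Y × Y) ℝ) =
        MvPolynomial.C (∏ t, b (f t)) := by rw [map_prod]
    rw [h5, Finset.prod_mul_distrib, h3, ← MvPolynomial.smul_eq_C_mul, map_smul, smul_eq_mul,
      mul_comm]
  have h4 := congrArg (MvPolynomial.aeval β) h1
  rw [map_sum] at h4
  rw [← h4]
  refine Finset.sum_congr rfl fun f _ => ?_
  have h6 : MvPolynomial.aeval β (∏ t, MvPolynomial.X (f t) : MvPolynomial Y ℝ) =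
      ∏ t, β (f t) := by
    rw [map_prod]
    simp only [MvPolynomial.aeval_X]
  rw [map_mul, MvPolynomial.aeval_C, h6]

/-- the expectation over the rotations which fix the column `i` -/
theorem PAIRI_main {I : MvPolynomial (X × X) ℝ →ₗ[ℝ] ℝ} (hI : IM I)
    {I' : MvPolynomial (Y × Y) ℝ →ₗ[ℝ] ℝ} (hI' : IM I') (e : Y ↪ X) (y0 : Y) (i : X)
    (hi : ∀ y, e y ≠ i) (k : ℕ) (Φ : MvPolynomial Y ℝ)
    (hΦ : ∀ b : Y → ℝ, I' (colp y0 (lin b) ^ k) = MvPolynomial.eval b Φ) (a : X → ℝ)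
    (G : MvPolynomial X ℝ) :
    I (colp (e y0) (lin a) ^ k * colp i G) =
      I (MvPolynomial.aeval (fun y => colp (e y) (lin a)) Φ * colp i G) := by
  set β : Y → MvPolynomial (X × X) ℝ := fun y => colp (e y) (lin a) with hβ
  set p : MvPolynomial (X × X) ℝ := colp (e y0) (lin a) ^ k * colp i G with hp
  -- the polynomial in the variables of `SO(Y)`
  set R : MvPolynomial (Y × Y) ℝ := ∑ f : Fin k → Y,
    MvPolynomial.C (I ((∏ t, β (f t)) * colp i G)) * ∏ t, MvPolynomial.X (f t, y0) with hR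
  have h1 : ∀ h : SO Y, ev R h = I p := by
    intro h
    have h2 : I ((∑ y, MvPolynomial.C ((h : Matrix Y Y ℝ) y y0) * β y) ^ k * colp i G) = I p := by
      apply hI.2.2.2 (emb e h)
      intro x
      rw [hp, PAIRI_ev_mul, PAIRI_ev_mul, PAIRI_ev_pow, PAIRI_ev_pow, PAIRI_ev_colp i G x,
        PAIRI_ev_colp i G (x * emb e h), PAIRI_ev_lin, PAIRI_ev_sum]
      simp only [PAIRI_col_i e h x i hi, PAIRI_col_e, PAIRI_ev_mul, PAIRI_ev_C, hβ, PAIRI_ev_lin]
      congr 2
      simp only [Finset.mul_sum]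
      rw [Finset.sum_comm]
      exact Finset.sum_congr rfl fun l _ => Finset.sum_congr rfl fun y _ => by ring
    rw [← h2, hR, PAIRI_ev_sum, Fintype.sum_pow, Finset.sum_mul, map_sum]
    refine Finset.sum_congr rfl fun f _ => ?_
    rw [PAIRI_ev_mul, PAIRI_ev_C, PAIRI_ev_prod, Finset.prod_mul_distrib]
    have h3 : (∏ t, MvPolynomial.C ((h : Matrix Y Y ℝ) (f t) y0) : MvPolynomial (X × X) ℝ) =
        MvPolynomial.C (∏ t, (h : Matrix Y Y ℝ) (f t) y0) := by rw [map_prod]
    rw [h3, mul_assoc, ← MvPolynomial.smul_eq_C_mul, map_smul, smul_eq_mul, mul_comm]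
    simp only [PAIRI_ev_X]
  have h4 : I' R = I p := by
    rw [PAIRI_ext hI' (MvPolynomial.C (I p)) R (fun h => by rw [h1, PAIRI_ev_C])]
    have h5 : (MvPolynomial.C (I p) : MvPolynomial (Y × Y) ℝ) = I p • (1 : MvPolynomial (Y × Y) ℝ) := by
      rw [MvPolynomial.smul_eq_C_mul, mul_one]
    rw [h5, map_smul, hI'.2.1, smul_eq_mul, mul_one]
  rw [← h4, hR, map_sum, ← PAIRI_mom y0 k Φ hΦ β, Finset.sum_mul, map_sum]
  refine Finset.sum_congr rfl fun f _ => ?_
  rw [← MvPolynomial.smul_eq_C_mul, map_smul, smul_eq_mul, MvPolynomial.algebraMap_eq, mul_assoc,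
    ← MvPolynomial.smul_eq_C_mul, map_smul, smul_eq_mul, mul_comm]

/-- the sum of squares -/
theorem PAIRI_sumsq (e : Y ↪ X) (i : X) (hi : ∀ y, e y ≠ i) (hsurj : ∀ z, z ≠ i → ∃ y, e y = z)
    (a : X → ℝ) (x : SO X) :
    ∑ y, (∑ l, a l * (x : Matrix X X ℝ) l (e y)) ^ 2 =
      ∑ l, a l ^ 2 - (∑ l, a l * (x : Matrix X X ℝ) l i) ^ 2 := by
  rw [← PAIRI_sq a x, ← Finset.sum_erase_add _ _ (mem_univ i), add_sub_cancel_right]
  have h1 : univ.map e = univ.erase i := by
    ext z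
    rw [Finset.mem_map, Finset.mem_erase]
    constructor
    · rintro ⟨y, -, rfl⟩
      exact ⟨hi y, mem_univ _⟩
    · rintro ⟨hz, -⟩
      obtain ⟨y, hy⟩ := hsurj z hz
      exact ⟨y, mem_univ _, hy⟩
  rw [← h1, Finset.sum_map]

end

theorem PAIRI (hH : ST_HM) (hM : ST_MOM) (_hE : ST_PEMB) : ST_PAIRI := by
  intro X _ _ hX I hI
  obtain ⟨n, hn⟩ : ∃ n, Fintype.card X = n + 1 := ⟨Fintype.card X - 1, by omega⟩
  have hn2 : 2 ≤ n := by omega
  obtain ⟨I', hI'⟩ := hH (Fin n)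
  obtain ⟨c, hc0, hc1, hcn, hcm, hcI⟩ := hM (Fin n) (by rw [Fintype.card_fin]; exact hn2) I' hI'
  rw [Fintype.card_fin] at hc1 hcm
  have hnX : (Fintype.card X : ℝ) = n + 1 := by rw [hn]; push_cast; ring
  refine ⟨c, hc0, ?_, hcn, ?_, ?_⟩
  · rw [hc1, hnX, add_sub_cancel_right]
  · intro m hm
    refine (hcm m hm).trans (le_of_eq ?_)
    rw [hnX]
    ring
  · intro i j hij a m G
    have hcard : Fintype.card (Fin n) = Fintype.card {z : X // z ≠ i} := by
      rw [Fintype.card_fin, Fintype.card_subtype_compl, hn, Fintype.card_subtype_eq]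
      rfl
    set φ : Fin n ≃ {z : X // z ≠ i} := Fintype.equivOfCardEq hcard with hφ
    set e : Fin n ↪ X := φ.toEmbedding.trans (Function.Embedding.subtype _) with he
    have hi : ∀ y, e y ≠ i := fun y => (φ y).2
    have hsurj : ∀ z, z ≠ i → ∃ y, e y = z := by
      intro z hz
      exact ⟨φ.symm ⟨z, hz⟩, by
        show ((φ (φ.symm ⟨z, hz⟩) : {z : X // z ≠ i}) : X) = z
        rw [Equiv.apply_symm_apply]⟩
    obtain ⟨y0, hy0⟩ := hsurj j (Ne.symm hij)
    constructor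
    · have h1 := PAIRI_main hI hI' e y0 i hi (2 * m)
        (MvPolynomial.C (c m) * (∑ y, MvPolynomial.X y ^ 2) ^ m) (by
          intro b
          rw [(hcI y0 b m).1, map_mul, MvPolynomial.eval_C, map_pow, map_sum]
          simp only [map_pow, MvPolynomial.eval_X]) a G
      rw [hy0] at h1
      have h2 : MvPolynomial.aeval (fun y => colp (e y) (lin a))
          (MvPolynomial.C (c m) * (∑ y, MvPolynomial.X y ^ 2) ^ m : MvPolynomial (Fin n) ℝ) =
          MvPolynomial.C (c m) * MvPolynomial.aeval (fun y => colp (e y) (lin a))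
            ((∑ y, MvPolynomial.X y ^ 2) ^ m : MvPolynomial (Fin n) ℝ) := by
        rw [map_mul, MvPolynomial.aeval_C, MvPolynomial.algebraMap_eq]
      rw [h1, h2, mul_assoc, ← MvPolynomial.smul_eq_C_mul, map_smul, smul_eq_mul]
      congr 1
      apply PAIRI_ext hI
      intro x
      rw [map_pow, map_sum]
      simp only [map_pow, MvPolynomial.aeval_X]
      rw [PAIRI_ev_mul, PAIRI_ev_mul, PAIRI_ev_pow, PAIRI_ev_pow, PAIRI_ev_sum, PAIRI_ev_sub,
        PAIRI_ev_C, PAIRI_ev_pow, PAIRI_ev_lin]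
      simp only [PAIRI_ev_pow, PAIRI_ev_lin]
      rw [PAIRI_sumsq e i hi hsurj a x]
    · have h1 := PAIRI_main hI hI' e y0 i hi (2 * m + 1) 0 (by
          intro b
          rw [(hcI y0 b m).2, map_zero]) a G
      rw [hy0] at h1
      rw [h1, map_zero, zero_mul, map_zero]

end

end SG23
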