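import Pool.Agent.N23.SG.Stm

/-!
Project SG (helper23), leaf PCONJ: conjugation of the projections by even permutations
(helper953).
-/

namespace SG23
open Finset

section
variable {X : Type} [Fintype X] [DecidableEq X]

lemma pconj_entry (σ : alternatingGroup X) (g : SO X) (i j : X) :
    ((alt σ * g * (alt σ)⁻¹ : SO X) : Matrix X X ℝ) ((σ : Equiv.Perm X) i) ((σ : Equiv.Perm X) j) =
      (g : Matrix X X ℝ) i j := by
  have h1 : ((alt σ * g * (alt σ)⁻¹ : SO X) : Matrix X X ℝ) =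
      pmat (σ : Equiv.Perm X) * (g : Matrix X X ℝ) * (pmat (σ : Equiv.Perm X)).transpose := by
    have h2 : (((alt σ)⁻¹ : SO X) : Matrix X X ℝ) = (pmat (σ : Equiv.Perm X)).transpose :=
      SO_inv (alt σ)
    rw [← h2]
    rfl
  rw [h1, Matrix.mul_apply, Finset.sum_eq_single j]
  · rw [Matrix.transpose_apply, pmat_apply, if_pos rfl, mul_one, Matrix.mul_apply,
      Finset.sum_eq_single i]
    · rw [pmat_apply, if_pos rfl, one_mul]
    · intro k _ hk
      rw [pmat_apply, if_neg (fun h => hk ((σ : Equiv.Perm X).injective h)), zero_mul]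
    · intro h; exact absurd (mem_univ _) h
  · intro k _ hk
    rw [Matrix.transpose_apply, pmat_apply, if_neg (fun h => hk ((σ : Equiv.Perm X).injective h)),
      mul_zero]
  · intro h; exact absurd (mem_univ _) h

lemma pconj_mem (σ : alternatingGroup X) (S : Finset X) (g : SO X) :
    alt σ * g * (alt σ)⁻¹ ∈ sub (S.map (σ : Equiv.Perm X).toEmbedding) ↔ g ∈ sub S := by
  have hm : ∀ i : X, (σ : Equiv.Perm X) i ∈ S.map (σ : Equiv.Perm X).toEmbedding ↔ i ∈ S := by
    intro i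
    exact Finset.mem_map' (σ : Equiv.Perm X).toEmbedding
  have h1 : ∀ i j : X, (1 : Matrix X X ℝ) ((σ : Equiv.Perm X) i) ((σ : Equiv.Perm X) j) =
      (1 : Matrix X X ℝ) i j := by
    intro i j
    rw [Matrix.one_apply, Matrix.one_apply]
    simp only [(σ : Equiv.Perm X).injective.eq_iff]
  constructor
  · intro h i j hij
    have h2 := h ((σ : Equiv.Perm X) i) ((σ : Equiv.Perm X) j) (by rwa [hm, hm])
    rwa [pconj_entry, h1] at h2
  · intro h i' j' hij
    obtain ⟨i, rfl⟩ := (σ : Equiv.Perm X).surjective i'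
    obtain ⟨j, rfl⟩ := (σ : Equiv.Perm X).surjective j'
    rw [hm, hm] at hij
    rw [pconj_entry, h1]
    exact h i j hij

variable {E : Type} [NormedAddCommGroup E] [InnerProductSpace ℝ E]

lemma pconj_fix (ρ : SO X →* (E ≃ₗᵢ[ℝ] E)) (σ : alternatingGroup X) (S : Finset X) {v : E}
    (hv : v ∈ fixS ρ (sub S)) :
    ρ (alt σ) v ∈ fixS ρ (sub (S.map (σ : Equiv.Perm X).toEmbedding)) := by
  intro g' hg'
  have h1 : alt σ * ((alt σ)⁻¹ * g' * alt σ) * (alt σ)⁻¹ = g' := by group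
  have h2 : (alt σ)⁻¹ * g' * alt σ ∈ sub S := by
    rw [← pconj_mem σ, h1]
    exact hg'
  have h3 := hv _ h2
  calc ρ g' (ρ (alt σ) v) = ρ (g' * alt σ) v := by rw [map_mul]; rfl
    _ = ρ (alt σ * ((alt σ)⁻¹ * g' * alt σ)) v := by
        congr 2
        group
    _ = ρ (alt σ) (ρ ((alt σ)⁻¹ * g' * alt σ) v) := by rw [map_mul]; rfl
    _ = ρ (alt σ) v := by rw [h3]

lemma pconj_fix_inv (ρ : SO X →* (E ≃ₗᵢ[ℝ] E)) (σ : alternatingGroup X) (S : Finset X) {w : E}
    (hw : w ∈ fixS ρ (sub (S.map (σ : Equiv.Perm X).toEmbedding))) :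
    ∃ v ∈ fixS ρ (sub S), w = ρ (alt σ) v := by
  refine ⟨ρ (alt σ)⁻¹ w, ?_, ?_⟩
  · intro g hg
    have h2 := hw _ ((pconj_mem σ S g).2 hg)
    calc ρ g (ρ (alt σ)⁻¹ w) = ρ (g * (alt σ)⁻¹) w := by rw [map_mul]; rfl
      _ = ρ ((alt σ)⁻¹ * (alt σ * g * (alt σ)⁻¹)) w := by
          congr 2
          group
      _ = ρ (alt σ)⁻¹ (ρ (alt σ * g * (alt σ)⁻¹) w) := by rw [map_mul]; rfl
      _ = ρ (alt σ)⁻¹ w := by rw [h2]
  · calc w = ρ (alt σ * (alt σ)⁻¹) w := by rw [mul_inv_cancel, map_one]; rfl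
      _ = ρ (alt σ) (ρ (alt σ)⁻¹ w) := by rw [map_mul]; rfl

end

/-- **PCONJ**: conjugation of the projections by even permutations -/
theorem PCONJ : ST_PCONJ := by
  intro X _ _ E _ _ _ ρ σ S v
  symm
  unfold P
  apply Submodule.eq_starProjection_of_mem_of_inner_eq_zero
  · exact pconj_fix ρ σ S (Submodule.starProjection_apply_mem _ _)
  · intro w hw
    obtain ⟨u, hu, rfl⟩ := pconj_fix_inv ρ σ S hw
    rw [← map_sub, LinearIsometryEquiv.inner_map_map]
    exact Submodule.starProjection_inner_eq_zero _ _ hu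

end SG23
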