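import Pool.Agent.N23.SG.Stm

/-!
Project SG (helper23), part PMONO: monotonicity and commutation of the projections (by helper565)
-/

set_option autoImplicit false

namespace SG23
open Finset

variable {X : Type} [Fintype X] [DecidableEq X] {E : Type} [NormedAddCommGroup E]
  [InnerProductSpace ℝ E]

theorem PMONO_anti (ρ : SO X →* (E ≃ₗᵢ[ℝ] E)) {S T : Finset X} (h : S ⊆ T) :
    fixS ρ (sub T) ≤ fixS ρ (sub S) := by
  intro v hv g hg
  exact hv g fun i j hij => hg i j (hij.imp (fun h1 h2 => h1 (h h2)) (fun h1 h2 => h1 (h h2)))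

theorem PMONO_comm {S T : Finset X} (h : Disjoint S T) {a b : SO X} (ha : a ∈ sub S)
    (hb : b ∈ sub T) : a * b = b * a := by
  have ha' : ∀ i j, (i ∉ S ∨ j ∉ S) → ((a : Matrix X X ℝ) - 1) i j = 0 := fun i j hij => by
    rw [Matrix.sub_apply, ha i j hij, sub_self]
  have hb' : ∀ i j, (i ∉ T ∨ j ∉ T) → ((b : Matrix X X ℝ) - 1) i j = 0 := fun i j hij => by
    rw [Matrix.sub_apply, hb i j hij, sub_self]
  have h1 : ((a : Matrix X X ℝ) - 1) * ((b : Matrix X X ℝ) - 1) = 0 := by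
    ext i j
    rw [Matrix.mul_apply]
    refine Finset.sum_eq_zero fun k _ => ?_
    by_cases hk : k ∈ S
    · rw [hb' k j (Or.inl (Finset.disjoint_left.1 h hk)), mul_zero]
    · rw [ha' i k (Or.inr hk), zero_mul]
  have h2 : ((b : Matrix X X ℝ) - 1) * ((a : Matrix X X ℝ) - 1) = 0 := by
    ext i j
    rw [Matrix.mul_apply]
    refine Finset.sum_eq_zero fun k _ => ?_
    by_cases hk : k ∈ S
    · rw [hb' i k (Or.inr (Finset.disjoint_left.1 h hk)), zero_mul]
    · rw [ha' k j (Or.inl hk), mul_zero]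
  apply Subtype.ext
  change (a : Matrix X X ℝ) * (b : Matrix X X ℝ) = (b : Matrix X X ℝ) * (a : Matrix X X ℝ)
  have h3 : (a : Matrix X X ℝ) * (b : Matrix X X ℝ) =
      ((a : Matrix X X ℝ) - 1) * ((b : Matrix X X ℝ) - 1) + a + b - 1 := by noncomm_ring
  have h4 : (b : Matrix X X ℝ) * (a : Matrix X X ℝ) =
      ((b : Matrix X X ℝ) - 1) * ((a : Matrix X X ℝ) - 1) + b + a - 1 := by noncomm_ring
  rw [h3, h4, h1, h2]
  abel

theorem PMONO_triv {S : Finset X} (h : #S ≤ 1) {a : SO X} (ha : a ∈ sub S) : a = 1 := by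
  have hd : (a : Matrix X X ℝ) = Matrix.diagonal fun i => (a : Matrix X X ℝ) i i := by
    ext i j
    by_cases hij : i = j
    · subst hij
      rw [Matrix.diagonal_apply_eq]
    · rw [Matrix.diagonal_apply_ne _ hij, ha i j ?_, Matrix.one_apply_ne hij]
      by_contra hcon
      push Not at hcon
      exact hij (Finset.card_le_one.1 h i hcon.1 j hcon.2)
  have hdet : ∏ i, (a : Matrix X X ℝ) i i = 1 := by
    have := SO_det a
    rw [hd, Matrix.det_diagonal] at this
    exact this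
  have h1 : ∀ i, (a : Matrix X X ℝ) i i = 1 := by
    intro i
    by_cases hi : i ∈ S
    · rw [Finset.prod_eq_single i] at hdet
      · exact hdet
      · intro j _ hj
        rw [ha j j (Or.inl fun hjS => hj (Finset.card_le_one.1 h j hjS i hi)),
          Matrix.one_apply_eq]
      · intro hh
        exact absurd (Finset.mem_univ _) hh
    · rw [ha i i (Or.inl hi), Matrix.one_apply_eq]
  apply Subtype.ext
  change (a : Matrix X X ℝ) = 1
  rw [hd]
  simp only [h1]
  exact Matrix.diagonal_one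

variable [FiniteDimensional ℝ E]

theorem PMONO_mem (ρ : SO X →* (E ≃ₗᵢ[ℝ] E)) (S : Finset X) (v : E) :
    P ρ S v ∈ fixS ρ (sub S) := by
  unfold P
  exact Submodule.starProjection_apply_mem _ _

theorem PMONO_orth (ρ : SO X →* (E ≃ₗᵢ[ℝ] E)) (S : Finset X) (v w : E)
    (hw : w ∈ fixS ρ (sub S)) : inner ℝ (v - P ρ S v) w = 0 := by
  unfold P
  exact Submodule.starProjection_inner_eq_zero v w hw

theorem PMONO_uniq (ρ : SO X →* (E ≃ₗᵢ[ℝ] E)) (S : Finset X) (v u : E)
    (hu : u ∈ fixS ρ (sub S)) (h : ∀ w ∈ fixS ρ (sub S), inner ℝ (v - u) w = 0) :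
    P ρ S v = u := by
  unfold P
  exact Submodule.eq_starProjection_of_mem_of_inner_eq_zero hu h

theorem PMONO_adj (ρ : SO X →* (E ≃ₗᵢ[ℝ] E)) (S : Finset X) (v w : E) :
    inner ℝ (P ρ S v) w = inner ℝ v (P ρ S w) := by
  have h1 := PMONO_orth ρ S v (P ρ S w) (PMONO_mem ρ S w)
  have h2 := PMONO_orth ρ S w (P ρ S v) (PMONO_mem ρ S v)
  rw [inner_sub_left] at h1 h2
  have h3 := real_inner_comm w (P ρ S v)
  have h4 := real_inner_comm (P ρ S w) (P ρ S v)
  linarith

/-- `P S` commutes with the elements of `sub T` -/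
theorem PMONO_rho (ρ : SO X →* (E ≃ₗᵢ[ℝ] E)) {S T : Finset X} (h : Disjoint S T) {b : SO X}
    (hb : b ∈ sub T) (v : E) : P ρ S (ρ b v) = ρ b (P ρ S v) := by
  have hmul : ∀ (a b : SO X) (x : E), ρ (a * b) x = ρ a (ρ b x) := fun a b x => by
    rw [map_mul]; rfl
  have hfix : ∀ c ∈ sub T, ∀ w ∈ fixS ρ (sub S), ρ c w ∈ fixS ρ (sub S) := by
    intro c hc w hw a ha
    rw [← hmul, PMONO_comm h ha hc, hmul, hw a ha]
  refine PMONO_uniq ρ S _ _ (hfix b hb _ (PMONO_mem ρ S v)) fun w hw => ?_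
  have h1 : w = ρ b (ρ b⁻¹ w) := by
    rw [← hmul, mul_inv_cancel, map_one]
    rfl
  rw [h1, ← map_sub, LinearIsometryEquiv.inner_map_map]
  exact PMONO_orth ρ S v _ (hfix b⁻¹ ((sub T).inv_mem hb) w hw)

/-- **PMONO** -/
theorem PMONO : ST_PMONO := by
  intro X _ _ E _ _ _ ρ
  refine ⟨fun S T h v => ⟨?_, ?_⟩, fun S T h v => ?_, fun S h v => ?_⟩
  · refine PMONO_uniq ρ S _ _ (PMONO_anti ρ h (PMONO_mem ρ T v)) fun w _ => ?_
    rw [sub_self, inner_zero_left]
  · refine PMONO_uniq ρ T _ _ (PMONO_mem ρ T v) fun w hw => ?_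
    have h1 := PMONO_orth ρ T v w hw
    have h2 := PMONO_orth ρ S v w (PMONO_anti ρ h hw)
    rw [inner_sub_left] at h1 h2 ⊢
    linarith
  · have hmap : ∀ u ∈ fixS ρ (sub T), P ρ S u ∈ fixS ρ (sub T) := by
      intro u hu b hb
      rw [← PMONO_rho ρ h hb, hu b hb]
    symm
    refine PMONO_uniq ρ T _ _ (hmap _ (PMONO_mem ρ T v)) fun w hw => ?_
    rw [← map_sub, PMONO_adj]
    exact PMONO_orth ρ T v _ (hmap w hw)
  · refine PMONO_uniq ρ S _ _ (fun a ha => ?_) fun w _ => ?_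
    · rw [PMONO_triv h ha, map_one]
      rfl
    · rw [sub_self, inner_zero_left]

end SG23
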