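import Pool.Agent.N23.SG.Stm

/-!
Project SG (helper23), MP_839d28_al.  POLD: polynomials are dense (helper749).
-/

namespace SG23
open Finset MeasureTheory

noncomputable section

section
variable {X : Type} [Fintype X] [DecidableEq X]

/-- the coordinate functions on the ball -/
def pold_co (z : X × X) : C(Metric.closedBall (0 : X → X → ℝ) 1, ℝ) :=
  ⟨fun x => x.1 z.1 z.2,
    (continuous_apply z.2).comp ((continuous_apply z.1).comp continuous_subtype_val)⟩

omit [DecidableEq X] in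
theorem pold_eval (p : MvPolynomial (X × X) ℝ) (x : Metric.closedBall (0 : X → X → ℝ) 1) :
    (MvPolynomial.aeval (pold_co (X := X)) p) x = MvPolynomial.eval (fun z => x.1 z.1 z.2) p := by
  induction p using MvPolynomial.induction_on with
  | C a =>
    rw [MvPolynomial.eval_C, MvPolynomial.aeval_C]
    rfl
  | add p q hp hq =>
    rw [map_add, map_add, ContinuousMap.add_apply, hp, hq]
  | mul_X p i hp =>
    rw [map_mul, map_mul, ContinuousMap.mul_apply, hp, MvPolynomial.aeval_X, MvPolynomial.eval_X]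
    rfl

omit [DecidableEq X] in
/-- Stone-Weierstrass on the ball -/
theorem pold_sw (u : (X → X → ℝ) → ℝ) (hu : Continuous u) (δ : ℝ) (hδ : 0 < δ) :
    ∃ p : MvPolynomial (X × X) ℝ, ∀ x : X → X → ℝ, (∀ i j, |x i j| ≤ 1) →
      |u x - MvPolynomial.eval (fun z => x z.1 z.2) p| ≤ δ := by
  have : CompactSpace (Metric.closedBall (0 : X → X → ℝ) 1) :=
    isCompact_iff_compactSpace.1 (isCompact_closedBall _ _)
  have hsep : (MvPolynomial.aeval (R := ℝ) (pold_co (X := X))).range.SeparatesPoints := by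
    intro x y hxy
    obtain ⟨i, j, hij⟩ : ∃ i j, x.1 i j ≠ y.1 i j := by
      by_contra h
      push Not at h
      exact hxy (Subtype.ext (funext fun i => funext fun j => h i j))
    refine ⟨_, ⟨MvPolynomial.aeval (R := ℝ) (pold_co (X := X)) (MvPolynomial.X (i, j)),
      ⟨MvPolynomial.X (i, j), rfl⟩, rfl⟩, ?_⟩
    simp only [MvPolynomial.aeval_X]
    exact hij
  obtain ⟨⟨g, p, hp⟩, hg⟩ :=
    ContinuousMap.exists_mem_subalgebra_near_continuous_of_separatesPoints _ hsep
      (fun x : Metric.closedBall (0 : X → X → ℝ) 1 => u x.1) (hu.comp continuous_subtype_val) δ hδ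
  refine ⟨p, fun x hx => ?_⟩
  have hxb : x ∈ Metric.closedBall (0 : X → X → ℝ) 1 := by
    rw [mem_closedBall_zero_iff, pi_norm_le_iff_of_nonneg zero_le_one]
    intro i
    rw [pi_norm_le_iff_of_nonneg zero_le_one]
    intro j
    exact hx i j
  have h1 := hg ⟨x, hxb⟩
  have h2 : g ⟨x, hxb⟩ = MvPolynomial.eval (fun z => x z.1 z.2) p := by
    rw [← hp]
    exact pold_eval p ⟨x, hxb⟩
  have h3 : ‖g ⟨x, hxb⟩ - u x‖ < δ := h1
  rw [h2, Real.norm_eq_abs, abs_sub_comm] at h3
  exact h3.le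

/-- the entries of an orthogonal matrix -/
theorem pold_entry (x : X → X → ℝ) (h : (Matrix.of x).transpose * Matrix.of x = 1) (i j : X) :
    |x i j| ≤ 1 := by
  have h1 : ∑ l, x l j * x l j = 1 := by
    have h2 := congrFun (congrFun h j) j
    rw [Matrix.mul_apply, Matrix.one_apply_eq] at h2
    exact h2
  have h3 : x i j * x i j ≤ 1 := by
    rw [← h1]
    exact Finset.single_le_sum (f := fun l => x l j * x l j) (fun l _ => mul_self_nonneg _)
      (Finset.mem_univ i)
  rw [← abs_mul_abs_self] at h3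
  nlinarith [abs_nonneg (x i j)]

end

/-- **Polynomials are dense in `L²`.** -/
theorem POLD : ST_POLD := by
  intro X _ _ μ hμ f hf ε hε
  obtain ⟨hprob, hK, -⟩ := hμ
  have hs : 0 < Real.sqrt ε / 2 := by positivity
  have hs2 : (Real.sqrt ε / 2) ^ 2 = ε / 4 := by
    rw [div_pow, Real.sq_sqrt hε.le]
    norm_num
  have hδ : ENNReal.ofReal (Real.sqrt ε / 2) ≠ 0 := by
    rw [Ne, ENNReal.ofReal_eq_zero, not_le]
    exact hs
  obtain ⟨u, hu, hu2⟩ := hf.exists_boundedContinuous_eLpNorm_sub_le (by norm_num) hδ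
  obtain ⟨p, hp⟩ := pold_sw (fun x => u x) u.continuous (Real.sqrt ε / 2) hs
  have hfu : MemLp (fun x => f x - u x) 2 μ := hf.sub hu2
  have h1 : ∫ x, (f x - u x) ^ 2 ∂μ ≤ ε / 4 := by
    have h2 := hfu.eLpNorm_eq_integral_rpow_norm (by norm_num) (by norm_num)
    have h3 : eLpNorm (fun x => f x - u x) 2 μ ≤ ENNReal.ofReal (Real.sqrt ε / 2) := hu
    rw [h2, ENNReal.ofReal_le_ofReal_iff hs.le] at h3
    have h4 : ∫ x, ‖f x - u x‖ ^ (2 : ENNReal).toReal ∂μ = ∫ x, (f x - u x) ^ 2 ∂μ := by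
      refine integral_congr_ae (ae_of_all _ fun x => ?_)
      show ‖f x - u x‖ ^ (2 : ENNReal).toReal = (f x - u x) ^ 2
      rw [ENNReal.toReal_ofNat, Real.rpow_ofNat, Real.norm_eq_abs, sq_abs]
    rw [h4] at h3
    have h5 : 0 ≤ ∫ x, (f x - u x) ^ 2 ∂μ := integral_nonneg fun x => sq_nonneg _
    rw [ENNReal.toReal_ofNat, ← one_div, ← Real.sqrt_eq_rpow] at h3
    have h6 := Real.sq_sqrt h5
    rw [← hs2, ← h6]
    exact pow_le_pow_left₀ (Real.sqrt_nonneg _) h3 2
  have hint : Integrable (fun x => (f x - u x) ^ 2) μ := hfu.integrable_sq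
  refine ⟨p, ?_⟩
  have hae : ∀ᵐ x ∂μ, (Matrix.of x).transpose * Matrix.of x = 1 ∧ (Matrix.of x).det = 1 := hK
  have h7 : ∫ x, (f x - MvPolynomial.eval (fun z => x z.1 z.2) p) ^ 2 ∂μ ≤
      ∫ x, (2 * (f x - u x) ^ 2 + ε / 2) ∂μ := by
    refine integral_mono_of_nonneg (ae_of_all _ fun x => sq_nonneg _)
      ((hint.const_mul 2).add (integrable_const _)) ?_
    filter_upwards [hae] with x hx
    have h8 := hp x (fun i j => pold_entry x hx.1 i j)
    have h9 : (u x - MvPolynomial.eval (fun z => x z.1 z.2) p) ^ 2 ≤ ε / 4 := by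
      rw [← hs2, ← sq_abs]
      exact pow_le_pow_left₀ (abs_nonneg _) h8 2
    nlinarith [sq_nonneg ((f x - u x) - (u x - MvPolynomial.eval (fun z => x z.1 z.2) p))]
  have h8 : ∫ x, (2 * (f x - u x) ^ 2 + ε / 2) ∂μ = 2 * ∫ x, (f x - u x) ^ 2 ∂μ + ε / 2 := by
    rw [integral_add (hint.const_mul 2) (integrable_const _), integral_const_mul, integral_const]
    simp
  linarith

end

end SG23
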