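import Pool.Agent.N23.SG.Stm

/-!
Project SG (helper23), MP_839d28_al, part POLR (helper492): the gap for polynomial functions.
-/

namespace SG23
open Finset MeasureTheory

noncomputable section

section polrsec

variable {X : Type} [Fintype X] [DecidableEq X] {μ : Measure (X → X → ℝ)}

/-- the function of a polynomial -/
def polrf (q : MvPolynomial (X × X) ℝ) (x : X → X → ℝ) : ℝ :=
  MvPolynomial.eval (fun z => x z.1 z.2) q

lemma polr_cont (q : MvPolynomial (X × X) ℝ) : Continuous (polrf q) := by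
  have h1 : Continuous fun x : X → X → ℝ => fun z : X × X => x z.1 z.2 := by fun_prop
  exact (MvPolynomial.continuous_eval q).comp h1

lemma polr_tr_mul (A B : Matrix X X ℝ) (x : X → X → ℝ) : tr A (tr B x) = tr (A * B) x := by
  funext i j
  unfold tr
  simp only [Matrix.mul_apply, Finset.mul_sum, Finset.sum_mul]
  rw [Finset.sum_comm]
  exact Finset.sum_congr rfl fun a _ => Finset.sum_congr rfl fun b _ => by ring

lemma polr_tr_one (x : X → X → ℝ) : tr (1 : Matrix X X ℝ) x = x := by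
  funext i j
  unfold tr
  simp [Matrix.one_apply]

lemma polr_tr_cont (A : Matrix X X ℝ) : Continuous (tr A) := by
  unfold tr
  fun_prop

lemma polr_mp (hμ : HL μ) (g : SO X) : MeasurePreserving (tr (g : Matrix X X ℝ)) μ μ :=
  ⟨(polr_tr_cont _).measurable, hμ.2.2 _ (SO_left g) (SO_det g)⟩

lemma polr_supp (hμ : HL μ) :
    ∀ᵐ x ∂μ, (Matrix.of x).transpose * Matrix.of x = 1 ∧ (Matrix.of x).det = 1 := by
  rw [ae_iff]
  exact hμ.2.1

lemma polr_bdd (hμ : HL μ) : ∀ᵐ x ∂μ, x ∈ Set.univ.pi fun _ : X => Set.univ.pi fun _ : X =>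
    Set.Icc (-1 : ℝ) 1 := by
  filter_upwards [polr_supp hμ] with x hx
  intro i _ j _
  have h1 := congrFun (congrFun hx.1 j) j
  rw [Matrix.mul_apply, Matrix.one_apply_eq] at h1
  simp only [Matrix.transpose_apply, Matrix.of_apply] at h1
  have h2 : x i j * x i j ≤ ∑ l, x l j * x l j :=
    Finset.single_le_sum (f := fun l => x l j * x l j) (fun l _ => mul_self_nonneg _)
      (Finset.mem_univ i)
  rw [h1] at h2
  exact ⟨by nlinarith, by nlinarith⟩

lemma polr_mem (hμ : HL μ) (q : MvPolynomial (X × X) ℝ) : MemLp (polrf q) 2 μ := by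
  haveI := hμ.1
  have h1 : IsCompact (Set.univ.pi fun _ : X => Set.univ.pi fun _ : X => Set.Icc (-1 : ℝ) 1) :=
    isCompact_univ_pi fun _ => isCompact_univ_pi fun _ => isCompact_Icc
  obtain ⟨C, hC⟩ := h1.exists_bound_of_continuousOn (polr_cont q).continuousOn
  refine MemLp.of_bound (polr_cont q).aestronglyMeasurable C ?_
  filter_upwards [polr_bdd hμ] with x hx
  exact hC x hx

/-- polynomials as square integrable functions -/
def polrL (hμ : HL μ) : MvPolynomial (X × X) ℝ →ₗ[ℝ] Lp ℝ 2 μ where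
  toFun q := (polr_mem hμ q).toLp (polrf q)
  map_add' p q := by
    rw [← MemLp.toLp_add]
    exact MemLp.toLp_congr _ _ (Filter.Eventually.of_forall fun x => map_add _ _ _)
  map_smul' c q := by
    rw [RingHom.id_apply, ← MemLp.toLp_const_smul]
    exact MemLp.toLp_congr _ _ (Filter.Eventually.of_forall fun x => MvPolynomial.smul_eval _ _ _)

lemma polrL_ae (hμ : HL μ) (q : MvPolynomial (X × X) ℝ) :
    (polrL hμ q : (X → X → ℝ) → ℝ) =ᵐ[μ] polrf q := (polr_mem hμ q).coeFn_toLp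

/-- the regular representation -/
def polrR (hμ : HL μ) (h : SO X) : Lp ℝ 2 μ →ₗᵢ[ℝ] Lp ℝ 2 μ :=
  Lp.compMeasurePreservingₗᵢ ℝ (tr ((h⁻¹ : SO X) : Matrix X X ℝ)) (polr_mp hμ h⁻¹)

lemma polr_congr {f₁ f₂ : (X → X → ℝ) → (X → X → ℝ)} (h₁ : MeasurePreserving f₁ μ μ)
    (h₂ : MeasurePreserving f₂ μ μ) (h : f₁ = f₂) (v : Lp ℝ 2 μ) :
    Lp.compMeasurePreserving f₁ h₁ v = Lp.compMeasurePreserving f₂ h₂ v := by
  subst h
  rfl

lemma polrR_mul (hμ : HL μ) (h h' : SO X) (v : Lp ℝ 2 μ) :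
    polrR hμ (h * h') v = polrR hμ h (polrR hμ h' v) := by
  have h1 := Lp.compMeasurePreserving_comp_apply v (polr_mp hμ h'⁻¹) (polr_mp hμ h⁻¹)
  refine Eq.trans ?_ h1
  refine polr_congr _ _ ?_ v
  funext x
  rw [Function.comp_apply, polr_tr_mul, mul_inv_rev]
  rfl

lemma polrR_one (hμ : HL μ) (v : Lp ℝ 2 μ) : polrR hμ 1 v = v := by
  have h1 := Lp.compMeasurePreserving_id_apply v
  refine Eq.trans ?_ h1
  refine polr_congr _ _ ?_ v
  funext x
  rw [inv_one]
  exact polr_tr_one x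

/-- the generic left translate -/
def polrE : MvPolynomial (X × X) ℝ →ₐ[ℝ] MvPolynomial (X × X) (MvPolynomial (X × X) ℝ) :=
  MvPolynomial.aeval fun z =>
    ∑ l, MvPolynomial.C (MvPolynomial.X (l, z.1)) * MvPolynomial.X (l, z.2)

lemma polr_e2 (a b : X × X → ℝ) (q : MvPolynomial (X × X) ℝ) :
    (polrE q).eval₂ (MvPolynomial.eval a) b =
      MvPolynomial.eval (fun z => ∑ l, a (l, z.1) * b (l, z.2)) q := by
  have h : (MvPolynomial.eval₂Hom (MvPolynomial.eval a) b).comp
      (polrE : MvPolynomial (X × X) ℝ →ₐ[ℝ] MvPolynomial (X × X) (MvPolynomial (X × X) ℝ)).toRingHom =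
      MvPolynomial.eval (fun z => ∑ l, a (l, z.1) * b (l, z.2)) := by
    refine MvPolynomial.ringHom_ext (fun r => ?_) fun z => ?_
    · simp [polrE, MvPolynomial.algebraMap_eq]
      try rfl
    · simp [polrE]
  exact congrArg (fun F : MvPolynomial (X × X) ℝ →+* ℝ => F q) h

/-- evaluation at the entries of a rotation -/
def polrv (h : SO X) (q : MvPolynomial (X × X) ℝ) : ℝ :=
  MvPolynomial.eval (fun p => (h : Matrix X X ℝ) p.1 p.2) q

lemma polr_expand (q : MvPolynomial (X × X) ℝ) (h : SO X) (x : X → X → ℝ) :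
    polrf q (tr ((h⁻¹ : SO X) : Matrix X X ℝ) x) =
      ∑ d ∈ (polrE q).support, polrv h ((polrE q).coeff d) *
        polrf (MvPolynomial.monomial d 1) x := by
  have h1 := polr_e2 (fun p => (h : Matrix X X ℝ) p.1 p.2) (fun z => x z.1 z.2) q
  rw [MvPolynomial.eval₂_eq'] at h1
  have h2 : polrf q (tr ((h⁻¹ : SO X) : Matrix X X ℝ) x) =
      MvPolynomial.eval (fun z => ∑ l, (h : Matrix X X ℝ) l z.1 * x l z.2) q := by
    rw [SO_inv]
    rfl
  rw [h2, ← h1]
  refine Finset.sum_congr rfl fun d _ => ?_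
  congr 1
  unfold polrf
  rw [MvPolynomial.eval_monomial, one_mul, Finsupp.prod_pow]

lemma polrR_L (hμ : HL μ) (q : MvPolynomial (X × X) ℝ) (h : SO X) :
    polrR hμ h (polrL hμ q) = ∑ d ∈ (polrE q).support,
      polrv h ((polrE q).coeff d) • polrL hμ (MvPolynomial.monomial d 1) := by
  have h1 : ∑ d ∈ (polrE q).support,
      polrv h ((polrE q).coeff d) • polrL hμ (MvPolynomial.monomial d 1) =
      polrL hμ (∑ d ∈ (polrE q).support,
        polrv h ((polrE q).coeff d) • MvPolynomial.monomial d 1) := by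
    rw [map_sum]
    exact Finset.sum_congr rfl fun d _ => (map_smul _ _ _).symm
  rw [h1]
  refine MemLp.toLp_congr ((polr_mem hμ q).comp_measurePreserving (polr_mp hμ h⁻¹))
    (polr_mem hμ _) (Filter.Eventually.of_forall fun x => ?_)
  rw [Function.comp_apply, polr_expand]
  unfold polrf
  rw [map_sum]
  refine Finset.sum_congr rfl fun d _ => ?_
  rw [MvPolynomial.smul_eval]

/-- the space of the representation -/
def polrS (hμ : HL μ) (p : MvPolynomial (X × X) ℝ) : Submodule ℝ (Lp ℝ 2 μ) :=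
  Submodule.span ℝ (Set.range fun h => polrR hμ h (polrL hμ p))

lemma polrS_stab (hμ : HL μ) (p : MvPolynomial (X × X) ℝ) (h : SO X) {v : Lp ℝ 2 μ}
    (hv : v ∈ polrS hμ p) : polrR hμ h v ∈ polrS hμ p := by
  unfold polrS at hv ⊢
  induction hv using Submodule.span_induction with
  | mem v hv =>
    obtain ⟨h', rfl⟩ := hv
    refine Submodule.subset_span ⟨h * h', ?_⟩
    exact polrR_mul hμ h h' _
  | zero => rw [map_zero]; exact Submodule.zero_mem _
  | add a b _ _ ha hb => rw [map_add]; exact Submodule.add_mem _ ha hb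
  | smul c a _ ha => rw [map_smul]; exact Submodule.smul_mem _ c ha

lemma polrS_range (hμ : HL μ) (p : MvPolynomial (X × X) ℝ) :
    polrS hμ p ≤ LinearMap.range (polrL hμ) := by
  unfold polrS
  rw [Submodule.span_le]
  rintro _ ⟨h, rfl⟩
  change polrR hμ h (polrL hμ p) ∈ LinearMap.range (polrL hμ)
  rw [polrR_L]
  exact Submodule.sum_mem _ fun d _ => Submodule.smul_mem _ _ ⟨_, rfl⟩

lemma polrS_fd (hμ : HL μ) (p : MvPolynomial (X × X) ℝ) : FiniteDimensional ℝ (polrS hμ p) := by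
  classical
  have h1 : polrS hμ p ≤ Submodule.span ℝ
      (((polrE p).support.image fun d => polrL hμ (MvPolynomial.monomial d 1) :
        Finset (Lp ℝ 2 μ)) : Set (Lp ℝ 2 μ)) := by
    unfold polrS
    rw [Submodule.span_le]
    rintro _ ⟨h, rfl⟩
    change polrR hμ h (polrL hμ p) ∈ Submodule.span ℝ _
    rw [polrR_L]
    refine Submodule.sum_mem _ fun d hd => Submodule.smul_mem _ _ (Submodule.subset_span ?_)
    exact Finset.mem_coe.2 (Finset.mem_image_of_mem _ hd)
  have : FiniteDimensional ℝ (Submodule.span ℝ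
      (((polrE p).support.image fun d => polrL hμ (MvPolynomial.monomial d 1) :
        Finset (Lp ℝ 2 μ)) : Set (Lp ℝ 2 μ))) := FiniteDimensional.span_finset ℝ _
  exact Submodule.finiteDimensional_of_le h1

lemma polrS_self (hμ : HL μ) (p : MvPolynomial (X × X) ℝ) : polrL hμ p ∈ polrS hμ p :=
  Submodule.subset_span ⟨1, polrR_one hμ _⟩

/-- the representation -/
def polrρ (hμ : HL μ) (p : MvPolynomial (X × X) ℝ) :
    SO X →* (polrS hμ p ≃ₗᵢ[ℝ] polrS hμ p) where
  toFun h :=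
    { toFun := fun v => ⟨polrR hμ h v.1, polrS_stab hμ p h v.2⟩
      invFun := fun v => ⟨polrR hμ h⁻¹ v.1, polrS_stab hμ p h⁻¹ v.2⟩
      map_add' := fun a b => Subtype.ext (map_add _ _ _)
      map_smul' := fun c a => Subtype.ext (map_smul _ _ _)
      left_inv := fun v => Subtype.ext (by
        change polrR hμ h⁻¹ (polrR hμ h v.1) = v.1
        rw [← polrR_mul, inv_mul_cancel, polrR_one])
      right_inv := fun v => Subtype.ext (by
        change polrR hμ h (polrR hμ h⁻¹ v.1) = v.1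
        rw [← polrR_mul, mul_inv_cancel, polrR_one])
      norm_map' := fun v => (polrR hμ h).norm_map v.1 }
  map_one' := by
    ext v : 1
    exact Subtype.ext (polrR_one hμ v.1)
  map_mul' h h' := by
    ext v : 1
    exact Subtype.ext (polrR_mul hμ h h' v.1)

lemma polrρ_apply (hμ : HL μ) (p : MvPolynomial (X × X) ℝ) (h : SO X) (v : polrS hμ p) :
    (polrρ hμ p h v : Lp ℝ 2 μ) = polrR hμ h v.1 := rfl

/-- the bound for the degrees is automatic -/
lemma polr_PR {E : Type} [NormedAddCommGroup E] [InnerProductSpace ℝ E] [FiniteDimensional ℝ E]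
    (ρ : SO X →* (E ≃ₗᵢ[ℝ] E))
    (h : ∀ x y : E, ∃ Q : MvPolynomial (X × X) ℝ, ∀ g : SO X, inner ℝ y (ρ g x) = polrv g Q) :
    PR ρ := by
  choose F hF using h
  let b := Module.finBasis ℝ E
  refine ⟨Finset.univ.sup fun i => Finset.univ.sup fun j => (F (b i) (b j)).totalDegree,
    fun x y => ⟨∑ i, ∑ j, MvPolynomial.C (b.repr x i * b.repr y j) * F (b i) (b j), ?_, ?_⟩⟩
  · refine MvPolynomial.totalDegree_finsetSum_le fun i _ => ?_
    refine MvPolynomial.totalDegree_finsetSum_le fun j _ => ?_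
    refine (MvPolynomial.totalDegree_mul _ _).trans ?_
    rw [MvPolynomial.totalDegree_C, zero_add]
    exact (Finset.le_sup (f := fun j => (F (b i) (b j)).totalDegree) (Finset.mem_univ j)).trans
      (Finset.le_sup (f := fun i => Finset.univ.sup fun j => (F (b i) (b j)).totalDegree)
        (Finset.mem_univ i))
  · intro g
    have e1 : inner ℝ y (ρ g x) = ∑ i, ∑ j, b.repr x i * b.repr y j * inner ℝ (b j) (ρ g (b i)) := by
      conv_lhs => rw [← b.sum_repr x, ← b.sum_repr y, map_sum, inner_sum]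
      refine Finset.sum_congr rfl fun i _ => ?_
      rw [sum_inner]
      refine Finset.sum_congr rfl fun j _ => ?_
      rw [map_smul, real_inner_smul_left, real_inner_smul_right]
      ring
    rw [e1, map_sum]
    refine Finset.sum_congr rfl fun i _ => ?_
    rw [map_sum]
    refine Finset.sum_congr rfl fun j _ => ?_
    rw [map_mul, MvPolynomial.eval_C, hF]
    rfl

lemma polr_norm (v : Lp ℝ 2 μ) : ‖v‖ ^ 2 = ∫ x, v x ^ 2 ∂μ := by
  rw [← real_inner_self_eq_norm_sq, L2.inner_def]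
  refine integral_congr_ae (Filter.Eventually.of_forall fun x => ?_)
  change inner ℝ (v x) (v x) = v x ^ 2
  rw [real_inner_self_eq_norm_sq, Real.norm_eq_abs, sq_abs]

lemma polr_norm_L (hμ : HL μ) (q : MvPolynomial (X × X) ℝ) :
    ‖polrL hμ q‖ ^ 2 = ∫ x, polrf q x ^ 2 ∂μ := by
  rw [polr_norm]
  refine integral_congr_ae ?_
  filter_upwards [polrL_ae hμ q] with x hx
  rw [hx]

lemma polrR_ae (hμ : HL μ) (q : MvPolynomial (X × X) ℝ) (h : SO X) :
    (polrR hμ h⁻¹ (polrL hμ q) : (X → X → ℝ) → ℝ) =ᵐ[μ]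
      fun x => polrf q (tr (h : Matrix X X ℝ) x) := by
  have h1 := Lp.coeFn_compMeasurePreserving (polrL hμ q) (polr_mp hμ (h⁻¹)⁻¹)
  have h2 := (polr_mp hμ (h⁻¹)⁻¹).quasiMeasurePreserving.ae_eq_comp (polrL_ae hμ q)
  have h3 : polrf q ∘ tr (((h⁻¹)⁻¹ : SO X) : Matrix X X ℝ) =
      fun x => polrf q (tr (h : Matrix X X ℝ) x) := by
    rw [inv_inv]
    rfl
  rw [h3] at h2
  exact h1.trans h2

lemma polr_disp (hμ : HL μ) (p : MvPolynomial (X × X) ℝ) (h : SO X) (v : Lp ℝ 2 μ) :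
    ‖polrR hμ h v - v‖ = ‖polrR hμ h⁻¹ v - v‖ := by
  rw [← (polrR hμ h⁻¹).norm_map (polrR hμ h v - v), map_sub, ← polrR_mul, inv_mul_cancel,
    polrR_one, norm_sub_rev]

end polrsec

/-- **POLR** -/
theorem POLR (hS : ST_SUPP) : ST_POLR := by
  intro X _ _ μ hμ k K g hK hKS p hp
  haveI := hμ.1
  haveI := polrS_fd hμ p
  obtain ⟨v0, hv0⟩ : ∃ v0 : polrS hμ p, v0.1 = polrL hμ p :=
    ⟨⟨polrL hμ p, polrS_self hμ p⟩, rfl⟩
  have hPR : PR (polrρ hμ p) := by
    refine polr_PR _ fun x y => ?_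
    obtain ⟨q, hq⟩ := polrS_range hμ p x.2
    refine ⟨∑ d ∈ (polrE q).support,
      MvPolynomial.C (inner ℝ y.1 (polrL hμ (MvPolynomial.monomial d 1))) *
        (polrE q).coeff d, fun h => ?_⟩
    have e1 : inner ℝ y (polrρ hμ p h x) = inner ℝ y.1 (polrR hμ h x.1) := rfl
    rw [e1, ← hq, polrR_L, inner_sum]
    unfold polrv
    rw [map_sum]
    refine Finset.sum_congr rfl fun d _ => ?_
    rw [real_inner_smul_right, map_mul, MvPolynomial.eval_C, mul_comm]
  have hP : P (polrρ hμ p) univ v0 = 0 := by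
    unfold P
    rw [Submodule.starProjection_apply_eq_zero_iff, Submodule.mem_orthogonal]
    intro w hw
    obtain ⟨q, hq⟩ := polrS_range hμ p w.2
    have hfix : ∀ h : SO X, polrR hμ h w.1 = w.1 := fun h =>
      congrArg Subtype.val (hw h (fun i j hij => by
        rcases hij with h1 | h1 <;> exact absurd (Finset.mem_univ _) h1))
    have hconst : ∀ h : SO X, polrf q (h : Matrix X X ℝ) = polrf q (1 : Matrix X X ℝ) := by
      intro h
      have h1 := polrR_ae hμ q h
      rw [hq, hfix h⁻¹, ← hq] at h1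
      have h2 := hS X μ hμ (fun x => polrf q (tr (h : Matrix X X ℝ) x) - polrf q x)
        (((polr_cont q).comp (polr_tr_cont _)).sub (polr_cont q)) (by
          filter_upwards [h1, polrL_ae hμ q] with x hx hx'
          rw [← hx, hx', sub_self]) 1 (by simp) (by simp)
      have h3 : tr (h : Matrix X X ℝ) (1 : Matrix X X ℝ) = (h : Matrix X X ℝ) := by
        funext i j
        change ((h : Matrix X X ℝ) * (1 : Matrix X X ℝ)) i j = _
        rw [Matrix.mul_one]
      rw [h3] at h2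
      exact sub_eq_zero.1 h2
    have h4 : inner ℝ w v0 = ∫ x, (polrL hμ q : (X → X → ℝ) → ℝ) x *
        (polrL hμ p : (X → X → ℝ) → ℝ) x ∂μ := by
      have e1 : inner ℝ w v0 = inner ℝ w.1 v0.1 := rfl
      rw [e1, ← hq, hv0, L2.inner_def]
      refine integral_congr_ae (Filter.Eventually.of_forall fun x => ?_)
      change inner ℝ ((polrL hμ q : (X → X → ℝ) → ℝ) x) ((polrL hμ p : (X → X → ℝ) → ℝ) x) = _
      rw [real_inner_eq_re_inner, RCLike.inner_apply]
      simp [mul_comm]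
    have h5 : ∫ x, (polrL hμ q : (X → X → ℝ) → ℝ) x * (polrL hμ p : (X → X → ℝ) → ℝ) x ∂μ =
        ∫ x, polrf q (1 : Matrix X X ℝ) * polrf p x ∂μ := by
      refine integral_congr_ae ?_
      filter_upwards [polrL_ae hμ q, polrL_ae hμ p, polr_supp hμ] with x h1 h2 h3
      rw [h1, h2]
      have h6 := hconst ⟨Matrix.of x, (mem_SO _).2 h3⟩
      congr 1
    rw [h4, h5, integral_const_mul]
    have h6 : ∫ x, polrf p x ∂μ = 0 := hp
    rw [h6, mul_zero]
  set η : ℝ := Real.sqrt (∑ i, ‖polrρ hμ p (g i) v0 - v0‖ ^ 2) with hη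
  have hη0 : 0 ≤ ∑ i, ‖polrρ hμ p (g i) v0 - v0‖ ^ 2 :=
    Finset.sum_nonneg fun i _ => by positivity
  have h1 := hKS (polrS hμ p) (polrρ hμ p) hPR v0 η (fun i => by
    rw [hη]
    apply Real.le_sqrt_of_sq_le
    exact Finset.single_le_sum (f := fun i => ‖polrρ hμ p (g i) v0 - v0‖ ^ 2)
      (fun i _ => by positivity) (Finset.mem_univ i))
  rw [hP, sub_zero] at h1
  have h2 : ‖v0‖ ^ 2 ≤ K ^ 2 * ∑ i, ‖polrρ hμ p (g i) v0 - v0‖ ^ 2 := by
    have h3 := pow_le_pow_left₀ (norm_nonneg _) h1 2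
    rwa [mul_pow, hη, Real.sq_sqrt hη0] at h3
  have h3 : ‖v0‖ ^ 2 = ∫ x, polrf p x ^ 2 ∂μ := by
    have e1 : ‖v0‖ = ‖v0.1‖ := rfl
    rw [e1, hv0, polr_norm_L]
  have h4 : ∀ i, ‖polrρ hμ p (g i) v0 - v0‖ ^ 2 =
      ∫ x, (polrf p (tr (g i : Matrix X X ℝ) x) - polrf p x) ^ 2 ∂μ := by
    intro i
    have e1 : ‖polrρ hμ p (g i) v0 - v0‖ = ‖polrR hμ (g i) v0.1 - v0.1‖ := rfl
    rw [e1, polr_disp hμ p, polr_norm, hv0]
    refine integral_congr_ae ?_
    filter_upwards [Lp.coeFn_sub (polrR hμ (g i)⁻¹ (polrL hμ p)) (polrL hμ p), polrL_ae hμ p,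
      polrR_ae hμ p (g i)] with x h5 h6 h7
    rw [h5, Pi.sub_apply, h6, h7]
  rw [h3] at h2
  simp only [h4] at h2
  exact h2

end

end SG23
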