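import Pool.Agent.N23.SG.Stm

/-!
# SG/POW: from the Kazhdan form to the norm form (helper374)
-/

set_option autoImplicit false

namespace SG23
open Finset

section POWaux

variable {X : Type} [Fintype X] [DecidableEq X] {E : Type} [NormedAddCommGroup E]
    [InnerProductSpace ℝ E] [FiniteDimensional ℝ E]

lemma POW_inv (ρ : SO X →* (E ≃ₗᵢ[ℝ] E)) (g : SO X) (v : E) (hv : P ρ univ v = 0) :
    P ρ univ (ρ g v) = 0 := by
  unfold P at hv ⊢
  rw [Submodule.starProjection_apply_eq_zero_iff] at hv ⊢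
  rw [Submodule.mem_orthogonal] at hv ⊢
  intro w hw
  have h1 : ρ g w = w := hw g (fun i j h => by simp at h)
  have h2 := hv w hw
  rw [← h1, LinearIsometryEquiv.inner_map_map]
  exact h2

lemma POW_one {k : ℕ} {K κ : ℝ} (hK : 0 < K) (hκ0 : 0 < κ) (hκ1 : 4 * K ^ 2 * (k + 1) * κ ≤ 1)
    (hκ2 : 2 * (k + 1) * κ ≤ 1) (g : Fin k → SO X) (hg : KS g K)
    (ρ : SO X →* (E ≃ₗᵢ[ℝ] E)) (hρ : PR ρ) (v : E) (hv : P ρ univ v = 0) :
    ‖v + ∑ i, ρ (g i) v‖ ≤ (k + 1) * (1 - κ) * ‖v‖ := by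
  by_contra hcon
  push Not at hcon
  have hv0 : 0 < ‖v‖ := by
    rcases (norm_nonneg v).eq_or_lt with h | h
    · have hz : v = 0 := norm_eq_zero.1 h.symm
      rw [hz] at hcon
      simp at hcon
    · exact h
  obtain ⟨δ, hδ⟩ : ∃ δ : ℝ, δ = ((k : ℝ) + 1) ^ 2 * κ ^ 2 := ⟨_, rfl⟩
  have hδ0 : 0 < δ := by rw [hδ]; positivity
  have hmove : ∀ i, ‖ρ (g i) v - v‖ ^ 2 ≤ (1 / K ^ 2 - δ) * ‖v‖ ^ 2 := by
    intro i
    have hsum : v + ∑ j, ρ (g j) v = (v + ρ (g i) v) + ∑ j ∈ univ.erase i, ρ (g j) v := by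
      rw [← Finset.add_sum_erase univ _ (mem_univ i), add_assoc]
    have h1 : ‖∑ j ∈ univ.erase i, ρ (g j) v‖ ≤ ((k : ℝ) - 1) * ‖v‖ := by
      refine (norm_sum_le _ _).trans ?_
      simp only [LinearIsometryEquiv.norm_map]
      rw [Finset.sum_const, card_erase_of_mem (mem_univ i), card_univ, Fintype.card_fin,
        nsmul_eq_mul]
      have hk : 1 ≤ k := by
        have := i.2
        omega
      rw [Nat.cast_sub hk]
      simp
    have h2 : (2 - (k + 1) * κ) * ‖v‖ ≤ ‖v + ρ (g i) v‖ := by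
      rw [hsum] at hcon
      have := hcon.le.trans (norm_add_le _ _)
      nlinarith
    have h3 := parallelogram_law_with_norm ℝ (ρ (g i) v) v
    rw [LinearIsometryEquiv.norm_map] at h3
    have h4 : 0 ≤ (2 - (k + 1) * κ) * ‖v‖ := by
      apply mul_nonneg _ hv0.le
      nlinarith
    have h5 : ((2 - (k + 1) * κ) * ‖v‖) ^ 2 ≤ ‖v + ρ (g i) v‖ ^ 2 := by gcongr
    rw [add_comm v] at h5
    have h6 : 4 * (k + 1) * κ ≤ 1 / K ^ 2 := by
      rw [le_div_iff₀ (by positivity)]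
      linarith
    have h7 : 4 * (k + 1) * κ * ‖v‖ ^ 2 ≤ 1 / K ^ 2 * ‖v‖ ^ 2 := by gcongr
    rw [hδ]
    nlinarith
  obtain ⟨β, hβ⟩ : ∃ β : ℝ, β = max (1 / K ^ 2 - δ) 0 := ⟨_, rfl⟩
  have hβ0 : 0 ≤ β := by rw [hβ]; exact le_max_right _ _
  have hβ1 : β < 1 / K ^ 2 := by
    rw [hβ]
    exact max_lt (by linarith) (by positivity)
  have h1 := hg E ρ hρ v (√β * ‖v‖) fun i => by
    have h2 : ‖ρ (g i) v - v‖ ^ 2 ≤ (√β * ‖v‖) ^ 2 := by
      rw [mul_pow, Real.sq_sqrt hβ0]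
      refine (hmove i).trans ?_
      gcongr
      rw [hβ]
      exact le_max_left _ _
    exact le_of_pow_le_pow_left₀ (by norm_num) (by positivity) h2
  rw [hv, sub_zero] at h1
  have h2 : K * √β < 1 := by
    have h3 : (K * √β) ^ 2 < 1 ^ 2 := by
      rw [mul_pow, Real.sq_sqrt hβ0, one_pow]
      rw [lt_div_iff₀ (by positivity)] at hβ1
      linarith
    exact lt_of_pow_lt_pow_left₀ 2 zero_le_one h3
  have h3 : K * (√β * ‖v‖) < ‖v‖ := by nlinarith
  linarith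

end POWaux

theorem POW : ST_POW := by
  intro k K hK
  have hk : (0 : ℝ) < (k : ℝ) + 1 := by positivity
  obtain ⟨κ, hκ0, hκ1, hκ2⟩ : ∃ κ : ℝ, 0 < κ ∧ 4 * K ^ 2 * (k + 1) * κ ≤ 1 ∧
      2 * (k + 1) * κ ≤ 1 := by
    refine ⟨min (1 / (4 * K ^ 2 * ((k : ℝ) + 1))) (1 / (2 * ((k : ℝ) + 1))), by positivity, ?_, ?_⟩
    · calc 4 * K ^ 2 * (k + 1) * min (1 / (4 * K ^ 2 * ((k : ℝ) + 1))) (1 / (2 * ((k : ℝ) + 1))) ≤
          4 * K ^ 2 * (k + 1) * (1 / (4 * K ^ 2 * (k + 1))) := by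
            gcongr
            exact min_le_left _ _
        _ = 1 := by field_simp
    · calc 2 * ((k : ℝ) + 1) * min (1 / (4 * K ^ 2 * ((k : ℝ) + 1))) (1 / (2 * ((k : ℝ) + 1))) ≤
          2 * (k + 1) * (1 / (2 * (k + 1))) := by
            gcongr
            exact min_le_right _ _
        _ = 1 := by field_simp
  have hκ3 : κ ≤ 1 / 2 := by
    have : (0 : ℝ) ≤ k := Nat.cast_nonneg k
    nlinarith
  obtain ⟨t, ht⟩ := exists_pow_lt_of_lt_one (show (0 : ℝ) < 1 / 2 by norm_num)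
    (show (1 : ℝ) - κ < 1 by linarith)
  refine ⟨(k + 1) ^ t, by positivity, ?_⟩
  intro X _ _ g hg s hs
  -- words
  have words : ∀ t : ℕ, ∃ (ι : Type) (_ : Fintype ι) (u : ι → SO X),
      Fintype.card ι = (k + 1) ^ t ∧
      ∀ (E : Type) [NormedAddCommGroup E] [InnerProductSpace ℝ E] [FiniteDimensional ℝ E]
        (ρ : SO X →* (E ≃ₗᵢ[ℝ] E)), PR ρ → ∀ v : E, P ρ univ v = 0 →
        P ρ univ (∑ a, ρ (u a) v) = 0 ∧
          ‖∑ a, ρ (u a) v‖ ≤ ((k + 1) * (1 - κ)) ^ t * ‖v‖ := by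
    intro t
    induction t with
    | zero =>
      refine ⟨Unit, inferInstance, fun _ => 1, by simp, ?_⟩
      intro E _ _ _ ρ hρ v hv
      simp [hv]
    | succ t ih =>
      obtain ⟨ι, _, u, hc, h⟩ := ih
      refine ⟨Option (Fin k) × ι, inferInstance, fun q => (q.1.elim 1 g) * u q.2, ?_, ?_⟩
      · rw [Fintype.card_prod, Fintype.card_option, Fintype.card_fin, hc, pow_succ, mul_comm]
      · intro E _ _ _ ρ hρ v hv
        obtain ⟨h1, h2⟩ := h E ρ hρ v hv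
        obtain ⟨w, hw⟩ : ∃ w, w = ∑ a, ρ (u a) v := ⟨_, rfl⟩
        rw [← hw] at h1 h2
        have hsum : ∑ q : Option (Fin k) × ι, ρ ((q.1.elim 1 g) * u q.2) v =
            w + ∑ i, ρ (g i) w := by
          rw [Fintype.sum_prod_type, Fintype.sum_option]
          congr 1
          · rw [hw]
            refine Finset.sum_congr rfl fun a _ => ?_
            simp
          · refine Finset.sum_congr rfl fun i _ => ?_
            rw [hw, map_sum]
            refine Finset.sum_congr rfl fun a _ => ?_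
            simp [map_mul]
        rw [hsum]
        constructor
        · rw [map_add, map_sum, h1, zero_add]
          exact Finset.sum_eq_zero fun i _ => POW_inv ρ (g i) w h1
        · have h3 := POW_one hK hκ0 hκ1 hκ2 g hg ρ hρ w h1
          have h4 : 0 ≤ ((k : ℝ) + 1) * (1 - κ) := by
            apply mul_nonneg hk.le
            linarith
          calc ‖w + ∑ i, ρ (g i) w‖ ≤ (k + 1) * (1 - κ) * ‖w‖ := h3
            _ ≤ (k + 1) * (1 - κ) * (((k + 1) * (1 - κ)) ^ t * ‖v‖) := by gcongr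
            _ = ((k + 1) * (1 - κ)) ^ (t + 1) * ‖v‖ := by ring
  obtain ⟨ι, _, u, hc, h⟩ := words t
  have e : Fin ((k + 1) ^ t * s) ≃ ι × Fin s := Fintype.equivOfCardEq (by
    rw [Fintype.card_prod, Fintype.card_fin, Fintype.card_fin, hc])
  refine ⟨fun i => u (e i).1, ?_⟩
  intro E _ _ _ ρ hρ v hv
  obtain ⟨-, h2⟩ := h E ρ hρ v hv
  have hsum : ∑ i, ρ (u (e i).1) v = (s : ℝ) • ∑ a, ρ (u a) v := by
    rw [Equiv.sum_comp e (fun q : ι × Fin s => ρ (u q.1) v), Fintype.sum_prod_type,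
      Finset.smul_sum]
    refine Finset.sum_congr rfl fun a _ => ?_
    show ∑ _y : Fin s, (ρ (u a)) v = (s : ℝ) • (ρ (u a)) v
    rw [Finset.sum_const, card_univ, Fintype.card_fin]
    exact (Nat.cast_smul_eq_nsmul ℝ s _).symm
  rw [hsum, norm_smul, Real.norm_of_nonneg (Nat.cast_nonneg s), Fintype.card_fin]
  calc (s : ℝ) * ‖∑ a, ρ (u a) v‖ ≤ s * (((k + 1) * (1 - κ)) ^ t * ‖v‖) := by gcongr
    _ = (1 - κ) ^ t * ((k + 1) ^ t * s) * ‖v‖ := by rw [mul_pow]; ring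
    _ ≤ 1 / 2 * ((k + 1) ^ t * s) * ‖v‖ := by gcongr
    _ = 1 / 2 * (((k + 1) ^ t * s : ℕ) : ℝ) * ‖v‖ := by push_cast; ring

end SG23
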