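import Pool.Agent.N23.SG.BStm
import Pool.Agent.R292.ND.NT

/-!
Project SG (helper23), leaf R2: the number of representations as a sum of two squares
(written by helper574).
-/

namespace SG23

noncomputable section

theorem r2_card_le (k : ℕ) :
    Nat.card {x : ℤ × ℤ // x.1 ^ 2 + x.2 ^ 2 = k} ≤ 4 * (Pool.Agent.R292.ND.P k).card := by
  classical
  have hmem : ∀ x : {x : ℤ × ℤ // x.1 ^ 2 + x.2 ^ 2 = (k : ℤ)},
      x.1.1.natAbs ∈ Pool.Agent.R292.ND.P k := by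
    rintro ⟨⟨a, b⟩, h⟩
    simp only at h ⊢
    unfold Pool.Agent.R292.ND.P
    rw [Finset.mem_filter, Finset.mem_range]
    have h1 : a.natAbs ^ 2 + b.natAbs ^ 2 = k := by
      have : ((a.natAbs ^ 2 + b.natAbs ^ 2 : ℕ) : ℤ) = k := by
        push_cast
        rw [sq_abs, sq_abs]
        exact h
      exact_mod_cast this
    refine ⟨?_, b.natAbs, h1⟩
    nlinarith [Nat.zero_le a.natAbs, sq_nonneg b.natAbs]
  let f : {x : ℤ × ℤ // x.1 ^ 2 + x.2 ^ 2 = (k : ℤ)} → (Pool.Agent.R292.ND.P k) × Bool × Bool :=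
    fun x => (⟨x.1.1.natAbs, hmem x⟩, decide (x.1.1 < 0), decide (x.1.2 < 0))
  have hf : Function.Injective f := by
    rintro ⟨⟨a, b⟩, h⟩ ⟨⟨c, d⟩, h'⟩ hh
    simp only [f, Prod.mk.injEq, Subtype.mk.injEq, decide_eq_decide] at hh h h'
    obtain ⟨h1, h2, h3⟩ := hh
    have hac : a = c := by omega
    subst hac
    have hbd : b ^ 2 = d ^ 2 := by linarith
    have hbd' : b = d := by
      rcases sq_eq_sq_iff_eq_or_eq_neg.1 hbd with h4 | h4
      · exact h4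
      · omega
    subst hbd'
    rfl
  calc Nat.card {x : ℤ × ℤ // x.1 ^ 2 + x.2 ^ 2 = (k : ℤ)}
      ≤ Nat.card ((Pool.Agent.R292.ND.P k) × Bool × Bool) := Nat.card_le_card_of_injective f hf
    _ = 4 * (Pool.Agent.R292.ND.P k).card := by
        rw [Nat.card_prod, Nat.card_prod]
        simp
        ring

theorem R2 : ST_R2 := by
  intro ε hε
  obtain ⟨m, hm⟩ := exists_nat_gt (1 / ε)
  have hm0 : 0 < m := by
    rcases Nat.eq_zero_or_pos m with h | h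
    · rw [h] at hm
      have : 0 < 1 / ε := by positivity
      simp at hm
      linarith
    · exact h
  obtain ⟨K, hK⟩ := Pool.Agent.R292.ND.t_NT m
  have hmr : (0:ℝ) < m := by exact_mod_cast hm0
  have hK1 : (0:ℝ) < (K:ℝ) + 1 := by positivity
  refine ⟨4 * ((K:ℝ) + 1) ^ (1 / (m:ℝ)), by positivity, fun n hn => ?_⟩
  have hn1 : (1:ℝ) ≤ n := by exact_mod_cast hn
  set p := (Pool.Agent.R292.ND.P n).card with hp
  have h0 : (Nat.card {x : ℤ × ℤ // x.1 ^ 2 + x.2 ^ 2 = (n : ℤ)} : ℝ) ≤ 4 * (p : ℝ) := by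
    exact_mod_cast r2_card_le n
  have h1 : (p : ℝ) ^ m ≤ ((K:ℝ) + 1) * n := by
    have h2 : (p : ℝ) ^ m ≤ (K:ℝ) * n := by exact_mod_cast hK n hn
    nlinarith
  have h3 : (p : ℝ) = ((p : ℝ) ^ m) ^ (1 / (m:ℝ)) := by
    rw [← Real.rpow_natCast, ← Real.rpow_mul (Nat.cast_nonneg _),
      mul_one_div_cancel hmr.ne', Real.rpow_one]
  have h4 : (p : ℝ) ≤ ((K:ℝ) + 1) ^ (1 / (m:ℝ)) * (n:ℝ) ^ ε := by
    rw [h3]
    calc _ ≤ (((K:ℝ) + 1) * n) ^ (1 / (m:ℝ)) :=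
          Real.rpow_le_rpow (pow_nonneg (Nat.cast_nonneg _) _) h1 (by positivity)
      _ = ((K:ℝ) + 1) ^ (1 / (m:ℝ)) * (n:ℝ) ^ (1 / (m:ℝ)) :=
          Real.mul_rpow (by positivity) (by positivity)
      _ ≤ _ := by
        apply mul_le_mul_of_nonneg_left _ (by positivity)
        apply Real.rpow_le_rpow_of_exponent_le hn1
        rw [div_le_iff₀ hmr]
        rw [div_lt_iff₀ hε] at hm
        linarith
  calc _ ≤ 4 * (p : ℝ) := h0
    _ ≤ 4 * (((K:ℝ) + 1) ^ (1 / (m:ℝ)) * (n:ℝ) ^ ε) := by linarith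
    _ = _ := by ring

end

end SG23
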