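import Pool.Agent.N23.SG.Stm

/-!
Project SG (helper23), part RECS: the recursion (helper99).
-/

set_option autoImplicit false

namespace SG23
open Finset

theorem recs_cast {X : Type} [Fintype X] [DecidableEq X] {a b : ℕ} (h : a = b) {κ : ℝ}
    (hu : ∃ u : Fin a → SO X, NS u κ) : ∃ u : Fin b → SO X, NS u κ := by
  subst h; exact hu

theorem RECS (hP : ST_POW) (hS : ST_STEP) (hR : ST_REIX)
    (h3 : ∃ (k : ℕ) (K : ℝ) (g : Fin k → SO (Fin 3)), 0 < K ∧ KS g K) (hI : ST_INDS) :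
    ST_RECS := by
  have hall : ∀ n : ℕ, 3 ≤ n → ∃ (k : ℕ) (K : ℝ) (g : Fin k → SO (Fin n)), 0 < K ∧ KS g K := by
    intro n hn
    induction n, hn using Nat.le_induction with
    | base => exact h3
    | succ n hn ih => exact hI n hn ih
  obtain ⟨k₀, K₀, g₀, hK₀, hg₀⟩ := hall 32 (by norm_num)
  obtain ⟨Lb, hLb, hLb2⟩ := hP k₀ K₀ hK₀
  obtain ⟨k, K, hK, hS2⟩ := hS
  obtain ⟨Lp, hLp, hLp2⟩ := hP k K hK
  obtain ⟨q, hq, hq4, hS3⟩ := hS2 (Lp * Lb) (Nat.mul_pos hLp hLb)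
  refine ⟨Lp * Lb, q, Nat.mul_pos hLp hLb, hq, ?_⟩
  intro j
  induction j with
  | zero =>
    have h1 := hLb2 (Fin 32) g₀ hg₀ Lp hLp
    have h2 := recs_cast (mul_comm Lb Lp) h1
    have e : 32 * q ^ 0 = 32 := by simp
    rw [e]
    exact h2
  | succ j ih =>
    have hq1 : 1 ≤ q ^ j := Nat.one_le_pow _ _ (by omega)
    obtain ⟨g, hg⟩ := hS3 (Fin (32 * q ^ j)) (by rw [Fintype.card_fin]; omega)
      (by rw [Fintype.card_fin]; exact Dvd.dvd.mul_right (by norm_num) _) ih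
    obtain ⟨u, hu⟩ := hLp2 (Fin q × Fin (32 * q ^ j)) g hg Lb hLb
    have e : Fin q × Fin (32 * q ^ j) ≃ Fin (32 * q ^ (j + 1)) :=
      Fintype.equivFinOfCardEq (by
        rw [Fintype.card_prod, Fintype.card_fin, Fintype.card_fin, pow_succ]; ring)
    exact ⟨_, (hR _ _ e).2 _ u _ hu⟩

end SG23
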