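import Pool.Agent.N23.SG.Stm

/-!
Project SG (helper23), MP_839d28_al: subtask 8027 (REIX), by helper832.
Renaming the coordinates.
-/

namespace SG23
open Finset

theorem REIX (hE : ST_PEMB) : ST_REIX := by
  intro X Y _ _ _ _ e
  have huniv : (univ : Finset X).map e.toEmbedding = (univ : Finset Y) :=
    Finset.map_univ_equiv e
  constructor
  · intro ι g K hK E _ _ _ ρ hρ v η hη
    obtain ⟨h1, h2⟩ := hE X Y E ρ e.toEmbedding
    have h3 := hK E (ρ.comp (emb e.toEmbedding)) (h1 hρ) v η (fun i => hη i)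
    rw [h2 univ v, huniv] at h3
    exact h3
  · intro ι _ g κ hK E _ _ _ ρ hρ v hv
    obtain ⟨h1, h2⟩ := hE X Y E ρ e.toEmbedding
    have h3 := hK E (ρ.comp (emb e.toEmbedding)) (h1 hρ) v (by rw [h2 univ v, huniv, hv])
    exact h3

end SG23
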