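import Pool.Agent.N23.SG.BStm

/-!
Project SG (helper23), leaf SCHUR (helper720): orthogonality relations for real irreducible
representations of `SO(3)`.
-/

namespace SG23
open Finset MeasureTheory Quaternion
open Pool.Agent.H762R3.UQ Pool.Agent.H762R3.Rot

noncomputable section

section
variable {E : Type} [NormedAddCommGroup E] [InnerProductSpace ℝ E] [FiniteDimensional ℝ E]
  {ρ : SO (Fin 3) →* (E ≃ₗᵢ[ℝ] E)}

omit [FiniteDimensional ℝ E] in
/-- matrix coefficients are continuous on the unit quaternions -/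
lemma sch_coef (h : PR ρ) (x y : E) : Continuous fun q : U => inner ℝ y (ρ (rho q) x) := by
  obtain ⟨k, hk⟩ := h
  obtain ⟨Q, -, hQ⟩ := hk x y
  simp only [hQ]
  refine (MvPolynomial.continuous_eval Q).comp ?_
  refine continuous_pi fun p => ?_
  have h1 : Continuous fun q : U => ((rho q : SO (Fin 3)) : Matrix (Fin 3) (Fin 3) ℝ) :=
    continuous_subtype_val.comp rho_continuous
  exact h1.matrix_elem p.1 p.2

/-- orbit maps are continuous -/
lemma sch_cont (h : PR ρ) (x : E) : Continuous fun q : U => ρ (rho q) x := by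
  let b := stdOrthonormalBasis ℝ E
  have e : (fun q : U => ρ (rho q) x) = fun q => ∑ i, inner ℝ (b i) (ρ (rho q) x) • b i := by
    funext q; exact (b.sum_repr' _).symm
  rw [e]
  exact continuous_finsetSum _ fun i _ => (sch_coef h x (b i)).smul continuous_const

lemma sch_int {F : Type} [NormedAddCommGroup F] {f : U → F} (hf : Continuous f) :
    Integrable f (mu4 : Measure U) :=
  hf.integrable_of_hasCompactSupport (HasCompactSupport.of_compactSpace f)

lemma sch_inv {F : Type} [NormedAddCommGroup F] [NormedSpace ℝ F] (f : U → F) (g : U) :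
    ∫ q, f (g * q) ∂(mu4 : Measure U) = ∫ q, f q ∂(mu4 : Measure U) :=
  integral_mul_left_eq_self f g

lemma schT_int (h : PR ρ) (u v : E) :
    Integrable (fun q : U => (inner ℝ v (ρ (rho q) u) : ℝ) • ρ (rho q) u) (mu4 : Measure U) :=
  sch_int ((sch_coef h u v).smul (sch_cont h u))

/-- the invariant operator attached to `u` -/
def schT (ρ : SO (Fin 3) →* (E ≃ₗᵢ[ℝ] E)) (h : PR ρ) (u : E) : E →ₗ[ℝ] E where
  toFun v := ∫ q : U, (inner ℝ v (ρ (rho q) u) : ℝ) • ρ (rho q) u ∂(mu4 : Measure U)
  map_add' v w := by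
    rw [← integral_add (schT_int h u v) (schT_int h u w)]
    refine integral_congr_ae (Filter.Eventually.of_forall fun q => ?_)
    show (inner ℝ (v + w) (ρ (rho q) u) : ℝ) • ρ (rho q) u = _
    rw [inner_add_left, add_smul]
  map_smul' c v := by
    rw [RingHom.id_apply, ← integral_smul]
    refine integral_congr_ae (Filter.Eventually.of_forall fun q => ?_)
    show (inner ℝ (c • v) (ρ (rho q) u) : ℝ) • ρ (rho q) u = _
    rw [real_inner_smul_left, mul_smul]

lemma schT_inner (h : PR ρ) (u v w : E) :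
    inner ℝ w (schT ρ h u v) =
      ∫ q : U, inner ℝ v (ρ (rho q) u) * inner ℝ w (ρ (rho q) u) ∂(mu4 : Measure U) := by
  have h1 : inner ℝ w (schT ρ h u v) = ∫ q : U, inner ℝ w
      ((inner ℝ v (ρ (rho q) u) : ℝ) • ρ (rho q) u) ∂(mu4 : Measure U) :=
    (integral_inner (schT_int h u v) w).symm
  rw [h1]
  refine integral_congr_ae (Filter.Eventually.of_forall fun q => ?_)
  show inner ℝ w ((inner ℝ v (ρ (rho q) u) : ℝ) • ρ (rho q) u) = _
  rw [real_inner_smul_right]

lemma schT_symm (h : PR ρ) (u : E) : (schT ρ h u).IsSymmetric := by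
  intro v w
  rw [real_inner_comm, schT_inner, schT_inner]
  refine integral_congr_ae (Filter.Eventually.of_forall fun q => ?_)
  exact mul_comm _ _

lemma schT_comm (h : PR ρ) (u v : E) (g : SO (Fin 3)) :
    schT ρ h u (ρ g v) = ρ g (schT ρ h u v) := by
  obtain ⟨q', rfl⟩ := rho_surj g
  refine ext_inner_left ℝ fun w => ?_
  have h2 : inner ℝ w (ρ (rho q') (schT ρ h u v)) =
      inner ℝ (ρ (rho q')⁻¹ w) (schT ρ h u v) := by
    rw [← (ρ (rho q')⁻¹).inner_map_map w (ρ (rho q') (schT ρ h u v))]
    congr 1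
    have : ρ (rho q')⁻¹ (ρ (rho q') (schT ρ h u v)) =
        (ρ (rho q')⁻¹ * ρ (rho q')) (schT ρ h u v) := rfl
    rw [this, ← map_mul, inv_mul_cancel, map_one]
    rfl
  rw [h2, schT_inner, schT_inner,
    ← sch_inv (fun q : U => inner ℝ (ρ (rho q') v) (ρ (rho q) u) * inner ℝ w (ρ (rho q) u)) q']
  refine integral_congr_ae (Filter.Eventually.of_forall fun q => ?_)
  show inner ℝ (ρ (rho q') v) (ρ (rho (q' * q)) u) * inner ℝ w (ρ (rho (q' * q)) u) =
    inner ℝ v (ρ (rho q) u) * inner ℝ (ρ (rho q')⁻¹ w) (ρ (rho q) u)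
  have e1 : ρ (rho (q' * q)) u = ρ (rho q') (ρ (rho q) u) := by
    rw [rho_mul, map_mul]; rfl
  rw [e1, LinearIsometryEquiv.inner_map_map]
  congr 1
  rw [← (ρ (rho q')).inner_map_map (ρ (rho q')⁻¹ w) (ρ (rho q) u)]
  congr 1
  have : ρ (rho q') (ρ (rho q')⁻¹ w) = (ρ (rho q') * ρ (rho q')⁻¹) w := rfl
  rw [this, ← map_mul, mul_inv_cancel, map_one]
  rfl

end

theorem SCHUR : ST_SCHUR := by
  intro E _ _ _ ρ h hirr u v
  rcases subsingleton_or_nontrivial E with hE | hE
  · have hv : v = 0 := Subsingleton.elim _ _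
    rw [Module.finrank_zero_of_subsingleton, hv]
    simp
  · have hev := (schT_symm h u).hasEigenvalue_iSup_of_finiteDimensional
    obtain ⟨c, hc⟩ : ∃ c : ℝ, Module.End.HasEigenvalue (schT ρ h u) c := ⟨_, hev⟩
    have htop : Module.End.eigenspace (schT ρ h u) c = ⊤ := by
      have hinv : ∀ g, ∀ w ∈ Module.End.eigenspace (schT ρ h u) c,
          ρ g w ∈ Module.End.eigenspace (schT ρ h u) c := by
        intro g w hw
        rw [Module.End.mem_eigenspace_iff] at hw ⊢
        rw [schT_comm, hw, map_smul]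
      rcases hirr (Module.End.eigenspace (schT ρ h u) c) hinv with h0 | h1
      · exact absurd h0 hc
      · exact h1
    have hT : ∀ w : E, schT ρ h u w = c • w := by
      intro w
      have : w ∈ Module.End.eigenspace (schT ρ h u) c := by rw [htop]; trivial
      exact Module.End.mem_eigenspace_iff.1 this
    have hB : ∀ w : E, ∫ q : U, inner ℝ w (ρ (rho q) u) ^ 2 ∂(mu4 : Measure U) = c * ‖w‖ ^ 2 := by
      intro w
      have h1 := schT_inner h u w w
      rw [hT, real_inner_smul_right, real_inner_self_eq_norm_sq] at h1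
      rw [h1]
      refine integral_congr_ae (Filter.Eventually.of_forall fun q => ?_)
      exact sq _
    let b := stdOrthonormalBasis ℝ E
    have hsum : c * Module.finrank ℝ E = ‖u‖ ^ 2 := by
      have h1 : ∑ i, ∫ q : U, inner ℝ (b i) (ρ (rho q) u) ^ 2 ∂(mu4 : Measure U) =
          ∑ _i : Fin (Module.finrank ℝ E), c := by
        refine Finset.sum_congr rfl fun i _ => ?_
        rw [hB, b.orthonormal.1 i]
        ring
      have hi : ∀ i ∈ (univ : Finset (Fin (Module.finrank ℝ E))),
          Integrable (fun q : U => inner ℝ (b i) (ρ (rho q) u) ^ 2) (mu4 : Measure U) :=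
        fun i _ => sch_int ((sch_coef h u (b i)).pow 2)
      rw [← integral_finsetSum _ hi] at h1
      rw [Finset.sum_const, Finset.card_univ, Fintype.card_fin, nsmul_eq_mul] at h1
      rw [mul_comm, ← h1]
      have h2 : ∀ q : U, ∑ i, inner ℝ (b i) (ρ (rho q) u) ^ 2 = ‖u‖ ^ 2 := by
        intro q
        have h3 := b.sum_sq_norm_inner_right (ρ (rho q) u)
        rw [LinearIsometryEquiv.norm_map] at h3
        rw [← h3]
        refine Finset.sum_congr rfl fun i _ => ?_
        rw [Real.norm_eq_abs, sq_abs]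
      simp only [h2]
      rw [integral_const]
      simp
    rw [hB, ← hsum]
    ring

end

end SG23
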