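import Pool.Agent.N23.SG.BStm

/-!
Project SG (helper23), MP_839d28_al: gap for the representations of small dimension (helper286).
-/

namespace SG23
open Finset MeasureTheory Quaternion
open Pool.Agent.H762R3.UQ Pool.Agent.H762R3.Rot

noncomputable section

section
variable {X : Type} [Fintype X] [DecidableEq X]
variable {E : Type} [NormedAddCommGroup E] [InnerProductSpace ℝ E]

/-- a fixed vector within the distance `r` of `v`, if `v` is moved at most `r` by all group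
elements -/
lemma small_fix [FiniteDimensional ℝ E] {G : Type} [Group G] (ρ : G →* (E ≃ₗᵢ[ℝ] E)) (v : E)
    (r : ℝ) (h : ∀ g, ‖ρ g v - v‖ ≤ r) : ∃ m : E, (∀ g, ρ g m = m) ∧ ‖v - m‖ ≤ r := by
  set S : Set E := Set.range fun g => ρ g v with hS
  set K : Set E := closure (convexHull ℝ S) with hK
  have hne : K.Nonempty := by
    refine ⟨ρ 1 v, subset_closure (subset_convexHull ℝ S ⟨1, rfl⟩)⟩
  have hKc : Convex ℝ K := (convex_convexHull ℝ S).closure
  have hKcl : IsClosed K := isClosed_closure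
  have hKco : IsComplete K := hKcl.isComplete
  have hinv : ∀ g, ∀ x ∈ K, ρ g x ∈ K := by
    intro g
    have h1 : K ⊆ (ρ g) ⁻¹' K := by
      refine closure_minimal (convexHull_min ?_ ?_) (hKcl.preimage (ρ g).continuous)
      · rintro _ ⟨a, rfl⟩
        show ρ g (ρ a v) ∈ K
        have h2 : ρ g (ρ a v) = ρ (g * a) v := by rw [map_mul]; rfl
        rw [h2]
        exact subset_closure (subset_convexHull ℝ S ⟨g * a, rfl⟩)
      · exact hKc.linear_preimage ((ρ g).toLinearEquiv : E →ₗ[ℝ] E)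
    exact h1
  have hball : K ⊆ Metric.closedBall v r := by
    refine closure_minimal (convexHull_min ?_ (convex_closedBall v r)) Metric.isClosed_closedBall
    rintro _ ⟨a, rfl⟩
    rw [Metric.mem_closedBall, dist_eq_norm]
    exact h a
  obtain ⟨m, hm, hmin⟩ := exists_norm_eq_iInf_of_complete_convex hne hKco hKc (0 : E)
  have hin := (norm_eq_iInf_iff_real_inner_le_zero hKc hm).1 hmin
  refine ⟨m, fun g => ?_, ?_⟩
  · have h1 := hin (ρ g m) (hinv g m hm)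
    rw [zero_sub, inner_neg_left, inner_sub_right, real_inner_self_eq_norm_sq] at h1
    have h2 : ‖ρ g m - m‖ ^ 2 = ‖ρ g m‖ ^ 2 - 2 * inner ℝ (ρ g m) m + ‖m‖ ^ 2 :=
      norm_sub_sq_real _ _
    rw [LinearIsometryEquiv.norm_map, real_inner_comm] at h2
    have h3 : ‖ρ g m - m‖ ^ 2 ≤ 0 := by linarith
    have h4 : ‖ρ g m - m‖ = 0 := by
      have := sq_nonneg ‖ρ g m - m‖
      exact pow_eq_zero_iff (two_ne_zero) |>.1 (le_antisymm h3 this)
    exact sub_eq_zero.1 (norm_eq_zero.1 h4)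
  · have h1 := hball hm
    rw [Metric.mem_closedBall, dist_eq_norm, norm_sub_rev] at h1
    exact h1

lemma small_norm [FiniteDimensional ℝ E] (ρ : SO X →* (E ≃ₗᵢ[ℝ] E)) (v : E) (hv : P ρ univ v = 0)
    (r : ℝ) (h : ∀ g, ‖ρ g v - v‖ ≤ r) : ‖v‖ ≤ r := by
  obtain ⟨m, hm, hvm⟩ := small_fix ρ v r h
  have hmf : m ∈ fixS ρ (sub (univ : Finset X)) := fun g _ => hm g
  have hvo : v ∈ (fixS ρ (sub (univ : Finset X)))ᗮ := by
    rw [← Submodule.starProjection_apply_eq_zero_iff]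
    exact hv
  have h0 : inner ℝ m v = 0 := Submodule.inner_right_of_mem_orthogonal hmf hvo
  have h1 : ‖v - m‖ ^ 2 = ‖v‖ ^ 2 - 2 * inner ℝ v m + ‖m‖ ^ 2 := norm_sub_sq_real _ _
  rw [real_inner_comm, h0] at h1
  have h2 : ‖v‖ ^ 2 ≤ ‖v - m‖ ^ 2 := by
    have := sq_nonneg ‖m‖
    linarith
  exact (abs_le_of_sq_le_sq' h2 (norm_nonneg _)).2.trans hvm

lemma small_disp {G : Type} [Group G] (ρ : G →* (E ≃ₗᵢ[ℝ] E)) (v : E) (a b : G) :
    ‖ρ (a * b) v - v‖ ≤ ‖ρ a v - v‖ + ‖ρ b v - v‖ := by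
  have h1 : ρ (a * b) v - v = ρ a (ρ b v - v) + (ρ a v - v) := by
    rw [map_sub, map_mul]
    show ρ a (ρ b v) - v = _
    abel
  rw [h1]
  refine (norm_add_le _ _).trans ?_
  rw [LinearIsometryEquiv.norm_map, add_comm]

end

theorem SMALL (hA : ST_AXIS) (hE : ST_EUL) (hI : ST_IRR) : ST_SMALL := by
  intro d₀
  obtain ⟨C, hC, hAx⟩ := hA d₀ (2 * Real.arctan 2) hI
  refine ⟨1 / (9 * C ^ 2), by positivity, ?_⟩
  intro E _ _ _ ρ hρ hd v hv
  obtain ⟨s, hs⟩ : ∃ s : ℝ, s = Real.sqrt (∑ i, ‖ρ (rho (gq i)) v - v‖ ^ 2) := ⟨_, rfl⟩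
  have hsum0 : 0 ≤ ∑ i, ‖ρ (rho (gq i)) v - v‖ ^ 2 := Finset.sum_nonneg fun i _ => sq_nonneg _
  have hs2 : s ^ 2 = ∑ i, ‖ρ (rho (gq i)) v - v‖ ^ 2 := by
    rw [hs, Real.sq_sqrt hsum0]
  have hs0 : 0 ≤ s := by rw [hs]; exact Real.sqrt_nonneg _
  have hsi : ∀ i, ‖ρ (rho (gq i)) v - v‖ ≤ s := by
    intro i
    rw [hs]
    apply Real.le_sqrt_of_sq_le
    exact Finset.single_le_sum (f := fun i => ‖ρ (rho (gq i)) v - v‖ ^ 2)
      (fun j _ => sq_nonneg _) (Finset.mem_univ i)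
  have hax : ∀ (i : Fin 3) (t : ℝ), ‖ρ (rho (ax i t)) v - v‖ ≤ C * s := by
    intro i t
    refine (hAx E ρ hρ hd i t v).trans ?_
    exact mul_le_mul_of_nonneg_left (hsi i) hC.le
  have hall : ∀ g, ‖ρ g v - v‖ ≤ 3 * C * s := by
    intro g
    obtain ⟨q, rfl⟩ := rho_surj g
    obtain ⟨a, b, c, rfl⟩ := hE q
    rw [rho_mul, rho_mul]
    have h1 := small_disp ρ v (rho (ax 2 a) * rho (ax 0 b)) (rho (ax 2 c))
    have h2 := small_disp ρ v (rho (ax 2 a)) (rho (ax 0 b))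
    have h3 := hax 2 a
    have h4 := hax 0 b
    have h5 := hax 2 c
    linarith
  have hn := small_norm ρ v hv _ hall
  rw [← hs2]
  have h1 : ‖v‖ ^ 2 ≤ (3 * C * s) ^ 2 := pow_le_pow_left₀ (norm_nonneg _) hn 2
  rw [div_mul_eq_mul_div, one_mul, div_le_iff₀ (by positivity)]
  calc ‖v‖ ^ 2 ≤ (3 * C * s) ^ 2 := h1
    _ = s ^ 2 * (9 * C ^ 2) := by ring

end

end SG23
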