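import Pool.Agent.N23.SG.Stm

/-!
Project SG (helper23), MP_839d28_al.  STAR: the star inequality for representations (helper401).
-/

namespace SG23
open Finset

noncomputable section

section star
variable {X : Type} [Fintype X] [DecidableEq X]

lemma star_ev_add (p q : MvPolynomial (X × X) ℝ) (x : SO X) : ev (p + q) x = ev p x + ev q x := by
  unfold ev; rw [map_add]

lemma star_ev_sub (p q : MvPolynomial (X × X) ℝ) (x : SO X) : ev (p - q) x = ev p x - ev q x := by
  unfold ev; rw [map_sub]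

lemma star_ev_mul (p q : MvPolynomial (X × X) ℝ) (x : SO X) : ev (p * q) x = ev p x * ev q x := by
  unfold ev; rw [map_mul]

lemma star_ev_pow (p : MvPolynomial (X × X) ℝ) (k : ℕ) (x : SO X) : ev (p ^ k) x = ev p x ^ k := by
  unfold ev; rw [map_pow]

lemma star_ev_sum {ι : Type} (s : Finset ι) (p : ι → MvPolynomial (X × X) ℝ) (x : SO X) :
    ev (∑ i ∈ s, p i) x = ∑ i ∈ s, ev (p i) x := by
  unfold ev; rw [map_sum]

lemma star_ev_C (c : ℝ) (x : SO X) : ev (MvPolynomial.C c) x = c := by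
  unfold ev; rw [MvPolynomial.eval_C]

lemma star_ev_smul (c : ℝ) (p : MvPolynomial (X × X) ℝ) (x : SO X) : ev (c • p) x = c * ev p x := by
  unfold ev; rw [MvPolynomial.smul_eval]

lemma star_ev_colp (j : X) (h : MvPolynomial X ℝ) (x : SO X) :
    ev (colp j h) x = MvPolynomial.eval (fun l => (x : Matrix X X ℝ) l j) h := by
  unfold ev colp
  rw [MvPolynomial.eval_rename]
  rfl

variable {I : MvPolynomial (X × X) ℝ →ₗ[ℝ] ℝ}

lemma star_mono (hI : IM I) {p q : MvPolynomial (X × X) ℝ} (h : ∀ x : SO X, ev p x ≤ ev q x) :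
    I p ≤ I q := by
  have h1 := hI.1 (q - p) (fun x => by rw [star_ev_sub]; linarith [h x])
  rw [map_sub] at h1
  linarith

lemma star_congr (hI : IM I) {p q : MvPolynomial (X × X) ℝ} (h : ∀ x : SO X, ev p x = ev q x) :
    I p = I q :=
  le_antisymm (star_mono hI fun x => (h x).le) (star_mono hI fun x => (h x).ge)

lemma star_C (hI : IM I) (c : ℝ) : I (MvPolynomial.C c) = c := by
  rw [MvPolynomial.C_eq_smul_one, map_smul, hI.2.1, smul_eq_mul, mul_one]

lemma star_const (hI : IM I) {p : MvPolynomial (X × X) ℝ} {c : ℝ} (h : ∀ x : SO X, ev p x = c) :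
    I p = c := by
  rw [star_congr hI (q := MvPolynomial.C c) fun x => by rw [h x, star_ev_C], star_C hI]

lemma star_abs (hI : IM I) {p q : MvPolynomial (X × X) ℝ} {c : ℝ}
    (h : ∀ x : SO X, |ev p x - ev q x| ≤ c) : |I p - I q| ≤ c := by
  rw [abs_le]
  constructor
  · have h1 := star_mono hI (p := q - MvPolynomial.C c) (q := p) fun x => by
      rw [star_ev_sub, star_ev_C]
      linarith [(abs_le.1 (h x)).1]
    rw [map_sub, star_C hI] at h1
    linarith
  · have h1 := star_mono hI (p := p) (q := q + MvPolynomial.C c) fun x => by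
      rw [star_ev_add, star_ev_C]
      linarith [(abs_le.1 (h x)).2]
    rw [map_add, star_C hI] at h1
    linarith

variable {E : Type} [NormedAddCommGroup E] [InnerProductSpace ℝ E] [FiniteDimensional ℝ E]

omit [FiniteDimensional ℝ E] in
/-- the matrix coefficient as a polynomial -/
lemma star_pf {ρ : SO X →* (E ≃ₗᵢ[ℝ] E)} (hρ : PR ρ) : ∃ pf : E → E → MvPolynomial (X × X) ℝ,
    ∀ (w u : E) (x : SO X), ev (pf w u) x = inner ℝ w (ρ x u) := by
  obtain ⟨k, hk⟩ := hρ
  choose P hP hP' using hk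
  exact ⟨fun w u => P u w, fun w u x => (hP' u w x).symm⟩

omit [FiniteDimensional ℝ E] in
/-- moving a rotation to the other side -/
lemma star_adj (ρ : SO X →* (E ≃ₗᵢ[ℝ] E)) (g : SO X) (v w : E) :
    inner ℝ w (ρ g v) = inner ℝ (ρ g⁻¹ w) v := by
  have h1 : ρ g (ρ g⁻¹ w) = w := by
    have h2 : ρ g (ρ g⁻¹ w) = ρ (g * g⁻¹) w := by rw [map_mul]; rfl
    rw [h2, mul_inv_cancel, map_one]
    rfl
  calc inner ℝ w (ρ g v) = inner ℝ (ρ g (ρ g⁻¹ w)) (ρ g v) := by rw [h1]
    _ = _ := LinearIsometryEquiv.inner_map_map _ _ _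

/-- the mean of a matrix coefficient of a vector orthogonal to the fixed vectors -/
lemma star_mean (hI : IM I) (ρ : SO X →* (E ≃ₗᵢ[ℝ] E)) {pf : E → E → MvPolynomial (X × X) ℝ}
    (hpf : ∀ (w u : E) (x : SO X), ev (pf w u) x = inner ℝ w (ρ x u)) {u : E}
    (hu : P ρ univ u = 0) (w : E) : I (pf w u) = 0 := by
  classical
  set b := stdOrthonormalBasis ℝ E with hb
  set z : E := ∑ a, I (pf (b a) u) • b a with hz
  have h1 : ∀ w : E, inner ℝ w z = I (pf w u) := by
    intro w
    rw [hz, inner_sum]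
    have h2 : I (pf w u) = I (∑ a, (inner ℝ w (b a) : ℝ) • pf (b a) u) := by
      apply star_congr hI
      intro x
      rw [hpf, star_ev_sum]
      simp only [star_ev_smul, hpf]
      rw [← OrthonormalBasis.sum_inner_mul_inner b w (ρ x u)]
    rw [h2, map_sum]
    refine sum_congr rfl fun a _ => ?_
    rw [map_smul, smul_eq_mul, real_inner_smul_right, mul_comm]
  have h2 : ∀ g : SO X, ρ g z = z := by
    intro g
    apply ext_inner_left ℝ
    intro w
    rw [star_adj, h1, h1]
    apply hI.2.2.1 g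
    intro x
    rw [hpf, hpf, map_mul, ← star_adj]
    rfl
  have hzf : z ∈ fixS ρ (sub univ) := fun g _ => h2 g
  have h3 : I (pf z u) = 0 := by
    apply star_const hI
    intro x
    rw [hpf, star_adj, h2]
    have h4 := Submodule.starProjection_inner_eq_zero (K := fixS ρ (sub univ)) u z hzf
    have h5 : (fixS ρ (sub univ)).starProjection u = 0 := hu
    rw [h5, sub_zero, real_inner_comm] at h4
    exact h4
  have h4 : z = 0 := by
    rw [← h1] at h3
    exact inner_self_eq_zero.1 h3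
  rw [← h1, h4, inner_zero_right]

/-- squares of nearby numbers -/
lemma star_sq {a b e c : ℝ} (h : |a - b| ≤ e) (hb : |a| ≤ c) :
    |a ^ 2 - b ^ 2| ≤ e * (2 * c + e) := by
  have h1 : a ^ 2 - b ^ 2 = (a - b) * (2 * a - (a - b)) := by ring
  have h2 : |2 * a - (a - b)| ≤ 2 * c + e := by
    refine (abs_sub _ _).trans ?_
    rw [abs_mul, abs_two]
    linarith
  rw [h1, abs_mul]
  exact mul_le_mul h h2 (abs_nonneg _) ((abs_nonneg _).trans h)

/-- the star inequality for vectors orthogonal to the fixed vectors -/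
lemma star_claim (hH : ST_HM) (hF : ST_STARF) (hC : ST_COLFN) (hX : 3 ≤ Fintype.card X)
    (ρ : SO X →* (E ≃ₗᵢ[ℝ] E)) (hρ : PR ρ) (u : X → E)
    (hu : ∀ j, ∀ g ∈ sub (univ.erase j), ρ g (u j) = u j) (hu0 : ∀ j, P ρ univ (u j) = 0) :
    ‖∑ j, u j‖ ^ 2 ≤ (1 + 3 / (Fintype.card X : ℝ)) * ∑ j, ‖u j‖ ^ 2 := by
  classical
  obtain ⟨I, hI⟩ := hH X
  obtain ⟨pf, hpf⟩ := star_pf hρ
  set b := stdOrthonormalBasis ℝ E with hb
  set n : ℝ := (Fintype.card X : ℝ) with hn
  set N : ℝ := (Module.finrank ℝ E : ℝ) with hN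
  set B : ℝ := ∑ j, ‖u j‖ with hB
  have hn0 : 0 < n := by rw [hn]; exact_mod_cast (by omega : 0 < Fintype.card X)
  have hN0 : 0 ≤ N := by rw [hN]; positivity
  have hB0 : 0 ≤ B := sum_nonneg fun j _ => norm_nonneg _
  have hbn : ∀ a, ‖b a‖ = 1 := fun a => b.orthonormal.1 a
  have hnb : ∀ (a) (w : E) (x : SO X), |ev (pf (b a) w) x| ≤ ‖w‖ := by
    intro a w x
    rw [hpf]
    refine (abs_real_inner_le_norm _ _).trans ?_
    rw [hbn, one_mul, LinearIsometryEquiv.norm_map]
  have hsq : ∀ w : E, ∑ a, I (pf (b a) w ^ 2) = ‖w‖ ^ 2 := by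
    intro w
    rw [← map_sum]
    apply star_const hI
    intro x
    rw [star_ev_sum]
    simp only [star_ev_pow, hpf]
    have h1 := OrthonormalBasis.sum_sq_norm_inner_right b (ρ x w)
    rw [LinearIsometryEquiv.norm_map] at h1
    rw [← h1]
    refine sum_congr rfl fun a _ => ?_
    rw [Real.norm_eq_abs, sq_abs]
  -- the error
  set K : ℝ := N * ((2 * n) * (2 * B + 2 * n)) + (1 + 3 / n) * (N * (n * (2 * (2 * B + 2)))) with hK
  have hK0 : 0 ≤ K := by rw [hK]; positivity
  have key : ∀ ε : ℝ, 0 < ε → ε ≤ 1 → ‖∑ j, u j‖ ^ 2 ≤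
      (1 + 3 / n) * ∑ j, ‖u j‖ ^ 2 + ε * K := by
    intro ε hε hε1
    have hex : ∀ (a) (j : X), ∃ k : MvPolynomial X ℝ, I (colp j k) = 0 ∧
        ∀ x : SO X, |ev (pf (b a) (u j)) x - ev (colp j k) x| ≤ 2 * ε := by
      intro a j
      obtain ⟨h, hh⟩ := hC X E ρ hρ j (u j) (b a) (hu j) ε hε
      have h1 : ∀ x : SO X, |ev (pf (b a) (u j)) x - ev (colp j h) x| ≤ ε := by
        intro x
        rw [hpf, star_ev_colp]
        exact hh x
      have h2 := star_abs hI h1
      rw [star_mean hI ρ hpf (hu0 j), zero_sub, abs_neg] at h2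
      refine ⟨h - MvPolynomial.C (I (colp j h)), ?_, ?_⟩
      · have e : colp j (h - MvPolynomial.C (I (colp j h))) =
            colp j h - MvPolynomial.C (I (colp j h)) := by
          rw [map_sub]
          congr 1
          unfold colp
          exact MvPolynomial.rename_C _ _
        rw [e, map_sub, star_C hI, sub_self]
      · intro x
        have e : ev (colp j (h - MvPolynomial.C (I (colp j h)))) x =
            ev (colp j h) x - I (colp j h) := by
          rw [star_ev_colp, star_ev_colp, map_sub, MvPolynomial.eval_C]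
        rw [e]
        have h3 : ev (pf (b a) (u j)) x - (ev (colp j h) x - I (colp j h)) =
            (ev (pf (b a) (u j)) x - ev (colp j h) x) + I (colp j h) := by ring
        rw [h3]
        refine (abs_add_le _ _).trans ?_
        linarith [h1 x]
    choose k hk1 hk2 using hex
    have hstar := fun a => hF X hX I hI (k a) (hk1 a)
    -- the sum
    have hA : ∀ a, I ((∑ j, pf (b a) (u j)) ^ 2) ≤ I ((∑ j, colp j (k a j)) ^ 2) +
        ε * ((2 * n) * (2 * B + 2 * n)) := by
      intro a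
      have h1 : |I ((∑ j, pf (b a) (u j)) ^ 2) - I ((∑ j, colp j (k a j)) ^ 2)| ≤
          (2 * n * ε) * (2 * B + 2 * n * ε) := by
        apply star_abs hI
        intro x
        rw [star_ev_pow, star_ev_pow]
        apply star_sq
        · rw [star_ev_sum, star_ev_sum, ← sum_sub_distrib]
          refine (abs_sum_le_sum_abs _ _).trans ((sum_le_sum fun j _ => hk2 a j x).trans ?_)
          rw [sum_const, card_univ, nsmul_eq_mul, ← hn]
          linarith
        · rw [star_ev_sum]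
          exact (abs_sum_le_sum_abs _ _).trans (sum_le_sum fun j _ => hnb a (u j) x)
      have h2 : (2 * n * ε) * (2 * B + 2 * n * ε) ≤ ε * ((2 * n) * (2 * B + 2 * n)) := by
        have : n * ε ≤ n := by nlinarith
        have h3 : (2 * n * ε) * (2 * B + 2 * n * ε) ≤ (2 * n * ε) * (2 * B + 2 * n) := by
          apply mul_le_mul_of_nonneg_left _ (by positivity)
          linarith
        linarith
      linarith [(abs_le.1 h1).2]
    have hD : ∀ a j, I (colp j (k a j) ^ 2) ≤ I (pf (b a) (u j) ^ 2) +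
        ε * (2 * (2 * B + 2)) := by
      intro a j
      have h1 : |I (pf (b a) (u j) ^ 2) - I (colp j (k a j) ^ 2)| ≤
          (2 * ε) * (2 * B + 2 * ε) := by
        apply star_abs hI
        intro x
        rw [star_ev_pow, star_ev_pow]
        apply star_sq (hk2 a j x)
        refine (hnb a (u j) x).trans ?_
        exact single_le_sum (f := fun j => ‖u j‖) (fun j _ => norm_nonneg _) (mem_univ j)
      have h2 : (2 * ε) * (2 * B + 2 * ε) ≤ ε * (2 * (2 * B + 2)) := by nlinarith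
      linarith [(abs_le.1 h1).1]
    have h1 : ‖∑ j, u j‖ ^ 2 = ∑ a, I ((∑ j, pf (b a) (u j)) ^ 2) := by
      rw [← hsq]
      refine sum_congr rfl fun a _ => ?_
      apply star_congr hI
      intro x
      rw [star_ev_pow, star_ev_pow, star_ev_sum, hpf, map_sum, inner_sum]
      simp only [hpf]
    have hcard : ((univ : Finset (Fin (Module.finrank ℝ E))).card : ℝ) = N := by
      rw [card_univ, Fintype.card_fin]
    rw [h1]
    calc ∑ a, I ((∑ j, pf (b a) (u j)) ^ 2) ≤
          ∑ a, ((1 + 3 / n) * ∑ j, (I (pf (b a) (u j) ^ 2) + ε * (2 * (2 * B + 2))) +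
            ε * ((2 * n) * (2 * B + 2 * n))) := by
          refine sum_le_sum fun a _ => (hA a).trans ?_
          have h2 := hstar a
          have h3 : (1 + 3 / n) * ∑ j, I (colp j (k a j) ^ 2) ≤
              (1 + 3 / n) * ∑ j, (I (pf (b a) (u j) ^ 2) + ε * (2 * (2 * B + 2))) :=
            mul_le_mul_of_nonneg_left (sum_le_sum fun j _ => hD a j) (by positivity)
          linarith
      _ = (1 + 3 / n) * ∑ j, ‖u j‖ ^ 2 + ε * K := by
          rw [sum_add_distrib, ← mul_sum, sum_const, nsmul_eq_mul, hcard, sum_comm]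
          have h4 : ∀ j : X, ∑ a, (I (pf (b a) (u j) ^ 2) + ε * (2 * (2 * B + 2))) =
              ‖u j‖ ^ 2 + N * (ε * (2 * (2 * B + 2))) := by
            intro j
            rw [sum_add_distrib, hsq, sum_const, nsmul_eq_mul, hcard]
          rw [sum_congr rfl fun j _ => h4 j, sum_add_distrib, sum_const, card_univ, nsmul_eq_mul,
            ← hn, hK]
          ring
  apply le_of_forall_pos_le_add
  intro δ hδ
  have h1 := key (min 1 (δ / (K + 1))) (lt_min one_pos (by positivity)) (min_le_left _ _)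
  have h2 : min 1 (δ / (K + 1)) * K ≤ δ := by
    have h3 : min 1 (δ / (K + 1)) * K ≤ δ / (K + 1) * K :=
      mul_le_mul_of_nonneg_right (min_le_right _ _) hK0
    have h4 : δ / (K + 1) * K ≤ δ := by
      rw [div_mul_eq_mul_div, div_le_iff₀ (by positivity)]
      nlinarith
    linarith
  linarith

end star

theorem STAR (hH : ST_HM) (hF : ST_STARF) (hC : ST_COLFN) (hP : ST_PMONO) : ST_STAR := by
  intro X _ _ hX E _ _ _ ρ hρ v
  obtain ⟨hP1, -, -⟩ := hP X E ρ
  set n : ℝ := (Fintype.card X : ℝ) with hn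
  have hn0 : 0 < n := by rw [hn]; exact_mod_cast (by omega : 0 < Fintype.card X)
  set v0 : E := P ρ univ v with hv0
  set v1 : E := v - v0 with hv1
  set u : X → E := fun j => P ρ (univ.erase j) v1 with hu
  have hsym : ∀ (S : Finset X) (a c : E), inner ℝ (P ρ S a) c = inner ℝ a (P ρ S c) := fun S a c =>
    Submodule.inner_starProjection_left_eq_right _ a c
  have h00 : P ρ univ v0 = v0 := (hP1 univ univ (Subset.refl _) v).1
  have h01 : P ρ univ v1 = 0 := by rw [hv1, map_sub, h00, sub_self]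
  have hj0 : ∀ j, P ρ (univ.erase j) v0 = v0 := fun j => (hP1 _ _ (subset_univ _) v).1
  have hu0 : ∀ j, P ρ univ (u j) = 0 := by
    intro j
    rw [hu]
    show P ρ univ (P ρ (univ.erase j) v1) = 0
    rw [(hP1 _ _ (subset_univ _) v1).2, h01]
  have hcl := star_claim hH hF hC hX ρ hρ u
    (fun j g hg => Submodule.starProjection_apply_mem (fixS ρ (sub (univ.erase j))) v1 g hg) hu0
  rw [← hn] at hcl
  set A : ℝ := ∑ j, ‖u j‖ ^ 2 with hA
  have hA0 : 0 ≤ A := sum_nonneg fun j _ => sq_nonneg _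
  have h1 : A ≤ ‖∑ j, u j‖ * ‖v1‖ := by
    have h2 : ∀ j, ‖u j‖ ^ 2 = inner ℝ (u j) v1 := by
      intro j
      rw [← real_inner_self_eq_norm_sq]
      have h3 : P ρ (univ.erase j) (u j) = u j := (hP1 _ _ (Subset.refl _) v1).1
      calc inner ℝ (u j) (u j) = inner ℝ (u j) (P ρ (univ.erase j) v1) := rfl
        _ = inner ℝ (P ρ (univ.erase j) (u j)) v1 := (hsym _ _ _).symm
        _ = inner ℝ (u j) v1 := by rw [h3]
    rw [hA, sum_congr rfl fun j _ => h2 j, ← sum_inner]
    exact real_inner_le_norm _ _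
  have hc0 : 0 ≤ 1 + 3 / n := by positivity
  have h2 : A ≤ (1 + 3 / n) * ‖v1‖ ^ 2 := by
    rcases hA0.eq_or_lt with h | h
    · rw [← h]
      positivity
    · have h3 : A ^ 2 ≤ (‖∑ j, u j‖ * ‖v1‖) ^ 2 := pow_le_pow_left₀ hA0 h1 2
      rw [mul_pow] at h3
      have h4 : A ^ 2 ≤ ((1 + 3 / n) * A) * ‖v1‖ ^ 2 :=
        h3.trans (mul_le_mul_of_nonneg_right hcl (sq_nonneg _))
      have h5 : A * A ≤ A * ((1 + 3 / n) * ‖v1‖ ^ 2) := by nlinarith
      exact le_of_mul_le_mul_left h5 h
  have h3 : ‖v1‖ ^ 2 = ‖v‖ ^ 2 - ‖v0‖ ^ 2 := by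
    have h4 : inner ℝ v0 v1 = (0 : ℝ) := by
      rw [← h00, hsym, h01, inner_zero_right]
    have h5 : v = v0 + v1 := by rw [hv1]; abel
    have h6 : ‖v‖ ^ 2 = ‖v0‖ ^ 2 + ‖v1‖ ^ 2 := by
      rw [h5, norm_add_sq_real, h4]
      ring
    linarith
  have h4 : ∀ j, ‖P ρ (univ.erase j) v‖ ^ 2 = ‖v0‖ ^ 2 + ‖u j‖ ^ 2 := by
    intro j
    have h5 : P ρ (univ.erase j) v = v0 + u j := by
      have h6 : v = v0 + v1 := by rw [hv1]; abel
      conv_lhs => rw [h6]
      rw [map_add, hj0]
    have h6 : inner ℝ v0 (u j) = (0 : ℝ) := by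
      rw [← h00, hsym, hu0, inner_zero_right]
    rw [h5, norm_add_sq_real, h6]
    ring
  rw [sum_congr rfl fun j _ => h4 j, sum_add_distrib, sum_const, card_univ, nsmul_eq_mul, ← hn, ← hA]
  rw [h3] at h2
  have h5 : (1 + 3 / n) * (‖v‖ ^ 2 - ‖v0‖ ^ 2) = (1 + 3 / n) * ‖v‖ ^ 2 - (1 + 3 / n) * ‖v0‖ ^ 2 := by
    ring
  linarith

end

end SG23
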