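import Pool.Agent.N23.SG.Stm

/-!
Project SG (helper23), MP_839d28_al.  STARF: the star inequality for functions (helper816).
-/

set_option linter.unusedSectionVars false

namespace SG23
open Finset MvPolynomial

noncomputable section

section starf
variable {X : Type} [Fintype X] [DecidableEq X]

lemma starf_ev_colp (j : X) (p : MvPolynomial X ℝ) (x : SO X) :
    ev (colp j p) x = eval (fun l => (x : Matrix X X ℝ) l j) p := by
  unfold ev colp
  rw [MvPolynomial.eval_rename]
  rfl

lemma starf_ev_mul (p q : MvPolynomial (X × X) ℝ) (x : SO X) :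
    ev (p * q) x = ev p x * ev q x := by
  unfold ev; rw [map_mul]

lemma starf_rot (h3 : 3 ≤ Fintype.card X) {i j i' j' : X} (hij : i ≠ j) (hij' : i' ≠ j') :
    ∃ g : SO X, (∀ l, (g : Matrix X X ℝ) l i = if l = i' then 1 else 0) ∧
      (∀ l, (g : Matrix X X ℝ) l j = if l = j' then 1 else 0) := by
  obtain ⟨σ, h1, h2⟩ : ∃ σ : Equiv.Perm X, σ i = i' ∧ σ j = j' := by
    refine ⟨Equiv.swap (Equiv.swap i i' j) j' * Equiv.swap i i', ?_, ?_⟩
    · rw [Equiv.Perm.mul_apply, Equiv.swap_apply_left]
      apply Equiv.swap_apply_of_ne_of_ne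
      · intro h
        apply hij
        apply (Equiv.swap i i').injective
        rw [Equiv.swap_apply_left]
        exact h
      · exact hij'
    · rw [Equiv.Perm.mul_apply, Equiv.swap_apply_left]
  obtain ⟨k, hk⟩ : ∃ k, k ∉ ({i, j} : Finset X) := by
    by_contra hc
    push Not at hc
    have h4 : (univ : Finset X) ⊆ {i, j} := fun x _ => hc x
    have h5 := card_le_card h4
    have h6 : #({i, j} : Finset X) ≤ 2 := card_le_two
    rw [card_univ] at h5
    omega
  rw [mem_insert, mem_singleton] at hk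
  push Not at hk
  obtain ⟨s, hs⟩ : ∃ s : ℝ, s = (((Equiv.Perm.sign σ : ℤˣ) : ℤ) : ℝ) := ⟨_, rfl⟩
  have hss : s * s = 1 := by
    rcases Int.units_eq_one_or (Equiv.Perm.sign σ) with h | h <;> rw [hs, h] <;> norm_num
  obtain ⟨d, hd⟩ : ∃ d : X → ℝ, d = fun a => if a = k then s else 1 := ⟨_, rfl⟩
  have hpp : (pmat σ).transpose * pmat σ = 1 := by
    have h1 : (pmat σ).transpose = pmat σ⁻¹ := by
      ext i j
      rw [Matrix.transpose_apply, pmat_apply, pmat_apply]
      have : σ i = j ↔ σ⁻¹ j = i := by rw [Equiv.Perm.inv_eq_iff_eq, eq_comm]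
      simp only [this]
    rw [h1, ← pmat_mul, inv_mul_cancel, pmat_one]
  have hdd : Matrix.diagonal d * Matrix.diagonal d = (1 : Matrix X X ℝ) := by
    rw [Matrix.diagonal_mul_diagonal, ← Matrix.diagonal_one]
    congr 1
    funext a
    rw [hd]
    simp only
    split_ifs
    · exact hss
    · norm_num
  have hdet : (pmat σ).det = s := by
    rw [pmat, Matrix.det_transpose, Matrix.det_permutation, hs]
  have hM : pmat σ * Matrix.diagonal d ∈ Matrix.specialOrthogonalGroup X ℝ := by
    rw [mem_SO]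
    constructor
    · rw [Matrix.transpose_mul, Matrix.diagonal_transpose, Matrix.mul_assoc,
        ← Matrix.mul_assoc (pmat σ).transpose, hpp, Matrix.one_mul, hdd]
    · rw [Matrix.det_mul, Matrix.det_diagonal, hdet, hd, Finset.prod_ite_eq' univ k fun _ => s,
        if_pos (mem_univ _), hss]
  refine ⟨⟨_, hM⟩, fun l => ?_, fun l => ?_⟩
  · change (pmat σ * Matrix.diagonal d) l i = _
    rw [Matrix.mul_diagonal, pmat_apply, h1, hd]
    simp only [if_neg (Ne.symm hk.1), mul_one, eq_comm]
  · change (pmat σ * Matrix.diagonal d) l j = _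
    rw [Matrix.mul_diagonal, pmat_apply, h2, hd]
    simp only [if_neg (Ne.symm hk.2), mul_one, eq_comm]

lemma starf_col {i i' : X} {g : SO X} (hg : ∀ l, (g : Matrix X X ℝ) l i = if l = i' then 1 else 0)
    (p : MvPolynomial X ℝ) (x : SO X) : ev (colp i' p) x = ev (colp i p) (x * g) := by
  rw [starf_ev_colp, starf_ev_colp]
  congr 2
  funext l
  change _ = ((x : Matrix X X ℝ) * (g : Matrix X X ℝ)) l i
  rw [Matrix.mul_apply, Finset.sum_eq_single i']
  · rw [hg, if_pos rfl, mul_one]
  · intro b _ hb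
    rw [hg, if_neg hb, mul_zero]
  · intro h; exact absurd (mem_univ _) h

/-- invariance for two columns -/
lemma starf_inv2 (h3 : 3 ≤ Fintype.card X) {I : MvPolynomial (X × X) ℝ →ₗ[ℝ] ℝ} (hI : IM I)
    {i j i' j' : X} (hij : i ≠ j) (hij' : i' ≠ j') (p q : MvPolynomial X ℝ) :
    I (colp i' p * colp j' q) = I (colp i p * colp j q) := by
  obtain ⟨g, h1, h2⟩ := starf_rot h3 hij hij'
  refine hI.2.2.2 g _ _ fun x => ?_
  rw [starf_ev_mul, starf_ev_mul, starf_col h1, starf_col h2]

/-- invariance for one column -/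
lemma starf_inv1 (h3 : 3 ≤ Fintype.card X) {I : MvPolynomial (X × X) ℝ →ₗ[ℝ] ℝ} (hI : IM I)
    (i i' : X) (p : MvPolynomial X ℝ) : I (colp i' p) = I (colp i p) := by
  have hne : ∀ i : X, ∃ j, i ≠ j := by
    intro i
    by_contra hc
    push Not at hc
    have : Fintype.card X ≤ 1 := Fintype.card_le_one_iff.2 fun a b => (hc a).symm.trans (hc b)
    omega
  obtain ⟨j, hj⟩ := hne i
  obtain ⟨j', hj'⟩ := hne i'
  obtain ⟨g, h1, -⟩ := starf_rot h3 hj hj'
  exact hI.2.2.2 g _ _ fun x => starf_col h1 p x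

/-- the form -/
def starfB (I : MvPolynomial (X × X) ℝ →ₗ[ℝ] ℝ) (i j : X) :
    MvPolynomial X ℝ →ₗ[ℝ] MvPolynomial X ℝ →ₗ[ℝ] ℝ :=
  LinearMap.mk₂ ℝ (fun p q => I (colp i p * colp j q))
    (fun a b c => by rw [map_add, add_mul, map_add])
    (fun r a b => by rw [map_smul, smul_mul_assoc, map_smul])
    (fun a b c => by rw [map_add, mul_add, map_add])
    (fun r a b => by rw [map_smul, mul_smul_comm, map_smul])

lemma starfB_apply (I : MvPolynomial (X × X) ℝ →ₗ[ℝ] ℝ) (i j : X) (p q : MvPolynomial X ℝ) :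
    starfB I i j p q = I (colp i p * colp j q) := rfl

/-- span of the powers of linear forms with exponent at most `k` -/
def starfW (X : Type) [Fintype X] (k : ℕ) : Submodule ℝ (MvPolynomial X ℝ) :=
  Submodule.span ℝ {p | ∃ (a : X → ℝ) (s : ℕ), s ≤ k ∧ p = lin a ^ s}

lemma starf_coef {V : Type} [AddCommGroup V] [Module ℝ V] (W : Submodule ℝ V) (n : ℕ) (v : ℕ → V)
    (h : ∀ t : ℝ, ∑ j ∈ range n, t ^ j • v j ∈ W) (j : ℕ) (hj : j < n) : v j ∈ W := by
  by_contra hc
  obtain ⟨f, hf, hW⟩ := Submodule.exists_dual_map_eq_bot_of_notMem hc inferInstance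
  have hq : (∑ j ∈ range n, Polynomial.C (f (v j)) * Polynomial.X ^ j : Polynomial ℝ) = 0 := by
    apply Polynomial.funext
    intro t
    have h1 : f (∑ j ∈ range n, t ^ j • v j) = 0 := by
      have h2 : f (∑ j ∈ range n, t ^ j • v j) ∈ W.map f := Submodule.mem_map_of_mem (h t)
      rwa [hW, Submodule.mem_bot] at h2
    rw [map_sum] at h1
    rw [Polynomial.eval_finsetSum, Polynomial.eval_zero, ← h1]
    refine Finset.sum_congr rfl fun i _ => ?_
    rw [Polynomial.eval_mul, Polynomial.eval_C, Polynomial.eval_pow, Polynomial.eval_X, map_smul,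
      smul_eq_mul, mul_comm]
  have h3 := congrArg (fun p => Polynomial.coeff p j) hq
  simp only [Polynomial.finsetSum_coeff, Polynomial.coeff_C_mul, Polynomial.coeff_X_pow,
    Polynomial.coeff_zero] at h3
  rw [Finset.sum_eq_single j] at h3
  · rw [if_pos rfl, mul_one] at h3
    exact hf h3
  · intro b _ hb
    rw [if_neg (Ne.symm hb), mul_zero]
  · intro h; exact absurd (mem_range.2 hj) h

lemma starf_lin_add (a : X → ℝ) (t : ℝ) (i : X) :
    lin (a + Pi.single i t) = C t * MvPolynomial.X i + lin a := by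
  unfold lin
  simp only [Pi.add_apply, map_add, add_mul, Finset.sum_add_distrib]
  rw [add_comm]
  congr 1
  rw [Finset.sum_eq_single i]
  · rw [Pi.single_eq_same]
  · intro b _ hb
    rw [Pi.single_eq_of_ne hb, C_0, zero_mul]
  · intro h; exact absurd (mem_univ _) h

lemma starfW_mono {k l : ℕ} (h : k ≤ l) : starfW X k ≤ starfW X l := by
  apply Submodule.span_mono
  rintro p ⟨a, s, hs, rfl⟩
  exact ⟨a, s, hs.trans h, rfl⟩

lemma starf_X_mul {k : ℕ} {p : MvPolynomial X ℝ} (hp : p ∈ starfW X k) (i : X) :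
    MvPolynomial.X i * p ∈ starfW X (k + 1) := by
  induction hp using Submodule.span_induction with
  | mem p hp =>
    obtain ⟨a, s, hs, rfl⟩ := hp
    refine starfW_mono (show s + 1 ≤ k + 1 by omega) ?_
    have h1 := starf_coef (starfW X (s + 1)) (s + 1 + 1)
      (fun m => MvPolynomial.X i ^ m * lin a ^ (s + 1 - m) * ((s + 1).choose m : MvPolynomial X ℝ))
      (fun t => ?_) 1 (by omega)
    · simp only [pow_one, Nat.add_sub_cancel, Nat.choose_one_right] at h1
      have h2 : (((s : ℝ) + 1)⁻¹) • (MvPolynomial.X i * lin a ^ s * ((s + 1 : ℕ) : MvPolynomial X ℝ)) =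
          MvPolynomial.X i * lin a ^ s := by
        rw [show ((s + 1 : ℕ) : MvPolynomial X ℝ) = C ((s : ℝ) + 1) by simp, mul_comm,
          ← MvPolynomial.smul_eq_C_mul, smul_smul, inv_mul_cancel₀ (by positivity), one_smul]
      rw [← h2]
      exact Submodule.smul_mem _ _ h1
    · have h2 : ∑ j ∈ range (s + 1 + 1), t ^ j • (MvPolynomial.X i ^ j * lin a ^ (s + 1 - j) *
          ((s + 1).choose j : MvPolynomial X ℝ)) = lin (a + Pi.single i t) ^ (s + 1) := by
        rw [starf_lin_add, add_pow]
        refine Finset.sum_congr rfl fun j _ => ?_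
        rw [MvPolynomial.smul_eq_C_mul, mul_pow, C_pow]
        ring
      rw [h2]
      exact Submodule.subset_span ⟨_, _, le_rfl, rfl⟩
  | zero => rw [mul_zero]; exact Submodule.zero_mem _
  | add p q _ _ hp hq => rw [mul_add]; exact Submodule.add_mem _ hp hq
  | smul r p _ hp => rw [mul_smul_comm]; exact Submodule.smul_mem _ _ hp

lemma starf_mono (n : ℕ) : ∀ m : X →₀ ℕ, m.degree = n → monomial m (1 : ℝ) ∈ starfW X n := by
  induction n with
  | zero =>
    intro m hm
    have h1 : m = 0 := by
      rw [Finsupp.degree_eq_zero_iff] at hm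
      exact hm
    subst h1
    refine Submodule.subset_span ⟨0, 0, le_rfl, ?_⟩
    rw [pow_zero]
    rfl
  | succ n ih =>
    intro m hm
    obtain ⟨i, hi⟩ : ∃ i, m i ≠ 0 := by
      by_contra hc
      push Not at hc
      have : m = 0 := Finsupp.ext hc
      rw [this, map_zero] at hm
      omega
    have h1 : m = (m - Finsupp.single i 1) + Finsupp.single i 1 := by
      ext j
      rw [Finsupp.add_apply, Finsupp.tsub_apply]
      by_cases hj : i = j
      · subst hj
        rw [Finsupp.single_eq_same]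
        omega
      · rw [Finsupp.single_eq_of_ne (Ne.symm hj)]
        omega
    have h2 : (m - Finsupp.single i 1).degree = n := by
      have h3 := congrArg Finsupp.degree h1
      rw [map_add, Finsupp.degree_single, hm] at h3
      omega
    rw [h1, MvPolynomial.monomial_add_single, pow_one, mul_comm]
    exact starf_X_mul (ih _ h2) i

lemma starf_mem {k : ℕ} {p : MvPolynomial X ℝ} (hp : p.totalDegree ≤ k) : p ∈ starfW X k := by
  rw [MvPolynomial.as_sum p]
  refine Submodule.sum_mem _ fun m hm => ?_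
  have h1 : monomial m (coeff m p) = coeff m p • monomial m (1 : ℝ) := by
    rw [MvPolynomial.smul_monomial, smul_eq_mul, mul_one]
  rw [h1]
  refine Submodule.smul_mem _ _ (starfW_mono ?_ (starf_mono _ m rfl))
  have h2 := MvPolynomial.le_totalDegree hm
  refine le_trans (le_of_eq ?_) (h2.trans hp)
  rw [Finsupp.degree_eq_sum, Finsupp.sum_fintype]
  intro _; rfl

lemma starf_deg_lin (a : X → ℝ) : (lin a).totalDegree ≤ 1 := by
  unfold lin
  refine (totalDegree_finsetSum _ _).trans ?_
  rw [Finset.sup_le_iff]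
  intro l _
  refine (totalDegree_mul _ _).trans ?_
  rw [totalDegree_C, zero_add, totalDegree_X]

lemma starf_deg_pow {p : MvPolynomial X ℝ} {d : ℕ} (hp : p.totalDegree ≤ d) (n : ℕ) :
    (p ^ n).totalDegree ≤ n * d :=
  (totalDegree_pow _ _).trans (Nat.mul_le_mul_left _ hp)

lemma starf_deg_sub (a : X → ℝ) (c : ℝ) (r : ℕ) :
    ((C c - lin a ^ 2) ^ (r + 1) - (-1) ^ (r + 1) * lin a ^ (2 * (r + 1))).totalDegree ≤
      2 * r + 1 := by
  have h1 : (C c - lin a ^ 2).totalDegree ≤ 2 := by
    refine (totalDegree_sub _ _).trans ?_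
    rw [totalDegree_C]
    exact max_le (by omega) (starf_deg_pow (starf_deg_lin a) 2)
  induction r with
  | zero =>
    have h2 : (C c - lin a ^ 2) ^ (0 + 1) - (-1) ^ (0 + 1) * lin a ^ (2 * (0 + 1)) =
        (C c : MvPolynomial X ℝ) := by ring
    rw [h2, totalDegree_C]
    omega
  | succ r ih =>
    have h2 : (C c - lin a ^ 2) ^ (r + 1 + 1) - (-1) ^ (r + 1 + 1) * lin a ^ (2 * (r + 1 + 1)) =
        (C c - lin a ^ 2) * ((C c - lin a ^ 2) ^ (r + 1) - (-1) ^ (r + 1) * lin a ^ (2 * (r + 1))) +
          C (c * (-1) ^ (r + 1)) * lin a ^ (2 * (r + 1)) := by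
      rw [C_mul, C_pow, C_neg, C_1]
      ring
    rw [h2]
    refine (totalDegree_add _ _).trans (max_le ?_ ?_)
    · refine (totalDegree_mul _ _).trans ?_
      omega
    · refine (totalDegree_mul _ _).trans ?_
      rw [totalDegree_C, zero_add]
      have := starf_deg_pow (starf_deg_lin a) (2 * (r + 1))
      omega

/-- the eigenvalues -/
def starfK (c : ℕ → ℝ) (k : ℕ) : ℝ := if k % 2 = 0 then (-1) ^ (k / 2) * c (k / 2) else 0

end starf

theorem STARF : ST_PAIRI → ST_FLAG → ST_STARF := by
  intro hP hF X _ _ h3 I hI h hh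
  obtain ⟨c, c0, c1, cpos, cle, hc⟩ := hP X h3 I hI
  obtain ⟨i0, j0, hij⟩ : ∃ i0 j0 : X, i0 ≠ j0 := by
    by_contra hcon
    push Not at hcon
    have : Fintype.card X ≤ 1 := Fintype.card_le_one_iff.2 hcon
    omega
  have hn : (3 : ℝ) ≤ Fintype.card X := by exact_mod_cast h3
  set n : ℝ := (Fintype.card X : ℝ) with hn'
  set A := starfB I i0 i0 with hA
  set B := starfB I i0 j0 with hB
  have hAsymm : ∀ p q, A p q = A q p := by
    intro p q
    rw [hA, starfB_apply, starfB_apply, mul_comm]
  have hBsymm : ∀ p q, B p q = B q p := by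
    intro p q
    rw [hB, starfB_apply, starfB_apply, starf_inv2 h3 hI hij.symm hij, mul_comm]
  have hApos : ∀ p, 0 ≤ A p p := by
    intro p
    rw [hA, starfB_apply]
    refine hI.1 _ fun x => ?_
    rw [starf_ev_mul]
    exact mul_self_nonneg _
  have hAcol : ∀ i p q, I (colp i p * colp i q) = A p q := by
    intro i p q
    rw [hA, starfB_apply, ← map_mul, ← map_mul]
    exact starf_inv1 h3 hI i0 i (p * q)
  have hBcol : ∀ i j p q, i ≠ j → I (colp i p * colp j q) = B p q := by
    intro i j p q hne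
    rw [hB, starfB_apply]
    exact starf_inv2 h3 hI hij hne p q
  have hcolC : ∀ (i : X) (r : ℝ), colp i (C r) = C r := fun i r => (colp i).commutes' r
  -- the powers of linear forms
  have key : ∀ (a : X → ℝ) (s : ℕ), ∃ q' : MvPolynomial X ℝ, q'.totalDegree ≤ s ∧
      (q' - starfK c s • lin a ^ s).totalDegree ≤ s - 1 ∧ ∀ p, B p (lin a ^ s) = A p q' := by
    intro a s
    rcases Nat.even_or_odd' s with ⟨r, rfl | rfl⟩
    · refine ⟨c r • (C (∑ l, a l ^ 2) - lin a ^ 2) ^ r, ?_, ?_, ?_⟩
      · refine (totalDegree_smul_le _ _).trans ?_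
        have h1 : (C (∑ l, a l ^ 2) - lin a ^ 2).totalDegree ≤ 2 := by
          refine (totalDegree_sub _ _).trans ?_
          rw [totalDegree_C]
          exact max_le (by omega) (starf_deg_pow (starf_deg_lin a) 2)
        have := starf_deg_pow h1 r
        omega
      · have h1 : starfK c (2 * r) = (-1) ^ r * c r := by
          rw [starfK, if_pos (by omega), Nat.mul_div_cancel_left _ (by norm_num)]
        have h2 : c r • (C (∑ l, a l ^ 2) - lin a ^ 2) ^ r - starfK c (2 * r) • lin a ^ (2 * r) =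
            c r • ((C (∑ l, a l ^ 2) - lin a ^ 2) ^ r - (-1) ^ r * lin a ^ (2 * r)) := by
          rw [h1, smul_sub, mul_comm, mul_smul]
          congr 2
          rw [MvPolynomial.smul_eq_C_mul, C_pow, C_neg, C_1]
        rw [h2]
        refine (totalDegree_smul_le _ _).trans ?_
        rcases Nat.eq_zero_or_pos r with rfl | hr
        · simp
        · obtain ⟨r', rfl⟩ : ∃ r', r = r' + 1 := ⟨r - 1, by omega⟩
          have := starf_deg_sub a (∑ l, a l ^ 2) r'
          omega
      · intro p
        have h1 := (hc i0 j0 hij a r p).1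
        rw [hB, starfB_apply, mul_comm, map_pow, h1, map_smul, smul_eq_mul, hA, starfB_apply]
        congr 2
        rw [mul_comm, map_pow, map_sub, map_pow, hcolC]
    · refine ⟨0, by simp, ?_, ?_⟩
      · have h1 : starfK c (2 * r + 1) = 0 := by
          rw [starfK, if_neg (by omega)]
        rw [h1, zero_smul, sub_zero]
        simp
      · intro p
        have h1 := (hc i0 j0 hij a r p).2
        rw [hB, starfB_apply, mul_comm, map_pow, h1, map_zero]
  have key2 : ∀ (k : ℕ) (q : MvPolynomial X ℝ), q ∈ starfW X k → ∃ q' : MvPolynomial X ℝ,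
      q'.totalDegree ≤ k ∧ (q' - starfK c k • q).totalDegree ≤ k - 1 ∧ ∀ p, B p q = A p q' := by
    intro k q hq
    induction hq using Submodule.span_induction with
    | mem q hq =>
      obtain ⟨a, s, hs, rfl⟩ := hq
      obtain ⟨q', h1, h2, h4⟩ := key a s
      refine ⟨q', h1.trans hs, ?_, h4⟩
      rcases hs.lt_or_eq with hlt | rfl
      · refine (totalDegree_sub _ _).trans (max_le (by omega) ?_)
        refine (totalDegree_smul_le _ _).trans ?_
        have := starf_deg_pow (starf_deg_lin a) s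
        omega
      · exact h2
    | zero => exact ⟨0, by simp, by simp, fun p => by rw [map_zero, map_zero]⟩
    | add q r _ _ hq hr =>
      obtain ⟨q', h1, h2, h4⟩ := hq
      obtain ⟨r', h1', h2', h4'⟩ := hr
      refine ⟨q' + r', (totalDegree_add _ _).trans (max_le h1 h1'), ?_, fun p => by
        rw [map_add, map_add, h4, h4']⟩
      have h5 : q' + r' - starfK c k • (q + r) = (q' - starfK c k • q) + (r' - starfK c k • r) := by
        rw [smul_add]; ring
      rw [h5]
      exact (totalDegree_add _ _).trans (max_le h2 h2')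
    | smul t q _ hq =>
      obtain ⟨q', h1, h2, h4⟩ := hq
      refine ⟨t • q', (totalDegree_smul_le _ _).trans h1, ?_, fun p => by
        rw [map_smul, map_smul, h4]⟩
      have h5 : t • q' - starfK c k • t • q = t • (q' - starfK c k • q) := by
        rw [smul_sub, smul_comm]
      rw [h5]
      exact (totalDegree_smul_le _ _).trans h2
  -- the flag
  obtain ⟨lo, hlo⟩ : ∃ lo : ℝ, lo = 1 / (n - 1) := ⟨_, rfl⟩
  obtain ⟨hi, hhi⟩ : ∃ hi : ℝ, hi = 3 / ((n - 1) * (n + 1)) := ⟨_, rfl⟩
  have hlo0 : 0 ≤ lo := by rw [hlo]; apply div_nonneg <;> linarith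
  have hhi0 : 0 ≤ hi := by
    rw [hhi]; apply div_nonneg (by norm_num); apply mul_nonneg <;> linarith
  have hhilo : hi ≤ lo := by
    rw [hhi, hlo, div_le_div_iff₀ (by apply mul_pos <;> linarith) (by linarith)]
    nlinarith
  have hK : ∀ m, -lo ≤ starfK c (m + 1) ∧ starfK c (m + 1) ≤ hi := by
    intro m
    rw [starfK]
    split_ifs with hm
    · obtain ⟨r, hr⟩ : ∃ r, (m + 1) / 2 = r + 1 := ⟨(m + 1) / 2 - 1, by omega⟩
      rw [hr]
      rcases Nat.eq_zero_or_pos r with rfl | hr0
      · rw [zero_add, pow_one, c1, ← hlo]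
        constructor <;> linarith
      · have h1 := cle (r + 1) (by omega)
        have h2 := cpos (r + 1)
        rw [← hhi] at h1
        rcases neg_one_pow_eq_or ℝ (r + 1) with h4 | h4 <;> rw [h4] <;> constructor <;> linarith
    · constructor <;> linarith
  set d := univ.sup (fun j => (h j).totalDegree) with hd
  have hF0 : ∀ u ∈ restrictTotalDegree X ℝ 0, ∃ r : ℝ, u = C r := by
    intro u hu
    rw [mem_restrictTotalDegree, Nat.le_zero] at hu
    exact ⟨_, totalDegree_eq_zero_iff_eq_C.1 hu⟩
  have hX : Nonempty X := ⟨i0⟩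
  have hmain := hF (MvPolynomial X ℝ) A B (fun m => restrictTotalDegree X ℝ m) (starfK c) lo hi d
    hAsymm hBsymm hApos
    (fun m p hp => by
      rw [mem_restrictTotalDegree] at hp ⊢
      omega)
    (fun m => inferInstance)
    (fun q hq p => by
      obtain ⟨r, rfl⟩ := hF0 q hq
      rw [hB, hA, starfB_apply, starfB_apply]
      congr 2
      exact ((colp j0).commutes' r).trans ((colp i0).commutes' r).symm)
    (fun m q hq => by
      rw [mem_restrictTotalDegree] at hq
      obtain ⟨q', h1, h2, h4⟩ := key2 (m + 1) q (starf_mem hq)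
      exact ⟨q', (mem_restrictTotalDegree _ _ _).2 h1, (mem_restrictTotalDegree _ _ _).2 h2, h4⟩)
    hK hlo0 hhi0 X
  have hmain2 := hmain h (fun i => (mem_restrictTotalDegree _ _ _).2 (by
      rw [hd]
      exact Finset.le_sup (f := fun j => (h j).totalDegree) (mem_univ i)))
    (fun i u hu => by
      obtain ⟨r, rfl⟩ := hF0 u hu
      rw [← hAcol i, show colp i (C r) = C r from (colp i).commutes' r, mul_comm,
        ← MvPolynomial.smul_eq_C_mul, map_smul, hh i, smul_zero])
  have hexp : I ((∑ j, colp j (h j)) ^ 2) = ∑ i, A (h i) (h i) +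
      ∑ i, ∑ j, (if i = j then 0 else B (h i) (h j)) := by
    rw [sq, Finset.sum_mul_sum, map_sum, ← Finset.sum_add_distrib]
    refine Finset.sum_congr rfl fun i _ => ?_
    rw [map_sum]
    have h1 : ∀ j, I (colp i (h i) * colp j (h j)) = (if j = i then A (h i) (h i) else 0) +
        (if i = j then 0 else B (h i) (h j)) := by
      intro j
      by_cases hj : i = j
      · subst hj
        rw [if_pos rfl, if_pos rfl, hAcol, add_zero]
      · rw [if_neg (Ne.symm hj), if_neg hj, hBcol i j _ _ hj, zero_add]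
    rw [Finset.sum_congr rfl fun j _ => h1 j, Finset.sum_add_distrib, Finset.sum_ite_eq' univ i,
      if_pos (mem_univ _)]
  have hsum : ∑ i, A (h i) (h i) = ∑ j, I (colp j (h j) ^ 2) := by
    refine Finset.sum_congr rfl fun i _ => ?_
    rw [sq, hAcol]
  have hsum0 : 0 ≤ ∑ i, A (h i) (h i) := Finset.sum_nonneg fun i _ => hApos _
  rw [hexp, ← hsum]
  refine hmain2.trans (mul_le_mul_of_nonneg_right ?_ hsum0)
  have h5 : max lo ((n - 1) * hi) ≤ 3 / n := by
    apply max_le
    · rw [hlo, div_le_div_iff₀ (by linarith) (by linarith)]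
      linarith
    · rw [hhi]
      have h6 : (n - 1) * (3 / ((n - 1) * (n + 1))) = 3 / (n + 1) := by
        have : n - 1 ≠ 0 := by
          intro h; linarith
        have : n + 1 ≠ 0 := by
          intro h; linarith
        field_simp
      rw [h6]
      apply div_le_div_of_nonneg_left <;> linarith
  linarith

end

end SG23
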