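import Pool.Agent.N23.SG.Stm

/-! SG/STARS: the star inequality for subsets (helper195). -/

namespace SG23
open Finset

theorem STARS (hS : ST_STAR) (hE : ST_PEMB) : ST_STARS := by
  intro X _ _ E _ _ _ ρ hρ T hT v
  have hc : Fintype.card {x // x ∈ T} = #T := Fintype.card_coe T
  obtain ⟨h1, h2⟩ := hE {x // x ∈ T} X E ρ (Function.Embedding.subtype fun x => x ∈ T)
  have h := hS {x // x ∈ T} (by rw [hc]; exact hT) E _ (h1 hρ) v
  have hu : (univ : Finset {x // x ∈ T}).map (Function.Embedding.subtype fun x => x ∈ T) = T := by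
    rw [univ_eq_attach, attach_map_val]
  have he : ∀ y : {x // x ∈ T}, ((univ : Finset {x // x ∈ T}).erase y).map
      (Function.Embedding.subtype fun x => x ∈ T) = T.erase (y : X) := by
    intro y
    rw [map_erase, hu]
    rfl
  rw [h2, hu, hc] at h
  have h3 : ∑ j : {x // x ∈ T}, ‖P (ρ.comp (emb (Function.Embedding.subtype fun x => x ∈ T)))
      (univ.erase j) v‖ ^ 2 = ∑ j ∈ T, ‖P ρ (T.erase j) v‖ ^ 2 := by
    rw [← sum_coe_sort T (fun j => ‖P ρ (T.erase j) v‖ ^ 2)]
    apply sum_congr rfl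
    intro y _
    rw [h2, he]
  rw [h3] at h
  exact h

end SG23
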