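import Pool.Agent.N23.SG.Stm

/-!
Project SG (helper23), MP_839d28_al: the step of the recursion.
-/

namespace SG23
open Finset MeasureTheory

noncomputable section

/-- Kazhdan sets are transported by an equivalence -/
lemma STEP_KZ {X Y : Type} [Fintype X] [DecidableEq X] [Fintype Y] [DecidableEq Y] (e : X ≃ Y)
    {ι : Type} {g : ι → Equiv.Perm X} {K : ℝ} (h : KP23.KZ g K) :
    KP23.KZ (fun i => e.permCongr (g i)) K := by
  refine ⟨fun i => by rw [Equiv.Perm.sign_permCongr]; exact h.1 i, fun E _ _ ρ v η hv k hk => ?_⟩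
  have h2 := h.2 E (ρ.comp (e.permCongrHom : Equiv.Perm X ≃* Equiv.Perm Y).toMonoidHom) v η
    (fun i => hv i) (e.symm.permCongr k) (by rw [Equiv.Perm.sign_permCongr]; exact hk)
  have h3 : (e.permCongrHom : Equiv.Perm X ≃* Equiv.Perm Y).toMonoidHom (e.symm.permCongr k) = k := by
    change e.permCongr (e.symm.permCongr k) = k
    ext x
    simp [Equiv.permCongr_apply]
  rw [MonoidHom.comp_apply, h3] at h2
  exact h2

/-- the labels -/
def STEP_lab (q L M₀ : ℕ) (j : Fin q) : Option (Fin L) :=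
  if h : (j : ℕ) < L * M₀ then
    some ⟨(j : ℕ) / M₀, Nat.div_lt_of_lt_mul (by rwa [mul_comm] at h)⟩ else none

lemma STEP_lab_card (q L M₀ : ℕ) (hM : 0 < M₀) (hq : L * M₀ ≤ q) (a : Fin L) :
    #(univ.filter fun j : Fin q => STEP_lab q L M₀ j = some a) = M₀ := by
  have hlt : ∀ i : Fin M₀, (a : ℕ) * M₀ + i < L * M₀ := by
    intro i
    have h1 : ((a : ℕ) + 1) * M₀ ≤ L * M₀ := Nat.mul_le_mul_right _ a.2
    have h2 : ((a : ℕ) + 1) * M₀ = a * M₀ + M₀ := by ring
    have h3 := i.2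
    omega
  let f : Fin M₀ → Fin q := fun i => ⟨(a : ℕ) * M₀ + i, (hlt i).trans_le hq⟩
  have hf : Function.Injective f := by
    intro i i' hii
    have := congrArg Fin.val hii
    simp only [f] at this
    exact Fin.ext (by omega)
  have e : (univ.filter fun j : Fin q => STEP_lab q L M₀ j = some a) = univ.image f := by
    ext j
    simp only [mem_filter, mem_univ, true_and, mem_image]
    constructor
    · intro hj
      unfold STEP_lab at hj
      split_ifs at hj with h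
      have h1 : (j : ℕ) / M₀ = a := congrArg Fin.val (Option.some.inj hj)
      refine ⟨⟨(j : ℕ) % M₀, Nat.mod_lt _ hM⟩, Fin.ext ?_⟩
      simp only [f]
      rw [← h1, mul_comm]
      exact Nat.div_add_mod _ _
    · rintro ⟨i, rfl⟩
      unfold STEP_lab
      have h1 : ((f i : Fin q) : ℕ) = (a : ℕ) * M₀ + i := rfl
      rw [dif_pos (by rw [h1]; exact hlt i)]
      congr 1
      apply Fin.ext
      change ((f i : Fin q) : ℕ) / M₀ = a
      rw [h1, mul_comm, Nat.mul_add_div hM, Nat.div_eq_of_lt i.2, add_zero]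
  rw [e, card_image_of_injective _ hf, card_univ, Fintype.card_fin]

theorem STEP (hN : KP23.ST_ALLN) (hF : ST_FULLS) (hA : ST_ALTK) (hC : ST_COMS) : ST_STEP := by
  obtain ⟨L₁, K₁, N₁, hK₁, hall⟩ := hN
  refine ⟨2 * L₁ + 2, 5 / 2 * 386 * max 1 K₁, by positivity, fun L hL => ?_⟩
  set r : ℕ := 8 * L ^ 2 * (N₁ + 1) with hr
  have hL2 : 1 ≤ L ^ 2 := Nat.one_le_pow _ _ hL
  have hr8 : 8 * (N₁ + 1) ≤ r := by
    rw [hr]
    nlinarith
  refine ⟨8 * r, by omega, ⟨2 * r, by ring⟩, fun M _ _ hM30 hM4 hU => ?_⟩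
  obtain ⟨U, hU⟩ := hU
  choose x y hxy using fun a => hC M hM4 (U a)
  haveI : Nonempty (Fin L) := ⟨⟨0, hL⟩⟩
  set M₀ : ℕ := 16 * L * (N₁ + 1) with hM₀
  have hM₀0 : 0 < M₀ := by positivity
  have hLM : L * M₀ = 2 * r := by
    rw [hM₀, hr]
    ring
  obtain ⟨h1, hh1⟩ := hall (8 * r) (by omega)
  obtain ⟨h2', hh2'⟩ := hall (8 * r * Fintype.card M) (by
    have : 8 * r * 1 ≤ 8 * r * Fintype.card M := Nat.mul_le_mul_left _ (by omega)
    omega)
  let e : Fin (8 * r * Fintype.card M) ≃ Fin (8 * r) × M :=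
    (Fintype.equivFinOfCardEq (by simp)).symm
  set h2 : Fin L₁ → Equiv.Perm (Fin (8 * r) × M) := fun i => e.permCongr (h2' i) with hh2d
  have hh2 : KP23.KZ h2 K₁ := STEP_KZ e hh2'
  set lab : Fin (8 * r) → Option (Fin L) := STEP_lab (8 * r) L M₀ with hlab
  -- the generators
  let G : (Fin L₁ ⊕ Fin L₁) ⊕ Fin 2 → SO (Fin (8 * r) × M) :=
    Sum.elim (Sum.elim
      (fun i => blk ⟨h1 i, Equiv.Perm.mem_alternatingGroup.2 (hh1.1 i)⟩)
      (fun i => alt ⟨h2 i, Equiv.Perm.mem_alternatingGroup.2 (hh2.1 i)⟩))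
      (fun b => if b = 0 then row (fun j => (lab j).elim 1 x) else row (fun j => (lab j).elim 1 y))
  let ε : Fin (2 * L₁ + 2) ≃ (Fin L₁ ⊕ Fin L₁) ⊕ Fin 2 :=
    (Fintype.equivFinOfCardEq (by simp; ring)).symm
  refine ⟨fun i => G (ε i), ?_⟩
  intro E _ _ _ ρ hρ v η hv
  have hG : ∀ z, ‖ρ (G z) v - v‖ ≤ η := by
    intro z
    have := hv (ε.symm z)
    simpa using this
  have hη : 0 ≤ η := (norm_nonneg _).trans (hG (Sum.inr 0))
  have hmax1 : 1 ≤ max 1 K₁ := le_max_left _ _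
  have hη' : η ≤ max 1 K₁ * η := by nlinarith
  have hK' : K₁ * η ≤ max 1 K₁ * η := mul_le_mul_of_nonneg_right (le_max_right _ _) hη
  have a1 := hA (Fin (8 * r)) (Fin L₁) h1 K₁ hh1 E (ρ.comp blk) v η
    (fun i => hG (Sum.inl (Sum.inl i)))
  have a2 := hA (Fin (8 * r) × M) (Fin L₁) h2 K₁ hh2 E (ρ.comp alt) v η
    (fun i => hG (Sum.inl (Sum.inr i)))
  have hNS : NS (fun a => KP23.cm (x a) (y a)) (1 / 2) := by
    have : (fun a => KP23.cm (x a) (y a)) = U := by
      funext a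
      exact (hxy a).symm
    rw [this]
    exact hU
  have key := hF (Fin (8 * r)) M (Fin L) x y (1 / 2) (1 / 8) M₀ r lab (by norm_num) (by norm_num)
    (by norm_num) hNS (by rw [Fintype.card_fin]; exact hLM) (by omega)
    (by
      rw [Fintype.card_fin, hr]
      push_cast
      have : (0 : ℝ) ≤ (N₁ : ℝ) := Nat.cast_nonneg _
      nlinarith [sq_nonneg (L : ℝ), mul_nonneg (sq_nonneg (L : ℝ)) this])
    (by rw [Fintype.card_fin])
    (STEP_lab_card (8 * r) L M₀ hM₀0 (by omega))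
    hM30 E ρ hρ v (max 1 K₁ * η) (fun h => (a1 h).trans hK')
    ((hG (Sum.inr 0)).trans hη') ((hG (Sum.inr 1)).trans hη') (fun σ => (a2 σ).trans hK')
  calc ‖v - P ρ univ v‖ ≤ 5 / 2 * (96 / (1 - 1 / 2 - 2 * (1 / 8)) + 2) * (max 1 K₁ * η) := key
    _ = 5 / 2 * 386 * max 1 K₁ * η := by ring

end

end SG23
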