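import Pool.Agent.N23.SG.Stm

/-!
Project SG (helper23), MP_839d28_al: Haar measure has full support (helper433).
-/

namespace SG23
open Finset MeasureTheory

theorem SUPP_cont {X : Type} [Fintype X] (h : Matrix X X ℝ) : Continuous (tr h) := by
  unfold tr
  fun_prop

theorem SUPP : ST_SUPP := by
  intro X _ _ μ hμ f hf hae g hg hgd
  obtain ⟨hprob, hsupp, hinv⟩ := hμ
  by_contra hfg
  let S : Set (Matrix X X ℝ) := {h | h.transpose * h = 1 ∧ h.det = 1}
  let s : S → Set (X → X → ℝ) := fun h => tr h.1 ⁻¹' {x | f x ≠ 0}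
  have hW : IsOpen {x : X → X → ℝ | f x ≠ 0} := isOpen_ne_fun hf continuous_const
  have hopen : ∀ i, IsOpen (s i) := fun i => hW.preimage (SUPP_cont _)
  have hnull : ∀ i, μ (s i) = 0 := by
    intro i
    have h2 : μ.map (tr i.1) = μ := hinv i.1 i.2.1 i.2.2
    have h3 : μ (s i) = μ.map (tr i.1) {x | f x ≠ 0} :=
      (Measure.map_apply (SUPP_cont _).measurable hW.measurableSet).symm
    rw [h3, h2]
    exact ae_iff.1 hae
  obtain ⟨T, hT, hTe⟩ := TopologicalSpace.isOpen_iUnion_countable s hopen
  have hU : μ (⋃ i, s i) = 0 := by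
    rw [← hTe]
    exact (measure_biUnion_null_iff hT).2 fun i _ => hnull i
  have hcover : ∀ x : X → X → ℝ, ((Matrix.of x).transpose * Matrix.of x = 1 ∧
      (Matrix.of x).det = 1) → x ∈ ⋃ i, s i := by
    intro x hx
    have hx2 : Matrix.of x * (Matrix.of x).transpose = 1 := mul_eq_one_comm.1 hx.1
    obtain ⟨h, hh⟩ : ∃ h : Matrix X X ℝ, h = g * (Matrix.of x).transpose := ⟨_, rfl⟩
    have h1 : h.transpose * h = 1 := by
      rw [hh, Matrix.transpose_mul, Matrix.transpose_transpose]
      calc Matrix.of x * g.transpose * (g * (Matrix.of x).transpose)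
          = Matrix.of x * (g.transpose * g) * (Matrix.of x).transpose := by
            simp only [Matrix.mul_assoc]
        _ = 1 := by rw [hg, Matrix.mul_one, hx2]
    have h2 : h.det = 1 := by
      rw [hh, Matrix.det_mul, Matrix.det_transpose, hgd, hx.2, one_mul]
    refine Set.mem_iUnion.2 ⟨⟨h, h1, h2⟩, ?_⟩
    show f (tr h x) ≠ 0
    have h3 : tr h x = g := by
      have h4 : h * Matrix.of x = g := by
        rw [hh, Matrix.mul_assoc, hx.1, Matrix.mul_one]
      rw [← h4]
      rfl
    rw [h3]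
    exact hfg
  have h1 : μ Set.univ = 0 := by
    refine measure_mono_null (t := {x | ¬ ((Matrix.of x).transpose * Matrix.of x = 1 ∧
      (Matrix.of x).det = 1)} ∪ ⋃ i, s i) ?_ (measure_union_null hsupp hU)
    intro x _
    by_cases hx : (Matrix.of x).transpose * Matrix.of x = 1 ∧ (Matrix.of x).det = 1
    · exact Or.inr (hcover x hx)
    · exact Or.inl hx
  rw [measure_univ] at h1
  exact one_ne_zero h1

end SG23
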