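import Pool.Agent.N23.SG.Stm
import Pool.Agent.N23.KP.TENS

/-!
Project SG: `ST_TENSO` from `ST_CONTR`, `ST_PEMB` and `ST_PMONO` (helper199).
-/

set_option linter.unusedSectionVars false

namespace SG23
open Finset

namespace TENSOaux

open KP23.TENSaux

section one

variable {X : Type} [Fintype X] [DecidableEq X] {E : Type} [NormedAddCommGroup E]
  [InnerProductSpace ℝ E] [FiniteDimensional ℝ E] (ρ : SO X →* (E ≃ₗᵢ[ℝ] E))

lemma mem_fix (S : Finset X) (v : E) : P ρ S v ∈ fixS ρ (sub S) :=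
  Submodule.starProjection_apply_mem _ _

lemma fixed {S : Finset X} {g : SO X} (hg : g ∈ sub S) (v : E) : ρ g (P ρ S v) = P ρ S v :=
  mem_fix ρ S v g hg

lemma idem (S : Finset X) (v : E) : P ρ S (P ρ S v) = P ρ S v :=
  Submodule.starProjection_eq_self_iff.2 (mem_fix ρ S v)

lemma symm' (S : Finset X) (v w : E) : inner ℝ (P ρ S v) w = inner ℝ v (P ρ S w) :=
  Submodule.inner_starProjection_left_eq_right _ v w

lemma inner_rho (g : SO X) (v w : E) : inner ℝ (ρ g v) w = inner ℝ v (ρ g⁻¹ w) := by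
  rw [← (ρ g).inner_map_map v]
  congr 1
  change w = (ρ g * ρ g⁻¹) w
  rw [← map_mul, mul_inv_cancel, map_one]
  rfl

lemma fixed' {S : Finset X} {g : SO X} (hg : g ∈ sub S) (v : E) : P ρ S (ρ g v) = P ρ S v := by
  apply ext_inner_right ℝ
  intro w
  rw [symm', inner_rho, fixed ρ ((sub S).inv_mem hg), symm']

lemma commP {S : Finset X} {g : SO X} (hg : ∀ h ∈ sub S, Commute g h) (v : E) :
    P ρ S (ρ g v) = ρ g (P ρ S v) := by
  have hfix : ∀ g : SO X, (∀ h ∈ sub S, Commute g h) → ∀ x ∈ fixS ρ (sub S),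
      ρ g x ∈ fixS ρ (sub S) := by
    intro g hg x hx h hh
    change (ρ h * ρ g) x = ρ g x
    rw [← map_mul, ← (hg h hh).eq, map_mul]
    change ρ g (ρ h x) = ρ g x
    rw [hx h hh]
  refine Submodule.eq_starProjection_of_mem_orthogonal (hfix g hg _ (mem_fix ρ S v)) ?_
  rw [Submodule.mem_orthogonal]
  intro u hu
  rw [← map_sub, real_inner_comm, inner_rho, real_inner_comm]
  exact Submodule.sub_starProjection_mem_orthogonal v _
    (hfix g⁻¹ (fun h hh => (hg h hh).inv_left) u hu)

end one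

section comm

variable {X : Type} [Fintype X] [DecidableEq X]

lemma comm_sub {S T : Finset X} (hST : Disjoint S T) {g h : SO X} (hg : g ∈ sub S)
    (hh : h ∈ sub T) : Commute g h := by
  have key : ∀ {S T : Finset X}, Disjoint S T → ∀ {g h : SO X}, g ∈ sub S → h ∈ sub T →
      ((g : Matrix X X ℝ) - 1) * ((h : Matrix X X ℝ) - 1) = 0 := by
    intro S T hST g h hg hh
    ext i j
    rw [Matrix.mul_apply, Matrix.zero_apply]
    refine sum_eq_zero fun k _ => ?_
    by_cases hk : k ∈ S
    · have h1 : (h : Matrix X X ℝ) k j = (1 : Matrix X X ℝ) k j :=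
        hh k j (Or.inl (disjoint_left.1 hST hk))
      rw [Matrix.sub_apply (h : Matrix X X ℝ), h1, sub_self, mul_zero]
    · have h1 : (g : Matrix X X ℝ) i k = (1 : Matrix X X ℝ) i k := hg i k (Or.inr hk)
      rw [Matrix.sub_apply, h1, sub_self, zero_mul]
  apply Subtype.ext
  change (g : Matrix X X ℝ) * (h : Matrix X X ℝ) = (h : Matrix X X ℝ) * (g : Matrix X X ℝ)
  have h1 := key hST hg hh
  have h2 := key hST.symm hh hg
  have e1 : (g : Matrix X X ℝ) * (h : Matrix X X ℝ) =
      ((g : Matrix X X ℝ) - 1) * ((h : Matrix X X ℝ) - 1) + (g : Matrix X X ℝ) +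
        (h : Matrix X X ℝ) - 1 := by noncomm_ring
  have e2 : (h : Matrix X X ℝ) * (g : Matrix X X ℝ) =
      ((h : Matrix X X ℝ) - 1) * ((g : Matrix X X ℝ) - 1) + (g : Matrix X X ℝ) +
        (h : Matrix X X ℝ) - 1 := by noncomm_ring
  rw [e1, e2, h1, h2]

end comm

section blocks

variable {Q M : Type} [Fintype Q] [DecidableEq Q] [Fintype M] [DecidableEq M]

/-- the block number `j` -/
def ej (j : Q) : M ↪ Q × M := ⟨fun m => (j, m), fun _ _ h => (Prod.ext_iff.1 h).2⟩

lemma map_ej (j : Q) : (univ : Finset M).map (ej j) = (bl j : Finset (Q × M)) := by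
  ext z
  unfold bl
  rw [mem_map, mem_filter]
  constructor
  · rintro ⟨m, _, rfl⟩
    exact ⟨mem_univ _, rfl⟩
  · rintro ⟨_, h⟩
    exact ⟨z.2, mem_univ _, Prod.ext h.symm rfl⟩

lemma disj_bl {j j' : Q} (h : j ≠ j') : Disjoint (bl j : Finset (Q × M)) (bl j') := by
  rw [disjoint_left]
  intro z hz hz'
  unfold bl at hz hz'
  rw [mem_filter] at hz hz'
  exact h (hz.2.symm.trans hz'.2)

/-- `g` on the block number `j` -/
noncomputable def rowAt (j : Q) : SO M →* SO (Q × M) := 
  row.comp (MonoidHom.mulSingle (fun _ : Q => SO M) j)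

lemma rowAt_mem (j : Q) (g : SO M) : rowAt j g ∈ (sub (bl j) : Subgroup (SO (Q × M))) := by
  intro z w hzw
  change ((row (Pi.mulSingle j g) : SO (Q × M)) : Matrix (Q × M) (Q × M) ℝ) z w = _
  rw [row_apply]
  have hz : ∀ z : Q × M, z ∉ (bl j : Finset (Q × M)) → z.1 ≠ j := by
    intro z hz h
    exact hz (mem_filter.2 ⟨mem_univ _, h⟩)
  by_cases h : z.1 = w.1
  · have hj : z.1 ≠ j := by
      rcases hzw with h1 | h1
      · exact hz z h1
      · rw [h]
        exact hz w h1
    rw [if_pos h, Pi.mulSingle_eq_of_ne hj]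
    change (1 : Matrix M M ℝ) z.2 w.2 = _
    rw [Matrix.one_apply, Matrix.one_apply]
    by_cases h2 : z.2 = w.2
    · rw [if_pos h2, if_pos (Prod.ext h h2)]
    · rw [if_neg h2, if_neg fun h3 => h2 (congrArg Prod.snd h3)]
  · rw [if_neg h, Matrix.one_apply_ne fun h3 => h (congrArg Prod.fst h3)]

lemma emb_eq (j : Q) (g : SO M) : emb (ej j) g = rowAt j g := by
  apply Subtype.ext
  ext z w
  change embm (ej j) (g : Matrix M M ℝ) z w =
    ((row (Pi.mulSingle j g) : SO (Q × M)) : Matrix (Q × M) (Q × M) ℝ) z w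
  rw [row_apply]
  unfold embm
  rw [Matrix.add_apply, Matrix.mul_apply]
  have h1 : ∀ b : M, (vmat (ej j : M ↪ Q × M) * ((g : Matrix M M ℝ) - 1) : Matrix (Q × M) M ℝ) z b =
      if z.1 = j then ((g : Matrix M M ℝ) - 1) z.2 b else 0 := by
    intro b
    rw [Matrix.mul_apply]
    by_cases h : z.1 = j
    · rw [if_pos h, Finset.sum_eq_single z.2]
      · have : vmat (ej j : M ↪ Q × M) z z.2 = 1 := by
          unfold vmat
          rw [Matrix.of_apply, if_pos (show z = (ej j : M ↪ Q × M) z.2 from Prod.ext h rfl)]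
        rw [this, one_mul]
      · intro a _ ha
        have : vmat (ej j : M ↪ Q × M) z a = 0 := by
          unfold vmat
          rw [Matrix.of_apply, if_neg fun h2 => ha (congrArg Prod.snd h2).symm]
        rw [this, zero_mul]
      · intro h2
        exact absurd (mem_univ _) h2
    · rw [if_neg h]
      refine sum_eq_zero fun a _ => ?_
      have : vmat (ej j : M ↪ Q × M) z a = 0 := by
        unfold vmat
        rw [Matrix.of_apply, if_neg fun h2 => h (congrArg Prod.fst h2)]
      rw [this, zero_mul]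
  have h2 : ∀ b : M, ((vmat (ej j : M ↪ Q × M)).transpose) b w =
      if w = (j, b) then 1 else 0 := fun b => rfl
  simp only [h1, h2]
  by_cases hw : w.1 = j
  · rw [Finset.sum_eq_single w.2]
    · rw [if_pos (show w = (j, w.2) from Prod.ext hw rfl), mul_one]
      by_cases hz : z.1 = j
      · rw [if_pos hz, if_pos (hz.trans hw.symm), hz, Pi.mulSingle_eq_same, Matrix.sub_apply]
        have e : (1 : Matrix (Q × M) (Q × M) ℝ) z w = (1 : Matrix M M ℝ) z.2 w.2 := by
          rw [Matrix.one_apply, Matrix.one_apply]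
          by_cases h3 : z.2 = w.2
          · rw [if_pos h3, if_pos (Prod.ext (hz.trans hw.symm) h3)]
          · rw [if_neg h3, if_neg fun h4 => h3 (congrArg Prod.snd h4)]
        rw [e]
        ring
      · have hzw : z.1 ≠ w.1 := fun h3 => hz (h3.trans hw)
        rw [if_neg hz, if_neg hzw, Matrix.one_apply_ne fun h3 => hzw (congrArg Prod.fst h3),
          add_zero]
    · intro b _ hb
      rw [if_neg fun h3 => hb (congrArg Prod.snd h3).symm, mul_zero]
    · intro h3
      exact absurd (mem_univ _) h3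
  · rw [sum_eq_zero fun b _ => by
      rw [if_neg fun h3 => hw (congrArg Prod.fst h3), mul_zero], add_zero]
    by_cases hz : z.1 = w.1
    · have hzj : z.1 ≠ j := fun h3 => hw (hz.symm.trans h3)
      rw [if_pos hz, Pi.mulSingle_eq_of_ne hzj]
      change _ = (1 : Matrix M M ℝ) z.2 w.2
      rw [Matrix.one_apply, Matrix.one_apply]
      by_cases h3 : z.2 = w.2
      · rw [if_pos h3, if_pos (Prod.ext hz h3)]
      · rw [if_neg h3, if_neg fun h4 => h3 (congrArg Prod.snd h4)]
    · rw [if_neg hz, Matrix.one_apply_ne fun h3 => hz (congrArg Prod.fst h3)]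

lemma row_extend (r : ℕ) (J : Fin r ↪ Q) (f : Fin r → SO M) :
    row (Function.extend J f 1) = (List.ofFn fun i => rowAt (J i) (f i)).prod := by
  rw [extend_eq]
  change row (List.ofFn fun i => (Pi.mulSingle (J i) (f i) : Q → SO M)).prod = _
  rw [map_list_prod, List.map_ofFn]
  rfl

end blocks

end TENSOaux

open KP23.TENSaux TENSOaux

theorem TENSO (hC : KP23.ST_CONTR) (hE : ST_PEMB) (hM : ST_PMONO) : ST_TENSO := by
  intro Q M Λ _ _ _ _ _ _ w lam θ η hlam hθ hpos hNS r J Bad hBad E _ _ _ ρ hρ v hl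
  classical
  set L : ℝ := (Fintype.card Λ : ℝ) with hL
  have hL0 : 0 < L := by rw [hL]; exact_mod_cast Fintype.card_pos
  have hLr : 0 < L ^ r := pow_pos hL0 r
  obtain ⟨hM1, hM2, _⟩ := hM (Q × M) E ρ
  let τ : Fin r → Λ → (E ≃ₗᵢ[ℝ] E) := fun i a => ρ (rowAt (J i) (w a))
  let Pr : Fin r → Module.End ℝ E := fun i =>
    ((P ρ (bl (J i)) : E →L[ℝ] E) : E →ₗ[ℝ] E)
  let T : Fin r → Module.End ℝ E := fun i => mean (τ i)
  have hPapp : ∀ i x, Pr i x = P ρ (bl (J i)) x := fun i x => rfl
  have hfixP : ∀ (i : Fin r) (g : SO M) (x : E), ρ (rowAt (J i) g) (Pr i x) = Pr i x :=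
    fun i g x => fixed ρ (rowAt_mem (J i) g) x
  have hfixP' : ∀ (i : Fin r) (g : SO M) (x : E), Pr i (ρ (rowAt (J i) g) x) = Pr i x :=
    fun i g x => fixed' ρ (rowAt_mem (J i) g) x
  have hJ : ∀ i j, i ≠ j → J i ≠ J j := fun i j hij h => hij (J.injective h)
  have hcP : ∀ (i j : Fin r), i ≠ j → ∀ (g : SO M) (x : E),
      Pr i (ρ (rowAt (J j) g) x) = ρ (rowAt (J j) g) (Pr i x) :=
    fun i j hij g x => TENSOaux.commP ρ (fun h hh =>
      comm_sub (disj_bl (hJ j i hij.symm)) (rowAt_mem (J j) g) hh) x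
  have hcommP : ∀ i j x, Pr i (Pr j x) = Pr j (Pr i x) := by
    intro i j x
    by_cases hij : i = j
    · rw [hij]
    · exact hM2 _ _ (disj_bl (hJ i j hij)) x
  have hmean : ∀ (i : Fin r) (x : E), T i x = L⁻¹ • ∑ a, ρ (rowAt (J i) (w a)) x := by
    intro i x
    change mean (τ i) x = _
    unfold mean
    rw [LinearMap.smul_apply, LinearMap.sum_apply]
    rfl
  have key := hC E lam hlam r T Pr (fun i v => mean_norm (τ i) v)
    (fun i x => idem ρ _ x)
    (fun i v w => symm' ρ _ v w)
    (fun i v => LinearMap.congr_fun (mean_mul_fix (τ i) (Pr i) (fun a =>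
      LinearMap.ext fun x => hfixP i (w a) x)) v)
    (fun i v => LinearMap.congr_fun (fix_mul_mean (τ i) (Pr i) (fun a =>
      LinearMap.ext fun x => hfixP' i (w a) x)) v)
    (fun i j v hij => by
      rw [hmean, hmean, map_smul, map_sum]
      congr 1
      exact sum_congr rfl fun a _ => hcP i j hij (w a) v)
    hcommP
    (fun i v hv => by
      have h0 := hE M (Q × M) E ρ (ej (J i))
      have h1 : P (ρ.comp (emb (ej (J i)))) univ v = 0 := by
        rw [h0.2, map_ej]
        exact hv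
      have h2 := hNS E (ρ.comp (emb (ej (J i)))) (h0.1 hρ) v h1
      rw [hmean, norm_smul, norm_inv, Real.norm_of_nonneg hL0.le, inv_mul_le_iff₀ hL0]
      refine le_trans (le_of_eq ?_) (h2.trans (le_of_eq (by ring)))
      congr 1
      refine sum_congr rfl fun a _ => ?_
      change ρ (rowAt (J i) (w a)) v = ρ (emb (ej (J i)) (w a)) v
      rw [emb_eq])
  set PP : Module.End ℝ E := (List.ofFn Pr).prod with hPPd
  set TT : Module.End ℝ E := (List.ofFn T).prod with hTTd
  have hPPeq : (List.ofFn fun i => P ρ (bl (J i))).prod v = PP v := by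
    have h1 : ∀ l : List (E →L[ℝ] E), ∀ x, l.prod x =
        ((l.map fun t : E →L[ℝ] E => (t : E →ₗ[ℝ] E)).prod : Module.End ℝ E) x := by
      intro l
      induction l with
      | nil => intro x; rfl
      | cons a l ih =>
        intro x
        rw [List.prod_cons, List.map_cons, List.prod_cons]
        change a (l.prod x) = a ((l.map fun t : E →L[ℝ] E => (t : E →ₗ[ℝ] E)).prod x)
        rw [ih]
    rw [h1, List.map_ofFn]
    rfl
  rw [hPPeq]
  -- the projection
  have hPi : ∀ i x, Pr i (PP x) = PP x := by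
    intro i x
    have h1 : ∀ l : List (Module.End ℝ E), (∀ t ∈ l, ∀ x, Pr i (t x) = t (Pr i x)) → Pr i ∈ l →
        ∀ x, Pr i (l.prod x) = l.prod x := by
      intro l
      induction l with
      | nil => intro _ h; exact absurd h List.not_mem_nil
      | cons a l ih =>
        intro hc hm x
        rw [List.prod_cons, Module.End.mul_apply]
        rcases List.mem_cons.1 hm with rfl | hm'
        · exact idem ρ _ _
        · rw [hc a List.mem_cons_self, ih (fun t ht => hc t (List.mem_cons_of_mem _ ht)) hm']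
    exact h1 (List.ofFn Pr) (by
      intro t ht x
      obtain ⟨j, rfl⟩ := (List.mem_ofFn).1 ht
      exact hcommP i j x) ((List.mem_ofFn).2 ⟨i, rfl⟩) x
  have hfix : ∀ (f : Fin r → SO M) (x : E), ρ (row (Function.extend J f 1)) (PP x) = PP x := by
    intro f x
    rw [TENSOaux.row_extend, map_list_prod, List.map_ofFn]
    change KP23.TENSaux.lin (List.ofFn (ρ ∘ fun i => rowAt (J i) (f i))).prod (PP x) = PP x
    rw [map_list_prod, List.map_ofFn]
    apply fix_prod
    intro t ht
    obtain ⟨i, rfl⟩ := (List.mem_ofFn).1 ht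
    change ρ (rowAt (J i) (f i)) (PP x) = PP x
    rw [← hPi i x]
    exact hfixP i (f i) _
  have hPPPP : ∀ x, PP (PP x) = PP x := by
    intro x
    apply fix_prod
    intro t ht
    obtain ⟨i, rfl⟩ := (List.mem_ofFn).1 ht
    exact hPi i x
  set v1 : E := v - PP v with hv1
  have hv1P : PP v1 = 0 := by rw [hv1, map_sub, hPPPP, sub_self]
  have hTv1 := key v1 hv1P
  have hdiff : ∀ (f : Fin r → SO M),
      ρ (row (Function.extend J f 1)) v1 - v1 = ρ (row (Function.extend J f 1)) v - v := by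
    intro f
    rw [hv1, map_sub, hfix f]
    abel
  -- the average
  have hTT : TT v1 = (L ^ r)⁻¹ • ∑ l : Fin r → Λ,
      ρ (row (Function.extend J (fun i => w (l i)) 1)) v1 := by
    have h1 := prod_mean r τ
    have h2 : TT = _ := h1
    rw [h2, LinearMap.smul_apply, LinearMap.sum_apply]
    congr 1
    refine sum_congr rfl fun l _ => ?_
    rw [lin_apply, TENSOaux.row_extend, map_list_prod, List.map_ofFn]
    rfl
  have hcard : (Fintype.card (Fin r → Λ) : ℝ) = L ^ r := by
    rw [Fintype.card_fun, Fintype.card_fin, hL]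
    push_cast
    rfl
  have hTT1 : TT v1 - v1 = (L ^ r)⁻¹ • ∑ l : Fin r → Λ,
      (ρ (row (Function.extend J (fun i => w (l i)) 1)) v1 - v1) := by
    rw [sum_sub_distrib, smul_sub, ← hTT, sum_const, card_univ, ← Nat.cast_smul_eq_nsmul ℝ,
      smul_smul, hcard, inv_mul_cancel₀ hLr.ne', one_smul]
  have hθ1 : θ < 1 := by linarith
  have hη : 0 ≤ η := by
    have h1 : ∃ l : Fin r → Λ, l ∉ Bad := by
      by_contra hcon
      push Not at hcon
      have h2 : Bad = univ := Finset.eq_univ_iff_forall.2 hcon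
      rw [h2, card_univ, hcard] at hBad
      nlinarith
    obtain ⟨l, hl1⟩ := h1
    exact (norm_nonneg _).trans (hl l hl1)
  have hterm : ∀ l : Fin r → Λ,
      ‖ρ (row (Function.extend J (fun i => w (l i)) 1)) v1 - v1‖ ≤
        η + if l ∈ Bad then 2 * ‖v1‖ else 0 := by
    intro l
    by_cases hlB : l ∈ Bad
    · rw [if_pos hlB]
      have h1 := norm_sub_le (ρ (row (Function.extend J (fun i => w (l i)) 1)) v1) v1
      rw [LinearIsometryEquiv.norm_map] at h1
      linarith
    · rw [if_neg hlB, add_zero, hdiff _]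
      exact hl l hlB
  have hnorm : ‖TT v1 - v1‖ ≤ η + 2 * θ * ‖v1‖ := by
    rw [hTT1, norm_smul, norm_inv, Real.norm_of_nonneg hLr.le, inv_mul_le_iff₀ hLr]
    refine (norm_sum_le _ _).trans ((sum_le_sum fun l _ => hterm l).trans ?_)
    rw [sum_add_distrib, sum_const, card_univ, nsmul_eq_mul, hcard, ← sum_filter, sum_const,
      nsmul_eq_mul]
    have h1 : (univ.filter fun l => l ∈ Bad) = Bad := by
      ext l
      simp
    rw [h1]
    have h2 := norm_nonneg v1
    nlinarith
  rw [le_div_iff₀ hpos]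
  have h1 : ‖v1‖ - ‖TT v1‖ ≤ ‖TT v1 - v1‖ := by
    have h2 := norm_sub_norm_le v1 (TT v1)
    rw [norm_sub_rev v1 (TT v1)] at h2
    exact h2
  nlinarith

end SG23
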