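import Pool.Agent.N23.SG.Stm
import Pool.Agent.N23.KP.CHEB
import Pool.Agent.N23.KP.ARR

/-!
Project SG (helper23), MP_839d28_al: the wreath step (helper674).
-/

namespace SG23
open Finset

noncomputable section

theorem WRS_cm_one {G : Type} [Group G] (g : G) : KP23.cm g 1 = 1 := by
  unfold KP23.cm
  simp

theorem WRS_one_cm {G : Type} [Group G] (g : G) : KP23.cm 1 g = 1 := by
  unfold KP23.cm
  simp

section
variable {Q M : Type} [Fintype Q] [DecidableEq Q] [Fintype M] [DecidableEq M]

/-- the commutator of two rows -/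
theorem WRS_cm_row (a b : Q → SO M) :
    KP23.cm (row a) (row b) = row fun j => KP23.cm (a j) (b j) := by
  have h : (fun j => KP23.cm (a j) (b j)) = a * b * a⁻¹ * b⁻¹ := rfl
  rw [h, map_mul, map_mul, map_mul, map_inv, map_inv]
  rfl

theorem WRS_blk_apply (h : alternatingGroup Q) (z w : Q × M) :
    ((blk h : SO (Q × M)) : Matrix (Q × M) (Q × M) ℝ) z w =
      if ((h : Equiv.Perm Q) w.1, w.2) = z then 1 else 0 := by
  have h1 : ((blk h : SO (Q × M)) : Matrix (Q × M) (Q × M) ℝ) =
      pmat (KP23.blk (h : Equiv.Perm Q)) := rfl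
  rw [h1, pmat_apply]
  rfl

/-- conjugation of a row by a permutation of the blocks -/
theorem WRS_conj (h : alternatingGroup Q) (u : Q → SO M) :
    (blk h)⁻¹ * row u * blk h = row (fun j => u ((h : Equiv.Perm Q) j)) := by
  have key : row u * blk h = blk h * row (fun j => u ((h : Equiv.Perm Q) j)) := by
    apply Subtype.ext
    change ((row u : SO (Q × M)) : Matrix (Q × M) (Q × M) ℝ) *
        ((blk h : SO (Q × M)) : Matrix (Q × M) (Q × M) ℝ) =
      ((blk h : SO (Q × M)) : Matrix (Q × M) (Q × M) ℝ) *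
        ((row (fun j => u ((h : Equiv.Perm Q) j)) : SO (Q × M)) : Matrix (Q × M) (Q × M) ℝ)
    ext z w
    rw [Matrix.mul_apply, Matrix.mul_apply]
    rw [Finset.sum_eq_single ((h : Equiv.Perm Q) w.1, w.2)]
    · rw [Finset.sum_eq_single ((h : Equiv.Perm Q).symm z.1, z.2)]
      · rw [WRS_blk_apply, WRS_blk_apply, row_apply, row_apply, if_pos rfl, mul_one]
        simp only [Equiv.apply_symm_apply, if_true, one_mul]
        by_cases hz : z.1 = (h : Equiv.Perm Q) w.1
        · have hz' : (h : Equiv.Perm Q).symm z.1 = w.1 := by rw [hz, Equiv.symm_apply_apply]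
          rw [if_pos hz, if_pos hz']
        · have hz' : ¬ (h : Equiv.Perm Q).symm z.1 = w.1 := by
            intro h1
            apply hz
            rw [← h1, Equiv.apply_symm_apply]
          rw [if_neg hz, if_neg hz']
      · intro t _ ht
        rw [WRS_blk_apply, if_neg, zero_mul]
        intro h1
        apply ht
        rw [← h1]
        simp
      · intro h1
        exact absurd (mem_univ _) h1
    · intro t _ ht
      rw [WRS_blk_apply, if_neg (fun h1 => ht h1.symm), mul_zero]
    · intro h1
      exact absurd (mem_univ _) h1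
  rw [mul_assoc, key, inv_mul_cancel_left]

end

theorem WRS_ofFn {Q : Type} : ∀ (r : ℕ) (l : List Q), l.Nodup → l.length = r →
    ∃ J : Fin r ↪ Q, l = List.ofFn J := by
  rintro _ l h rfl
  exact ⟨⟨l.get, List.nodup_iff_injective_get.1 h⟩, (List.ofFn_get l).symm⟩

theorem WRS_prod_le {X : Type} [Fintype X] [DecidableEq X] {E : Type} [NormedAddCommGroup E]
    [InnerProductSpace ℝ E] [FiniteDimensional ℝ E] (ρ : SO X →* (E ≃ₗᵢ[ℝ] E)) {Q : Type}
    (f : Q → Finset X) (L : List Q) (v : E) : ‖(L.map fun j => P ρ (f j)).prod v‖ ≤ ‖v‖ := by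
  induction L with
  | nil => simp
  | cons a L ih =>
    rw [List.map_cons, List.prod_cons]
    change ‖P ρ (f a) ((L.map fun j => P ρ (f j)).prod v)‖ ≤ ‖v‖
    exact (Submodule.norm_starProjection_apply_le _ _).trans ih

theorem WRS (hT : ST_TENSO) (_hP : ST_PMONO) : ST_WRS := by
  intro Q M Λ _ _ _ _ _ _ _ x y lam θ M₀ r lab hlam hθ hpos hNS hcard hr hsq hQ hlab
    E _ _ _ ρ hρ v η hblk hx hy
  -- one embedding
  have key : ∀ J : Fin r ↪ Q,
      ‖v - (List.ofFn fun i => P ρ (bl (J i))).prod v‖ ≤ 12 * η / (1 - lam - 2 * θ) := by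
    intro J
    have hBad := KP23.CHEB Λ r M₀ θ hθ hr hcard hsq
    refine hT Q M Λ (fun a => KP23.cm (x a) (y a)) lam θ (12 * η) hlam hθ.le hpos hNS r J
      (univ.filter fun l : Fin r → Λ => ∃ a, M₀ < #(univ.filter fun i => l i = a)) hBad E ρ hρ v ?_
    intro l hl
    rw [Finset.mem_filter, not_and, not_exists] at hl
    have hl' : ∀ a, #(univ.filter fun i => l i = a) ≤ M₀ := fun a => not_lt.1 (hl (mem_univ _) a)
    -- the two sets
    set R : Finset Q := univ.map J with hR
    have hRc : #R = r := by rw [hR, card_map, card_univ, Fintype.card_fin]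
    have hcompl : #(univ \ R) = 7 * r := by
      rw [card_sdiff_of_subset (subset_univ _), card_univ, hRc, hQ]
      omega
    obtain ⟨J₁, hJ₁, hJ₁c⟩ := exists_subset_card_eq (s := univ \ R) (n := r) (by omega)
    have hcompl2 : #((univ \ R) \ J₁) = 6 * r := by
      rw [card_sdiff_of_subset hJ₁, hcompl, hJ₁c]
      omega
    obtain ⟨J₂, hJ₂, hJ₂c⟩ := exists_subset_card_eq (s := (univ \ R) \ J₁) (n := r) (by omega)
    have hd1 : ∀ i, J i ∉ J₁ := by
      intro i hi
      have := hJ₁ hi
      rw [mem_sdiff] at this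
      exact this.2 (mem_map_of_mem J (mem_univ i))
    have hd2 : ∀ i, J i ∉ J₂ := by
      intro i hi
      have := hJ₂ hi
      rw [mem_sdiff, mem_sdiff] at this
      exact this.1.2 (mem_map_of_mem J (mem_univ i))
    have hd3 : ∀ j, j ∈ J₁ → j ∉ J₂ := by
      intro j hj hj'
      have := hJ₂ hj'
      rw [mem_sdiff] at this
      exact this.2 hj
    obtain ⟨k₁, hk₁, hk₁l, hk₁n⟩ := KP23.ARR Q Λ lab M₀ r J l J₁ hlab hl' hd1
      (by rw [hcard, hJ₁c]; omega) (by rw [hJ₁c, hQ]; omega)
    obtain ⟨k₂, hk₂, hk₂l, hk₂n⟩ := KP23.ARR Q Λ lab M₀ r J l J₂ hlab hl' hd2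
      (by rw [hcard, hJ₂c]; omega) (by rw [hJ₂c, hQ]; omega)
    set a₁ : alternatingGroup Q := ⟨k₁, Equiv.Perm.mem_alternatingGroup.2 hk₁⟩ with ha₁
    set a₂ : alternatingGroup Q := ⟨k₂, Equiv.Perm.mem_alternatingGroup.2 hk₂⟩ with ha₂
    set X : SO (Q × M) := (blk a₁)⁻¹ * row (fun j => (lab j).elim 1 x) * blk a₁ with hX
    set Y : SO (Q × M) := (blk a₂)⁻¹ * row (fun j => (lab j).elim 1 y) * blk a₂ with hY
    have hX1 : X = row (fun j => (lab (k₁ j)).elim 1 x) := by rw [hX, WRS_conj]
    have hY1 : Y = row (fun j => (lab (k₂ j)).elim 1 y) := by rw [hY, WRS_conj]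
    have hcm : KP23.cm X Y =
        row (Function.extend J (fun i => KP23.cm (x (l i)) (y (l i))) 1) := by
      rw [hX1, hY1, WRS_cm_row]
      congr 1
      funext j
      by_cases hj : j ∈ Set.range J
      · obtain ⟨i, rfl⟩ := hj
        rw [J.injective.extend_apply, hk₁l, hk₂l]
        rfl
      · rw [Function.extend_apply' _ _ _ (fun ⟨a, ha⟩ => hj ⟨a, ha⟩)]
        by_cases hj1 : j ∈ J₁
        · rw [hk₂n j hj (hd3 j hj1)]
          exact WRS_cm_one _
        · rw [hk₁n j hj hj1]
          exact WRS_one_cm _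
    change ‖ρ (row (Function.extend J (fun i => KP23.cm (x (l i)) (y (l i))) 1)) v - v‖ ≤ 12 * η
    rw [← hcm]
    have e1 : ‖ρ X v - v‖ ≤ 3 * η := by
      have h1 := KP23.disp_conj ρ v (row (fun j => (lab j).elim 1 x)) (blk a₁)
      have h2 := hblk a₁
      rw [hX]
      linarith
    have e2 : ‖ρ Y v - v‖ ≤ 3 * η := by
      have h1 := KP23.disp_conj ρ v (row (fun j => (lab j).elim 1 y)) (blk a₂)
      have h2 := hblk a₂
      rw [hY]
      linarith
    have e3 := KP23.disp_cm ρ v X Y
    linarith
  -- pieces of length `r`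
  have step : ∀ (c : ℕ) (L : List Q), L.Nodup → L.length = c * r →
      ‖v - (L.map fun j => P ρ (bl j)).prod v‖ ≤ c * (12 * η / (1 - lam - 2 * θ)) := by
    intro c
    induction c with
    | zero =>
      intro L _ hL
      have h1 : L = [] := List.length_eq_zero_iff.1 (by simpa using hL)
      rw [h1]
      simp
    | succ c ih =>
      intro L hn hL
      have hle : r ≤ L.length := by rw [hL]; nlinarith
      have h1 : (L.take r).length = r := by rw [List.length_take]; omega
      have h2 : (L.drop r).length = c * r := by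
        rw [List.length_drop, hL, Nat.succ_mul]; omega
      have hsplit : L.take r ++ L.drop r = L := List.take_append_drop r L
      have hn1 : (L.take r).Nodup := hn.sublist (List.take_sublist r L)
      have hn2 : (L.drop r).Nodup := hn.sublist (List.drop_sublist r L)
      obtain ⟨J, hJ⟩ := WRS_ofFn r (L.take r) hn1 h1
      have h3 := ih (L.drop r) hn2 h2
      have h4 := key J
      have h5 : (List.ofFn fun i => P ρ (bl (J i))) = (L.take r).map fun j => P ρ (bl j) := by
        rw [hJ, List.map_ofFn]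
        rfl
      rw [h5] at h4
      have h6 : (L.map fun j => P ρ (bl j)).prod v =
          ((L.take r).map fun j => P ρ (bl j)).prod (((L.drop r).map fun j => P ρ (bl j)).prod v) := by
        conv_lhs => rw [← hsplit, List.map_append, List.prod_append]
        rfl
      have h7 : v - (L.map fun j => P ρ (bl j)).prod v =
          (v - ((L.take r).map fun j => P ρ (bl j)).prod v) +
          ((L.take r).map fun j => P ρ (bl j)).prod
            (v - ((L.drop r).map fun j => P ρ (bl j)).prod v) := by
        rw [h6, map_sub]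
        abel
      rw [h7]
      refine (norm_add_le _ _).trans ?_
      have h8 := WRS_prod_le ρ (fun j : Q => (bl j : Finset (Q × M))) (L.take r)
        (v - ((L.drop r).map fun j => P ρ (bl j)).prod v)
      push_cast
      linarith
  intro L hn hL
  have hlen : L.length = 8 * r := by
    have h1 : L.toFinset = univ := by
      ext j
      simp [hL j]
    rw [← List.toFinset_card_of_nodup hn, h1, card_univ, hQ]
  have h1 := step 8 L hn hlen
  refine h1.trans (le_of_eq ?_)
  push_cast
  ring

end

end SG23
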