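import Pool.Agent.N23.SG.Stm

/-!
# SG/XM: averages over subsets of size `m` (helper374)
-/

set_option autoImplicit false

namespace SG23
open Finset

lemma XM_dc {X : Type} [DecidableEq X] (Y : Finset X) (m : ℕ) (f : Finset X → ℝ) :
    ∑ T ∈ Y.powersetCard (m + 1), ∑ j ∈ T, f (T.erase j) =
      ∑ S ∈ Y.powersetCard m, ∑ _j ∈ Y \ S, f S := by
  rw [Finset.sum_sigma', Finset.sum_sigma']
  refine Finset.sum_nbij' (fun q => ⟨q.1.erase q.2, q.2⟩) (fun q => ⟨insert q.2 q.1, q.2⟩)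
    ?_ ?_ ?_ ?_ ?_
  · rintro ⟨T, j⟩ h
    simp only [mem_sigma, mem_powersetCard, mem_sdiff, mem_erase] at h ⊢
    obtain ⟨⟨h1, h2⟩, h3⟩ := h
    refine ⟨⟨(erase_subset _ _).trans h1, ?_⟩, h1 h3, fun h4 => h4.1 rfl⟩
    rw [card_erase_of_mem h3, h2]
    rfl
  · rintro ⟨S, j⟩ h
    simp only [mem_sigma, mem_powersetCard, mem_sdiff] at h ⊢
    obtain ⟨⟨h1, h2⟩, h3, h4⟩ := h
    refine ⟨⟨insert_subset h3 h1, ?_⟩, mem_insert_self _ _⟩
    rw [card_insert_of_notMem h4, h2]
  · rintro ⟨T, j⟩ h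
    simp only [mem_sigma, mem_powersetCard] at h
    simp only [insert_erase h.2]
  · rintro ⟨S, j⟩ h
    simp only [mem_sigma, mem_powersetCard, mem_sdiff] at h
    simp only [erase_insert h.2.2]
  · rintro ⟨T, j⟩ _
    rfl

lemma XM_norm {X : Type} [Fintype X] [DecidableEq X] {E : Type} [NormedAddCommGroup E]
    [InnerProductSpace ℝ E] [FiniteDimensional ℝ E] (ρ : SO X →* (E ≃ₗᵢ[ℝ] E)) (S : Finset X)
    (v : E) : ‖P ρ S v‖ ^ 2 ≤ ‖v‖ ^ 2 := by
  have h : ‖P ρ S v‖ ≤ ‖v‖ := Submodule.norm_starProjection_apply_le _ v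
  gcongr

theorem XM (hS : ST_STARS) (_hP : ST_PMONO) : ST_XM := by
  intro X _ _ E _ _ _ ρ hρ Y m hm v
  obtain ⟨V, hV⟩ : ∃ V, V = ‖v‖ ^ 2 := ⟨_, rfl⟩
  obtain ⟨p, hp⟩ : ∃ p, p = ‖P ρ Y v‖ ^ 2 := ⟨_, rfl⟩
  obtain ⟨a, ha⟩ : ∃ a : Finset X → ℝ, ∀ S, a S = ‖P ρ S v‖ ^ 2 := ⟨_, fun _ => rfl⟩
  have haV : ∀ S, a S ≤ V := fun S => by rw [ha, hV]; exact XM_norm ρ S v
  have ha0 : ∀ S, 0 ≤ a S := fun S => by rw [ha]; positivity
  have hpV : p ≤ V := by rw [hp, ← ha]; exact haV Y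
  have hstar : ∀ T : Finset X, 3 ≤ #T →
      ∑ j ∈ T, a (T.erase j) ≤ (1 + 3 / (#T : ℝ)) * V + ((#T : ℝ) - 1 - 3 / (#T : ℝ)) * a T := by
    intro T hT
    have := hS X E ρ hρ T hT v
    simpa only [← ha, ← hV] using this
  -- small `m`
  have small : ∀ m : ℕ, m ≤ 6 → ∑ S ∈ Y.powersetCard m, a S ≤
      ((#Y).choose m : ℝ) * (V - ((m : ℝ) - 6) / #Y * (V - p)) := by
    intro m hm6
    have h1 : ∑ S ∈ Y.powersetCard m, a S ≤ ∑ _S ∈ Y.powersetCard m, V :=
      Finset.sum_le_sum fun S _ => haV S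
    rw [Finset.sum_const, card_powersetCard, nsmul_eq_mul] at h1
    refine h1.trans ?_
    have h2 : ((m : ℝ) - 6) / #Y ≤ 0 := by
      apply div_nonpos_of_nonpos_of_nonneg
      · have : (m : ℝ) ≤ 6 := by exact_mod_cast hm6
        linarith
      · positivity
    have h3 : V ≤ V - ((m : ℝ) - 6) / #Y * (V - p) := by nlinarith
    gcongr
  -- downward induction
  have big : ∀ k m : ℕ, m + k = #Y → 6 ≤ m → ∑ S ∈ Y.powersetCard m, a S ≤
      ((#Y).choose m : ℝ) * (V - ((m : ℝ) - 6) / #Y * (V - p)) := by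
    intro k
    induction k with
    | zero =>
      intro m h1 h6
      have h2 : m = #Y := by omega
      subst h2
      rw [powersetCard_self, sum_singleton, Nat.choose_self]
      have hN : (6 : ℝ) ≤ (#Y : ℝ) := by exact_mod_cast h6
      have h3 : ((#Y : ℝ) - 6) / #Y ≤ 1 := by
        rw [div_le_one (by linarith)]
        linarith
      rw [ha, ← hp]
      push_cast
      nlinarith
    | succ k ih =>
      intro m h1 h6
      have h2 := ih (m + 1) (by omega) (by omega)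
      have hdc := XM_dc Y m a
      have hN0 : 0 < #Y := by omega
      have hNr : (0 : ℝ) < (#Y : ℝ) := by exact_mod_cast hN0
      have hmN : m < #Y := by omega
      have hmNr : (0 : ℝ) < (#Y : ℝ) - m := by
        have : (m : ℝ) < #Y := by exact_mod_cast hmN
        linarith
      obtain ⟨n, hn⟩ : ∃ n : ℝ, n = (m : ℝ) + 1 := ⟨_, rfl⟩
      have hm6 : (6 : ℝ) ≤ m := by exact_mod_cast h6
      have hn7 : 7 ≤ n := by linarith
      have hn0 : 0 < n := by linarith
      have hR : ∑ S ∈ Y.powersetCard m, ∑ _j ∈ Y \ S, a S =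
          ((#Y : ℝ) - m) * ∑ S ∈ Y.powersetCard m, a S := by
        rw [Finset.mul_sum]
        refine Finset.sum_congr rfl fun S hS' => ?_
        rw [mem_powersetCard] at hS'
        rw [Finset.sum_const, card_sdiff_of_subset hS'.1, hS'.2, nsmul_eq_mul,
          Nat.cast_sub hmN.le]
      have hL : ∑ T ∈ Y.powersetCard (m + 1), ∑ j ∈ T, a (T.erase j) ≤
          ((#Y).choose (m + 1) : ℝ) * ((1 + 3 / n) * V) +
            (n - 1 - 3 / n) * ∑ T ∈ Y.powersetCard (m + 1), a T := by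
        have h3 : ∑ T ∈ Y.powersetCard (m + 1), ∑ j ∈ T, a (T.erase j) ≤
            ∑ T ∈ Y.powersetCard (m + 1), ((1 + 3 / n) * V + (n - 1 - 3 / n) * a T) := by
          refine Finset.sum_le_sum fun T hT => ?_
          rw [mem_powersetCard] at hT
          have h4 := hstar T (by omega)
          rw [hT.2] at h4
          push_cast at h4
          rw [hn]
          exact h4
        rw [Finset.sum_add_distrib, Finset.sum_const, card_powersetCard, nsmul_eq_mul,
          ← Finset.mul_sum] at h3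
        exact h3
      rw [hdc, hR] at hL
      have hchoose : ((#Y).choose (m + 1) : ℝ) * n = ((#Y).choose m : ℝ) * ((#Y : ℝ) - m) := by
        have := Nat.choose_succ_right_eq (#Y) m
        have h5 : ((#Y).choose (m + 1) : ℝ) * ((m : ℝ) + 1) =
            ((#Y).choose m : ℝ) * ((#Y - m : ℕ) : ℝ) := by exact_mod_cast this
        rw [Nat.cast_sub hmN.le] at h5
        rw [hn]
        exact h5
      have hcoef : 0 ≤ n - 1 - 3 / n := by
        have : 3 / n ≤ 1 := by
          rw [div_le_one hn0]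
          linarith
        linarith
      have hm' : (((m + 1 : ℕ) : ℝ)) = n := by rw [hn]; push_cast; ring
      rw [hm'] at h2
      have h7 : ((#Y : ℝ) - m) * ∑ S ∈ Y.powersetCard m, a S ≤
          ((#Y).choose (m + 1) : ℝ) * ((1 + 3 / n) * V) + (n - 1 - 3 / n) *
            (((#Y).choose (m + 1) : ℝ) * (V - (n - 6) / #Y * (V - p))) :=
        hL.trans (by gcongr)
      have h8 : ((#Y).choose (m + 1) : ℝ) * ((1 + 3 / n) * V) + (n - 1 - 3 / n) *
            (((#Y).choose (m + 1) : ℝ) * (V - (n - 6) / #Y * (V - p))) =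
          (((#Y).choose (m + 1) : ℝ) * n) *
            (V - ((n - 7 + 3 / n + 18 / n ^ 2) / #Y) * (V - p)) := by
        field_simp
        ring
      rw [h8, hchoose] at h7
      have h9 : ∑ S ∈ Y.powersetCard m, a S ≤ ((#Y).choose m : ℝ) *
          (V - ((n - 7 + 3 / n + 18 / n ^ 2) / #Y) * (V - p)) := by
        have h10 : ((#Y : ℝ) - m) * ∑ S ∈ Y.powersetCard m, a S ≤ ((#Y : ℝ) - m) *
            (((#Y).choose m : ℝ) * (V - ((n - 7 + 3 / n + 18 / n ^ 2) / #Y) * (V - p))) := by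
          refine h7.trans (le_of_eq ?_)
          ring
        exact le_of_mul_le_mul_left h10 hmNr
      refine h9.trans ?_
      have h11 : ((m : ℝ) - 6) / #Y ≤ (n - 7 + 3 / n + 18 / n ^ 2) / #Y := by
        have : 0 ≤ 3 / n + 18 / n ^ 2 := by positivity
        have h12 : (m : ℝ) - 6 ≤ n - 7 + 3 / n + 18 / n ^ 2 := by
          rw [hn] at this ⊢
          linarith
        gcongr
      have h13 : 0 ≤ V - p := by linarith
      gcongr
  have hfin : ∑ S ∈ Y.powersetCard m, a S ≤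
      ((#Y).choose m : ℝ) * (V - ((m : ℝ) - 6) / #Y * (V - p)) := by
    rcases le_total m 6 with h | h
    · exact small m h
    · exact big (#Y - m) m (by omega) h
  have he : ∀ S, ‖P ρ S v‖ ^ 2 = a S := fun S => (ha S).symm
  simp only [he]
  rw [he] at hp
  rw [← hV]
  refine hfin.trans (le_of_eq ?_)
  rw [hp]
  ring

end SG23
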