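import Pool.Agent.N23.KP.All
import Pool.Agent.N669.SGAxis
import Pool.Agent.N669.SGDiml
import Pool.Agent.N669.SGSmall
import Pool.Agent.N23.SG.ALLS
import Pool.Agent.N23.SG.ALTK
import Pool.Agent.N23.SG.BALL
import Pool.Agent.N23.SG.BASE3
import Pool.Agent.N23.SG.BIG
import Pool.Agent.N23.SG.CNTB
import Pool.Agent.N23.SG.COLFN
import Pool.Agent.N23.SG.COMS
import Pool.Agent.N23.SG.DENS
import Pool.Agent.N23.SG.EXH
import Pool.Agent.N23.SG.FIN
import Pool.Agent.N23.SG.FLAG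
import Pool.Agent.N23.SG.FREEQ
import Pool.Agent.N23.SG.FREQ
import Pool.Agent.N23.SG.FULLS
import Pool.Agent.N23.SG.GJS
import Pool.Agent.N23.SG.HM
import Pool.Agent.N23.SG.INDS
import Pool.Agent.N23.SG.KEY
import Pool.Agent.N23.SG.KEYD
import Pool.Agent.N23.SG.L2G
import Pool.Agent.N23.SG.MOM
import Pool.Agent.N23.SG.NBW
import Pool.Agent.N23.SG.PADS
import Pool.Agent.N23.SG.PAIRC
import Pool.Agent.N23.SG.PAIRI
import Pool.Agent.N23.SG.PCONJ
import Pool.Agent.N23.SG.PEMB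
import Pool.Agent.N23.SG.PMONO
import Pool.Agent.N23.SG.POLD
import Pool.Agent.N23.SG.POLR
import Pool.Agent.N23.SG.POW
import Pool.Agent.N23.SG.R2
import Pool.Agent.N23.SG.RECS
import Pool.Agent.N23.SG.REIX
import Pool.Agent.N23.SG.SCHUR
import Pool.Agent.N23.SG.SMALL
import Pool.Agent.N23.SG.STAR
import Pool.Agent.N23.SG.STARF
import Pool.Agent.N23.SG.STARS
import Pool.Agent.N23.SG.STEP
import Pool.Agent.N23.SG.SUPP
import Pool.Agent.N23.SG.TENSO
import Pool.Agent.N23.SG.UNI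
import Pool.Agent.N23.SG.WRS
import Pool.Agent.N23.SG.XM

/-! Project SG (helper23), MP_839d28_al: assembly. -/

namespace SG23

theorem CNTB' : ST_CNTB := CNTB PAIRC FREEQ (NNB R2)

theorem GJS' : ST_GJS := GJS (FREQ DIML) SCHUR NBW

theorem BIG' : ST_BIG := BIG BALL CNTB' GJS'

theorem BASE3' (hAx : ST_AXIS) : ST_BASE3 := BASE3 BIG' (SMALL hAx EUL IRR)

theorem HM' : ST_HM := HM EXH

theorem STARF' : ST_STARF := STARF (PAIRI HM' MOM PEMB) FLAG

theorem STAR' : ST_STAR := STAR HM' STARF' COLFN PMONO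

theorem XM' : ST_XM := XM (STARS STAR' PEMB) PMONO

theorem KEYD' : ST_KEYD := KEYD (KEY XM' PMONO) PMONO

theorem WRS' : ST_WRS := WRS (TENSO KP23.CONTR PEMB PMONO) PMONO

theorem FULLS' : ST_FULLS := FULLS WRS' KEYD' PCONJ

theorem STEP' : ST_STEP := STEP KP23.ALLN' FULLS' ALTK COMS

theorem INDS' : ST_INDS := INDS STAR' PEMB

theorem base (hAx : ST_AXIS) :
    ∃ (k : ℕ) (K : ℝ) (g : Fin k → SO (Fin 3)), 0 < K ∧ KS g K := by
  obtain ⟨K, hK, h⟩ := BASE3' hAx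
  exact ⟨3, K, _, hK, h⟩

theorem RECS' (hAx : ST_AXIS) : ST_RECS := RECS POW STEP' (REIX PEMB) (base hAx) INDS'

theorem UNI' (hAx : ST_AXIS) : ST_UNI := UNI KP23.ALLN' (RECS' hAx) XM' PMONO PCONJ PEMB ALTK

theorem ALLS' (hAx : ST_AXIS) : ST_ALLS := ALLS (UNI' hAx) INDS' (base hAx)

theorem L2G' : ST_L2G := L2G POLD (POLR SUPP)

theorem FIN' (hAx : ST_AXIS) : ST_FIN := FIN (ALLS' hAx) L2G' (DENS L2G' EXH SUPP) PADS

theorem GOAL : ST_FIN := FIN' (AXIS DIML)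

end SG23
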