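import Pool.Agent.N23.SG.Def
import Pool.Agent.H762R3.Rot
import Pool.Agent.TH591.Lie.Rep7

/-!
Project SG (helper23), MP_839d28_al.  Statements for the base case `SO(3)`.
-/

namespace SG23
open Finset MeasureTheory Quaternion
open Pool.Agent.H762R3.UQ Pool.Agent.H762R3.Rot
open Pool.Agent.TH591.Lie (Skew)

noncomputable section

instance instMU : MeasurableSpace U := borel U
instance instBU : BorelSpace U := ⟨rfl⟩

/-- the rotation by the angle `t` about the axis number `i`, as a quaternion -/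
def axq (i : Fin 3) (t : ℝ) : ℍ[ℝ] :=
  ⟨Real.cos (t / 2), if i = 0 then Real.sin (t / 2) else 0, if i = 1 then Real.sin (t / 2) else 0,
    if i = 2 then Real.sin (t / 2) else 0⟩

lemma axq_mem (i : Fin 3) (t : ℝ) : axq i t ∈ Metric.sphere (0 : ℍ[ℝ]) 1 := by
  apply unit_of
  have h := Real.cos_sq_add_sin_sq (t / 2)
  fin_cases i <;> simp [axq]

/-- the rotation by the angle `t` about the axis number `i`, as a unit quaternion -/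
def ax (i : Fin 3) (t : ℝ) : U := ⟨axq i t, axq_mem i t⟩

/-- the three rotations by the angle `arccos (-3/5)` about the coordinate axes: the unit quaternions
`(1 + 2 i)/√5`, `(1 + 2 j)/√5`, `(1 + 2 k)/√5` -/
def gq (i : Fin 3) : U := ax i (2 * Real.arctan 2)

/-- two consecutive letters of a reduced word -/
def ok (a b : Fin 3 × Bool) : Prop := a.1 = b.1 → a.2 = b.2

instance (a b : Fin 3 × Bool) : Decidable (ok a b) := by unfold ok; infer_instance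

/-- the reduced words of length `l` -/
def RW : ℕ → Finset (List (Fin 3 × Bool))
  | 0 => {[]}
  | l + 1 => ((univ ×ˢ RW l).filter fun p => ∀ b ∈ p.2.head?, ok p.1 b).image fun p => p.1 :: p.2

/-- the value of a word -/
def wp {G : Type} [Group G] (g : Fin 3 → G) (w : List (Fin 3 × Bool)) : G :=
  (w.map fun a => if a.2 then g a.1 else (g a.1)⁻¹).prod

/-- irreducible representations -/
def Irr {X : Type} [Fintype X] [DecidableEq X] {E : Type} [NormedAddCommGroup E]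
    [InnerProductSpace ℝ E] (ρ : SO X →* (E ≃ₗᵢ[ℝ] E)) : Prop :=
  ∀ W : Submodule ℝ E, (∀ g, ∀ w ∈ W, ρ g w ∈ W) → W = ⊥ ∨ W = ⊤

/-- DIML: norm of the generators of a representation of `so(3)` -/
def ST_DIML : Prop :=
  ∀ (E : Type) [NormedAddCommGroup E] [InnerProductSpace ℝ E] [FiniteDimensional ℝ E]
    (A B C : E →L[ℝ] E), Skew A → Skew B → Skew C → A * B - B * A = C → B * C - C * B = A →
    C * A - A * C = B → ∀ v, ‖C v‖ ≤ Module.finrank ℝ E * ‖v‖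

/-- FREQ: rotations close to the identity -/
def ST_FREQ : Prop :=
  ∀ (E : Type) [NormedAddCommGroup E] [InnerProductSpace ℝ E] [FiniteDimensional ℝ E]
    (ρ : SO (Fin 3) →* (E ≃ₗᵢ[ℝ] E)), PR ρ → ∀ (q : U) (v : E),
    ‖ρ (rho q) v - v‖ ≤ 4 * Module.finrank ℝ E * ‖(q : ℍ[ℝ]) - 1‖ * ‖v‖

/-- SCHUR: orthogonality relations for real irreducible representations -/
def ST_SCHUR : Prop :=
  ∀ (E : Type) [NormedAddCommGroup E] [InnerProductSpace ℝ E] [FiniteDimensional ℝ E]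
    (ρ : SO (Fin 3) →* (E ≃ₗᵢ[ℝ] E)), PR ρ → Irr ρ → ∀ u v : E,
    (∫ q : U, inner ℝ v (ρ (rho q) u) ^ 2 ∂(mu4 : Measure U)) * Module.finrank ℝ E =
      ‖v‖ ^ 2 * ‖u‖ ^ 2

/-- BALL: volume of the balls in the group of unit quaternions -/
def ST_BALL : Prop :=
  ∃ c : ℝ, 0 < c ∧ ∀ δ : ℝ, 0 < δ → δ ≤ 1 →
    c * δ ^ 3 ≤ ((mu4 : Measure U) {q : U | ‖(q : ℍ[ℝ]) - 1‖ ≤ δ}).toReal

/-- NBW: non-backtracking powers -/
def ST_NBW : Prop :=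
  ∀ (G : Type) [Group G] (g : Fin 3 → G) (E : Type) [NormedAddCommGroup E] [InnerProductSpace ℝ E]
    (ρ : G →* (E ≃ₗᵢ[ℝ] E)) (v : E) (θ : ℝ), 1 < θ →
    ∑ i, (ρ (g i) v + ρ (g i)⁻¹ v) = (Real.sqrt 5 * (θ + 1 / θ)) • v → ∀ l : ℕ,
    ∃ t : ℝ, (Real.sqrt 5 * θ) ^ l ≤ t ∧ ∑ w ∈ RW l, ρ (wp g w) v = t • v

/-- PAIRC: pairs of reduced words with given quotient -/
def ST_PAIRC : Prop :=
  ∀ (G : Type) [Group G] (g : Fin 3 → G) (C : G → Prop) [DecidablePred C] (l : ℕ),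
    (#((RW l ×ˢ RW l).filter fun w => C (wp g w.2 * (wp g w.1)⁻¹)) : ℝ) ≤
      ∑ m ∈ range (l + 1), ((6 : ℝ) / 5) * 5 ^ (l - m) *
        (#((RW (2 * m)).filter fun z => C (wp g z)) : ℝ)

/-- the number of integer quaternions of norm `25 ^ m` in the ball of radius `δ 5 ^ m` around
`5 ^ m` -/
def NN (m : ℕ) (δ : ℝ) : ℕ :=
  Nat.card {x : Fin 4 → ℤ // ∑ i, x i ^ 2 = 5 ^ (2 * m) ∧ 2 * ((5 : ℝ) ^ m - x 0) ≤ δ ^ 2 * 5 ^ m}

open Classical in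
/-- FREEQ: the three rotations generate a free group -/
def ST_FREEQ : Prop :=
  ∀ (m : ℕ) (δ : ℝ),
    #((RW (2 * m)).filter fun z => ‖((wp gq z : U) : ℍ[ℝ]) - 1‖ ≤ δ) ≤ NN m δ

/-- R2: sums of two squares -/
def ST_R2 : Prop :=
  ∀ ε : ℝ, 0 < ε → ∃ C : ℝ, 0 < C ∧ ∀ k : ℕ, 0 < k →
    (Nat.card {x : ℤ × ℤ // x.1 ^ 2 + x.2 ^ 2 = k} : ℝ) ≤ C * (k : ℝ) ^ ε

/-- NNB -/
def ST_NNB : Prop :=
  ∃ C : ℝ, 0 < C ∧ ∀ (m : ℕ) (δ : ℝ), 0 < δ → δ ≤ 2 →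
    (NN m δ : ℝ) ≤ C * (δ ^ 2 * 5 ^ m + 1) * (δ * 5 ^ m + 1) * (5 : ℝ) ^ ((m : ℝ) / 50)

open Classical in
/-- CNTB: close pairs of reduced words -/
def ST_CNTB : Prop :=
  ∃ C : ℝ, 0 < C ∧ ∀ (l : ℕ) (δ : ℝ), 0 < δ → δ ≤ 2 →
    (#((RW l ×ˢ RW l).filter fun w =>
      ‖((wp gq w.2 * (wp gq w.1)⁻¹ : U) : ℍ[ℝ]) - 1‖ ≤ δ) : ℝ) ≤
      C * (l + 1) * 5 ^ l * (5 : ℝ) ^ ((l : ℝ) / 50) * (δ ^ 3 * 5 ^ l + 1)

open Classical in
/-- GJS: the inequality of Gamburd, Jakobson and Sarnak -/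
def ST_GJS : Prop :=
  ∀ (E : Type) [NormedAddCommGroup E] [InnerProductSpace ℝ E] [FiniteDimensional ℝ E]
    (ρ : SO (Fin 3) →* (E ≃ₗᵢ[ℝ] E)), PR ρ → Irr ρ → ∀ v : E, ‖v‖ = 1 → ∀ θ : ℝ, 1 < θ →
    ∑ i, (ρ (rho (gq i)) v + ρ (rho (gq i))⁻¹ v) = (Real.sqrt 5 * (θ + 1 / θ)) • v →
    ∀ δ : ℝ, 0 < δ → 8 * Module.finrank ℝ E * δ ≤ 1 → ∀ l : ℕ,
    (5 * θ ^ 2) ^ l * ((mu4 : Measure U) {q : U | ‖(q : ℍ[ℝ]) - 1‖ ≤ δ}).toReal *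
        Module.finrank ℝ E ≤
      4 * #((RW l ×ˢ RW l).filter fun w =>
        ‖((wp gq w.2 * (wp gq w.1)⁻¹ : U) : ℍ[ℝ]) - 1‖ ≤ 2 * δ)

/-- BIG: gap for the irreducible representations of large dimension -/
def ST_BIG : Prop :=
  ∃ (d₀ : ℕ) (c : ℝ), 0 < c ∧
    ∀ (E : Type) [NormedAddCommGroup E] [InnerProductSpace ℝ E] [FiniteDimensional ℝ E]
    (ρ : SO (Fin 3) →* (E ≃ₗᵢ[ℝ] E)), PR ρ → Irr ρ → d₀ ≤ Module.finrank ℝ E →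
    ∀ v : E, c * ‖v‖ ^ 2 ≤ ∑ i, ‖ρ (rho (gq i)) v - v‖ ^ 2

/-- AXIS: rotations about one axis -/
def ST_AXIS : Prop :=
  ∀ (d₀ : ℕ) (θ₀ : ℝ), (∀ j : ℕ, 0 < j → Real.sin (j * θ₀ / 2) ≠ 0) → ∃ C : ℝ, 0 < C ∧
    ∀ (E : Type) [NormedAddCommGroup E] [InnerProductSpace ℝ E] [FiniteDimensional ℝ E]
    (ρ : SO (Fin 3) →* (E ≃ₗᵢ[ℝ] E)), PR ρ → Module.finrank ℝ E ≤ d₀ →
    ∀ (i : Fin 3) (t : ℝ) (v : E), ‖ρ (rho (ax i t)) v - v‖ ≤ C * ‖ρ (rho (ax i θ₀)) v - v‖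

/-- EUL: Euler angles -/
def ST_EUL : Prop := ∀ q : U, ∃ a b c : ℝ, q = ax 2 a * ax 0 b * ax 2 c

/-- IRR: the angle `arccos (-3/5)` is not a rational multiple of `π` -/
def ST_IRR : Prop := ∀ j : ℕ, 0 < j → Real.sin (j * (2 * Real.arctan 2) / 2) ≠ 0

/-- SMALL: gap for the representations of small dimension -/
def ST_SMALL : Prop :=
  ∀ d₀ : ℕ, ∃ c : ℝ, 0 < c ∧
    ∀ (E : Type) [NormedAddCommGroup E] [InnerProductSpace ℝ E] [FiniteDimensional ℝ E]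
    (ρ : SO (Fin 3) →* (E ≃ₗᵢ[ℝ] E)), PR ρ → Module.finrank ℝ E ≤ d₀ →
    ∀ v : E, P ρ univ v = 0 → c * ‖v‖ ^ 2 ≤ ∑ i, ‖ρ (rho (gq i)) v - v‖ ^ 2

/-- BASE3: the spectral gap for `SO(3)` -/
def ST_BASE3 : Prop := ∃ K : ℝ, 0 < K ∧ KS (fun i : Fin 3 => (rho (gq i) : SO (Fin 3))) K

end

end SG23
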