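import Mathlib
import Pool.Agent.N23.KP.Def

/-!
Project SG (helper23), MP_839d28_al: spectral gap uniform in `n` for `SO(n)`.  Definitions.
-/

namespace SG23
open Finset

noncomputable section

/-- the special orthogonal group of `ℝ^X` -/
abbrev SO (X : Type) [Fintype X] [DecidableEq X] : Type := Matrix.specialOrthogonalGroup X ℝ

section
variable {X : Type} [Fintype X] [DecidableEq X]

lemma mem_SO (A : Matrix X X ℝ) :
    A ∈ Matrix.specialOrthogonalGroup X ℝ ↔ A.transpose * A = 1 ∧ A.det = 1 := by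
  rw [Matrix.mem_specialOrthogonalGroup_iff, Matrix.mem_orthogonalGroup_iff']
  try rfl

lemma SO_left (g : SO X) : (g : Matrix X X ℝ).transpose * (g : Matrix X X ℝ) = 1 :=
  ((mem_SO _).1 g.2).1

lemma SO_right (g : SO X) : (g : Matrix X X ℝ) * (g : Matrix X X ℝ).transpose = 1 :=
  mul_eq_one_comm.1 (SO_left g)

lemma SO_det (g : SO X) : (g : Matrix X X ℝ).det = 1 := ((mem_SO _).1 g.2).2

lemma SO_inv (g : SO X) : ((g⁻¹ : SO X) : Matrix X X ℝ) = (g : Matrix X X ℝ).transpose := by
  have h1 : ((g⁻¹ : SO X) : Matrix X X ℝ) * (g : Matrix X X ℝ) = 1 :=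
    congrArg Subtype.val (inv_mul_cancel g)
  calc ((g⁻¹ : SO X) : Matrix X X ℝ)
      = ((g⁻¹ : SO X) : Matrix X X ℝ) * ((g : Matrix X X ℝ) * (g : Matrix X X ℝ).transpose) := by
        rw [SO_right, mul_one]
    _ = _ := by rw [← mul_assoc, h1, one_mul]

/-- `SO(S)`, `S ⊆ X`: the rotations of `ℝ^X` which fix the coordinates outside `S` -/
def sub (S : Finset X) : Subgroup (SO X) where
  carrier := {g | ∀ i j, (i ∉ S ∨ j ∉ S) → (g : Matrix X X ℝ) i j = (1 : Matrix X X ℝ) i j}
  mul_mem' := by
    intro a b ha hb i j hij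
    change ((a : Matrix X X ℝ) * (b : Matrix X X ℝ)) i j = _
    rw [Matrix.mul_apply]
    rcases hij with h | h
    · rw [Finset.sum_eq_single i]
      · rw [ha i i (Or.inl h), hb i j (Or.inl h), Matrix.one_apply_eq, one_mul]
      · intro k _ hk
        rw [ha i k (Or.inl h), Matrix.one_apply_ne (Ne.symm hk), zero_mul]
      · intro h2; exact absurd (mem_univ _) h2
    · rw [Finset.sum_eq_single j]
      · rw [ha i j (Or.inr h), hb j j (Or.inr h), Matrix.one_apply_eq, mul_one]
      · intro k _ hk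
        rw [hb k j (Or.inr h), Matrix.one_apply_ne hk, mul_zero]
      · intro h2; exact absurd (mem_univ _) h2
  one_mem' := fun _ _ _ => rfl
  inv_mem' := by
    intro a ha i j hij
    rw [SO_inv, Matrix.transpose_apply, ha j i hij.symm, Matrix.one_apply, Matrix.one_apply]
    simp only [eq_comm]

variable {E : Type} [NormedAddCommGroup E] [InnerProductSpace ℝ E]

/-- orthogonal representations with polynomial matrix coefficients -/
def PR (ρ : SO X →* (E ≃ₗᵢ[ℝ] E)) : Prop :=
  ∃ k : ℕ, ∀ x y : E, ∃ P : MvPolynomial (X × X) ℝ, P.totalDegree ≤ k ∧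
    ∀ g : SO X, inner ℝ y (ρ g x) = MvPolynomial.eval (fun p => (g : Matrix X X ℝ) p.1 p.2) P

/-- the vectors fixed by a subgroup -/
def fixS (ρ : SO X →* (E ≃ₗᵢ[ℝ] E)) (H : Subgroup (SO X)) : Submodule ℝ E where
  carrier := {v | ∀ g ∈ H, ρ g v = v}
  add_mem' := by
    intro a b ha hb g hg
    rw [map_add, ha g hg, hb g hg]
  zero_mem' := fun g _ => map_zero _
  smul_mem' := by
    intro c v hv g hg
    rw [map_smul, hv g hg]

/-- the orthogonal projection onto the vectors fixed by `SO(S)` -/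
def P [FiniteDimensional ℝ E] (ρ : SO X →* (E ≃ₗᵢ[ℝ] E)) (S : Finset X) : E →L[ℝ] E :=
  (fixS ρ (sub S)).starProjection

end

/-- Kazhdan form: a vector moved at most `η` by all `g i` is at distance at most `K η` from the
vectors fixed by `SO(X)` -/
def KS {X : Type} [Fintype X] [DecidableEq X] {ι : Type} (g : ι → SO X) (K : ℝ) : Prop :=
  ∀ (E : Type) [NormedAddCommGroup E] [InnerProductSpace ℝ E] [FiniteDimensional ℝ E]
    (ρ : SO X →* (E ≃ₗᵢ[ℝ] E)), PR ρ → ∀ (v : E) (η : ℝ), (∀ i, ‖ρ (g i) v - v‖ ≤ η) →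
    ‖v - P ρ univ v‖ ≤ K * η

/-- norm form: the average of the `ρ (g i)` has norm at most `κ` on the complement of the fixed
vectors -/
def NS {X : Type} [Fintype X] [DecidableEq X] {ι : Type} [Fintype ι] (g : ι → SO X) (κ : ℝ) :
    Prop :=
  ∀ (E : Type) [NormedAddCommGroup E] [InnerProductSpace ℝ E] [FiniteDimensional ℝ E]
    (ρ : SO X →* (E ≃ₗᵢ[ℝ] E)), PR ρ → ∀ v : E, P ρ univ v = 0 →
    ‖∑ i, ρ (g i) v‖ ≤ κ * Fintype.card ι * ‖v‖

section
variable {X : Type} [Fintype X] [DecidableEq X]

/-- the matrix of a permutation: `e_j ↦ e_(σ j)` -/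
def pmat (σ : Equiv.Perm X) : Matrix X X ℝ := (σ.permMatrix ℝ).transpose

lemma pmat_apply (σ : Equiv.Perm X) (i j : X) : pmat σ i j = if σ j = i then 1 else 0 := by
  unfold pmat
  rw [Matrix.transpose_apply, Equiv.Perm.permMatrix, PEquiv.toMatrix_apply]
  simp [Equiv.toPEquiv_apply]
  try rfl

lemma pmat_mul (σ τ : Equiv.Perm X) : pmat (σ * τ) = pmat σ * pmat τ := by
  unfold pmat
  rw [← Matrix.transpose_mul]
  congr 1
  ext i j
  simp [Equiv.Perm.permMatrix, PEquiv.toMatrix_apply, Matrix.mul_apply, Equiv.toPEquiv_apply]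
  rw [Finset.sum_eq_single (τ i)]
  · simp
  · intro b _ hb
    simp [Ne.symm hb]
  · intro h; exact absurd (mem_univ _) h

lemma pmat_one : pmat (1 : Equiv.Perm X) = 1 := by
  ext i j
  rw [pmat_apply, Matrix.one_apply]
  simp [eq_comm]

lemma pmat_mem (σ : Equiv.Perm X) (h : Equiv.Perm.sign σ = 1) :
    pmat σ ∈ Matrix.specialOrthogonalGroup X ℝ := by
  rw [mem_SO]
  constructor
  · have h1 : (pmat σ).transpose = pmat σ⁻¹ := by
      ext i j
      rw [Matrix.transpose_apply, pmat_apply, pmat_apply]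
      have : σ i = j ↔ σ⁻¹ j = i := by rw [Equiv.Perm.inv_eq_iff_eq, eq_comm]
      simp only [this]
    rw [h1, ← pmat_mul, inv_mul_cancel, pmat_one]
  · rw [pmat, Matrix.det_transpose, Matrix.det_permutation, h]
    simp

/-- the even permutations as rotations: `alt σ e_j = e_(σ j)` -/
def alt : alternatingGroup X →* SO X where
  toFun σ := ⟨pmat (σ : Equiv.Perm X), pmat_mem _ (Equiv.Perm.mem_alternatingGroup.1 σ.2)⟩
  map_one' := Subtype.ext pmat_one
  map_mul' σ τ := Subtype.ext (pmat_mul _ _)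

/-- the even permutations `h` of the blocks as rotations of `ℝ^(Q × M)` -/
def blk {Q M : Type} [Fintype Q] [DecidableEq Q] [Fintype M] [DecidableEq M] :
    alternatingGroup Q →* SO (Q × M) :=
  alt.comp
    { toFun := fun h => ⟨KP23.blk (h : Equiv.Perm Q), Equiv.Perm.mem_alternatingGroup.2 (by
        rw [KP23.sign_blk, Equiv.Perm.mem_alternatingGroup.1 h.2, one_pow])⟩
      map_one' := Subtype.ext KP23.blk_one
      map_mul' := fun a b => Subtype.ext (KP23.blk_mul _ _) }

end

section
variable {Q M : Type} [Fintype Q] [DecidableEq Q] [Fintype M] [DecidableEq M]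

/-- block diagonal matrices -/
def rowm (u : Q → Matrix M M ℝ) : Matrix (Q × M) (Q × M) ℝ :=
  (Matrix.blockDiagonal u).submatrix (Equiv.prodComm Q M) (Equiv.prodComm Q M)

lemma rowm_apply (u : Q → Matrix M M ℝ) (z w : Q × M) :
    rowm u z w = if z.1 = w.1 then u z.1 z.2 w.2 else 0 := rfl

lemma rowm_mul (u w : Q → Matrix M M ℝ) : rowm u * rowm w = rowm (fun j => u j * w j) := by
  unfold rowm
  rw [Matrix.submatrix_mul_equiv, Matrix.blockDiagonal_mul]

lemma rowm_one : rowm (fun _ : Q => (1 : Matrix M M ℝ)) = 1 := by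
  ext z w
  rw [rowm_apply, Matrix.one_apply, Matrix.one_apply]
  by_cases h : z = w
  · subst h; simp
  · rw [if_neg h]
    by_cases h1 : z.1 = w.1
    · have h2 : z.2 ≠ w.2 := fun h2 => h (Prod.ext h1 h2)
      rw [if_pos h1, if_neg h2]
    · rw [if_neg h1]

lemma rowm_mem (u : Q → SO M) :
    rowm (fun j => (u j : Matrix M M ℝ)) ∈ Matrix.specialOrthogonalGroup (Q × M) ℝ := by
  rw [mem_SO]
  constructor
  · have h1 : (rowm (fun j => (u j : Matrix M M ℝ))).transpose =
        rowm (fun j => (u j : Matrix M M ℝ).transpose) := by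
      ext z w
      rw [Matrix.transpose_apply, rowm_apply, rowm_apply]
      by_cases h : w.1 = z.1
      · rw [if_pos h, if_pos h.symm, h, Matrix.transpose_apply]
      · rw [if_neg h, if_neg (fun h' => h h'.symm)]
    rw [h1, rowm_mul]
    have h2 : (fun j => (u j : Matrix M M ℝ).transpose * (u j : Matrix M M ℝ)) =
        fun _ => (1 : Matrix M M ℝ) := by
      funext j
      exact SO_left (u j)
    rw [h2, rowm_one]
  · rw [rowm, Matrix.det_submatrix_equiv_self, Matrix.det_blockDiagonal]
    exact Finset.prod_eq_one fun j _ => SO_det (u j)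

/-- block diagonal rotations: `row u` acts as `u j` on the block number `j` -/
def row : (Q → SO M) →* SO (Q × M) where
  toFun u := ⟨rowm (fun j => (u j : Matrix M M ℝ)), rowm_mem u⟩
  map_one' := Subtype.ext rowm_one
  map_mul' u w := Subtype.ext (rowm_mul _ _).symm

lemma row_apply (u : Q → SO M) (z w : Q × M) :
    ((row u : SO (Q × M)) : Matrix (Q × M) (Q × M) ℝ) z w =
      if z.1 = w.1 then (u z.1 : Matrix M M ℝ) z.2 w.2 else 0 := rfl

/-- the points of the block number `j` -/
def bl (j : Q) : Finset (Q × M) := univ.filter fun z => z.1 = j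

end

section
variable {Y X : Type} [Fintype Y] [DecidableEq Y] [Fintype X] [DecidableEq X]

/-- the matrix of `ℝ^Y → ℝ^X` -/
def vmat (e : Y ↪ X) : Matrix X Y ℝ := Matrix.of fun i a => if i = e a then 1 else 0

lemma vmat_vmat (e : Y ↪ X) : (vmat e).transpose * vmat e = 1 := by
  ext a b
  rw [Matrix.mul_apply, Matrix.one_apply]
  simp only [Matrix.transpose_apply, vmat, Matrix.of_apply]
  rw [Finset.sum_eq_single (e a)]
  · simp
  · intro c _ hc
    simp [hc]
  · intro h; exact absurd (mem_univ _) h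

/-- the matrix `A` on the coordinates `e a`, the identity on the other coordinates -/
def embm (e : Y ↪ X) (A : Matrix Y Y ℝ) : Matrix X X ℝ := 1 + vmat e * (A - 1) * (vmat e).transpose

lemma embm_mul (e : Y ↪ X) (A B : Matrix Y Y ℝ) : embm e A * embm e B = embm e (A * B) := by
  have h := vmat_vmat e
  unfold embm
  have h1 : vmat e * (A - 1) * (vmat e).transpose * (vmat e * (B - 1) * (vmat e).transpose) =
      vmat e * ((A - 1) * (B - 1)) * (vmat e).transpose := by
    calc vmat e * (A - 1) * (vmat e).transpose * (vmat e * (B - 1) * (vmat e).transpose)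
        = vmat e * (A - 1) * ((vmat e).transpose * vmat e) * (B - 1) * (vmat e).transpose := by
          simp only [Matrix.mul_assoc]
      _ = _ := by rw [h, Matrix.mul_one]; simp only [Matrix.mul_assoc]
  rw [mul_add, mul_one, add_mul, one_mul, h1]
  have h2 : A * B - 1 = (A - 1) + ((B - 1) + (A - 1) * (B - 1)) := by noncomm_ring
  rw [h2, Matrix.mul_add, Matrix.mul_add, Matrix.add_mul, Matrix.add_mul]
  abel

lemma embm_one (e : Y ↪ X) : embm e 1 = 1 := by
  unfold embm
  simp

lemma embm_transpose (e : Y ↪ X) (A : Matrix Y Y ℝ) :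
    (embm e A).transpose = embm e A.transpose := by
  unfold embm
  simp [Matrix.transpose_mul, Matrix.mul_assoc]

lemma embm_det (e : Y ↪ X) (A : Matrix Y Y ℝ) : (embm e A).det = A.det := by
  unfold embm
  rw [Matrix.mul_assoc, Matrix.det_one_add_mul_comm, Matrix.mul_assoc, vmat_vmat, Matrix.mul_one]
  congr 1
  abel

/-- the rotation which is `g` on the coordinates `e a` and fixes the other coordinates -/
def emb (e : Y ↪ X) : SO Y →* SO X where
  toFun g := ⟨embm e (g : Matrix Y Y ℝ), by
    rw [mem_SO, embm_transpose, embm_mul, SO_left, embm_one, embm_det, SO_det]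
    exact ⟨rfl, rfl⟩⟩
  map_one' := Subtype.ext (embm_one e)
  map_mul' g h := Subtype.ext (embm_mul e _ _).symm

end

section displacement
variable {G : Type} [Group G] {E : Type} [NormedAddCommGroup E] [InnerProductSpace ℝ E]

end displacement

end

end SG23
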