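import Pool.Agent.N23.SG.Stm

/-!
Project SG (helper23): two bilinear forms in triangular position (ST_FLAG).
-/

set_option autoImplicit false

namespace SG23
open Finset

namespace FLAG_

variable {V : Type} [AddCommGroup V] [Module ℝ V]

/-- the radical of a positive semidefinite form -/
lemma cs0 (A : V →ₗ[ℝ] V →ₗ[ℝ] ℝ) (hs : ∀ p q, A p q = A q p) (hp : ∀ p, 0 ≤ A p p) {r : V}
    (hr : A r r = 0) (p : V) : A r p = 0 := by
  by_contra h
  have key : ∀ t : ℝ, 0 ≤ A p p + 2 * t * A r p := by
    intro t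
    have h1 := hp (p + t • r)
    simp only [map_add, LinearMap.add_apply, map_smul, LinearMap.smul_apply, smul_eq_mul, hr,
      hs p r] at h1
    linarith
  have h2 := key (-(A p p + 1) / (2 * A r p))
  have h3 : 2 * (-(A p p + 1) / (2 * A r p)) * A r p = -(A p p + 1) := by
    field_simp
  rw [h3] at h2
  linarith

/-- orthogonal projections exist for semidefinite forms -/
lemma projS (A : V →ₗ[ℝ] V →ₗ[ℝ] ℝ) (hs : ∀ p q, A p q = A q p) (hp : ∀ p, 0 ≤ A p p)
    (s : Finset V) : ∀ q : V, ∃ u ∈ Submodule.span ℝ (s : Set V),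
      ∀ w ∈ Submodule.span ℝ (s : Set V), A (q - u) w = 0 := by
  classical
  induction s using Finset.induction_on with
  | empty =>
    intro q
    refine ⟨0, Submodule.zero_mem _, fun w hw => ?_⟩
    simp only [coe_empty, Submodule.span_empty, Submodule.mem_bot] at hw
    rw [hw, map_zero]
  | insert v s _ ih =>
    intro q
    obtain ⟨v₁, hv₁, hv₂⟩ := ih v
    obtain ⟨u₁, hu₁, hu₂⟩ := ih q
    have hle : Submodule.span ℝ (s : Set V) ≤ Submodule.span ℝ ((insert v s : Finset V) : Set V) :=
      Submodule.span_mono (by simp)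
    have hv : v ∈ Submodule.span ℝ ((insert v s : Finset V) : Set V) :=
      Submodule.subset_span (by simp)
    have hdec : ∀ w ∈ Submodule.span ℝ ((insert v s : Finset V) : Set V),
        ∃ a : ℝ, ∃ z ∈ Submodule.span ℝ (s : Set V), w = a • (v - v₁) + z := by
      intro w hw
      rw [coe_insert, Submodule.mem_span_insert] at hw
      obtain ⟨a, z, hz, rfl⟩ := hw
      refine ⟨a, a • v₁ + z, Submodule.add_mem _ (Submodule.smul_mem _ _ hv₁) hz, ?_⟩
      rw [smul_sub]
      abel
    by_cases h0 : A (v - v₁) (v - v₁) = 0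
    · refine ⟨u₁, hle hu₁, fun w hw => ?_⟩
      obtain ⟨a, z, hz, rfl⟩ := hdec w hw
      rw [map_add, map_smul, hs _ (v - v₁), cs0 A hs hp h0, hu₂ z hz]
      simp
    · set c : ℝ := A (q - u₁) (v - v₁) / A (v - v₁) (v - v₁) with hc
      refine ⟨u₁ + c • (v - v₁), Submodule.add_mem _ (hle hu₁)
        (Submodule.smul_mem _ _ (Submodule.sub_mem _ hv (hle hv₁))), fun w hw => ?_⟩
      obtain ⟨a, z, hz, rfl⟩ := hdec w hw
      have e : q - (u₁ + c • (v - v₁)) = (q - u₁) - c • (v - v₁) := by abel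
      have h1 : c * A (v - v₁) (v - v₁) = A (q - u₁) (v - v₁) := by
        rw [hc, div_mul_cancel₀ _ h0]
      rw [e]
      rw [map_sub A, LinearMap.sub_apply, map_smul A, LinearMap.smul_apply, map_add, map_add,
        map_smul, map_smul, hu₂ z hz, hv₂ z hz]
      simp only [smul_eq_mul, add_zero]
      rw [← h1]
      ring

lemma proj (A : V →ₗ[ℝ] V →ₗ[ℝ] ℝ) (hs : ∀ p q, A p q = A q p) (hp : ∀ p, 0 ≤ A p p)
    (W : Submodule ℝ V) [FiniteDimensional ℝ W] (q : V) : ∃ u ∈ W, ∀ w ∈ W, A (q - u) w = 0 := by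
  obtain ⟨s, hs'⟩ := (Submodule.fg_iff_finiteDimensional W).2 inferInstance
  have h := projS A hs hp s q
  rw [hs'] at h
  exact h

/-- the inequality for one level -/
lemma level (A : V →ₗ[ℝ] V →ₗ[ℝ] ℝ) (hs : ∀ p q, A p q = A q p) (hp : ∀ p, 0 ≤ A p p)
    {ι : Type} [Fintype ι] [DecidableEq ι] [Nonempty ι] (w : ι → V) {k lo hi : ℝ}
    (h1 : -lo ≤ k) (h2 : k ≤ hi) (hlo : 0 ≤ lo) (hhi : 0 ≤ hi) :
    k * ∑ i, ∑ j, (if i = j then 0 else A (w i) (w j)) ≤
      max lo (((Fintype.card ι : ℝ) - 1) * hi) * ∑ i, A (w i) (w i) := by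
  set S := ∑ i, A (w i) (w i) with hS
  have hS0 : 0 ≤ S := sum_nonneg fun i _ => hp _
  set D := ∑ i, ∑ j, (if i = j then 0 else A (w i) (w j)) with hD
  have hDe : D = (∑ i, ∑ j, A (w i) (w j)) - S := by
    rw [hD, hS, ← sum_sub_distrib]
    refine sum_congr rfl fun i _ => ?_
    have : ∀ j, (if i = j then 0 else A (w i) (w j)) = A (w i) (w j) -
        (if i = j then A (w i) (w j) else 0) := by
      intro j
      split_ifs <;> ring
    simp only [this]
    rw [sum_sub_distrib, sum_ite_eq]
    simp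
  have hW : ∑ i, ∑ j, A (w i) (w j) = A (∑ i, w i) (∑ i, w i) := by
    rw [map_sum A, LinearMap.sum_apply]
    refine sum_congr rfl fun i _ => ?_
    rw [map_sum]
  have hW0 : 0 ≤ ∑ i, ∑ j, A (w i) (w j) := by rw [hW]; exact hp _
  have hWN : ∑ i, ∑ j, A (w i) (w j) ≤ Fintype.card ι * S := by
    have h3 : ∀ i j, A (w i) (w j) ≤ (A (w i) (w i) + A (w j) (w j)) / 2 := by
      intro i j
      have h4 := hp (w i - w j)
      rw [map_sub A, LinearMap.sub_apply, map_sub, map_sub, hs (w j) (w i)] at h4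
      linarith
    calc ∑ i, ∑ j, A (w i) (w j) ≤ ∑ i, ∑ j, (A (w i) (w i) + A (w j) (w j)) / 2 :=
          sum_le_sum fun i _ => sum_le_sum fun j _ => h3 i j
      _ = Fintype.card ι * S := by
          simp only [add_div, sum_add_distrib, sum_const, card_univ, nsmul_eq_mul]
          rw [← mul_sum, ← sum_div, ← hS]
          ring
  have hN : (1 : ℝ) ≤ Fintype.card ι := by
    exact_mod_cast Fintype.card_pos (α := ι)
  have hM1 : lo * S ≤ max lo (((Fintype.card ι : ℝ) - 1) * hi) * S :=
    mul_le_mul_of_nonneg_right (le_max_left _ _) hS0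
  have hM2 : (((Fintype.card ι : ℝ) - 1) * hi) * S ≤
      max lo (((Fintype.card ι : ℝ) - 1) * hi) * S :=
    mul_le_mul_of_nonneg_right (le_max_right _ _) hS0
  rcases le_total 0 D with h | h
  · have h3 : k * D ≤ hi * D := mul_le_mul_of_nonneg_right h2 h
    have h4 : hi * D ≤ hi * (((Fintype.card ι : ℝ) - 1) * S) :=
      mul_le_mul_of_nonneg_left (by rw [hDe]; linarith) hhi
    linarith
  · have h3 : k * D ≤ lo * (-D) := by nlinarith
    have h4 : lo * (-D) ≤ lo * S := mul_le_mul_of_nonneg_left (by rw [hDe]; linarith) hlo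
    linarith

end FLAG_

open FLAG_ in
theorem FLAG : ST_FLAG := by
  intro V _ _ A B F κ lo hi d hA hB hp hF hfin h0 hs hκ hlo hhi ι _ _ _ q hq hq0
  have hF0 : ∀ m, F 0 ≤ F m := by
    intro m
    induction m with
    | zero => exact le_rfl
    | succ m ih => exact ih.trans (hF m)
  set M : ℝ := max lo (((Fintype.card ι : ℝ) - 1) * hi) with hM
  induction d generalizing q with
  | zero =>
    have h1 : ∀ i j, A (q i) (q j) = 0 := fun i j => hq0 i _ (hq j)
    have h2 : ∀ i j, B (q i) (q j) = 0 := fun i j => by rw [h0 _ (hq j), h1]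
    simp only [h1, h2, ite_self, sum_const_zero, mul_zero, add_zero, le_refl]
  | succ d ih =>
    have := hfin d
    choose u hu hu' using fun i => proj A hA hp (F d) (q i)
    set w : ι → V := fun i => q i - u i with hw
    have hwF : ∀ i, w i ∈ F (d + 1) := fun i => Submodule.sub_mem _ (hq i) (hF d (hu i))
    have hwA : ∀ i, ∀ z ∈ F d, A (w i) z = 0 := hu'
    have hqe : ∀ i, q i = u i + w i := fun i => by
      show q i = u i + (q i - u i)
      abel
    have hu0 : ∀ i, ∀ z ∈ F 0, A (u i) z = 0 := by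
      intro i z hz
      have h1 := hq0 i z hz
      rw [hqe i, map_add, LinearMap.add_apply, hwA i z (hF0 d hz), add_zero] at h1
      exact h1
    have hih := ih u hu hu0
    -- the new vectors
    have hBw : ∀ i p, B p (w i) = κ (d + 1) * A p (w i) := by
      intro i p
      obtain ⟨w', hw'F, hr, hBA⟩ := hs d (w i) (hwF i)
      have h1 : ∀ z ∈ F d, B (w i) z = 0 := by
        intro z hz
        cases d with
        | zero => rw [h0 z hz, hwA i z hz]
        | succ m =>
          obtain ⟨z', hz'F, -, hz'⟩ := hs m z hz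
          rw [hz', hwA i z' hz'F]
      have h2 : A (w' - κ (d + 1) • w i) (w' - κ (d + 1) • w i) = 0 := by
        set r := w' - κ (d + 1) • w i with hrd
        have h3 : A r w' = 0 := by
          rw [← hBA, hB, h1 r hr]
        have h4 : A r (w i) = 0 := by rw [hA, hwA i r hr]
        rw [hrd, map_sub, map_smul, ← hrd, h3, h4]
        simp
      have h5 := cs0 A hA hp h2 p
      rw [map_sub, LinearMap.sub_apply, map_smul, LinearMap.smul_apply, smul_eq_mul] at h5
      rw [hBA, hA p w', hA p (w i)]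
      linarith
    have hAuw : ∀ i j, A (u i) (w j) = 0 := fun i j => by rw [hA, hwA j _ (hu i)]
    have hAq : ∀ i, A (q i) (q i) = A (u i) (u i) + A (w i) (w i) := by
      intro i
      rw [hqe i]
      simp only [map_add, LinearMap.add_apply, hAuw, hwA i _ (hu i)]
      ring
    have hBq : ∀ i j, B (q i) (q j) = B (u i) (u j) + κ (d + 1) * A (w i) (w j) := by
      intro i j
      rw [hqe i, hqe j]
      simp only [map_add, LinearMap.add_apply, hBw, hAuw]
      rw [hB (w i) (u j), hBw, hAuw]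
      ring
    have hlev := level A hA hp w (hκ d).1 (hκ d).2 hlo hhi
    have e1 : ∑ i, A (q i) (q i) = ∑ i, A (u i) (u i) + ∑ i, A (w i) (w i) := by
      simp only [hAq, sum_add_distrib]
    have e2 : ∑ i, ∑ j, (if i = j then 0 else B (q i) (q j)) =
        ∑ i, ∑ j, (if i = j then 0 else B (u i) (u j)) +
          κ (d + 1) * ∑ i, ∑ j, (if i = j then 0 else A (w i) (w j)) := by
      rw [mul_sum, ← sum_add_distrib]
      refine sum_congr rfl fun i _ => ?_
      rw [mul_sum, ← sum_add_distrib]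
      refine sum_congr rfl fun j _ => ?_
      split_ifs with h
      · simp
      · exact hBq i j
    rw [e1, e2]
    rw [← hM] at hlev
    linarith

end SG23
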