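import Pool.Agent.N23.SG.Stm

/-!
Project SG (helper23), MP_839d28_al.  NEAR: a vector which is moved little by a subgroup is close to
its fixed vectors.
-/

namespace SG23
open Finset MeasureTheory

/-- a group of isometries with an almost fixed vector has a fixed vector nearby -/
theorem NEAR_aux {G : Type} [Group G] {E : Type} [NormedAddCommGroup E]
    [InnerProductSpace ℝ E] [CompleteSpace E] (ρ : G →* (E ≃ₗᵢ[ℝ] E)) (H : Subgroup G) (v : E)
    (η : ℝ) (h : ∀ g ∈ H, ‖ρ g v - v‖ ≤ η) :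
    ∃ m : E, (∀ g ∈ H, ρ g m = m) ∧ ‖v - m‖ ≤ η := by
  have hO : ∀ x ∈ {x : E | ∃ g ∈ H, ρ g v = x}, ∀ g ∈ H,
      ρ g x ∈ {x : E | ∃ g ∈ H, ρ g v = x} := by
    rintro x ⟨g', hg', rfl⟩ g hg
    exact ⟨g * g', H.mul_mem hg hg', by rw [map_mul]; rfl⟩
  have hvO : v ∈ {x : E | ∃ g ∈ H, ρ g v = x} := ⟨1, H.one_mem, by rw [map_one]; rfl⟩
  set O : Set E := {x : E | ∃ g ∈ H, ρ g v = x} with hOdef
  set K : Set E := closure (convexHull ℝ O) with hK
  have hcl : IsClosed K := isClosed_closure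
  have hcv : Convex ℝ K := (convex_convexHull ℝ O).closure
  have hOK : O ⊆ K := (subset_convexHull ℝ O).trans subset_closure
  have hball : K ⊆ Metric.closedBall v η := by
    refine closure_minimal (convexHull_min ?_ (convex_closedBall v η)) Metric.isClosed_closedBall
    rintro x ⟨g, hg, rfl⟩
    rw [Metric.mem_closedBall, dist_eq_norm]
    exact h g hg
  have hinv : ∀ g ∈ H, ∀ x ∈ K, ρ g x ∈ K := by
    intro g hg
    have h1 : K ⊆ (ρ g) ⁻¹' K := by
      refine closure_minimal (convexHull_min ?_ ?_) (hcl.preimage (ρ g).continuous)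
      · intro x hx
        exact hOK (hO x hx g hg)
      · exact hcv.linear_preimage (ρ g).toLinearEquiv.toLinearMap
    exact fun x hx => h1 hx
  obtain ⟨m, hm, hmin⟩ := exists_norm_eq_iInf_of_complete_convex ⟨v, hOK hvO⟩ hcl.isComplete hcv
    (0 : E)
  have hin := (norm_eq_iInf_iff_real_inner_le_zero hcv hm).1 hmin
  refine ⟨m, fun g hg => ?_, ?_⟩
  · have h1 := hin (ρ g m) (hinv g hg m hm)
    rw [zero_sub, inner_neg_left, inner_sub_right, real_inner_self_eq_norm_sq] at h1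
    have h2 : ‖ρ g m‖ = ‖m‖ := (ρ g).norm_map m
    have h3 : ‖ρ g m - m‖ ^ 2 = ‖ρ g m‖ ^ 2 - 2 * inner ℝ (ρ g m) m + ‖m‖ ^ 2 :=
      norm_sub_sq_real _ _
    rw [h2, real_inner_comm] at h3
    have h4 : ‖ρ g m - m‖ ^ 2 ≤ 0 := by
      rw [h3]
      linarith
    have h5 : ‖ρ g m - m‖ = 0 := by
      have := sq_nonneg ‖ρ g m - m‖
      exact pow_eq_zero_iff (two_ne_zero) |>.1 (le_antisymm h4 this)
    exact sub_eq_zero.1 (norm_eq_zero.1 h5)
  · have h1 := hball hm
    rw [Metric.mem_closedBall, dist_comm, dist_eq_norm] at h1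
    exact h1

theorem NEAR : ST_NEAR := by
  intro X _ _ E _ _ _ ρ H v η h
  have : CompleteSpace E := FiniteDimensional.complete ℝ E
  obtain ⟨m, hm, hv⟩ := NEAR_aux ρ H v η h
  rw [Submodule.starProjection_minimal]
  refine le_trans (ciInf_le ⟨0, ?_⟩ (⟨m, hm⟩ : fixS ρ H)) hv
  rintro _ ⟨x, rfl⟩
  exact norm_nonneg _

end SG23
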