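import Pool.Agent.N23.SG.Stm

/-!
Project SG (helper23), part PEMB (helper335): restriction to coordinate subgroups.
-/

namespace SG23
open Finset MvPolynomial

noncomputable section

namespace PEMBAux

theorem aeval_deg {σ τ : Type} (L : σ → MvPolynomial τ ℝ) (hL : ∀ i, (L i).totalDegree ≤ 1)
    (p : MvPolynomial σ ℝ) : (aeval L p).totalDegree ≤ p.totalDegree := by
  rw [aeval_def, eval₂_eq]
  refine totalDegree_finsetSum_le fun d hd => ?_
  refine (totalDegree_mul _ _).trans ?_
  rw [algebraMap_eq, totalDegree_C, zero_add]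
  refine (totalDegree_finsetProd _ _).trans (le_trans ?_ (le_totalDegree hd))
  refine Finset.sum_le_sum fun i _ => ?_
  refine (totalDegree_pow _ _).trans ?_
  calc d i * (L i).totalDegree ≤ d i * 1 := Nat.mul_le_mul_left _ (hL i)
    _ = d i := mul_one _

variable {Y X : Type} [Fintype Y] [DecidableEq Y] [Fintype X] [DecidableEq X]

/-- the entries as polynomials -/
def ent (e : Y ↪ X) (p : X × X) : MvPolynomial (Y × Y) ℝ :=
  C ((1 : Matrix X X ℝ) p.1 p.2) + ∑ b, (∑ a, C (vmat e p.1 a) *
    (MvPolynomial.X (a, b) - C ((1 : Matrix Y Y ℝ) a b))) * C (vmat e p.2 b)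

theorem ent_eval (e : Y ↪ X) (p : X × X) (A : Matrix Y Y ℝ) :
    eval (fun q : Y × Y => A q.1 q.2) (ent e p) = embm e A p.1 p.2 := by
  unfold ent embm
  simp [Matrix.mul_apply, Matrix.add_apply, Matrix.sub_apply]

theorem ent_deg (e : Y ↪ X) (p : X × X) : (ent e p).totalDegree ≤ 1 := by
  unfold ent
  refine (totalDegree_add _ _).trans (max_le ?_ ?_)
  · rw [totalDegree_C]; exact Nat.zero_le _
  · refine totalDegree_finsetSum_le fun b _ => ?_
    refine (totalDegree_mul _ _).trans ?_
    rw [totalDegree_C, add_zero]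
    refine totalDegree_finsetSum_le fun a _ => ?_
    refine (totalDegree_mul _ _).trans ?_
    rw [totalDegree_C, zero_add]
    refine (totalDegree_sub_C_le _ _).trans ?_
    rw [totalDegree_X]

theorem vmat_apply (e : Y ↪ X) (i : X) (a : Y) : vmat e i a = if i = e a then 1 else 0 := rfl

theorem embm_in (e : Y ↪ X) (A : Matrix Y Y ℝ) (a b : Y) : embm e A (e a) (e b) = A a b := by
  unfold embm
  rw [Matrix.add_apply, Matrix.mul_apply]
  have h1 : ∀ j, (vmat e * (A - 1) : Matrix X Y ℝ) (e a) j = (A - 1 : Matrix Y Y ℝ) a j := by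
    intro j
    rw [Matrix.mul_apply, Finset.sum_eq_single a]
    · rw [vmat_apply, if_pos rfl, one_mul]
    · intro c _ hc
      rw [vmat_apply, if_neg (fun h => hc (e.injective h).symm), zero_mul]
    · intro h; exact absurd (mem_univ _) h
  rw [Finset.sum_eq_single b]
  · rw [h1, Matrix.transpose_apply, vmat_apply, if_pos rfl, mul_one, Matrix.sub_apply,
      Matrix.one_apply, Matrix.one_apply]
    simp only [e.injective.eq_iff]
    ring
  · intro c _ hc
    rw [Matrix.transpose_apply, vmat_apply, if_neg (fun h => hc (e.injective h).symm), mul_zero]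
  · intro h; exact absurd (mem_univ _) h

theorem embm_out (e : Y ↪ X) (A : Matrix Y Y ℝ) (i j : X)
    (h : (∀ a, i ≠ e a) ∨ ∀ a, j ≠ e a) : embm e A i j = (1 : Matrix X X ℝ) i j := by
  unfold embm
  rw [Matrix.add_apply, Matrix.mul_apply]
  rw [Finset.sum_eq_zero, add_zero]
  intro b _
  rcases h with h | h
  · rw [Matrix.mul_apply, Finset.sum_eq_zero, zero_mul]
    intro a _
    rw [vmat_apply, if_neg (h a), zero_mul]
  · rw [Matrix.transpose_apply, vmat_apply, if_neg (h b), mul_zero]

theorem embm_inj (e : Y ↪ X) {A B : Matrix Y Y ℝ} (h : embm e A = embm e B) : A = B := by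
  ext a b
  rw [← embm_in e A a b, h, embm_in]

theorem emb_mem (e : Y ↪ X) (S : Finset Y) {g : SO Y} (hg : g ∈ sub S) :
    emb e g ∈ sub (S.map e) := by
  intro i j hij
  change embm e (g : Matrix Y Y ℝ) i j = _
  by_cases hi : ∃ a, i = e a
  · obtain ⟨a, rfl⟩ := hi
    by_cases hj : ∃ b, j = e b
    · obtain ⟨b, rfl⟩ := hj
      rw [embm_in]
      have h1 : a ∉ S ∨ b ∉ S := by
        rcases hij with h | h
        · exact Or.inl fun ha => h (Finset.mem_map_of_mem e ha)
        · exact Or.inr fun ha => h (Finset.mem_map_of_mem e ha)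
      rw [hg a b h1, Matrix.one_apply, Matrix.one_apply]
      simp only [e.injective.eq_iff]
    · exact embm_out e _ _ _ (Or.inr fun b hb => hj ⟨b, hb⟩)
  · exact embm_out e _ _ _ (Or.inl fun a ha => hi ⟨a, ha⟩)

theorem emb_surj (e : Y ↪ X) (S : Finset Y) {h : SO X} (hh : h ∈ sub (S.map e)) :
    ∃ g ∈ sub S, emb e g = h := by
  set A : Matrix Y Y ℝ := Matrix.of fun a b => (h : Matrix X X ℝ) (e a) (e b) with hA
  have h1 : embm e A = (h : Matrix X X ℝ) := by
    ext i j
    by_cases hi : ∃ a, i = e a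
    · obtain ⟨a, rfl⟩ := hi
      by_cases hj : ∃ b, j = e b
      · obtain ⟨b, rfl⟩ := hj
        rw [embm_in]
        rfl
      · rw [embm_out e _ _ _ (Or.inr fun b hb => hj ⟨b, hb⟩)]
        refine (hh _ _ (Or.inr ?_)).symm
        intro hm
        obtain ⟨b, _, hb⟩ := Finset.mem_map.mp hm
        exact hj ⟨b, hb.symm⟩
    · rw [embm_out e _ _ _ (Or.inl fun a ha => hi ⟨a, ha⟩)]
      refine (hh _ _ (Or.inl ?_)).symm
      intro hm
      obtain ⟨b, _, hb⟩ := Finset.mem_map.mp hm
      exact hi ⟨b, hb.symm⟩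
  have h2 : A ∈ Matrix.specialOrthogonalGroup Y ℝ := by
    rw [mem_SO]
    constructor
    · apply embm_inj e
      rw [← embm_mul, ← embm_transpose, h1, SO_left, embm_one]
    · rw [← embm_det e, h1, SO_det]
  refine ⟨⟨A, h2⟩, ?_, Subtype.ext h1⟩
  intro a b hab
  change (h : Matrix X X ℝ) (e a) (e b) = _
  have h3 : e a ∉ S.map e ∨ e b ∉ S.map e := by
    rcases hab with h | h
    · exact Or.inl fun hm => h ((Finset.mem_map' e).mp hm)
    · exact Or.inr fun hm => h ((Finset.mem_map' e).mp hm)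
  rw [hh _ _ h3, Matrix.one_apply, Matrix.one_apply]
  simp only [e.injective.eq_iff]

theorem proj_eq {E : Type} [NormedAddCommGroup E] [InnerProductSpace ℝ E] [FiniteDimensional ℝ E]
    {U V : Submodule ℝ E} (h : U = V) (v : E) : U.starProjection v = V.starProjection v := by
  subst h
  rfl

end PEMBAux

open PEMBAux in
/-- PEMB -/
theorem PEMB : ST_PEMB := by
  intro Y X _ _ _ _ E _ _ _ ρ e
  constructor
  · rintro ⟨k, hk⟩
    refine ⟨k, fun x y => ?_⟩
    obtain ⟨P, hP, hP2⟩ := hk x y
    refine ⟨aeval (ent e) P, (aeval_deg _ (ent_deg e) P).trans hP, fun g => ?_⟩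
    have h1 := hP2 (emb e g)
    change inner ℝ y (ρ (emb e g) x) = _
    rw [h1, ← coe_aeval_eq_eval, ← coe_aeval_eq_eval]
    change _ = (aeval fun p : Y × Y => (g : Matrix Y Y ℝ) p.1 p.2) (aeval (ent e) P)
    rw [← AlgHom.comp_apply, comp_aeval]
    change (aeval fun p : X × X => embm e (g : Matrix Y Y ℝ) p.1 p.2) P = _
    congr 2
    funext p
    rw [← ent_eval e p, ← coe_aeval_eq_eval]
    rfl
  · intro S v
    unfold P
    refine proj_eq ?_ v
    ext w
    constructor
    · intro hw h hh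
      obtain ⟨g, hg, rfl⟩ := emb_surj e S hh
      exact hw g hg
    · intro hw g hg
      exact hw _ (emb_mem e S hg)

end

end SG23
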