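import Pool.Agent.N23.SG.Stm

/-!
Project SG (helper23), MP_839d28_al: bounded Kazhdan sets of `SO(n)` for all large `n`.
-/

namespace SG23
open Finset

noncomputable section

lemma UNI_mem_univ {X : Type} [Fintype X] [DecidableEq X] (g : SO X) : g ∈ sub (univ : Finset X) := by
  intro i j hij
  rcases hij with h | h
  · exact absurd (mem_univ _) h
  · exact absurd (mem_univ _) h

section proj
variable {X : Type} [Fintype X] [DecidableEq X] {E : Type} [NormedAddCommGroup E]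
  [InnerProductSpace ℝ E] [FiniteDimensional ℝ E] (ρ : SO X →* (E ≃ₗᵢ[ℝ] E)) (S : Finset X)

lemma UNI_P_mem (v : E) : P ρ S v ∈ fixS ρ (sub S) := by
  unfold P
  exact Submodule.starProjection_apply_mem _ v

lemma UNI_P_idem (v : E) : P ρ S (P ρ S v) = P ρ S v := by
  unfold P
  rw [Submodule.starProjection_eq_self_iff]
  exact Submodule.starProjection_apply_mem _ v

lemma UNI_P_pyth (v : E) : ‖v‖ ^ 2 = ‖P ρ S v‖ ^ 2 + ‖v - P ρ S v‖ ^ 2 := by
  unfold P
  have h := Submodule.norm_sq_eq_add_norm_sq_starProjection v (fixS ρ (sub S))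
  rw [h]
  congr 3
  rw [Submodule.starProjection_orthogonal']
  rfl

lemma UNI_P_contr (v : E) : ‖v - P ρ S v‖ ≤ ‖v‖ := by
  have h := UNI_P_pyth ρ S v
  have h1 : 0 ≤ ‖P ρ S v‖ ^ 2 := sq_nonneg _
  exact le_of_sq_le_sq (by linarith) (norm_nonneg _)

end proj

/-- two sets with the same number (at least two) of elements are exchanged by an even permutation -/
lemma UNI_perm {X : Type} [Fintype X] [DecidableEq X] (S T : Finset X) (h : #S = #T) (h2 : 2 ≤ #S) :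
    ∃ σ : alternatingGroup X, S.map (σ : Equiv.Perm X).toEmbedding = T := by
  classical
  obtain ⟨e⟩ : Nonempty ({x // x ∈ S} ≃ {x // x ∈ T}) := by
    rw [← Fintype.card_eq]; simpa using h
  have hσ : S.map (e.extendSubtype).toEmbedding = T := by
    apply Finset.eq_of_subset_of_card_le
    · intro y hy
      rw [Finset.mem_map] at hy
      obtain ⟨x, hx, rfl⟩ := hy
      exact e.extendSubtype_mem x hx
    · rw [Finset.card_map, h]
  rcases Int.units_eq_one_or (Equiv.Perm.sign e.extendSubtype) with h1 | h1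
  · exact ⟨⟨e.extendSubtype, Equiv.Perm.mem_alternatingGroup.2 h1⟩, hσ⟩
  · obtain ⟨a, ha, b, hb, hab⟩ := Finset.one_lt_card.1 (show 1 < #S by omega)
    refine ⟨⟨e.extendSubtype * Equiv.swap a b, Equiv.Perm.mem_alternatingGroup.2 ?_⟩, ?_⟩
    · rw [map_mul, h1, Equiv.Perm.sign_swap hab]; rfl
    · apply Finset.eq_of_subset_of_card_le
      · intro y hy
        rw [Finset.mem_map] at hy
        obtain ⟨x, hx, rfl⟩ := hy
        refine e.extendSubtype_mem (Equiv.swap a b x) ?_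
        by_cases hxa : x = a
        · subst hxa; rw [Equiv.swap_apply_left]; exact hb
        · by_cases hxb : x = b
          · subst hxb; rw [Equiv.swap_apply_right]; exact ha
          · rw [Equiv.swap_apply_of_ne_of_ne hxa hxb]; exact hx
      · rw [Finset.card_map, h]

/-- the core estimate -/
lemma UNI_core (hX : ST_XM) (hC : ST_PCONJ) (hE : ST_PEMB)
    {n m L q : ℕ} (hL : 0 < L) (hmn : m ≤ n) (hm : 12 ≤ m) (hnq : n ≤ q * m)
    (U : Fin L → SO (Fin m)) (hU : NS U (1 / 2)) (K₁ : ℝ) (hK₁ : 0 < K₁)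
    (E : Type) [NormedAddCommGroup E] [InnerProductSpace ℝ E] [FiniteDimensional ℝ E]
    (ρ : SO (Fin n) →* (E ≃ₗᵢ[ℝ] E)) (hρ : PR ρ) (v : E) (η : ℝ) (hη : 0 ≤ η)
    (h1 : ∀ s : alternatingGroup (Fin n), ‖ρ (alt s) v - v‖ ≤ K₁ * η)
    (h2 : ∀ a, ‖ρ (emb (Fin.castLEEmb hmn) (U a)) v - v‖ ≤ η) :
    ‖v - P ρ univ v‖ ≤ (2 + K₁) * Real.sqrt (2 * q) * η := by
  set e := Fin.castLEEmb hmn with he
  obtain ⟨hE1, hE2⟩ := hE (Fin m) (Fin n) E ρ e
  set S₀ : Finset (Fin n) := univ.map e with hS₀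
  have hS₀c : #S₀ = m := by rw [hS₀, Finset.card_map, Finset.card_univ, Fintype.card_fin]
  -- the vector `w = P ρ S₀ v` is fixed
  have hw : ∀ g : SO (Fin m), ρ (emb e g) (P ρ S₀ v) = P ρ S₀ v := by
    intro g
    have := UNI_P_mem (ρ.comp (emb e)) univ v g (UNI_mem_univ g)
    rw [hE2] at this
    exact this
  have hP1 : P (ρ.comp (emb e)) univ (v - P ρ S₀ v) = 0 := by
    rw [hE2, map_sub, UNI_P_idem, sub_self]
  have hN := hU E (ρ.comp (emb e)) (hE1 hρ) (v - P ρ S₀ v) hP1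
  have hLpos : (0 : ℝ) < L := by exact_mod_cast hL
  have hv1 : ‖v - P ρ S₀ v‖ ≤ 2 * η := by
    set v₁ := v - P ρ S₀ v with hv₁
    have hd : ∀ a, ‖ρ (emb e (U a)) v₁ - v₁‖ ≤ η := by
      intro a
      have : ρ (emb e (U a)) v₁ - v₁ = ρ (emb e (U a)) v - v := by
        rw [hv₁, map_sub, hw]; abel
      rw [this]; exact h2 a
    have hs : ∑ a : Fin L, v₁ = (L : ℝ) • v₁ := by
      rw [Finset.sum_const, Finset.card_univ, Fintype.card_fin, Nat.cast_smul_eq_nsmul]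
    have h3 : ‖(L : ℝ) • v₁‖ ≤ ‖∑ a, ρ (emb e (U a)) v₁‖ + L * η := by
      have h4 : (L : ℝ) • v₁ = ∑ a, ρ (emb e (U a)) v₁ - ∑ a, (ρ (emb e (U a)) v₁ - v₁) := by
        rw [Finset.sum_sub_distrib, hs]; abel
      rw [h4]
      refine (norm_sub_le _ _).trans ?_
      gcongr
      refine (norm_sum_le _ _).trans ?_
      refine (Finset.sum_le_sum fun a _ => hd a).trans ?_
      rw [Finset.sum_const, Finset.card_univ, Fintype.card_fin, nsmul_eq_mul]
    rw [norm_smul, Real.norm_of_nonneg hLpos.le] at h3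
    have h5 : ‖∑ a, ρ (emb e (U a)) v₁‖ ≤ 1 / 2 * L * ‖v₁‖ := by
      have := hN
      rw [Fintype.card_fin] at this
      exact this
    have h6 : (L : ℝ) * ‖v₁‖ ≤ L * (2 * η) := by nlinarith
    exact le_of_mul_le_mul_left h6 hLpos
  -- all sets with `m` elements
  have hS : ∀ S ∈ (univ : Finset (Fin n)).powersetCard m, ‖v - P ρ S v‖ ≤ (2 + K₁) * η := by
    intro S hS
    rw [Finset.mem_powersetCard] at hS
    obtain ⟨σ, hσ⟩ := UNI_perm S₀ S (by rw [hS₀c, hS.2]) (by omega)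
    set u : E := ρ (alt σ⁻¹) v with hu
    have hu2 : ρ (alt σ) u = v := by
      have h3 : ρ (alt σ) * ρ (alt σ⁻¹) = 1 := by
        rw [← map_mul, ← map_mul, mul_inv_cancel, map_one, map_one]
      exact congrArg (fun f : E ≃ₗᵢ[ℝ] E => f v) h3
    have hc := hC (Fin n) E ρ σ S₀ u
    rw [hσ, hu2] at hc
    have h3 : v - P ρ S v = ρ (alt σ) (u - P ρ S₀ u) := by
      rw [map_sub, hc, hu2]
    rw [h3, LinearIsometryEquiv.norm_map]
    have h4 : u - P ρ S₀ u = (v - P ρ S₀ v) + ((u - v) - P ρ S₀ (u - v)) := by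
      rw [map_sub]; abel
    rw [h4]
    refine (norm_add_le _ _).trans ?_
    have h5 : ‖(u - v) - P ρ S₀ (u - v)‖ ≤ K₁ * η := (UNI_P_contr ρ S₀ _).trans (h1 σ⁻¹)
    linarith
  have hXm := hX (Fin n) E ρ hρ univ m (by simpa using hmn) v
  have hlow : ((n.choose m : ℕ) : ℝ) * (‖v‖ ^ 2 - ((2 + K₁) * η) ^ 2) ≤
      ∑ S ∈ (univ : Finset (Fin n)).powersetCard m, ‖P ρ S v‖ ^ 2 := by
    have h3 : ∀ S ∈ (univ : Finset (Fin n)).powersetCard m,
        ‖v‖ ^ 2 - ((2 + K₁) * η) ^ 2 ≤ ‖P ρ S v‖ ^ 2 := by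
      intro S hS'
      have h4 := UNI_P_pyth ρ S v
      have h5 : ‖v - P ρ S v‖ ^ 2 ≤ ((2 + K₁) * η) ^ 2 := by
        have := hS S hS'
        have h6 := norm_nonneg (v - P ρ S v)
        nlinarith
      linarith
    have h4 := Finset.card_nsmul_le_sum _ _ _ h3
    rw [Finset.card_powersetCard, Finset.card_univ, Fintype.card_fin, nsmul_eq_mul] at h4
    exact h4
  rw [Finset.card_univ, Fintype.card_fin] at hXm
  have hch : (0 : ℝ) < ((n.choose m : ℕ) : ℝ) := by exact_mod_cast Nat.choose_pos hmn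
  have h7 := le_of_mul_le_mul_left (hlow.trans hXm) hch
  have hpy := UNI_P_pyth ρ univ v
  set D := ‖v - P ρ univ v‖ with hD
  have hDn : 0 ≤ D := norm_nonneg _
  have hmR : (12 : ℝ) ≤ m := by exact_mod_cast hm
  have hnR : (0 : ℝ) < n := by
    have : (m : ℝ) ≤ n := by exact_mod_cast hmn
    linarith
  have hnqR : (n : ℝ) ≤ q * m := by exact_mod_cast hnq
  have h8 : (((m : ℝ) - 6) / n) * D ^ 2 ≤ ((2 + K₁) * η) ^ 2 := by
    have : (((m : ℝ) - 6) / n) * D ^ 2 =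
      ‖v‖ ^ 2 - ((1 - ((m : ℝ) - 6) / n) * ‖v‖ ^ 2 + (((m : ℝ) - 6) / n) * ‖P ρ univ v‖ ^ 2) := by
      rw [hpy]; ring
    rw [this]; linarith
  have h9 : D ^ 2 ≤ 2 * q * ((2 + K₁) * η) ^ 2 := by
    have h10 : ((m : ℝ) - 6) * D ^ 2 ≤ n * ((2 + K₁) * η) ^ 2 := by
      have : ((m : ℝ) - 6) * D ^ 2 = n * ((((m : ℝ) - 6) / n) * D ^ 2) := by
        field_simp
      rw [this]
      exact mul_le_mul_of_nonneg_left h8 hnR.le
    have h11 : (n : ℝ) * ((2 + K₁) * η) ^ 2 ≤ ((m : ℝ) - 6) * (2 * q * ((2 + K₁) * η) ^ 2) := by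
      have hq0 : (0 : ℝ) ≤ q := Nat.cast_nonneg q
      have h12 : (n : ℝ) ≤ ((m : ℝ) - 6) * (2 * q) := by nlinarith
      have h13 := mul_le_mul_of_nonneg_right h12 (sq_nonneg ((2 + K₁) * η))
      linarith
    exact le_of_mul_le_mul_left (h10.trans h11) (by linarith)
  have h14 : ((2 + K₁) * Real.sqrt (2 * q) * η) ^ 2 = 2 * q * ((2 + K₁) * η) ^ 2 := by
    rw [mul_pow, mul_pow, Real.sq_sqrt (by positivity)]; ring
  exact le_of_sq_le_sq (by rw [h14]; exact h9) (by positivity)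

theorem UNI (hN : KP23.ST_ALLN) (hR : ST_RECS) (hX : ST_XM) (_hM : ST_PMONO) (hC : ST_PCONJ)
    (hE : ST_PEMB) (hA : ST_ALTK) : ST_UNI := by
  obtain ⟨L₁, K₁, N₁, hK₁, hN⟩ := hN
  obtain ⟨L, q, hL, hq, hR⟩ := hR
  refine ⟨L₁ + L, (2 + K₁) * Real.sqrt (2 * q), max N₁ 32, ?_, ?_⟩
  · have : (0 : ℝ) < q := by exact_mod_cast (by omega : 0 < q)
    positivity
  intro n hn
  have hn1 : N₁ ≤ n := le_trans (le_max_left _ _) hn
  have hn2 : 32 ≤ n := le_trans (le_max_right _ _) hn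
  obtain ⟨h, hh⟩ := hN n hn1
  -- the power of `q`
  obtain ⟨j, hj1, hj2⟩ : ∃ j : ℕ, 32 * q ^ j ≤ n ∧ n ≤ q * (32 * q ^ j) := by
    classical
    have hex : ∃ j : ℕ, n < 32 * q ^ (j + 1) := by
      refine ⟨n, ?_⟩
      have h1 : n < q ^ n := Nat.lt_pow_self (by omega)
      have h2 : q ^ n ≤ q ^ (n + 1) := Nat.pow_le_pow_right (by omega) (by omega)
      omega
    refine ⟨Nat.find hex, ?_, ?_⟩
    · rcases Nat.eq_zero_or_pos (Nat.find hex) with h0 | h0
      · rw [h0]; simpa using hn2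
      · have := Nat.find_min hex (m := Nat.find hex - 1) (by omega)
        rw [Nat.sub_add_cancel h0] at this
        omega
    · have := Nat.find_spec hex
      rw [pow_succ] at this
      nlinarith
  obtain ⟨U, hU⟩ := hR j
  have hm : 12 ≤ 32 * q ^ j := by
    have : 1 ≤ q ^ j := Nat.one_le_pow _ _ (by omega)
    omega
  refine ⟨Fin.append (fun i => alt ⟨h i, Equiv.Perm.mem_alternatingGroup.2 (hh.1 i)⟩)
    (fun a => emb (Fin.castLEEmb hj1) (U a)), ?_⟩
  intro E _ _ _ ρ hρ v η hv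
  have hv1 : ∀ i, ‖ρ (alt ⟨h i, Equiv.Perm.mem_alternatingGroup.2 (hh.1 i)⟩) v - v‖ ≤ η := by
    intro i
    have := hv (Fin.castAdd L i)
    rwa [Fin.append_left] at this
  have hv2 : ∀ a, ‖ρ (emb (Fin.castLEEmb hj1) (U a)) v - v‖ ≤ η := by
    intro a
    have := hv (Fin.natAdd L₁ a)
    rwa [Fin.append_right] at this
  have hη : 0 ≤ η := (norm_nonneg _).trans (hv2 ⟨0, hL⟩)
  exact UNI_core hX hC hE hL hj1 hm hj2 U hU K₁ hK₁ E ρ hρ v η hη
    (fun s => hA (Fin n) (Fin L₁) h K₁ hh E (ρ.comp alt) v η hv1 s) hv2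

end

end SG23
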